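import Pool.Agent.SerreU.UFIO
import Pool.Agent.SerreK.KPORT

/-!
# UDES: the eigenform of an eigenfunctional
-/

open Matrix

namespace SerreU

open SerreE SerreK

section

variable {O : Type} [CommRing O] {N : O} {Γ : Type} [Group Γ]

theorem des_add {P : PG N Γ} {x y : Γ → FF} (hx : IsX P x) (hy : IsX P y) : IsX P (x + y) := by
  refine ⟨fun g h => ?_, fun g M h1 h2 h3 => ?_⟩
  · change x (g * h) + y (g * h) = (x g + y g) + (x h + y h)
    rw [hx.mul, hy.mul]; ring
  · change x g + y g = 0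
    rw [hx.tor g M h1 h2 h3, hy.tor g M h1 h2 h3, add_zero]

theorem des_smul {P : PG N Γ} (r : FF) {x : Γ → FF} (hx : IsX P x) : IsX P (r • x) := by
  refine ⟨fun g h => ?_, fun g M h1 h2 h3 => ?_⟩
  · change r * x (g * h) = r * x g + r * x h
    rw [hx.mul]; ring
  · change r * x g = 0
    rw [hx.tor g M h1 h2 h3, mul_zero]

theorem des_res_add {P : PG N Γ} {x y : Γ → FF} {h h' : HY N} (hx : Res P x h) (hy : Res P y h') :
    Res P (x + y) (h + h') := by
  intro γ g hg
  change h.val γ + h'.val γ = x g + y g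
  rw [hx γ g hg, hy γ g hg]

theorem des_res_smul {P : PG N Γ} (r : FF) {x : Γ → FF} {h : HY N} (hx : Res P x h) :
    Res P (r • x) (r • h) := by
  intro γ g hg
  change r * h.val γ = r * x g
  rw [hx γ g hg]

end

variable {O : Type} [CommRing O] [IsDomain O] [FinQuot O] {N : O} {Γ : Type} [Group Γ]

/-- the Hecke algebra acts on the functional `E`. -/
theorem des_free (P : PG N Γ) (E : (Γ → FF) →ₗ[FF] FF) (a : GP N → FF)
    (hT : ∀ π x, IsX P x → ∃ x', IsX P x' ∧ (∀ h, Res P x h → Res P x' (T N π.el π.ne h)) ∧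
      E x' = a π * E x) (y : FreeAlgebra FF (GP N)) :
    ∀ x, IsX P x → ∃ x', IsX P x' ∧
      (∀ h : HY N, Res P x h →
        Res P x' (DFunLike.coe (F := Module.End FF (HY N)) (KP.LYN N y) h)) ∧
      E x' = FreeAlgebra.lift FF a y * E x := by
  induction y using FreeAlgebra.induction with
  | grade0 r =>
    intro x hx
    refine ⟨r • x, des_smul r hx, fun h hh => ?_, ?_⟩
    · have e : (DFunLike.coe (F := Module.End FF (HY N))
          (KP.LYN N ((algebraMap FF (FreeAlgebra FF (GP N))) r)) h) = r • h := by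
        rw [AlgHom.commutes]
        rfl
      rw [e]
      exact des_res_smul r hh
    · rw [map_smul, AlgHom.commutes]
      rfl
  | grade1 π =>
    intro x hx
    obtain ⟨x', h1, h2, h3⟩ := hT π x hx
    refine ⟨x', h1, fun h hh => ?_, ?_⟩
    · have e : KP.LYN N (FreeAlgebra.ι FF π) = TE N π := by simp [KP.LYN]
      rw [e]
      exact h2 h hh
    · rw [h3, FreeAlgebra.lift_ι_apply]
  | mul y z ihy ihz =>
    intro x hx
    obtain ⟨x', h1, h2, h3⟩ := ihz x hx
    obtain ⟨x'', h1', h2', h3'⟩ := ihy x' h1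
    refine ⟨x'', h1', fun h hh => ?_, ?_⟩
    · rw [map_mul]
      exact h2' _ (h2 h hh)
    · rw [h3', h3, map_mul, mul_assoc]
  | add y z ihy ihz =>
    intro x hx
    obtain ⟨x', h1, h2, h3⟩ := ihz x hx
    obtain ⟨x'', h1', h2', h3'⟩ := ihy x hx
    refine ⟨x'' + x', des_add h1' h1, fun h hh => ?_, ?_⟩
    · rw [map_add]
      exact des_res_add (h2' h hh) (h2 h hh)
    · rw [map_add, map_add, h3, h3', add_mul]

/-- Let `E` be a linear functional on the homomorphisms `x` (`IsX`), zero on those which vanish on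
`Γ₀(N)` and an eigenvector for the Hecke operators; it induces a functional on the space `U` of the
restrictions to `Γ₀(N)` (`res_exists`), which is stable under the Hecke algebra, and every element
of the Hecke algebra acts on this functional by a scalar.  (Compare `exists_phi` in KPORT.lean.) -/
theorem descend (hN : Hyp N) (P : PG N Γ) (E : (Γ → FF) →ₗ[FF] FF)
    (hE0 : ∀ x, IsX P x → (∀ g M, P.R g M → TA N M → x g = 0) → E x = 0)
    (hne : ∃ x, IsX P x ∧ E x ≠ 0) (a : GP N → FF)
    (hT : ∀ π x, IsX P x → ∃ x', IsX P x' ∧ (∀ h, Res P x h → Res P x' (T N π.el π.ne h)) ∧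
      E x' = a π * E x) :
    ∃ Φ : Eigenform N, ∀ π, Φ.ev π = a π := by
  apply KP.exists_hom_of_key
  intro y z hyz
  obtain ⟨x, hx, hEx⟩ := hne
  obtain ⟨h, hh⟩ := res_exists hN P x hx
  obtain ⟨x1, a1, a2, a3⟩ := des_free P E a hT y x hx
  obtain ⟨x2, b1, b2, b3⟩ := des_free P E a hT z x hx
  have h1 : IsX P (x1 + (-1 : FF) • x2) := des_add a1 (des_smul _ b1)
  have h2 : E (x1 + (-1 : FF) • x2) = 0 := by
    apply hE0 _ h1
    intro g M hg hM
    have e1 := a2 h hh ⟨Matrix.GeneralLinearGroup.mk'' M hM.1, hM.2⟩ g hg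
    have e2 := b2 h hh ⟨Matrix.GeneralLinearGroup.mk'' M hM.1, hM.2⟩ g hg
    rw [hyz] at e1
    change x1 g + (-1 : FF) * x2 g = 0
    rw [← e1, ← e2]
    ring
  rw [map_add, map_smul, a3, b3, smul_eq_mul] at h2
  have h3 : (FreeAlgebra.lift FF a y - FreeAlgebra.lift FF a z) * E x = 0 := by
    linear_combination h2
  exact sub_eq_zero.mp ((mul_eq_zero.mp h3).resolve_right hEx)

end SerreU
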