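import Mathlib

/-!
# UORB: sums of an additive cocycle over the fixed points of an involution
-/

namespace SerreU

open Classical in
/-- `Γ` acts on the finite set `X`, `u : Γ × X → k` is an additive cocycle, `w` is an involution
commuting with `η`; `char k = 2`.  Then `Σ u(w, x)` and `Σ u(η, x)` are equal to the partial sums
over the fixed points of `w`.

For `w`: the terms `x` and `w x ≠ x` cancel, since `u(w, w x) + u(w, x) = u(1, x) = 0`.
For `η`: `u(η w, x) = u(w η, x)` gives `u(η, w x) + u(η, x) = u(w, x) + u(w, η x)`.  Let `h` be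
the indicator of a set of representatives of the free `w`-orbits (`h x + h (w x) = 1` if
`w x ≠ x`).  Then `Σ' u(η, x) = Σ' h(x) (u(η, x) + u(η, w x)) = Σ' h(x) (u(w, x) + u(w, η x)) =
Σ' (h(x) + h(η⁻¹ x)) u(w, x)`, and the last function is invariant under `w`. -/
theorem orb {Γ X k : Type} [Group Γ] [Fintype X] [Field k] [CharP k 2] (a : Γ → X → X)
    (u : Γ → X → k) (ha1 : ∀ x, a 1 x = x) (ha : ∀ g h x, a (g * h) x = a g (a h x))
    (hu : ∀ g h x, u (g * h) x = u g (a h x) + u h x) (w η : Γ) (hw : w * w = 1)
    (hη : η * w = w * η) :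
    ∑ x, u w x = ∑ x with a w x = x, u w x ∧ ∑ x, u η x = ∑ x with a w x = x, u η x := by
  have hww : ∀ x, a w (a w x) = x := by
    intro x
    rw [← ha, hw, ha1]
  have hu1 : ∀ x, u 1 x = 0 := by
    intro x
    have := hu 1 1 x
    rw [mul_one, ha1] at this
    exact left_eq_add.1 this
  have huw : ∀ x, u w (a w x) + u w x = 0 := by
    intro x
    rw [← hu, hw, hu1]
  have hηx : ∀ x, a η (a w x) = a w (a η x) := by
    intro x
    rw [← ha, ← ha, hη]
  have hηi : ∀ x, a η (a η⁻¹ x) = x := by
    intro x
    rw [← ha, mul_inv_cancel, ha1]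
  have hηi' : ∀ x, a η⁻¹ (a η x) = x := by
    intro x
    rw [← ha, inv_mul_cancel, ha1]
  have hηw : ∀ x, a η⁻¹ (a w x) = a w (a η⁻¹ x) := by
    intro x
    have h1 : a w x = a η (a w (a η⁻¹ x)) := by rw [hηx, hηi]
    rw [h1, hηi']
  have h2 : ∀ y : k, y + y = 0 := fun y => CharTwo.add_self_eq_zero y
  -- the free orbits
  set S : Finset X := Finset.univ.filter (fun x => ¬ a w x = x) with hS
  have hmS : ∀ x, x ∈ S ↔ a w x ≠ x := by
    intro x
    simp [hS]
  have hwS : ∀ x ∈ S, a w x ∈ S := by
    intro x hx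
    rw [hmS] at hx ⊢
    rw [hww]
    exact hx.symm
  have hηS : ∀ x ∈ S, a η x ∈ S := by
    intro x hx
    rw [hmS] at hx ⊢
    rw [← hηx]
    intro h
    apply hx
    rw [← hηi' (a w x), h, hηi']
  have hηS' : ∀ x ∈ S, a η⁻¹ x ∈ S := by
    intro x hx
    rw [hmS] at hx ⊢
    rw [← hηw]
    intro h
    apply hx
    rw [← hηi (a w x), h, hηi]
  have hsplit : ∀ f : X → k, ∑ x ∈ S, f x = 0 →
      ∑ x, f x = ∑ x with a w x = x, f x := by
    intro f hf
    rw [← Finset.sum_filter_add_sum_filter_not Finset.univ (fun x => a w x = x), ← hS, hf,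
      add_zero]
  -- sums of functions `g x * u w x` with `g` invariant
  have hinv : ∀ g : X → k, (∀ x ∈ S, g (a w x) = g x) → ∑ x ∈ S, g x * u w x = 0 := by
    intro g hg
    refine Finset.sum_involution (fun x _ => a w x) ?_ ?_ ?_ ?_
    · intro x hx
      rw [hg x hx, ← mul_add, add_comm, huw, mul_zero]
    · intro x hx _
      exact (hmS x).1 hx
    · intro x hx
      exact hwS x hx
    · intro x _
      exact hww x
  constructor
  · apply hsplit
    have := hinv (fun _ => 1) (fun _ _ => rfl)
    simpa using this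
  · apply hsplit
    let e := Fintype.equivFin X
    let h : X → k := fun x => if e x < e (a w x) then 1 else 0
    have hh : ∀ x ∈ S, h x + h (a w x) = 1 := by
      intro x hx
      have h3 : e x ≠ e (a w x) := fun h4 => (hmS x).1 hx (e.injective h4).symm
      simp only [h, hww]
      rcases lt_or_gt_of_ne h3 with h4 | h4
      · rw [if_pos h4, if_neg (not_lt.2 h4.le), add_zero]
      · rw [if_neg (not_lt.2 h4.le), if_pos h4, zero_add]
    have hwre : ∀ f : X → k, ∑ x ∈ S, f (a w x) = ∑ x ∈ S, f x := by
      intro f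
      exact Finset.sum_nbij' (a w) (a w) hwS hwS (fun x _ => hww x) (fun x _ => hww x)
        (fun x _ => rfl)
    have hηre : ∀ f : X → k, ∑ x ∈ S, f (a η x) = ∑ x ∈ S, f x := by
      intro f
      exact Finset.sum_nbij' (a η) (a η⁻¹) hηS hηS' (fun x _ => hηi' x) (fun x _ => hηi x)
        (fun x _ => rfl)
    have hcom : ∀ x, u η x + u η (a w x) = u w x + u w (a η x) := by
      intro x
      have h3 := hu η w x
      have h4 := hu w η x
      rw [hη, h4] at h3
      have h5 : u w (a η x) + u η x + (u η (a w x) + u w x) = 0 := by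
        rw [h3]
        exact h2 _
      have h6 : (u η x + u η (a w x)) + (u w x + u w (a η x)) = 0 := by
        rw [← h5]
        ring
      exact CharTwo.add_eq_zero.1 h6
    calc ∑ x ∈ S, u η x = ∑ x ∈ S, (h x + h (a w x)) * u η x := by
          refine Finset.sum_congr rfl (fun x hx => ?_)
          rw [hh x hx, one_mul]
      _ = ∑ x ∈ S, h x * u η x + ∑ x ∈ S, h (a w x) * u η x := by
          rw [← Finset.sum_add_distrib]
          exact Finset.sum_congr rfl (fun x _ => add_mul _ _ _)
      _ = ∑ x ∈ S, h x * u η x + ∑ x ∈ S, h x * u η (a w x) := by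
          congr 1
          rw [← hwre (fun x => h x * u η (a w x))]
          refine Finset.sum_congr rfl (fun x _ => ?_)
          rw [hww]
      _ = ∑ x ∈ S, h x * (u w x + u w (a η x)) := by
          rw [← Finset.sum_add_distrib]
          refine Finset.sum_congr rfl (fun x _ => ?_)
          rw [← mul_add, hcom]
      _ = ∑ x ∈ S, h x * u w x + ∑ x ∈ S, h x * u w (a η x) := by
          rw [← Finset.sum_add_distrib]
          exact Finset.sum_congr rfl (fun x _ => mul_add _ _ _)
      _ = ∑ x ∈ S, h x * u w x + ∑ x ∈ S, h (a η⁻¹ x) * u w x := by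
          congr 1
          rw [← hηre (fun x => h (a η⁻¹ x) * u w x)]
          refine Finset.sum_congr rfl (fun x _ => ?_)
          rw [hηi']
      _ = ∑ x ∈ S, (h x + h (a η⁻¹ x)) * u w x := by
          rw [← Finset.sum_add_distrib]
          exact Finset.sum_congr rfl (fun x _ => (add_mul _ _ _).symm)
      _ = 0 := by
          apply hinv (fun x => h x + h (a η⁻¹ x))
          intro x hx
          have h3 := hh x hx
          have h4 := hh (a η⁻¹ x) (hηS' x hx)
          rw [hηw]
          have h5 : h (a w x) = 1 - h x := by rw [← h3]; ring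
          have h6 : h (a w (a η⁻¹ x)) = 1 - h (a η⁻¹ x) := by rw [← h4]; ring
          rw [h5, h6]
          have h7 := h2 (1 : k)
          have h8 := h2 (h x)
          have h9 := h2 (h (a η⁻¹ x))
          linear_combination h7 - h8 - h9

end SerreU
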