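import Pool.Agent.SerreU.UDefs
import Pool.Agent.SerreU.UORB
import Pool.Agent.SerreK.KPORT

/-!
# UHEC: Hecke operators on homomorphisms `Γ → 𝔽̄₂`
-/

open Matrix

namespace SerreU

open SerreE SerreK

section types

variable {O : Type} [CommRing O] {N : O}

theorem uhec_TA_gl (γ : Gam0 N) : TA N γ.val.val :=
  ⟨(Matrix.isUnit_iff_isUnit_det _).1 γ.val.isUnit, γ.2⟩

theorem uhec_TA_mul {A B : Matrix (Fin 2) (Fin 2) O} (hA : TA N A) (hB : TA N B) :
    TA N (A * B) := by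
  refine ⟨by rw [Matrix.det_mul]; exact hA.1.mul hB.1, ?_⟩
  rw [Matrix.mul_apply, Fin.sum_univ_two]
  exact dvd_add (Dvd.dvd.mul_right hA.2 _) (Dvd.dvd.mul_left hB.2 _)

theorem uhec_TA_TB {A B : Matrix (Fin 2) (Fin 2) O} (hA : TA N A) (hB : TB N B) :
    TB N (A * B) := by
  obtain ⟨b1, b2, b3, b4⟩ := hB
  refine ⟨?_, ?_, ?_, ?_⟩
  · rw [Matrix.det_mul]
    obtain ⟨u, hu⟩ := hA.1
    obtain ⟨v, hv⟩ := b1
    exact ⟨u⁻¹ * v, by
      rw [← hu, ← hv, Units.val_mul]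
      linear_combination (B.det * v) * u.mul_inv⟩
  all_goals rw [Matrix.mul_apply, Fin.sum_univ_two]
  · exact dvd_add (Dvd.dvd.mul_left b2 _) (Dvd.dvd.mul_left b3 _)
  · exact dvd_add (Dvd.dvd.mul_left b2 _) (Dvd.dvd.mul_left b3 _)
  · exact dvd_add (Dvd.dvd.mul_right hA.2 _) (Dvd.dvd.mul_left b4 _)

theorem uhec_TB_TA {A B : Matrix (Fin 2) (Fin 2) O} (hA : TB N A) (hB : TA N B) :
    TB N (A * B) := by
  obtain ⟨b1, b2, b3, b4⟩ := hA
  refine ⟨?_, ?_, ?_, ?_⟩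
  · rw [Matrix.det_mul]
    obtain ⟨u, hu⟩ := hB.1
    obtain ⟨v, hv⟩ := b1
    exact ⟨u⁻¹ * v, by
      rw [← hu, ← hv, Units.val_mul]
      linear_combination (A.det * v) * u.mul_inv⟩
  all_goals rw [Matrix.mul_apply, Fin.sum_univ_two]
  · exact dvd_add (Dvd.dvd.mul_right b2 _) (Dvd.dvd.mul_left hB.2 _)
  · exact dvd_add (Dvd.dvd.mul_right b3 _) (Dvd.dvd.mul_right b4 _)
  · exact dvd_add (Dvd.dvd.mul_right b3 _) (Dvd.dvd.mul_right b4 _)

theorem uhec_det_not_dvd {π : O} (hπ : Prime π) (hN : ¬ π ∣ N) {M : Matrix (Fin 2) (Fin 2) O}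
    (hM : TA N M ∨ TB N M) : ¬ π ∣ M.det := by
  rcases hM with hM | hM
  · intro h
    exact hπ.not_isUnit (isUnit_of_dvd_unit h hM.1)
  · intro h
    exact hN (h.trans hM.1.dvd)

theorem uhec_det_PM (π : O) : (PM π).det = π := by
  simp [PM, Matrix.det_fin_two]

/-- the index set of the Hecke operator -/
abbrev UHX (N π : O) : Type := Gam0 N ⧸ KP.HeckeSub N π

/-- the matrices `δ_x` -/
noncomputable def uhD (N π : O) (x : UHX N π) : Matrix (Fin 2) (Fin 2) O :=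
  (KP.fexT N π x).val.val * PM π

theorem uhec_GL_det (g : GL (Fin 2) O) : IsUnit g.val.det :=
  (Matrix.isUnit_iff_isUnit_det _).1 g.isUnit

theorem uhec_D_det (N π : O) (x : UHX N π) :
    (uhD N π x).det = (KP.fexT N π x).val.val.det * π := by
  rw [uhD, Matrix.det_mul, uhec_det_PM]

theorem uhec_cancel [IsDomain O] {D A B : Matrix (Fin 2) (Fin 2) O} (hD : D.det ≠ 0)
    (h : D * A = D * B) : A = B := by
  have h1 : D.adjugate * (D * A) = D.adjugate * (D * B) := by rw [h]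
  rw [← mul_assoc, ← mul_assoc, Matrix.adjugate_mul, Matrix.smul_mul, Matrix.smul_mul,
    Matrix.one_mul, Matrix.one_mul] at h1
  exact smul_right_injective _ hD h1

theorem uhec_inv_mul (g : GL (Fin 2) O) : (g⁻¹).val * g.val = 1 := by
  rw [← Units.val_mul, inv_mul_cancel, Units.val_one]

theorem uhec_mul_inv (g : GL (Fin 2) O) : g.val * (g⁻¹).val = 1 := by
  rw [← Units.val_mul, mul_inv_cancel, Units.val_one]

/-- a matrix `K` with `π ∣ K 0 1` normalises -/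
theorem uhec_conj (π : O) (K : Matrix (Fin 2) (Fin 2) O) (k : O) (hk : K 0 1 = π * k) :
    K * PM π = PM π * !![K 0 0, k; π * K 1 0, K 1 1] := by
  ext i j
  fin_cases i <;> fin_cases j <;> simp [PM, Matrix.mul_apply, Fin.sum_univ_two, hk, mul_comm]

theorem uhec_conj_det {π : O} {K : Matrix (Fin 2) (Fin 2) O} {k : O} (hk : K 0 1 = π * k) :
    (!![K 0 0, k; π * K 1 0, K 1 1] : Matrix (Fin 2) (Fin 2) O).det = K.det := by
  simp only [Matrix.det_fin_two, Matrix.of_apply, Matrix.cons_val', Matrix.cons_val_zero,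
    Matrix.cons_val_one, Matrix.cons_val_fin_one]
  rw [hk]; ring

theorem uhec_conj_TA {π : O} {K : Matrix (Fin 2) (Fin 2) O} {k : O} (hk : K 0 1 = π * k)
    (h : TA N K) : TA N !![K 0 0, k; π * K 1 0, K 1 1] := by
  refine ⟨?_, ?_⟩
  · rw [uhec_conj_det hk]; exact h.1
  · exact Dvd.dvd.mul_left h.2 _

theorem uhec_conj_TB {π : O} {K : Matrix (Fin 2) (Fin 2) O} {k : O} (hk : K 0 1 = π * k)
    (h : TB N K) : TB N !![K 0 0, k; π * K 1 0, K 1 1] := by
  obtain ⟨h1, h2, h3, h4⟩ := h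
  refine ⟨?_, h2, Dvd.dvd.mul_left h3 _, h4⟩
  rw [uhec_conj_det hk]; exact h1

end types

section step

variable {O : Type} [CommRing O] [IsDomain O] [IsPrincipalIdealRing O] {N : O}

/-- `Γ₀(N)` is transitive on the lines modulo `π` -/
theorem uhec_cover (N π : O) (hπ : Prime π) (hN : ¬ π ∣ N) (p q : O) :
    ∃ τ : Gam0 N, π ∣ ((τ.val)⁻¹).val 0 0 * p + ((τ.val)⁻¹).val 0 1 * q := by
  by_cases hq : π ∣ q
  · obtain ⟨al, be, h⟩ := KP.fex_coprime hπ hN
    refine ⟨⟨KP.fexEl N π al be h, KP.fexEl_mem N π al be h⟩, ?_⟩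
    have e0 : ((KP.fexEl N π al be h)⁻¹).val 0 0 = ((1⁻¹ : Oˣ) : O) * π := rfl
    change π ∣ ((KP.fexEl N π al be h)⁻¹).val 0 0 * p + ((KP.fexEl N π al be h)⁻¹).val 0 1 * q
    rw [e0]
    exact dvd_add (Dvd.intro_left (((1⁻¹ : Oˣ) : O) * p) (by ring)) (hq.mul_left _)
  · obtain ⟨a, b, h⟩ := KP.fex_coprime hπ hq
    refine ⟨⟨up (p * b), KP.fex_up_mem _ _⟩, ?_⟩
    have e0 : ((up (p * b))⁻¹).val 0 0 = ((1⁻¹ : Oˣ) : O) * 1 := rfl
    have e1 : ((up (p * b))⁻¹).val 0 1 = -(((1⁻¹ : Oˣ) : O) * (p * b)) := rfl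
    change π ∣ ((up (p * b))⁻¹).val 0 0 * p + ((up (p * b))⁻¹).val 0 1 * q
    rw [e0, e1]
    refine ⟨p * a, ?_⟩
    simp only [inv_one, Units.val_one]
    linear_combination (-p) * h

theorem uhec_step_exists (N π : O) (hπ : Prime π) (hN : ¬ π ∣ N) (M : Matrix (Fin 2) (Fin 2) O)
    (x : UHX N π) : ∃ (y : UHX N π) (M' : Matrix (Fin 2) (Fin 2) O),
      M * uhD N π x = uhD N π y * M' ∧ (TA N M → TA N M') ∧ (TB N M → TB N M') := by
  set L := M * (KP.fexT N π x).val.val with hL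
  obtain ⟨τ, hτ⟩ := uhec_cover N π hπ hN (L 0 1) (L 1 1)
  set t := KP.fexT N π (QuotientGroup.mk τ) with ht
  set K := ((t.val)⁻¹).val * L with hK
  have h1 : π ∣ (((t.val)⁻¹).val * τ.val.val) 0 1 := KP.fexT_mk N π τ
  have h2 : K = (((t.val)⁻¹).val * τ.val.val) * (((τ.val)⁻¹).val * L) := by
    rw [hK, mul_assoc, ← mul_assoc τ.val.val, uhec_mul_inv, one_mul]
  have h3 : π ∣ K 0 1 := by
    rw [h2, Matrix.mul_apply, Fin.sum_univ_two]
    refine dvd_add (Dvd.dvd.mul_left ?_ _) (Dvd.dvd.mul_right h1 _)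
    rw [Matrix.mul_apply, Fin.sum_univ_two]
    exact hτ
  obtain ⟨k, hk⟩ := h3
  have ht' : TA N ((t.val)⁻¹).val := uhec_TA_gl t⁻¹
  refine ⟨QuotientGroup.mk τ, !![K 0 0, k; π * K 1 0, K 1 1], ?_, fun h => ?_, fun h => ?_⟩
  · rw [uhD, uhD, ← mul_assoc, ← hL, ← ht, mul_assoc t.val.val, ← uhec_conj π K k hk,
      ← mul_assoc, hK, ← mul_assoc, uhec_mul_inv, one_mul]
  · exact uhec_conj_TA hk (uhec_TA_mul ht' (uhec_TA_mul h (uhec_TA_gl _)))
  · exact uhec_conj_TB hk (uhec_TA_TB ht' (uhec_TB_TA h (uhec_TA_gl _)))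

omit [IsPrincipalIdealRing O] [IsDomain O] in
theorem uhec_aux1 {π : O} (hπ : Prime π) {M : Matrix (Fin 2) (Fin 2) O} (hM : ¬ π ∣ M.det)
    {a : O} (h0 : π ∣ a * M 1 0) (h1 : π ∣ a * M 1 1) : π ∣ a := by
  by_contra ha
  have h0' := (hπ.dvd_or_dvd h0).resolve_left ha
  have h1' := (hπ.dvd_or_dvd h1).resolve_left ha
  apply hM
  rw [Matrix.det_fin_two]
  exact dvd_sub (Dvd.dvd.mul_left h1' _) (Dvd.dvd.mul_left h0' _)

omit [IsPrincipalIdealRing O] [IsDomain O] in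
theorem uhec_aux2 {π : O} (hπ : Prime π) {M M' : Matrix (Fin 2) (Fin 2) O} (hM : ¬ π ∣ M.det)
    {x y : UHX N π} {c c' : O} (hcc : IsCoprime c c')
    (h : c • (uhD N π x * M) = c' • (uhD N π y * M')) : ¬ π ∣ c' := by
  intro hc'
  have hc : ¬ π ∣ c := fun hc => hπ.not_isUnit (hcc.isUnit_of_dvd' hc hc')
  have h1 : c • (PM π * M) = c' • (((KP.fexT N π x).val⁻¹).val * (uhD N π y * M')) := by
    rw [← Matrix.mul_smul _ c' _, ← h, Matrix.mul_smul, uhD, ← mul_assoc, ← mul_assoc,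
      uhec_inv_mul, one_mul]
  have key : ∀ k, π ∣ c * M 1 k := by
    intro k
    have h2 := congrFun (congrFun h1 1) k
    rw [Matrix.smul_apply, Matrix.smul_apply, smul_eq_mul, smul_eq_mul, Matrix.mul_apply,
      Fin.sum_univ_two] at h2
    have e0 : PM π 1 0 = 0 := rfl
    have e1 : PM π 1 1 = 1 := rfl
    rw [e0, e1, zero_mul, one_mul, zero_add] at h2
    rw [h2]
    exact Dvd.dvd.mul_right hc' _
  exact hc (uhec_aux1 hπ hM (key 0) (key 1))

theorem uhec_step_unique {π : O} (hπ : Prime π) {M M' : Matrix (Fin 2) (Fin 2) O}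
    {x y : UHX N π} {c c' : O} (hc : c ≠ 0) (hM : ¬ π ∣ M.det)
    (hM' : ¬ π ∣ M'.det) (h : c • (uhD N π x * M) = c' • (uhD N π y * M')) : x = y := by
  obtain ⟨d, hd⟩ := IsBezout.gcd_dvd_left c c'
  obtain ⟨d', hd'⟩ := IsBezout.gcd_dvd_right c c'
  obtain ⟨a, b, hab⟩ := IsBezout.gcd_eq_sum c c'
  have hg0 : IsBezout.gcd c c' ≠ 0 := by
    rintro h0
    rw [h0, zero_mul] at hd
    exact hc hd
  have hcop : IsCoprime d d' := by
    refine ⟨a, b, mul_left_cancel₀ hg0 ?_⟩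
    rw [mul_one]
    calc IsBezout.gcd c c' * (a * d + b * d') =
        a * (IsBezout.gcd c c' * d) + b * (IsBezout.gcd c c' * d') := by ring
      _ = a * c + b * c' := by rw [← hd, ← hd']
      _ = IsBezout.gcd c c' := hab
  have h1 : d • (uhD N π x * M) = d' • (uhD N π y * M') := by
    apply smul_right_injective _ hg0
    change IsBezout.gcd c c' • (d • (uhD N π x * M)) = IsBezout.gcd c c' • (d' • (uhD N π y * M'))
    rw [smul_smul, smul_smul, ← hd, ← hd', h]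
  have hd3 : ¬ π ∣ d := uhec_aux2 hπ hM' hcop.symm h1.symm
  have h2 : d • ((((KP.fexT N π y).val⁻¹).val * (KP.fexT N π x).val.val) * (PM π * M)) =
      d' • (PM π * M') := by
    have e : (((KP.fexT N π y).val⁻¹).val * (KP.fexT N π x).val.val) * (PM π * M) =
        ((KP.fexT N π y).val⁻¹).val * (uhD N π x * M) := by
      rw [uhD]; simp only [mul_assoc]
    rw [e, ← Matrix.mul_smul, h1, Matrix.mul_smul, uhD, ← mul_assoc, ← mul_assoc, uhec_inv_mul,
      one_mul]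
  set A := ((KP.fexT N π y).val⁻¹).val * (KP.fexT N π x).val.val with hA
  have key : ∀ k, π ∣ (d * A 0 1) * M 1 k := by
    intro k
    have h3 := congrFun (congrFun h2 0) k
    simp only [Matrix.smul_apply, smul_eq_mul, Matrix.mul_apply, Fin.sum_univ_two] at h3
    have e00 : PM π 0 0 = π := rfl
    have e01 : PM π 0 1 = 0 := rfl
    have e10 : PM π 1 0 = 0 := rfl
    have e11 : PM π 1 1 = 1 := rfl
    rw [e00, e01, e10, e11] at h3
    refine ⟨d' * M' 0 k - d * A 0 0 * M 0 k, ?_⟩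
    linear_combination h3
  have h4 := uhec_aux1 hπ hM (key 0) (key 1)
  exact (KP.fexT_sep N π y x ((hπ.dvd_or_dvd h4).resolve_left hd3)).symm

end step

section group

variable {O : Type} [CommRing O] [IsDomain O] [IsPrincipalIdealRing O] {N : O}
variable {Γ : Type} [Group Γ] (P : PG N Γ)

/-- `y = g x` and `h = c(g, x)` -/
def UHSt (π : O) (g : Γ) (x y : UHX N π) (h : Γ) : Prop :=
  ∃ M M', P.R g M ∧ P.R h M' ∧ M * uhD N π x = uhD N π y * M'

variable {P}

theorem uhSt_exists {π : O} (hπ : Prime π) (hN : ¬ π ∣ N) (g : Γ) (x : UHX N π) :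
    ∃ y h, UHSt P π g x y h := by
  obtain ⟨M, hM, hR⟩ := P.ex g
  obtain ⟨y, M', h1, h2, h3⟩ := uhec_step_exists N π hπ hN M x
  obtain ⟨h, hh⟩ := P.surj M' (hM.imp h2 h3)
  exact ⟨y, h, M, M', hR, hh, h1⟩

omit [IsPrincipalIdealRing O] in
theorem uhec_D_ne {π : O} (hπ : Prime π) (x : UHX N π) : (uhD N π x).det ≠ 0 := by
  rw [uhec_D_det]
  exact mul_ne_zero (uhec_GL_det _).ne_zero hπ.ne_zero

theorem uhSt_unique {π : O} (hπ : Prime π) (hN : ¬ π ∣ N) {g : Γ} {x y y' : UHX N π} {h h' : Γ}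
    (H : UHSt P π g x y h) (H' : UHSt P π g x y' h') : y = y' ∧ h = h' := by
  obtain ⟨M, M', hM, hM', e⟩ := H
  obtain ⟨M₁, M₁', hM₁, hM₁', e'⟩ := H'
  obtain ⟨c, c', hc, hc', hcc⟩ := P.prop hM hM₁
  obtain ⟨M₂, hT₂, hM₂⟩ := P.ex h
  obtain ⟨M₃, hT₃, hM₃⟩ := P.ex h'
  obtain ⟨d, d', hd, hd', hdd⟩ := P.prop hM' hM₂
  obtain ⟨f, f', hf, hf', hff⟩ := P.prop hM₁' hM₃
  have e1 : c • (uhD N π y * M') = c' • (uhD N π y' * M₁') := by
    rw [← e, ← e', ← Matrix.smul_mul, ← Matrix.smul_mul, hcc]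
  have e2 : (c * f * d') • (uhD N π y * M₂) = (c' * d * f') • (uhD N π y' * M₃) := by
    calc (c * f * d') • (uhD N π y * M₂) = (c * f) • (uhD N π y * (d' • M₂)) := by
          rw [Matrix.mul_smul, smul_smul]
      _ = (f * d) • (c • (uhD N π y * M')) := by
          rw [← hdd, Matrix.mul_smul, smul_smul, smul_smul]; congr 1; ring
      _ = (c' * d) • (uhD N π y' * (f • M₁')) := by
          rw [e1, Matrix.mul_smul, smul_smul, smul_smul]; congr 1; ring
      _ = (c' * d * f') • (uhD N π y' * M₃) := by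
          rw [hff, Matrix.mul_smul, smul_smul]
  have hy : y = y' := uhec_step_unique hπ (mul_ne_zero (mul_ne_zero hc hf) hd')
    (uhec_det_not_dvd hπ hN hT₂) (uhec_det_not_dvd hπ hN hT₃) e2
  refine ⟨hy, ?_⟩
  subst hy
  have e3 : c • M' = c' • M₁' := by
    apply uhec_cancel (uhec_D_ne hπ y)
    rw [Matrix.mul_smul, Matrix.mul_smul, e1]
  have h1 := (P.smul (g := h) (M := M') hc).2 hM'
  have h2 := (P.smul (g := h') (M := M₁') hc').2 hM₁'
  rw [e3] at h1
  exact P.inj h1 h2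

omit [IsDomain O] [IsPrincipalIdealRing O] in
theorem uhSt_comp {π : O} {g g' : Γ} {x y z : UHX N π} {h h' : Γ}
    (H' : UHSt P π g' x y h') (H : UHSt P π g y z h) : UHSt P π (g * g') x z (h * h') := by
  obtain ⟨M, M', hM, hM', e⟩ := H
  obtain ⟨M₁, M₁', hM₁, hM₁', e'⟩ := H'
  refine ⟨M * M₁, M' * M₁', P.mul hM hM₁, P.mul hM' hM₁', ?_⟩
  rw [mul_assoc, e', ← mul_assoc, e, mul_assoc]

omit [IsDomain O] [IsPrincipalIdealRing O] in
theorem uhSt_one {π : O} (x : UHX N π) : UHSt P π 1 x x 1 :=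
  ⟨1, 1, P.one, P.one, by rw [one_mul, mul_one]⟩

variable (P)

open Classical in
/-- the action -/
noncomputable def uhAct (π : O) (g : Γ) (x : UHX N π) : UHX N π :=
  if h : ∃ y h, UHSt P π g x y h then h.choose else x

open Classical in
/-- the cocycle -/
noncomputable def uhGam (π : O) (g : Γ) (x : UHX N π) : Γ :=
  if h : ∃ y h, UHSt P π g x y h then h.choose_spec.choose else 1

variable {P}

theorem uhAct_spec {π : O} (hπ : Prime π) (hN : ¬ π ∣ N) (g : Γ) (x : UHX N π) :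
    UHSt P π g x (uhAct P π g x) (uhGam P π g x) := by
  have h := uhSt_exists (P := P) hπ hN g x
  rw [uhAct, uhGam, dif_pos h, dif_pos h]
  exact h.choose_spec.choose_spec

theorem uhAct_eq {π : O} (hπ : Prime π) (hN : ¬ π ∣ N) {g : Γ} {x y : UHX N π} {h : Γ}
    (H : UHSt P π g x y h) : uhAct P π g x = y ∧ uhGam P π g x = h :=
  uhSt_unique hπ hN (uhAct_spec hπ hN g x) H

theorem uhAct_one {π : O} (hπ : Prime π) (hN : ¬ π ∣ N) (x : UHX N π) :
    uhAct P π 1 x = x := (uhAct_eq hπ hN (uhSt_one x)).1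

theorem uhAct_mul {π : O} (hπ : Prime π) (hN : ¬ π ∣ N) (g g' : Γ) (x : UHX N π) :
    uhAct P π (g * g') x = uhAct P π g (uhAct P π g' x) :=
  (uhAct_eq hπ hN (uhSt_comp (uhAct_spec hπ hN g' x) (uhAct_spec hπ hN g _))).1

theorem uhGam_mul {π : O} (hπ : Prime π) (hN : ¬ π ∣ N) (g g' : Γ) (x : UHX N π) :
    uhGam P π (g * g') x = uhGam P π g (uhAct P π g' x) * uhGam P π g' x :=
  (uhAct_eq hπ hN (uhSt_comp (uhAct_spec hπ hN g' x) (uhAct_spec hπ hN g _))).2

end group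

section lines

variable {O : Type} [CommRing O]

theorem uhec_inv01 (A B : GL (Fin 2) O) :
    ∃ u : O, (A⁻¹ * B).val 0 1 = u * (A.val 1 1 * B.val 0 1 - A.val 0 1 * B.val 1 1) := by
  refine ⟨Ring.inverse A.val.det, ?_⟩
  rw [KP.fex_mul01, Matrix.coe_units_inv, Matrix.inv_def, Matrix.adjugate_fin_two]
  simp only [Matrix.smul_apply, Matrix.of_apply, Matrix.cons_val', Matrix.cons_val_zero,
    Matrix.cons_val_one, Matrix.cons_val_fin_one, smul_eq_mul]
  ring

/-- the quadratic form `q(v) = det (W v, v)` vanishes modulo `π` on the eigenlines -/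
theorem uhec_eig {π : O} {W W1 D : Matrix (Fin 2) (Fin 2) O}
    (h : W * (D * PM π) = D * PM π * W1) :
    π ∣ (W 0 0 * D 0 1 + W 0 1 * D 1 1) * D 1 1 - (W 1 0 * D 0 1 + W 1 1 * D 1 1) * D 0 1 := by
  have h0 := congrFun (congrFun h 0) 1
  have h1 := congrFun (congrFun h 1) 1
  simp only [PM, Matrix.mul_apply, Fin.sum_univ_two, Matrix.of_apply, Matrix.cons_val',
    Matrix.cons_val_zero, Matrix.cons_val_one, Matrix.cons_val_fin_one, mul_zero,
    mul_one, add_zero, zero_add] at h0 h1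
  refine ⟨D 0 0 * W1 0 1 * D 1 1 - D 1 0 * W1 0 1 * D 0 1, ?_⟩
  linear_combination D 1 1 * h0 - D 0 1 * h1

/-- a matrix of trace zero and determinant prime to `π` has at most two eigenlines modulo `π` -/
theorem uhec_three {π : O} (hπ : Prime π) (h2 : ¬ π ∣ 2) {W : Matrix (Fin 2) (Fin 2) O}
    (htr : W 0 0 + W 1 1 = 0) (hdet : ¬ π ∣ W.det) {a1 b1 a2 b2 a3 b3 : O}
    (q1 : π ∣ (W 0 0 * a1 + W 0 1 * b1) * b1 - (W 1 0 * a1 + W 1 1 * b1) * a1)
    (q2 : π ∣ (W 0 0 * a2 + W 0 1 * b2) * b2 - (W 1 0 * a2 + W 1 1 * b2) * a2)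
    (q3 : π ∣ (W 0 0 * a3 + W 0 1 * b3) * b3 - (W 1 0 * a3 + W 1 1 * b3) * a3)
    (h12 : ¬ π ∣ a1 * b2 - a2 * b1) (h13 : ¬ π ∣ a1 * b3 - a3 * b1)
    (h23 : ¬ π ∣ a2 * b3 - a3 * b2) : False := by
  obtain ⟨r1, q1⟩ := q1
  obtain ⟨r2, q2⟩ := q2
  obtain ⟨r3, q3⟩ := q3
  have hΔ : ¬ π ∣ (a1 * b2 - a2 * b1) * (a1 * b3 - a3 * b1) * (a2 * b3 - a3 * b2) := by
    intro h
    rcases hπ.dvd_or_dvd h with h | h
    · rcases hπ.dvd_or_dvd h with h | h
      · exact h12 h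
      · exact h13 h
    · exact h23 h
  have hA : π ∣ W 1 0 := by
    refine (hπ.dvd_or_dvd (?_ : π ∣ ((a1 * b2 - a2 * b1) * (a1 * b3 - a3 * b1) *
      (a2 * b3 - a3 * b2)) * W 1 0)).resolve_left hΔ
    refine ⟨-(b2 * b3 * (a2 * b3 - a3 * b2) * r1 - b1 * b3 * (a1 * b3 - a3 * b1) * r2 +
      b1 * b2 * (a1 * b2 - a2 * b1) * r3), ?_⟩
    linear_combination (-(b2 * b3 * (a2 * b3 - a3 * b2))) * q1 +
      (b1 * b3 * (a1 * b3 - a3 * b1)) * q2 - (b1 * b2 * (a1 * b2 - a2 * b1)) * q3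
  have hC : π ∣ W 0 1 := by
    refine (hπ.dvd_or_dvd (?_ : π ∣ ((a1 * b2 - a2 * b1) * (a1 * b3 - a3 * b1) *
      (a2 * b3 - a3 * b2)) * W 0 1)).resolve_left hΔ
    refine ⟨a2 * a3 * (a2 * b3 - a3 * b2) * r1 - a1 * a3 * (a1 * b3 - a3 * b1) * r2 +
      a1 * a2 * (a1 * b2 - a2 * b1) * r3, ?_⟩
    linear_combination (a2 * a3 * (a2 * b3 - a3 * b2)) * q1 -
      (a1 * a3 * (a1 * b3 - a3 * b1)) * q2 + (a1 * a2 * (a1 * b2 - a2 * b1)) * q3
  have hB : π ∣ 2 * W 0 0 := by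
    refine (hπ.dvd_or_dvd (?_ : π ∣ ((a1 * b2 - a2 * b1) * (a1 * b3 - a3 * b1) *
      (a2 * b3 - a3 * b2)) * (2 * W 0 0))).resolve_left hΔ
    refine ⟨-(a2 ^ 2 * b3 ^ 2 - a3 ^ 2 * b2 ^ 2) * r1 + (a1 ^ 2 * b3 ^ 2 - a3 ^ 2 * b1 ^ 2) * r2 -
      (a1 ^ 2 * b2 ^ 2 - a2 ^ 2 * b1 ^ 2) * r3, ?_⟩
    linear_combination (-(a2 ^ 2 * b3 ^ 2 - a3 ^ 2 * b2 ^ 2)) * q1 +
      (a1 ^ 2 * b3 ^ 2 - a3 ^ 2 * b1 ^ 2) * q2 - (a1 ^ 2 * b2 ^ 2 - a2 ^ 2 * b1 ^ 2) * q3 +
      ((a1 * b2 - a2 * b1) * (a1 * b3 - a3 * b1) * (a2 * b3 - a3 * b2)) * htr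
  have h00 : π ∣ W 0 0 := (hπ.dvd_or_dvd hB).resolve_left h2
  apply hdet
  rw [Matrix.det_fin_two]
  exact dvd_sub (Dvd.dvd.mul_right h00 _) (Dvd.dvd.mul_right hC _)

theorem uhec_sq {W : Matrix (Fin 2) (Fin 2) O} (htr : W 0 0 + W 1 1 = 0) :
    W * W = (-W.det) • (1 : Matrix (Fin 2) (Fin 2) O) := by
  have h1 : W 1 1 = - W 0 0 := by linear_combination htr
  ext i j
  fin_cases i <;> fin_cases j <;>
    simp [Matrix.mul_apply, Fin.sum_univ_two, Matrix.det_fin_two, h1] <;> ring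

theorem uhec_trace [IsDomain O] {D M M' : Matrix (Fin 2) (Fin 2) O} (hD : D.det ≠ 0)
    (h : M * D = D * M') : M' 0 0 + M' 1 1 = M 0 0 + M 1 1 := by
  have h1 : D.det • M'.trace = D.det • M.trace := by
    calc D.det • M'.trace = (D.adjugate * (D * M')).trace := by
          rw [← mul_assoc, Matrix.adjugate_mul, Matrix.smul_mul, Matrix.one_mul,
            Matrix.trace_smul]
      _ = (D.adjugate * (M * D)).trace := by rw [h]
      _ = (M * (D * D.adjugate)).trace := by rw [Matrix.trace_mul_comm, mul_assoc]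
      _ = D.det • M.trace := by
          rw [Matrix.mul_adjugate, Matrix.mul_smul, Matrix.mul_one, Matrix.trace_smul]
  have h2 := mul_left_cancel₀ hD h1
  rw [Matrix.trace_fin_two, Matrix.trace_fin_two] at h2
  exact h2

end lines

section main

variable {O : Type} [CommRing O] [IsDomain O] [IsPrincipalIdealRing O] [FinQuot O] {N : O}
variable {Γ : Type} [Group Γ]

omit [IsPrincipalIdealRing O] [FinQuot O] [IsDomain O] in
theorem uhec_invol (P : PG N Γ) {w : Γ} {W : Matrix (Fin 2) (Fin 2) O} (hw : P.R w W)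
    (htr : W 0 0 + W 1 1 = 0) : w * w = 1 := by
  have h1 := P.mul hw hw
  rw [uhec_sq htr] at h1
  exact P.inj h1 ((P.smul (neg_ne_zero.2 (P.det hw))).2 P.one)

omit [FinQuot O] [IsPrincipalIdealRing O] [IsDomain O] in
theorem uhec_fix {π : O} (P : PG N Γ) (D : Gam0 N)
    {E E1 : Matrix (Fin 2) (Fin 2) O} {g g1 : Γ} (hg : P.R g E) (hg1 : P.R g1 E1)
    (h : E * (D.val.val * PM π) = D.val.val * PM π * E1) :
    ∃ k : Γ, UHSt P π g (QuotientGroup.mk D) (QuotientGroup.mk D) (k * g1 * k⁻¹) := by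
  set t := KP.fexT N π (QuotientGroup.mk D) with ht
  have h1 : π ∣ (((t.val)⁻¹).val * D.val.val) 0 1 := KP.fexT_mk N π D
  obtain ⟨k, hk⟩ := h1
  set K := ((t.val)⁻¹).val * D.val.val with hK
  have h2 := uhec_conj π K k hk
  set K' : Matrix (Fin 2) (Fin 2) O := !![K 0 0, k; π * K 1 0, K 1 1] with hK'
  have hTK : TA N K := uhec_TA_mul (uhec_TA_gl t⁻¹) (uhec_TA_gl D)
  have hTK' : TA N K' := uhec_conj_TA hk hTK
  obtain ⟨κ, hκ⟩ := P.surj K' (Or.inl hTK')
  have h3 : D.val.val * PM π = uhD N π (QuotientGroup.mk D) * K' := by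
    rw [uhD, ← ht, mul_assoc, ← h2, hK, ← mul_assoc, ← mul_assoc, uhec_mul_inv, one_mul]
  -- the inverse of `K'`
  obtain ⟨K'', hK''1, hK''2⟩ : ∃ K'' : Matrix (Fin 2) (Fin 2) O, K' * K'' = 1 ∧ K'' * K' = 1 := by
    obtain ⟨u, hu⟩ := (Matrix.isUnit_iff_isUnit_det K').2 hTK'.1
    exact ⟨(u⁻¹).val, by rw [← hu, Units.mul_inv], by rw [← hu, Units.inv_mul]⟩
  have hTK'' : TA N K'' := by
    have hd : K'.det * K''.det = 1 := by rw [← Matrix.det_mul, hK''1, Matrix.det_one]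
    refine ⟨IsUnit.of_mul_eq_one _ (by rw [mul_comm]; exact hd), ?_⟩
    have hc : IsUnit K'.det := hTK'.1
    have : K'.det * K'' 1 0 = - K' 1 0 := by
      have e : K'.adjugate = K'.det • K'' := by
        calc K'.adjugate = K'.adjugate * (K' * K'') := by rw [hK''1, mul_one]
          _ = K'.det • K'' := by
            rw [← mul_assoc, Matrix.adjugate_mul, Matrix.smul_mul, Matrix.one_mul]
      have e2 := congrFun (congrFun e 1) 0
      rw [Matrix.adjugate_fin_two, Matrix.smul_apply] at e2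
      exact e2.symm
    have h5 : N ∣ K'.det * K'' 1 0 := by
      rw [this]; exact (dvd_neg).2 hTK'.2
    exact (hc.dvd_mul_left).1 h5
  obtain ⟨κ', hκ'⟩ := P.surj K'' (Or.inl hTK'')
  have hinv : κ' = κ⁻¹ := by
    have h6 := P.mul hκ hκ'
    rw [hK''1] at h6
    exact (inv_eq_of_mul_eq_one_right (P.inj h6 P.one)).symm
  refine ⟨κ, E, K' * E1 * K'', hg, ?_, ?_⟩
  · rw [← hinv]
    exact P.mul (P.mul hκ hg1) hκ'
  · have h7 : uhD N π (QuotientGroup.mk D) = D.val.val * PM π * K'' := by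
      rw [h3, mul_assoc, hK''1, mul_one]
    calc E * uhD N π (QuotientGroup.mk D) = E * (D.val.val * PM π) * K'' := by
          rw [h7]; simp only [mul_assoc]
      _ = D.val.val * PM π * E1 * K'' := by rw [h]
      _ = uhD N π (QuotientGroup.mk D) * (K' * E1 * K'') := by
          rw [h3]; simp only [mul_assoc]

omit [IsPrincipalIdealRing O] [FinQuot O] in
theorem uhec_TB_fix {π : O} (hπ : π ≠ 0) {W W1 : Matrix (Fin 2) (Fin 2) O}
    (D : Gam0 N) (hW : TB N W) (h : W * (D.val.val * PM π) = D.val.val * PM π * W1) :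
    TB N W1 := by
  set K := ((D.val)⁻¹).val * W * D.val.val with hK
  have hTK : TB N K := uhec_TB_TA (uhec_TA_TB (uhec_TA_gl D⁻¹) hW) (uhec_TA_gl D)
  have h1 : K * PM π = PM π * W1 := by
    calc K * PM π = ((D.val)⁻¹).val * (W * (D.val.val * PM π)) := by
          rw [hK]; simp only [mul_assoc]
      _ = PM π * W1 := by
          rw [h, ← mul_assoc, ← mul_assoc, uhec_inv_mul, one_mul]
  have h00 := congrFun (congrFun h1 0) 0
  have h01 := congrFun (congrFun h1 0) 1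
  have h10 := congrFun (congrFun h1 1) 0
  have h11 := congrFun (congrFun h1 1) 1
  simp only [PM, Matrix.mul_apply, Fin.sum_univ_two, Matrix.of_apply, Matrix.cons_val',
    Matrix.cons_val_zero, Matrix.cons_val_one, Matrix.cons_val_fin_one, mul_zero, zero_mul,
    mul_one, one_mul, add_zero, zero_add] at h00 h01 h10 h11
  have e : W1 = !![K 0 0, W1 0 1; π * K 1 0, K 1 1] := by
    ext i j
    fin_cases i <;> fin_cases j
    · exact mul_left_cancel₀ hπ (h00.symm.trans (mul_comm _ _))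
    · rfl
    · exact h10.symm.trans (mul_comm _ _)
    · exact h11.symm
  rw [e]
  exact uhec_conj_TB h01 hTK

open Classical in
theorem uhec_orb {Γ X k : Type} [Group Γ] [Fintype X] [DecidableEq X] [Field k] [CharP k 2]
    (a : Γ → X → X) (u : Γ → X → k) (ha1 : ∀ x, a 1 x = x)
    (ha : ∀ g h x, a (g * h) x = a g (a h x))
    (hu : ∀ g h x, u (g * h) x = u g (a h x) + u h x) (w η : Γ) (hw : w * w = 1)
    (hη : η * w = w * η) :
    ∑ x, u w x = ∑ x with a w x = x, u w x ∧ ∑ x, u η x = ∑ x with a w x = x, u η x := by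
  convert orb a u ha1 ha hu w η hw hη

omit [IsPrincipalIdealRing O] [FinQuot O] [IsDomain O] in
theorem uhec_x_conj (P : PG N Γ) {x : Γ → FF} (hx : IsX P x) (k g : Γ) :
    x (k * g * k⁻¹) = x g := by
  have h1 : x 1 = 0 := by
    have := hx.mul 1 1
    rw [mul_one] at this
    exact left_eq_add.1 this
  have h2 : x k + x k⁻¹ = 0 := by rw [← hx.mul, mul_inv_cancel, h1]
  rw [hx.mul, hx.mul]
  linear_combination h2

/-- The Hecke operator on homomorphisms `x : Γ → 𝔽̄₂`. -/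
theorem hecke_plus (hN : Hyp N) (P : PG N Γ) (π : GP N) (x : Γ → FF) (hx : IsX P x) :
    ∃ x' : Γ → FF, IsX P x' ∧ (∀ h, Res P x h → Res P x' (T N π.el π.ne h)) ∧
      ∀ (W E : Matrix (Fin 2) (Fin 2) O) (w g : Γ), TB N W → W 0 0 + W 1 1 = 0 → E * W = W * E →
        P.R w W → P.R g E →
        (∀ (D1 D2 : Gam0 N) (W1 W2 E1 E2 : Matrix (Fin 2) (Fin 2) O) (g1 g2 : Γ),
          ¬ π.el ∣ (D1⁻¹ * D2).val.val 0 1 →
          W * (D1.val.val * PM π.el) = D1.val.val * PM π.el * W1 →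
          W * (D2.val.val * PM π.el) = D2.val.val * PM π.el * W2 →
          E * (D1.val.val * PM π.el) = D1.val.val * PM π.el * E1 →
          E * (D2.val.val * PM π.el) = D2.val.val * PM π.el * E2 →
          P.R g1 E1 → P.R g2 E2 → x' g = x g1 + x g2) ∧
        ((∀ (D : Gam0 N) (W1 : Matrix (Fin 2) (Fin 2) O),
          W * (D.val.val * PM π.el) ≠ D.val.val * PM π.el * W1) → x' g = 0) := by
  classical
  have _hN := hN
  have hπ := π.prime
  have hπN : ¬ π.el ∣ N := fun h => π.not_dvd (Dvd.dvd.mul_left h _)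
  have hπ2 : ¬ π.el ∣ 2 := fun h => π.not_dvd (Dvd.dvd.mul_right h _)
  have hfi := KP.heckeSub_finiteIndex N π.el π.ne
  have : Finite (UHX N π.el) := Subgroup.finite_quotient_of_finiteIndex
  let _ : Fintype (UHX N π.el) := Fintype.ofFinite _
  set a : Γ → UHX N π.el → UHX N π.el := uhAct P π.el with ha
  set u : Γ → UHX N π.el → FF := fun g i => x (uhGam P π.el g i) with hu
  have ha1 : ∀ i, a 1 i = i := uhAct_one hπ hπN
  have ham : ∀ g h i, a (g * h) i = a g (a h i) := uhAct_mul hπ hπN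
  have hum : ∀ g h i, u (g * h) i = u g (a h i) + u h i := by
    intro g h i
    change x (uhGam P π.el (g * h) i) = _
    rw [uhGam_mul hπ hπN, hx.mul]
  have hbij : ∀ g, Function.Bijective (a g) := by
    intro g
    refine Function.bijective_iff_has_inverse.2 ⟨a g⁻¹, fun i => ?_, fun i => ?_⟩
    · rw [← ham, inv_mul_cancel, ha1]
    · rw [← ham, mul_inv_cancel, ha1]
  refine ⟨fun g => ∑ i, u g i, ⟨fun g h => ?_, fun g M hg hM htr => ?_⟩, fun h hres γ g hg => ?_,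
    fun W E w g hW htr hEW hw hg => ?_⟩
  · -- multiplicativity
    simp only [hum]
    rw [Finset.sum_add_distrib]
    congr 1
    exact (hbij h).sum_comp (fun i => u g i)
  · -- elements of trace zero
    have hgg : g * g = 1 := uhec_invol P hg htr
    rw [(uhec_orb a u ha1 ham hum g 1 hgg (by rw [one_mul, mul_one])).1]
    apply Finset.sum_eq_zero
    intro i hi
    rw [Finset.mem_filter] at hi
    obtain ⟨y, M', h1, h2, -⟩ := uhec_step_exists N π.el hπ hπN M i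
    obtain ⟨k, hk⟩ := P.surj M' (Or.inl (h2 hM))
    obtain ⟨e1, e2⟩ := uhAct_eq hπ hπN (⟨M, M', hg, hk, h1⟩ : UHSt P π.el g i y k)
    have e3 : y = i := e1.symm.trans hi.2
    subst e3
    change x (uhGam P π.el g y) = 0
    rw [e2]
    exact hx.tor k M' hk (h2 hM) (by rw [uhec_trace (uhec_D_ne hπ y) h1, htr])
  · -- restriction
    change heckeVal π.el π.ne h γ = ∑ i, u g i
    have hstep := fun i => uhec_step_exists N π.el hπ hπN γ.val.val i
    choose y M' h1 h2 h3 using hstep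
    have hTA : ∀ i, TA N (M' i) := fun i => h2 i (uhec_TA_gl γ)
    have hgl : ∀ i, ∃ g' : Gam0 N, g'.val.val = M' i := by
      intro i
      obtain ⟨v, hv⟩ := (Matrix.isUnit_iff_isUnit_det (M' i)).2 (hTA i).1
      refine ⟨⟨v, ?_⟩, hv⟩
      rw [mem_Gam0, hv]; exact (hTA i).2
    choose g' hg' using hgl
    rw [KP.hecke_formula N π.el π.ne (KP.fexT N π.el)
      (fun g => ⟨QuotientGroup.mk g, KP.fexT_mk N π.el g⟩)
      (KP.fexT_sep N π.el) h γ y g' (fun i => by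
        have := h1 i
        rw [uhD, uhD, ← mul_assoc] at this
        rw [this, hg'])]
    refine Finset.sum_congr rfl fun i _ => ?_
    obtain ⟨k, hk⟩ := P.surj (M' i) (Or.inl (hTA i))
    obtain ⟨e1, e2⟩ := uhAct_eq hπ hπN (⟨γ.val.val, M' i, hg, hk, h1 i⟩ :
      UHSt P π.el g i (y i) k)
    change h.val (g' i) = x (uhGam P π.el g i)
    rw [e2]
    exact hres (g' i) k (by rw [hg']; exact hk)
  have hww : w * w = 1 := uhec_invol P hw htr
  have hgw : g * w = w * g := by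
    have h1 := P.mul hg hw
    have h2 := P.mul hw hg
    rw [hEW] at h1
    exact P.inj h1 h2
  have hfixW : ∀ i, a w i = i → ∃ M', W * uhD N π.el i = uhD N π.el i * M' := by
    intro i hi
    obtain ⟨y, M', h1, -, h3⟩ := uhec_step_exists N π.el hπ hπN W i
    obtain ⟨k, hk⟩ := P.surj M' (Or.inr (h3 hW))
    obtain ⟨e1, e2⟩ := uhAct_eq hπ hπN (⟨W, M', hw, hk, h1⟩ : UHSt P π.el w i y k)
    have e3 : y = i := e1.symm.trans hi
    rw [e3] at h1
    exact ⟨M', h1⟩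
  have horb := (uhec_orb a u ha1 ham hum w g hww hgw).2
  refine ⟨?_, ?_⟩
  · -- two fixed points
    intro D1 D2 W1 W2 E1 E2 g1 g2 hne hW1 hW2 hE1 hE2 hg1 hg2
    change ∑ i, u g i = x g1 + x g2
    have hW1' : TB N W1 := uhec_TB_fix π.ne D1 hW hW1
    have hW2' : TB N W2 := uhec_TB_fix π.ne D2 hW hW2
    obtain ⟨w1, hw1⟩ := P.surj W1 (Or.inr hW1')
    obtain ⟨w2, hw2⟩ := P.surj W2 (Or.inr hW2')
    obtain ⟨k1, hk1⟩ := uhec_fix P D1 hg hg1 hE1
    obtain ⟨k2, hk2⟩ := uhec_fix P D2 hg hg2 hE2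
    obtain ⟨l1, hl1⟩ := uhec_fix P D1 hw hw1 hW1
    obtain ⟨l2, hl2⟩ := uhec_fix P D2 hw hw2 hW2
    obtain ⟨a1, b1⟩ := uhAct_eq hπ hπN hk1
    obtain ⟨a2, b2⟩ := uhAct_eq hπ hπN hk2
    obtain ⟨c1, -⟩ := uhAct_eq hπ hπN hl1
    obtain ⟨c2, -⟩ := uhAct_eq hπ hπN hl2
    have hnei : (QuotientGroup.mk D1 : UHX N π.el) ≠ QuotientGroup.mk D2 := by
      intro h
      rw [QuotientGroup.eq] at h
      exact hne h
    have hset : (Finset.univ.filter fun i => a w i = i) =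
        {(QuotientGroup.mk D1 : UHX N π.el), QuotientGroup.mk D2} := by
      ext i
      simp only [Finset.mem_filter, Finset.mem_univ, true_and, Finset.mem_insert,
        Finset.mem_singleton]
      constructor
      · intro hi
        by_contra hcon
        rw [not_or] at hcon
        obtain ⟨M', hM'⟩ := hfixW i hi
        have hi' : (QuotientGroup.mk (KP.fexT N π.el i) : UHX N π.el) = i := Quotient.out_eq i
        have hne1 : ∀ A B : Gam0 N, ¬ π.el ∣ (A⁻¹ * B).val.val 0 1 →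
            ¬ π.el ∣ A.val.val 0 1 * B.val.val 1 1 - B.val.val 0 1 * A.val.val 1 1 := by
          intro A B hAB hd
          obtain ⟨v, hv⟩ := uhec_inv01 A.val B.val
          apply hAB
          change π.el ∣ (A.val⁻¹ * B.val).val 0 1
          rw [hv]
          refine Dvd.dvd.mul_left ?_ _
          rw [← dvd_neg] at hd
          convert hd using 1
          ring
        have hne2 : ∀ A : Gam0 N, i ≠ QuotientGroup.mk A →
            ¬ π.el ∣ (A⁻¹ * KP.fexT N π.el i).val.val 0 1 := by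
          intro A hA hd
          apply hA
          rw [← hi']
          exact (QuotientGroup.eq.2 hd).symm
        exact uhec_three hπ hπ2 htr (uhec_det_not_dvd hπ hπN (Or.inr hW))
          (uhec_eig hW1) (uhec_eig hW2) (uhec_eig hM') (hne1 _ _ hne)
          (hne1 _ _ (hne2 D1 hcon.1)) (hne1 _ _ (hne2 D2 hcon.2))
      · rintro (rfl | rfl)
        · exact c1
        · exact c2
    rw [horb, hset, Finset.sum_pair hnei]
    change x (uhGam P π.el g (QuotientGroup.mk D1)) + x (uhGam P π.el g (QuotientGroup.mk D2)) = _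
    rw [b1, b2, uhec_x_conj P hx, uhec_x_conj P hx]
  · -- no fixed points
    intro hno
    change ∑ i, u g i = 0
    rw [horb]
    apply Finset.sum_eq_zero
    intro i hi
    rw [Finset.mem_filter] at hi
    exfalso
    obtain ⟨M', h1⟩ := hfixW i hi.2
    exact hno (KP.fexT N π.el i) M' h1

end main

end SerreU
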