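import Pool.Agent.SerreU.UDefs
import Pool.Agent.SerreK.PELL

/-!
# UDIR: Dirichlet approximation in `OK n`
-/

namespace SerreU

open SerreE SerreK Complex

/-- second coordinate with respect to `1, ω` -/
noncomputable def dirV (n : ℕ) (w : ℂ) : ℝ := w.im / (Real.sqrt (4 * n + 3) / 2)

/-- first coordinate -/
noncomputable def dirU (n : ℕ) (w : ℂ) : ℝ := w.re - dirV n w / 2

theorem dir_sqrt_pos (n : ℕ) : 0 < Real.sqrt (4 * n + 3) := Real.sqrt_pos.2 (by positivity)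

theorem dir_coord (n : ℕ) (w : ℂ) : w = (dirU n w : ℂ) + (dirV n w : ℂ) * wC n := by
  have h := dir_sqrt_pos n
  apply Complex.ext
  · simp only [add_re, mul_re, ofReal_re, ofReal_im, zero_mul, sub_zero, wC, dirU]
    ring
  · simp only [add_im, mul_im, ofReal_re, ofReal_im, zero_mul, zero_add, add_zero, wC, dirV]
    field_simp

theorem dirV_sub (n : ℕ) (a b : ℂ) : dirV n (a - b) = dirV n a - dirV n b := by
  simp only [dirV, sub_im]
  ring

theorem dirU_sub (n : ℕ) (a b : ℂ) : dirU n (a - b) = dirU n a - dirU n b := by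
  simp only [dirU, dirV_sub, sub_re]
  ring

theorem dir_normSq (n : ℕ) (a b : ℝ) :
    normSq ((a : ℂ) + (b : ℂ) * wC n) = a ^ 2 + a * b + (n + 1) * b ^ 2 := by
  have h := sqrtD_sq n
  rw [normSq_apply]
  simp only [wC, add_re, mul_re, add_im, mul_im, ofReal_re, ofReal_im]
  linear_combination b ^ 2 * h / 4

theorem dir_floor (a b : ℝ) (Q : ℕ) (hQ : 0 < Q)
    (h : ⌊(Q : ℝ) * Int.fract a⌋₊ = ⌊(Q : ℝ) * Int.fract b⌋₊) :
    ∃ m : ℤ, |a - b - m| ≤ 1 / Q := by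
  refine ⟨⌊a⌋ - ⌊b⌋, ?_⟩
  have hQ' : (0 : ℝ) < Q := by exact_mod_cast hQ
  have e : a - b - ((⌊a⌋ - ⌊b⌋ : ℤ) : ℝ) = Int.fract a - Int.fract b := by
    push_cast
    rw [Int.fract, Int.fract]
    ring
  rw [e, le_div_iff₀ hQ']
  have h1 := Nat.floor_le (a := (Q : ℝ) * Int.fract a) (by have := Int.fract_nonneg a; positivity)
  have h2 := Nat.floor_le (a := (Q : ℝ) * Int.fract b) (by have := Int.fract_nonneg b; positivity)
  have h3 := Nat.lt_floor_add_one ((Q : ℝ) * Int.fract a)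
  have h4 := Nat.lt_floor_add_one ((Q : ℝ) * Int.fract b)
  rw [h] at h1 h3
  have h5 : |(Int.fract a - Int.fract b)| * Q = |(Q : ℝ) * Int.fract a - Q * Int.fract b| := by
    rw [← mul_sub, abs_mul, abs_of_pos hQ', mul_comm]
  rw [h5, abs_le]
  constructor <;> linarith

theorem dir_floor_lt (a : ℝ) (Q : ℕ) (hQ : 0 < Q) : ⌊(Q : ℝ) * Int.fract a⌋₊ < Q := by
  have hQ' : (0 : ℝ) < Q := by exact_mod_cast hQ
  rw [Nat.floor_lt (by have := Int.fract_nonneg a; positivity)]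
  have := Int.fract_lt_one a
  nlinarith

/-- Dirichlet approximation: for `z ∈ ℂ` and `Q ≥ 1` pigeonhole the `(Q+1)²` numbers
`(p + q ω) z`, `0 ≤ p, q ≤ Q`, modulo `O`, into `Q²` cells (coordinates with respect to the real
basis `1, ω` of `ℂ`).  See `SerreK.exists_small` (TSQM.lean) for a similar argument and PELL.lean
for `sig`, `wC`. -/
theorem dir_sig (n : ℕ) : Dir (sig n) := by
  refine ⟨n + 3, by positivity, ?_⟩
  intro z Q hQ
  have hQ' : (0 : ℝ) < Q := by exact_mod_cast hQ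
  let al : Fin (Q + 1) × Fin (Q + 1) → OK n := fun p => ⟨(p.1.val : ℤ), (p.2.val : ℤ)⟩
  let f : Fin (Q + 1) × Fin (Q + 1) → Fin Q × Fin Q := fun p =>
    (⟨⌊(Q : ℝ) * Int.fract (dirU n (sig n (al p) * z))⌋₊, dir_floor_lt _ Q hQ⟩,
      ⟨⌊(Q : ℝ) * Int.fract (dirV n (sig n (al p) * z))⌋₊, dir_floor_lt _ Q hQ⟩)
  obtain ⟨p, q, hpq, hf⟩ := Fintype.exists_ne_map_eq_of_card_lt f (by
    simp only [Fintype.card_prod, Fintype.card_fin]
    nlinarith)
  have hf1 : ⌊(Q : ℝ) * Int.fract (dirU n (sig n (al p) * z))⌋₊ =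
      ⌊(Q : ℝ) * Int.fract (dirU n (sig n (al q) * z))⌋₊ :=
    congrArg (fun t : Fin Q × Fin Q => t.1.val) hf
  have hf2 : ⌊(Q : ℝ) * Int.fract (dirV n (sig n (al p) * z))⌋₊ =
      ⌊(Q : ℝ) * Int.fract (dirV n (sig n (al q) * z))⌋₊ :=
    congrArg (fun t : Fin Q × Fin Q => t.2.val) hf
  obtain ⟨m1, hm1⟩ := dir_floor _ _ Q hQ hf1
  obtain ⟨m2, hm2⟩ := dir_floor _ _ Q hQ hf2
  refine ⟨⟨-m1, -m2⟩, al p - al q, ?_, ?_, ?_⟩
  · intro h
    apply hpq
    have h1 := congrArg (fun t : OK n => t.re) h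
    have h2 := congrArg (fun t : OK n => t.im) h
    simp only [al, QuadraticAlgebra.re_sub, QuadraticAlgebra.im_sub, QuadraticAlgebra.re_zero,
      QuadraticAlgebra.im_zero] at h1 h2
    apply Prod.ext <;> apply Fin.ext <;> omega
  · rw [sig_normSq]
    simp only [al, QuadraticAlgebra.re_sub, QuadraticAlgebra.im_sub]
    have b1 := p.1.isLt
    have b2 := p.2.isLt
    have b3 := q.1.isLt
    have b4 := q.2.isLt
    push_cast
    have c1 : |(p.1.val : ℝ) - (q.1.val : ℝ)| ≤ Q := by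
      rw [abs_le]
      have h1 : (p.1.val : ℝ) ≤ Q := by exact_mod_cast Nat.lt_succ_iff.1 b1
      have h2 : (q.1.val : ℝ) ≤ Q := by exact_mod_cast Nat.lt_succ_iff.1 b3
      have h3 : (0 : ℝ) ≤ p.1.val := Nat.cast_nonneg _
      have h4 : (0 : ℝ) ≤ q.1.val := Nat.cast_nonneg _
      constructor <;> linarith
    have c2 : |(p.2.val : ℝ) - (q.2.val : ℝ)| ≤ Q := by
      rw [abs_le]
      have h1 : (p.2.val : ℝ) ≤ Q := by exact_mod_cast Nat.lt_succ_iff.1 b2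
      have h2 : (q.2.val : ℝ) ≤ Q := by exact_mod_cast Nat.lt_succ_iff.1 b4
      have h3 : (0 : ℝ) ≤ p.2.val := Nat.cast_nonneg _
      have h4 : (0 : ℝ) ≤ q.2.val := Nat.cast_nonneg _
      constructor <;> linarith
    generalize (p.1.val : ℝ) - (q.1.val : ℝ) = a at c1 ⊢
    generalize (p.2.val : ℝ) - (q.2.val : ℝ) = b at c2 ⊢
    have s1 : a ^ 2 ≤ (Q : ℝ) ^ 2 := sq_le_sq' (abs_le.1 c1).1 (abs_le.1 c1).2
    have s2 : b ^ 2 ≤ (Q : ℝ) ^ 2 := sq_le_sq' (abs_le.1 c2).1 (abs_le.1 c2).2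
    have s3 : a * b ≤ (Q : ℝ) ^ 2 := by nlinarith [sq_nonneg (a - b)]
    have hn : (0 : ℝ) ≤ n := Nat.cast_nonneg n
    nlinarith
  · have e : sig n ⟨-m1, -m2⟩ + sig n (al p - al q) * z =
        ((dirU n (sig n (al p) * z) - dirU n (sig n (al q) * z) - m1 : ℝ) : ℂ) +
        ((dirV n (sig n (al p) * z) - dirV n (sig n (al q) * z) - m2 : ℝ) : ℂ) * wC n := by
      rw [← dirU_sub, ← dirV_sub, ← sub_mul, ← map_sub]
      conv_lhs => rw [dir_coord n (sig n (al p - al q) * z)]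
      rw [sig_apply]
      push_cast
      ring
    rw [e, dir_normSq]
    generalize dirU n (sig n (al p) * z) - dirU n (sig n (al q) * z) - m1 = a at hm1 ⊢
    generalize dirV n (sig n (al p) * z) - dirV n (sig n (al q) * z) - m2 = b at hm2 ⊢
    have s1 : a ^ 2 ≤ (1 / Q : ℝ) ^ 2 := sq_le_sq' (abs_le.1 hm1).1 (abs_le.1 hm1).2
    have s2 : b ^ 2 ≤ (1 / Q : ℝ) ^ 2 := sq_le_sq' (abs_le.1 hm2).1 (abs_le.1 hm2).2
    have s3 : a * b ≤ (1 / Q : ℝ) ^ 2 := by nlinarith [sq_nonneg (a - b)]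
    have hn : (0 : ℝ) ≤ n := Nat.cast_nonneg n
    have e2 : ((n : ℝ) + 3) / (Q : ℝ) ^ 2 = (n + 3) * (1 / Q : ℝ) ^ 2 := by
      rw [one_div, inv_pow, div_eq_mul_inv]
    rw [e2]
    nlinarith

end SerreU
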