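import Mathlib

/-!
# UALG: an eigenvector in the group algebra of a finite abelian group
-/

namespace SerreU

section ualg

variable {C : Type} [CommGroup C] {k : Type} [Field k]

/-- translation -/
def ualgT (k : Type) [Field k] (d : C) : Module.End k (C → k) where
  toFun m := fun c => m (d⁻¹ * c)
  map_add' _ _ := rfl
  map_smul' _ _ := rfl

/-- the operator `d m - ψ(d)⁻¹ m` -/
def ualgD (ψ : C →* kˣ) (d : C) : Module.End k (C → k) :=
  ualgT k d - algebraMap k _ (((ψ d)⁻¹ : kˣ) : k)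

theorem ualgT_mul (d e : C) : ualgT k (d * e) = ualgT k d * ualgT k e := by
  ext m c
  simp only [ualgT, LinearMap.coe_mk, AddHom.coe_mk, Module.End.mul_apply]
  congr 1
  rw [mul_inv_rev, mul_assoc]

theorem ualgT_one : ualgT k (1 : C) = 1 := by
  ext m c
  simp [ualgT]

theorem ualgT_pow (d : C) (n : ℕ) : ualgT k (d ^ n) = ualgT k d ^ n := by
  induction n with
  | zero => rw [pow_zero, pow_zero, ualgT_one]
  | succ n ih => rw [pow_succ, pow_succ, ualgT_mul, ih]

theorem ualgT_comm (d e : C) : Commute (ualgT k d) (ualgT k e) := by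
  unfold Commute SemiconjBy
  rw [← ualgT_mul, ← ualgT_mul, mul_comm]

theorem ualgD_comm (ψ : C →* kˣ) (d e : C) : Commute (ualgD ψ d) (ualgD ψ e) := by
  unfold ualgD
  have h1 : ∀ (a : k) (f : Module.End k (C → k)), Commute (algebraMap k _ a) f :=
    fun a f => Algebra.commutes a f
  exact ((ualgT_comm d e).sub_right (h1 _ _).symm).sub_left ((h1 _ _).sub_right (h1 _ _))

theorem ualg_odd_pow (d : C) (hd : orderOf d ≠ 0) {r : ℕ} (hr : orderOf d ≤ r) :
    Odd (orderOf (d ^ 2 ^ r)) := by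
  obtain ⟨a, m, hm, hn⟩ := Nat.exists_eq_two_pow_mul_odd hd
  have ha : a ≤ r := by
    have h1 : a < 2 ^ a := Nat.lt_two_pow_self
    have h2 : 2 ^ a ≤ 2 ^ a * m := Nat.le_mul_of_pos_right _ hm.pos
    omega
  have h3 : (d ^ 2 ^ r) ^ m = 1 := by
    rw [← pow_mul]
    apply orderOf_dvd_iff_pow_eq_one.mp
    rw [hn]
    exact mul_dvd_mul_right (pow_dvd_pow 2 ha) m
  exact Odd.of_dvd_nat hm (orderOf_dvd_of_pow_eq_one h3)

theorem ualg_odd_iff (e c : C) (he : Odd (orderOf e)) :
    Odd (orderOf (e⁻¹ * c)) ↔ Odd (orderOf c) := by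
  have key : ∀ x y : C, Odd (orderOf x) → Odd (orderOf y) → Odd (orderOf (x * y)) := by
    intro x y hx hy
    have h := (Commute.all x y).orderOf_mul_dvd_mul_orderOf
    exact Odd.of_dvd_nat (hx.mul hy) h
  constructor
  · intro h
    have := key e _ he h
    rwa [mul_inv_cancel_left] at this
  · intro h
    refine key _ _ ?_ h
    rwa [orderOf_inv]

open Classical in
/-- the starting vector -/
noncomputable def ualgM (ψ : C →* kˣ) : C → k :=
  fun c => if Odd (orderOf c) then (ψ c : k) else 0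

theorem ualgT_m0 (ψ : C →* kˣ) (e : C) (he : Odd (orderOf e)) :
    ualgT k e (ualgM ψ) = (((ψ e)⁻¹ : kˣ) : k) • ualgM ψ := by
  ext c
  simp only [ualgT, ualgM, LinearMap.coe_mk, AddHom.coe_mk, Pi.smul_apply, smul_eq_mul]
  by_cases h : Odd (orderOf c)
  · rw [if_pos h, if_pos ((ualg_odd_iff e c he).mpr h), map_mul, map_inv, Units.val_mul]
  · rw [if_neg h, if_neg (fun h' => h ((ualg_odd_iff e c he).mp h')), mul_zero]

theorem ualgD_nil [CharP k 2] (ψ : C →* kˣ) (d : C) (hd : orderOf d ≠ 0) {r : ℕ}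
    (hr : orderOf d ≤ r) : (ualgD ψ d ^ 2 ^ r) (ualgM ψ) = 0 := by
  have : CharP (Module.End k (C → k)) 2 :=
    charP_of_injective_algebraMap (FaithfulSMul.algebraMap_injective k _) 2
  have : Fact (Nat.Prime 2) := ⟨Nat.prime_two⟩
  have h1 : ualgD ψ d ^ 2 ^ r =
      ualgT k d ^ 2 ^ r - (algebraMap k (Module.End k (C → k)) (((ψ d)⁻¹ : kˣ) : k)) ^ 2 ^ r := by
    unfold ualgD
    exact sub_pow_char_pow_of_commute _ _ (Algebra.commutes _ _).symm
  rw [h1, ← ualgT_pow, ← map_pow, LinearMap.sub_apply, ualgT_m0 ψ _ (ualg_odd_pow d hd hr)]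
  rw [Module.algebraMap_end_apply, map_pow, ← inv_pow, Units.val_pow_eq_pow_val, sub_self]

end ualg

open Classical in
/-- Let `F : X → (C → k)` be linear, `C` a finite abelian group, `ψ : C → kˣ` a character,
`char k = 2`.  If the functional `x ↦ Σ_{c of odd order} ψ(c) F(x)(c)` is not zero, then there is
`m : C → k` such that the functional `E_m : x ↦ Σ_c m(c) F(x)(c)` is not zero and
`E_{d m} = ψ(d)⁻¹ E_m`, where `(d m)(c) = m(d⁻¹ c)`.

Proof.  Let `m₀(c) = ψ(c)` if `c` has odd order and `0` otherwise.  The operators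
`D_d m = d m - ψ(d)⁻¹ m`, `d ∈ C`, commute, and `D_d ^ (2 ^ r) m₀ = 0` if `2 ^ r` is the largest
power of `2` dividing the order of `C`, since in characteristic `2` it is
`d ^ (2 ^ r) m₀ - ψ(d) ^ (- 2 ^ r) m₀`, and `d ^ (2 ^ r)` has odd order.  Take a monomial of maximal
total degree in the `D_d` whose value `m` at `m₀` satisfies `E_m ≠ 0`. -/
theorem eiga {C : Type} [CommGroup C] [Fintype C] {k : Type} [Field k] [CharP k 2] {X : Type}
    [AddCommGroup X] [Module k X] (F : X →ₗ[k] (C → k)) (ψ : C →* kˣ)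
    (h : ∃ x, ∑ c, (if Odd (orderOf c) then (ψ c : k) else 0) * F x c ≠ 0) :
    ∃ m : C → k, (∃ x, ∑ c, m c * F x c ≠ 0) ∧
      ∀ d x, ∑ c, m (d⁻¹ * c) * F x c = (((ψ d)⁻¹ : kˣ) : k) * ∑ c, m c * F x c := by
  set r := Fintype.card C with hr
  have hcomm : ∀ d e : C, Commute (ualgD ψ d) (ualgD ψ e) := ualgD_comm ψ
  -- the product over a list
  let P : List C → Module.End k (C → k) := fun l => (l.map (ualgD ψ)).prod
  have hperm : ∀ l l' : List C, l.Perm l' → P l = P l' := by
    intro l l' hl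
    exact (hl.map (ualgD ψ)).prod_eq' (by
      apply List.Pairwise.imp_of_mem (R := fun _ _ => True)
      · intro a b ha hb _
        obtain ⟨a, _, rfl⟩ := List.mem_map.mp ha
        obtain ⟨b, _, rfl⟩ := List.mem_map.mp hb
        exact hcomm a b
      · exact List.pairwise_of_forall (fun _ _ => trivial))
  have hbig : ∀ l : List C, r * 2 ^ r < l.length → P l (ualgM ψ) = 0 := by
    intro l hl
    obtain ⟨d, hd⟩ : ∃ d, 2 ^ r ≤ l.count d := by
      by_contra hcon
      push Not at hcon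
      have h1 : l.length = ∑ d, l.count d := by
        rw [← Multiset.coe_card, ← Multiset.sum_count_eq_card (s := Finset.univ) (m := (l : Multiset C))
          (fun _ _ => Finset.mem_univ _)]
        simp
      have h2 : ∑ d, l.count d ≤ ∑ _d : C, 2 ^ r := Finset.sum_le_sum (fun d _ => (hcon d).le)
      rw [Finset.sum_const, smul_eq_mul, Finset.card_univ, ← hr] at h2
      omega
    have h1 : List.Subperm (List.replicate (2 ^ r) d) l := by
      rw [List.subperm_ext_iff]
      intro x hx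
      have := List.eq_of_mem_replicate hx
      subst this
      rw [List.count_replicate_self]
      exact hd
    obtain ⟨l1, hp1, hs1⟩ := h1
    obtain ⟨l', hl'⟩ := hs1.exists_perm_append
    rw [hperm l (l' ++ List.replicate (2 ^ r) d)
      (hl'.trans ((hp1.append_right l').trans List.perm_append_comm))]
    simp only [P, List.map_append, List.prod_append, List.map_replicate, List.prod_replicate,
      Module.End.mul_apply]
    rw [ualgD_nil ψ d (orderOf_pos d).ne' (orderOf_le_card_univ), map_zero]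
  let E : (C → k) → X → k := fun m x => ∑ c, m c * F x c
  let S : Set ℕ := {n | ∃ l : List C, l.length = n ∧ ∃ x, E (P l (ualgM ψ)) x ≠ 0}
  have hS0 : (0 : ℕ) ∈ S := ⟨[], rfl, h⟩
  have hSb : ∀ n ∈ S, n ≤ r * 2 ^ r := by
    rintro n ⟨l, hl, x, hx⟩
    by_contra hcon
    apply hx
    rw [hbig l (by omega)]
    simp [E]
  obtain ⟨n, hn, hmax⟩ : ∃ n ∈ S, ∀ n' ∈ S, n' ≤ n := by
    have hb : BddAbove S := ⟨_, hSb⟩
    exact ⟨sSup S, Nat.sSup_mem ⟨0, hS0⟩ hb, fun n' hn' => le_csSup hb hn'⟩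
  obtain ⟨l, hl, hx⟩ := hn
  refine ⟨P l (ualgM ψ), hx, fun d x => ?_⟩
  have h2 : E (P (d :: l) (ualgM ψ)) x = 0 := by
    by_contra hcon
    have := hmax (n + 1) ⟨d :: l, by rw [List.length_cons, hl], x, hcon⟩
    omega
  have h3 : P (d :: l) (ualgM ψ) = ualgD ψ d (P l (ualgM ψ)) := by
    simp only [P, List.map_cons, List.prod_cons, Module.End.mul_apply]
  rw [h3] at h2
  simp only [E, ualgD, LinearMap.sub_apply, Module.algebraMap_end_apply, Pi.sub_apply,
    Pi.smul_apply, smul_eq_mul, sub_mul, Finset.sum_sub_distrib] at h2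
  rw [Finset.mul_sum]
  have h4 := sub_eq_zero.mp h2
  calc _ = _ := h4
    _ = _ := by
      apply Finset.sum_congr rfl
      intro c _
      ring

end SerreU
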