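import Pool.Agent.SerreU.UDefs
import Pool.Agent.SerreM.AXISM

/-!
# UAX: the dichotomy for a family of axes
-/

namespace SerreU

open SerreE SerreK SerreM

/-- the relation attached to `g, h` -/
noncomputable def rel1 {Γ : Type} [Group Γ] (k : Type) [Field k] (g h : Γ) : Γ →₀ k :=
  Finsupp.single (g * h) 1 - Finsupp.single g 1 - (Finsupp.single h 1 - Finsupp.single 1 1)

section
variable {Γ : Type} [Group Γ] {k : Type} [Field k]

/-- existence of an adapted weight, for left multiplication by `J` and right multiplication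
by `q` -/
theorem exists_weightU {J q : Γ} (hJ2 : J * J = 1) (hJ1 : J ≠ 1) (hq2 : q * q = 1) (T : Set Γ)
    (hT : ∀ δ, δ * q = J * δ → (δ ∈ T ↔ J * δ ∉ T)) :
    ∃ ε : Γ → k, (∀ δ, ε δ + ε (J * δ) = 1) ∧ (∀ δ, δ * q ≠ J * δ → ε (δ * q) = ε δ) ∧
      (∀ δ, δ * q = J * δ → δ ∈ T → ε δ = 1) ∧ (∀ δ, δ * q = J * δ → δ ∉ T → ε δ = 0) := by
  classical
  have k1 : ∀ a : Γ, J * (J * a) = a := fun a => by rw [← mul_assoc, hJ2, one_mul]
  have k2 : ∀ a : Γ, a * q * q = a := fun a => by rw [mul_assoc, hq2, mul_one]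
  let S : Setoid Γ :=
    { r := fun a b => b = a ∨ b = J * a ∨ b = a * q ∨ b = J * a * q
      iseqv := by
        refine ⟨fun a => Or.inl rfl, ?_, ?_⟩
        · rintro a b (h | h | h | h)
          · exact Or.inl h.symm
          · refine Or.inr (Or.inl ?_)
            rw [h, k1]
          · refine Or.inr (Or.inr (Or.inl ?_))
            rw [h, k2]
          · refine Or.inr (Or.inr (Or.inr ?_))
            rw [h, mul_assoc J a q, k1, k2]
        · rintro a b c (h | h | h | h) (h' | h' | h' | h') <;> subst h <;> subst h' <;>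
            simp only [k1, hq2, mul_assoc, true_or, or_true, mul_one] }
  have hout : ∀ δ, δ = (Quotient.mk S δ).out ∨ δ = J * (Quotient.mk S δ).out ∨
      δ = (Quotient.mk S δ).out * q ∨ δ = J * (Quotient.mk S δ).out * q := by
    intro δ
    have : S.r (Quotient.mk S δ).out δ := Quotient.exact (Quotient.out_eq _)
    exact this
  have hcl1 : ∀ δ, Quotient.mk S (J * δ) = Quotient.mk S δ := by
    intro δ
    symm
    apply Quotient.sound
    exact Or.inr (Or.inl rfl)
  have hcl2 : ∀ δ, Quotient.mk S (δ * q) = Quotient.mk S δ := by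
    intro δ
    symm
    apply Quotient.sound
    exact Or.inr (Or.inr (Or.inl rfl))
  have hA : ∀ x : Γ, x ≠ J * x := fun x h => hJ1 (right_eq_mul.mp h)
  -- the set `δ q = J δ` is stable
  have hD1 : ∀ δ, δ * q = J * δ → J * δ * q = J * (J * δ) := by
    intro δ h
    rw [mul_assoc, h]
  have hD2 : ∀ δ, δ * q = J * δ → δ * q * q = J * (δ * q) := by
    intro δ h
    rw [h, mul_assoc, h]
  have hD1' : ∀ δ, J * δ * q = J * (J * δ) → δ * q = J * δ := by
    intro δ h
    rw [mul_assoc] at h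
    exact mul_left_cancel h
  have hD2' : ∀ δ, δ * q * q = J * (δ * q) → δ * q = J * δ := by
    intro δ h
    rw [k2, ← mul_assoc] at h
    have := congrArg (fun x => x * q) h
    simp only [k2] at this
    exact this
  refine ⟨fun δ => if δ * q = J * δ then (if δ ∈ T then 1 else 0) else
    (if δ = (Quotient.mk S δ).out ∨ δ = (Quotient.mk S δ).out * q then 1 else 0), ?_, ?_, ?_, ?_⟩
  · intro δ
    by_cases hc : δ * q = J * δ
    · beta_reduce
      rw [if_pos hc, if_pos (hD1 δ hc)]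
      by_cases hm : δ ∈ T
      · rw [if_pos hm, if_neg ((hT δ hc).mp hm), add_zero]
      · have hm' : J * δ ∈ T := by
          by_contra h
          exact hm ((hT δ hc).mpr h)
        rw [if_neg hm, if_pos hm', zero_add]
    · have hc' : ¬ J * δ * q = J * (J * δ) := fun h => hc (hD1' δ h)
      beta_reduce
      rw [if_neg hc, if_neg hc', hcl1]
      set r := (Quotient.mk S δ).out with hr
      have hor := hout δ
      rw [← hr] at hor
      have hrc : r * q ≠ J * r := by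
        intro h
        apply hc
        rcases hor with h' | h' | h' | h' <;> rw [h']
        · exact h
        · exact hD1 r h
        · exact hD2 r h
        · exact hD2 _ (hD1 r h)
      have hC1 : r ≠ J * r * q := by
        intro h
        apply hrc
        have := congrArg (fun x => x * q) h
        simp only [k2] at this
        exact this
      rcases hor with h' | h' | h' | h'
      · rw [if_pos (Or.inl h'), if_neg, add_zero]
        rw [h']
        rintro (h | h)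
        · exact hA r h.symm
        · exact hrc h.symm
      · rw [if_neg, if_pos, zero_add]
        · left; rw [h', k1]
        · rw [h']
          rintro (h | h)
          · exact hA r h.symm
          · exact hrc h.symm
      · rw [if_pos (Or.inr h'), if_neg, add_zero]
        rw [h', ← mul_assoc]
        rintro (h | h)
        · exact hC1 h.symm
        · exact hA (r) (mul_right_cancel h).symm
      · rw [if_neg, if_pos, zero_add]
        · right; rw [h', mul_assoc J r q, k1]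
        · rw [h']
          rintro (h | h)
          · exact hC1 h.symm
          · exact hA (r) (mul_right_cancel h).symm
  · intro δ hc
    have hc' : ¬ δ * q * q = J * (δ * q) := fun h => hc (hD2' δ h)
    beta_reduce
    rw [if_neg hc, if_neg hc', hcl2]
    congr 1
    apply propext
    constructor
    · rintro (h | h)
      · right; rw [← h, k2]
      · left; exact mul_right_cancel h
    · rintro (h | h)
      · right; exact congrArg (fun x => x * q) h
      · left
        have h3 := congrArg (fun x => x * q) h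
        simp only [k2] at h3
        exact h3
  · intro δ hc hm
    beta_reduce
    rw [if_pos hc, if_pos hm]
  · intro δ hc hm
    beta_reduce
    rw [if_pos hc, if_neg hm]

variable [CharP k 2]

/-- a half sum of a doubly invariant function is the sum over `T` -/
theorem wsum_axisU {J q : Γ} (hJ2 : J * J = 1) (hJ1 : J ≠ 1) (hq2 : q * q = 1) (hq1 : q ≠ 1)
    (T : Set Γ) (hTc : ∀ δ ∈ T, δ * q = J * δ) (hT : ∀ δ, δ * q = J * δ → (δ ∈ T ↔ J * δ ∉ T))
    {ε : Γ → k} (hε : ∀ δ, ε δ + ε (J * δ) = 1) {F : Γ → k}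
    (hF : (Function.support F).Finite) (hJF : ∀ δ, F (J * δ) = F δ)
    (hFJ : ∀ δ, F (δ * q) = F δ) :
    wsum ε F = ∑ᶠ δ ∈ T, F δ := by
  classical
  have k2 : ∀ a : Γ, a * q * q = a := fun a => by rw [mul_assoc, hq2, mul_one]
  obtain ⟨ε', w1, w2, w3, w4⟩ := exists_weightU (k := k) hJ2 hJ1 hq2 T hT
  rw [wsum_indep hJ2 hJ1 hF hε w1 hJF]
  set G1 : Γ → k := fun δ => if δ * q = J * δ then ε' δ * F δ else 0 with hG1
  set G2 : Γ → k := fun δ => if δ * q = J * δ then 0 else ε' δ * F δ with hG2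
  have s1 : (Function.support G1).Finite := by
    refine (wsum_supp (ε := ε') hF).subset ?_
    intro δ hδ
    rw [Function.mem_support] at hδ ⊢
    intro h
    apply hδ
    rw [hG1]
    beta_reduce
    rw [h, ite_self]
  have s2 : (Function.support G2).Finite := by
    refine (wsum_supp (ε := ε') hF).subset ?_
    intro δ hδ
    rw [Function.mem_support] at hδ ⊢
    intro h
    apply hδ
    rw [hG2]
    beta_reduce
    rw [h, ite_self]
  have hsplit : wsum ε' F = (∑ᶠ δ, G1 δ) + ∑ᶠ δ, G2 δ := by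
    rw [← finsum_add_distrib s1 s2]
    unfold wsum
    apply finsum_congr
    intro δ
    rw [hG1, hG2]
    beta_reduce
    by_cases h : δ * q = J * δ
    · rw [if_pos h, if_pos h, add_zero]
    · rw [if_neg h, if_neg h, zero_add]
  have z2 : ∑ᶠ δ, G2 δ = 0 := by
    refine finsum_involution s2 (fun δ => δ * q) ?_ ?_ ?_
    · intro δ
      exact k2 δ
    · intro δ _ h1
      exact hq1 (mul_eq_left.mp h1)
    · intro δ
      rw [hG2]
      beta_reduce
      by_cases h : δ * q = J * δ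
      · have h' : δ * q * q = J * (δ * q) := by rw [h, mul_assoc, h]
        rw [if_pos h, if_pos h']
      · have h' : ¬ δ * q * q = J * (δ * q) := by
          intro h3
          apply h
          rw [k2, ← mul_assoc] at h3
          have := congrArg (fun x => x * q) h3
          simp only [k2] at this
          exact this
        rw [if_neg h, if_neg h', w2 δ h, hFJ]
  rw [hsplit, z2, add_zero]
  have e4 : ∑ᶠ δ, G1 δ = ∑ᶠ δ ∈ T, G1 δ := by
    rw [← finsum_mem_univ]
    apply finsum_mem_inter_support_eq'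
    intro δ hδ
    rw [Function.mem_support] at hδ
    refine ⟨fun _ => ?_, fun _ => Set.mem_univ _⟩
    by_contra hn
    apply hδ
    rw [hG1]
    beta_reduce
    split_ifs with h
    · rw [w4 δ h hn, zero_mul]
    · rfl
  rw [e4]
  apply finsum_mem_congr rfl
  intro δ hδ
  rw [hG1]
  beta_reduce
  rw [if_pos (hTc δ hδ), w3 δ (hTc δ hδ) hδ, one_mul]

end

section
variable {Γ : Type} [Group Γ] {ρ : Γ →* (V →ₗ[ℝ] V)} {I : Type} {J : I → Γ}

/-- replacing `x1, x2` by `r x1, r x2`, where `r (J j) = (J i) r` -/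
def mvPts (F : Fam ρ J) {i j : I} {η r : Γ} (hη : η * J i = J i * η) (hr : r * J j = J i * r) :
    Pts' ρ (J i) η :=
  { F.pts hη with
    x1 := ρ r F.x1
    x2 := ρ r F.x2
    x1_in := F.inC _ _ F.x1_in
    x2_in := F.inC _ _ F.x2_in
    g1 := fun a b c d e => by
      rw [← rho_mul ρ b r, ← rho_mul ρ c r]
      exact F.g1 a (b * r) (c * r) d e
    g2 := fun a b c d e => by
      rw [← rho_mul ρ b r, ← rho_mul ρ c r]
      exact F.g2 i a (b * r) (c * r) d e
    g3 := fun a b c d => by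
      rw [← rho_mul ρ b r, ← rho_mul ρ c r]
      exact F.g3 i a (b * r) (c * r) d
    g4 := fun a d e => by
      rw [← rho_mul ρ (J i) r, ← hr, rho_mul ρ r (J j), ← rho_mul ρ a r, ← rho_mul ρ a r,
        ← rho_mul ρ a r]
      exact F.g4 j (a * r) d e
    g5 := fun a d e => by
      rw [← rho_mul ρ (J i) r, ← hr, rho_mul ρ r (J j), ← rho_mul ρ a r, ← rho_mul ρ a r,
        ← rho_mul ρ a r]
      exact F.g5 i j (a * r) d e
    g6 := fun a d => by
      rw [← rho_mul ρ (J i) r, ← hr, rho_mul ρ r (J j), ← rho_mul ρ a r, ← rho_mul ρ a r,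
        ← rho_mul ρ a r]
      exact F.g6 i j (a * r) d }

variable {k : Type} [Field k] (ψ : Γ →* kˣ)

theorem IR_mv (F : Fam ρ J) {i j : I} {η r : Γ} (hη : η * J i = J i * η)
    (hr : r * J j = J i * r) (hψr : ψ r = 1) (δ : Γ) :
    IR ψ (F.pts hη).toPts F.x2 (ρ (J j) F.x2) (δ * r) =
      IR ψ (mvPts F hη hr).toPts (mvPts F hη hr).x2 (ρ (J i) (mvPts F hη hr).x2) δ := by
  have key : ∀ a b c, iB ρ ψ a b c F.x2 (ρ (J j) F.x2) (δ * r) =
      iB ρ ψ a b c (ρ r F.x2) (ρ (J i) (ρ r F.x2)) δ := by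
    intro a b c
    unfold iB
    rw [map_mul, hψr, mul_one, rho_mul, rho_mul ρ δ r, ← rho_mul ρ r (J j), hr,
      rho_mul ρ (J i) r]
  unfold IR
  rw [key, key, key, key, key, key]
  rfl

variable [CharP k 2]

/-- the half sum around the axis of `J i` of the half turn `J j` -/
theorem HR_count (F : Fam ρ J) {i j : I} {η : Γ} (hη : η * J i = J i * η) {L : V ≃ₗ[ℝ] V}
    (hL : Diag ρ (J i) L) {l : ℝ} (hl : 1 < l)
    (hηL : ∀ v, L (ρ η v) 0 = l * L v 0 ∧ L (ρ η v) 1 = l⁻¹ * L v 1)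
    (hψ : ∀ g, ψ g = 1) (Δ : Finset Γ) (hΔ1 : ∀ δ ∈ Δ, δ * J j = J i * δ)
    (hΔ2 : ∀ δ, δ * J j = J i * δ →
      ∃ δ' ∈ Δ, ∃ n : ℤ, δ = η ^ n * δ' ∨ δ = J i * η ^ n * δ')
    (hΔ3 : ∀ δ ∈ Δ, ∀ δ' ∈ Δ, ∀ n : ℤ, (δ = η ^ n * δ' ∨ δ = J i * η ^ n * δ') → δ = δ')
    {ε : Γ → k} (hε : ∀ δ, ε δ + ε (J i * δ) = 1) :
    HR ψ (F.pts hη).toPts ε F.x2 (ρ (J j) F.x2) = (Δ.card : k) := by
  classical
  have hinf := eta_inf (F.pts hη) hL hl hηL
  have hcomm : ∀ n : ℤ, η ^ n * J i = J i * η ^ n := by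
    intro n
    have : Commute η (J i) := hη
    exact (this.zpow_left n).eq
  have hinj : Function.Injective (fun n : ℤ => η ^ n) := by
    intro a b hab
    have h1 : η ^ (a - b) = 1 := by
      rw [zpow_sub]
      change η ^ a = η ^ b at hab
      rw [hab, mul_inv_cancel]
    have := hinf _ h1
    omega
  have hne : ∀ n m : ℤ, J i * η ^ n ≠ η ^ m := by
    intro n m h
    have h1 : J i = η ^ (m - n) := by
      rw [zpow_sub, ← h, mul_inv_cancel_right]
    have h2 : η ^ (m - n + (m - n)) = 1 := by rw [zpow_add, ← h1, F.J2]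
    have h3 := hinf _ h2
    have h4 : m - n = 0 := by omega
    rw [h4, zpow_zero] at h1
    exact F.J1 i h1
  have k1 : ∀ a : Γ, J i * (J i * a) = a := fun a => by rw [← mul_assoc, F.J2, one_mul]
  have hin : InC (ρ (J j) F.x2) := F.inC _ _ F.x2_in
  have hFsupp := IR_fin ψ (F.pts hη).toPts F.x2_in hin
  have hFJ : ∀ δ, IR ψ (F.pts hη).toPts F.x2 (ρ (J j) F.x2) (δ * J j) =
      IR ψ (F.pts hη).toPts F.x2 (ρ (J j) F.x2) δ := by
    intro δ
    have hgg : ∀ v, ρ (J j) (ρ (J j) v) = v := fun v => by rw [← rho_mul, F.J2, rho_one]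
    have key : ∀ a b c, iB ρ ψ a b c F.x2 (ρ (J j) F.x2) (δ * J j) =
        iB ρ ψ a b c F.x2 (ρ (J j) F.x2) δ := by
      intro a b c
      have h := iB_mul (ρ := ρ) ψ (J j) a b c F.x2 (ρ (J j) F.x2) δ
      rw [hgg, hψ, inv_one, Units.val_one, one_mul, iB_swap] at h
      exact h.symm
    unfold IR
    rw [key, key, key, key, key, key]
  let T' : Γ → Set Γ := fun δ' => Set.range (fun n : ℤ => η ^ n * δ')
  let T : Set Γ := ⋃ δ' ∈ Δ, T' δ'
  have hmemT : ∀ δ, δ ∈ T ↔ ∃ δ' ∈ Δ, ∃ n : ℤ, δ = η ^ n * δ' := by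
    intro δ
    simp only [T, T', Set.mem_iUnion, Set.mem_range]
    constructor
    · rintro ⟨δ', h1, n, h2⟩
      exact ⟨δ', h1, n, h2.symm⟩
    · rintro ⟨δ', h1, n, h2⟩
      exact ⟨δ', h1, n, h2.symm⟩
  have hTc : ∀ δ ∈ T, δ * J j = J i * δ := by
    intro δ hδ
    obtain ⟨δ', h1, n, rfl⟩ := (hmemT δ).mp hδ
    rw [mul_assoc, hΔ1 δ' h1, ← mul_assoc, hcomm, mul_assoc]
  unfold HR
  rw [wsum_axisU (F.J2 i) (F.J1 i) (F.J2 j) (F.J1 j) T hTc ?_ hε hFsupp
    (IR_J ψ (F.pts hη).toPts (hψ _) _ _) hFJ]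
  · have hdisj : (Δ : Set Γ).PairwiseDisjoint T' := by
      intro a ha b hb hab
      rw [Function.onFun, Set.disjoint_left]
      rintro _ ⟨n, rfl⟩ ⟨m, hm⟩
      apply hab
      refine hΔ3 a ha b hb (m - n) (Or.inl ?_)
      change η ^ m * b = η ^ n * a at hm
      rw [sub_eq_neg_add, zpow_add, mul_assoc, hm, zpow_neg, inv_mul_cancel_left]
    have hT_eq : T = ⋃ δ' ∈ (Δ : Set Γ), T' δ' := rfl
    rw [hT_eq, ← finsum_mem_inter_support, Set.iUnion₂_inter,
      finsum_mem_biUnion (hdisj.mono (fun δ' => Set.inter_subset_left)) Δ.finite_toSet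
      (fun δ' _ => hFsupp.subset Set.inter_subset_right)]
    simp only [finsum_mem_inter_support]
    have e : ∀ δ' ∈ (Δ : Set Γ), ∑ᶠ δ ∈ T' δ', IR ψ (F.pts hη).toPts F.x2 (ρ (J j) F.x2) δ =
        1 := by
      intro δ' hδ'
      have hinj' : Function.Injective (fun n : ℤ => η ^ n * δ') := by
        intro a b hab
        exact hinj (mul_right_cancel hab)
      rw [finsum_mem_range hinj', ← IR_sumL ψ (mvPts F hη (hΔ1 δ' hδ')) hL hl hηL (hψ _)]
      apply finsum_congr
      intro n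
      exact IR_mv ψ F hη (hΔ1 δ' hδ') (hψ _) (η ^ n)
    rw [finsum_mem_congr rfl e, finsum_mem_coe_finset]
    simp
  · intro δ hδ
    rw [hmemT, hmemT]
    constructor
    · rintro ⟨δ', h1, n, h2⟩ ⟨δ'', h3, m, h4⟩
      have h5 : δ' = J i * η ^ (m - n) * δ'' ∨ False := by
        left
        have e1 : J i * (η ^ n * δ') = η ^ m * δ'' := by rw [← h2, h4]
        have e2 : δ' = (η ^ n)⁻¹ * (J i * (η ^ m * δ'')) := by
          rw [← e1, k1, inv_mul_cancel_left]
        have e3 : (η ^ n)⁻¹ * J i = J i * (η ^ n)⁻¹ := by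
          have := hcomm (-n)
          rw [zpow_neg] at this
          exact this
        rw [e2, ← mul_assoc, e3, sub_eq_neg_add, zpow_add, zpow_neg]
        simp only [mul_assoc]
      have h6 := hΔ3 δ' h1 δ'' h3 (m - n) (Or.inr (h5.resolve_right id))
      subst h6
      have h7 : η ^ n * δ' = J i * η ^ m * δ' ∨ False := by
        left
        have e1 : J i * (η ^ n * δ') = η ^ m * δ' := by rw [← h2, h4]
        rw [mul_assoc, ← e1, k1]
      exact hne m n (mul_right_cancel (h7.resolve_right id)).symm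
    · intro h
      obtain ⟨δ', h1, n, h2 | h2⟩ := hΔ2 δ hδ
      · exact ⟨δ', h1, n, h2⟩
      · exfalso
        apply h
        refine ⟨δ', h1, n, ?_⟩
        rw [h2, mul_assoc, k1]

end

theorem rel1_eq {Γ : Type} [Group Γ] (k : Type) [Field k] (g h : Γ) :
    rel1 k g h = relz (1 : Γ →* kˣ) g h := by
  unfold rel1 relz
  rw [MonoidHom.one_apply, inv_one, Units.val_one, one_smul]

/-- If `Σ_j m j ([q j] - [1])`, `q j` involutions, is a combination of the relations
`[g h] - [g] - [h] + [1]`, then there is a homomorphism `b : Γ → k`, zero on all involutions, with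
`b (η i) = Σ_j m j |Δ i j|`, where `Δ i j` is a system of representatives of
`{δ | δ q j = w i δ}` modulo left multiplication by `⟨w i, η i⟩`. -/
theorem axisU {Γ : Type} [Group Γ] [Countable Γ] (ρ : Γ →* (V →ₗ[ℝ] V))
    (hC : ∀ g v, InC v → InC (ρ g v)) (hP : Proper ρ) (Inv : Set Γ)
    (hInv : ∀ g ∈ Inv, g * g = 1 ∧
      ∃ A : V ≃ₗ[ℝ] V, (∀ v, InC (A v) ↔ InC v) ∧ ∀ v, A (ρ g v) = JJ (A v))
    {ι : Type} (w η : ι → Γ) (hw : ∀ i, w i ∈ Inv) (hηw : ∀ i, η i * w i = w i * η i)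
    (A : ι → V ≃ₗ[ℝ] V) (hA : ∀ i v, InC (A i v) ↔ InC v)
    (hAw : ∀ i v, A i (ρ (w i) v) = JJ (A i v)) (l : ι → ℝ) (hl : ∀ i, 1 < l i)
    (hη : ∀ i v, A i (ρ (η i) v) 0 = l i * A i v 0 ∧ A i (ρ (η i) v) 1 = (l i)⁻¹ * A i v 1)
    {κ : Type} (S : Finset κ) (q : κ → Γ) (hq : ∀ j, q j ∈ Inv) (Δ : ι → κ → Finset Γ)
    (hΔ1 : ∀ i j, ∀ δ ∈ Δ i j, δ * q j = w i * δ)
    (hΔ2 : ∀ i j δ, δ * q j = w i * δ →
      ∃ δ' ∈ Δ i j, ∃ n : ℤ, δ = η i ^ n * δ' ∨ δ = w i * η i ^ n * δ')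
    (hΔ3 : ∀ i j, ∀ δ ∈ Δ i j, ∀ δ' ∈ Δ i j, ∀ n : ℤ,
      (δ = η i ^ n * δ' ∨ δ = w i * η i ^ n * δ') → δ = δ')
    {k : Type} [Field k] [CharP k 2] (m : κ → k)
    (hm : (∑ j ∈ S, m j • (Finsupp.single (q j) 1 - Finsupp.single 1 1) : Γ →₀ k) ∈
      Submodule.span k (Set.range (fun x : Γ × Γ => rel1 k x.1 x.2))) :
    ∃ b : Γ → k, (∀ g h, b (g * h) = b g + b h) ∧ (∀ g ∈ Inv, b g = 0) ∧
      ∀ i, b (η i) = ∑ j ∈ S, m j * ((Δ i j).card : k) := by
  classical
  let JF : Inv → Γ := Subtype.val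
  let ψ : Γ →* kˣ := 1
  have hψ : ∀ g, ψ g = 1 := fun g => rfl
  have hL : ∀ i : Inv, ∃ L, Diag ρ (JF i) L := by
    intro i
    obtain ⟨_, L, h1, h2⟩ := hInv i.1 i.2
    exact ⟨L, h1, h2⟩
  choose L hL using hL
  obtain ⟨o, x1, x2, x3, y1, y2, y3, ⟨o_in, x1_in, x2_in, x3_in, y1_in, y2_in, y3_in⟩, Jo, g1,
    g2, g3, g4, g5, g6⟩ := genposM ρ hC JF L hL
  have hJF2 : ∀ i, JF i * JF i = 1 := fun i => (hInv i.1 i.2).1
  let F : Fam ρ JF :=
    { o := o, x1 := x1, x2 := x2, x3 := x3, y1 := y1, y2 := y2, y3 := y3, o_in := o_in,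
      x1_in := x1_in, x2_in := x2_in, x3_in := x3_in, y1_in := y1_in, y2_in := y2_in,
      y3_in := y3_in, Jo := Jo, J2 := hJF2, J1 := fun i => (hL i).ne_one, inC := hC,
      proper := hP, g1 := g1, g2 := g2, g3 := g3, g4 := g4, g5 := g5, g6 := g6 }
  have h2 : (2 : k) = 0 := CharTwo.two_eq_zero
  -- the coefficients, as a function on the involutions
  let c : Inv →₀ k := ∑ j ∈ S, Finsupp.single (⟨q j, hq j⟩ : Inv) (m j)
  have hcsum : ∀ {M : Type} [AddCommMonoid M] (h : Inv → k → M), (∀ i, h i 0 = 0) →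
      (∀ i x y, h i (x + y) = h i x + h i y) → c.sum h = ∑ j ∈ S, h ⟨q j, hq j⟩ (m j) := by
    intro M _ h h0 hadd
    change (∑ j ∈ S, Finsupp.single (⟨q j, hq j⟩ : Inv) (m j)).sum h = _
    rw [← Finsupp.sum_finsetSum_index h0 hadd]
    refine Finset.sum_congr rfl fun j _ => ?_
    rw [Finsupp.sum_single_index (h0 _)]
  obtain ⟨z, hz, hz'⟩ := closed_test ψ F c (by
    rw [hcsum (fun i a => a • (Finsupp.single (JF i) 1 - Finsupp.single 1 1 : Γ →₀ k))
      (fun i => zero_smul _ _) (fun i x y => add_smul _ _ _)]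
    have e : (fun x : Γ × Γ => relz ψ x.1 x.2) = fun x : Γ × Γ => rel1 k x.1 x.2 := by
      funext x
      rw [rel1_eq]
    rw [e]
    exact hm)
  have hval : ∀ ℓ f, Test ψ F ℓ f → ℓ z = ∑ j ∈ S, m j * f x2 (ρ (q j) x2) := by
    intro ℓ f T
    rw [hz' ℓ f T, hcsum (fun i a => a * f F.x2 (ρ (JF i) F.x2))
      (fun i => zero_mul _) (fun i x y => add_mul _ _ _)]
  have hSB : ∀ {p q r : V}, InC p → InC q → InC r → ∀ i, SB ρ ψ p q r x2 (ρ (JF i) x2) = 0 :=
    fun hp hq hr i => SB_J ψ hP (hJF2 i) (hL i).ne_one (hψ _) hp hq hr x2_in (hC _ _ x2_in)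
  have hsum0 : ∀ f : V → V → k, (∀ i : Inv, f x2 (ρ (JF i) x2) = 0) →
      (∑ j ∈ S, m j * f x2 (ρ (q j) x2)) = 0 := by
    intro f hf
    refine Finset.sum_eq_zero fun j _ => ?_
    have := hf ⟨q j, hq j⟩
    change f x2 (ρ (q j) x2) = 0 at this
    rw [this, mul_zero]
  have htri : ∀ g h, z y3 (ρ g y1) + z (ρ g y1) (ρ h y2) + z y3 (ρ h y2) = 0 := by
    intro g h
    have h1 := hval _ _ (test_y ψ F g h)
    rw [hsum0 _ (hSB y3_in (hC g _ y1_in) (hC h _ y2_in))] at h1
    exact h1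
  have htro : ∀ i h, z (o i) y1 + z y1 (ρ h y2) + z (o i) (ρ h y2) = 0 := by
    intro i h
    have h1 := hval _ _ (test_o ψ F i 1 h)
    rw [hsum0 _ (hSB (o_in i) (hC 1 _ y1_in) (hC h _ y2_in))] at h1
    simp only [SerreK.rho_one] at h1
    exact h1
  refine ⟨fun g => z y1 (ρ g y2) - z y1 y2, ?_, ?_, ?_⟩
  · intro g h
    have t1 := htri 1 (g * h)
    have t2 := htri g (g * h)
    have t3 := htri g g
    have t4 := htri 1 g
    have q1 := hz g y1 (ρ h y2) y1_in (hC h _ y2_in)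
    have q2 := hz g y1 y2 y1_in y2_in
    rw [← SerreK.rho_mul ρ g h, hψ, Units.val_one, one_mul] at q1
    rw [hψ, Units.val_one, one_mul] at q2
    simp only [SerreK.rho_one] at t1 t4
    change z y1 (ρ (g * h) y2) - z y1 y2 = (z y1 (ρ g y2) - z y1 y2) +
      (z y1 (ρ h y2) - z y1 y2)
    linear_combination t1 + t2 + t3 + t4 - q1 - q2 -
      (z y3 y1 + z y3 (ρ (g * h) y2) + z y3 (ρ g y1) + z y3 (ρ g y2) +
        z y1 (ρ g y2) + z y1 (ρ h y2)) * h2
  · intro g hg
    have t1 := htro ⟨g, hg⟩ g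
    have t2 := htro ⟨g, hg⟩ 1
    rw [SerreK.rho_one] at t2
    have q1 := hz g (o ⟨g, hg⟩) y2 (o_in _) y2_in
    have q2 : ρ g (o ⟨g, hg⟩) = o ⟨g, hg⟩ := Jo ⟨g, hg⟩
    rw [q2, hψ, Units.val_one, one_mul] at q1
    change z y1 (ρ g y2) - z y1 y2 = 0
    linear_combination t1 - t2 - q1
  · intro i
    have hL' : Diag ρ (w i) (A i) := ⟨hA i, hAw i⟩
    obtain ⟨ε, hε, -⟩ := exists_weight2 (k := k) (hInv _ (hw i)).1 hL'.ne_one (mul_one (1 : Γ))
      (fun δ h => hL'.ne_one (right_eq_mul.mp (by rw [mul_one] at h; exact h)))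
    let i' : Inv := ⟨w i, hw i⟩
    have hη' : η i * JF i' = JF i' * η i := hηw i
    have h1 := hval _ _ (test_axis ψ F hη' hε (hψ _) (hψ _))
    have h3 : ∀ j, HR ψ (F.pts hη').toPts ε x2 (ρ (q j) x2) = ((Δ i j).card : k) := fun j =>
      HR_count ψ F (i := i') (j := ⟨q j, hq j⟩) hη' hL' (hl i) (hη i) hψ (Δ i j) (hΔ1 i j)
        (hΔ2 i j) (hΔ3 i j) hε
    simp only [h3] at h1
    change z y1 y2 + z y1 (ρ (η i) y2) = _ at h1
    change z y1 (ρ (η i) y2) - z y1 y2 = _
    linear_combination h1 - z y1 y2 * h2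

end SerreU
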