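import Pool.Agent.SerreU.UID1

/-!
# UBAS: adapted bases
-/

open Matrix
open scoped QuadraticAlgebra

namespace SerreU

open SerreE SerreK

section
variable {O : Type} [CommRing O]

theorem um_om {N : O} (W : Matrix (Fin 2) (Fin 2) O) : um (N := N) W (om N) = W := by
  simp [um, om]

theorem um_co {N : O} (W : Matrix (Fin 2) (Fin 2) O) (c : O) : um W (co N c) = c • 1 := by
  simp [um, co]

theorem um_mul {N : O} {W : Matrix (Fin 2) (Fin 2) O} (hW : W * W = (-N) • 1) (α β : RN N) :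
    um W (α * β) = um W α * um W β := by
  unfold um
  rw [add_mul, mul_add, mul_add, smul_mul_smul, smul_mul_smul, smul_mul_smul, smul_mul_smul, hW,
    mul_one, mul_one, one_mul]
  rw [QuadraticAlgebra.re_mul, QuadraticAlgebra.im_mul]
  ext i j
  simp only [Matrix.add_apply, Matrix.smul_apply, smul_eq_mul]
  ring

theorem um_det {N : O} {W : Matrix (Fin 2) (Fin 2) O} (h1 : W 0 0 + W 1 1 = 0)
    (h2 : W.det = N) (α : RN N) : (um W α).det = α.norm := by
  rw [Matrix.det_fin_two] at h2 ⊢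
  rw [QuadraticAlgebra.norm_def]
  simp only [um, Matrix.add_apply, Matrix.smul_apply, smul_eq_mul, Matrix.one_apply_eq, mul_one]
  rw [Matrix.one_apply_ne (by decide : (0 : Fin 2) ≠ 1),
    Matrix.one_apply_ne (by decide : (1 : Fin 2) ≠ 0)]
  linear_combination (α.re * α.im) * h1 + α.im ^ 2 * h2

theorem um_conj {N : O} {W W' M : Matrix (Fin 2) (Fin 2) O} (h : W * M = M * W') (α : RN N) :
    um W α * M = M * um W' α := by
  unfold um
  rw [add_mul, mul_add, smul_mul_assoc, smul_mul_assoc, mul_smul_comm, mul_smul_comm, h, one_mul,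
    mul_one]

theorem um_neg {N : O} (W : Matrix (Fin 2) (Fin 2) O) (α : RN N) :
    um (-W) α = um W (star α) := by
  unfold um
  rw [QuadraticAlgebra.re_star, QuadraticAlgebra.im_star, zero_mul, add_zero, smul_neg, neg_smul]

end

section
variable {O : Type} [CommRing O] [IsDomain O] [IsPrincipalIdealRing O] {N : O}

omit [IsDomain O] [IsPrincipalIdealRing O] in
theorem ubas_uniq {I : Ideal (RN N)} (B : AB N I) {a b a' b' : O}
    (h : a • B.e 0 + b • B.e 1 = a' • B.e 0 + b' • B.e 1) : a = a' ∧ b = b' := by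
  have h1 : (a - a') • B.e 0 + (b - b') • B.e 1 = 0 := by
    rw [sub_smul, sub_smul]
    linear_combination h
  obtain ⟨h2, h3⟩ := B.ind _ _ h1
  exact ⟨sub_eq_zero.1 h2, sub_eq_zero.1 h3⟩

omit [IsDomain O] [IsPrincipalIdealRing O] in
theorem ubas_om2 (r : RN N) : om N * (om N * r) = (-N) • r := by
  ext
  · simp [om]
  · simp [om]

omit [IsDomain O] [IsPrincipalIdealRing O] in
theorem ubas_act {I : Ideal (RN N)} (B : AB N I) (a b : O) :
    om N * (a • B.e 0 + b • B.e 1) =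
      (B.W 0 0 * a + B.W 0 1 * b) • B.e 0 + (B.W 1 0 * a + B.W 1 1 * b) • B.e 1 := by
  rw [mul_add, mul_smul_comm, mul_smul_comm, B.act 0, B.act 1]
  module

theorem ab_sq {I : Ideal (RN N)} (B : AB N I) : B.W * B.W = (-N) • 1 := by
  have h : ∀ j, (-N) • B.e j = (B.W 0 0 * B.W 0 j + B.W 0 1 * B.W 1 j) • B.e 0 +
      (B.W 1 0 * B.W 0 j + B.W 1 1 * B.W 1 j) • B.e 1 := by
    intro j
    rw [← ubas_om2, B.act j, ubas_act]
  have h0 := (show (-N) • B.e 0 + (0 : O) • B.e 1 = (-N) • B.e 0 by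
    rw [zero_smul, add_zero]).trans (h 0)
  have h1 := (show (0 : O) • B.e 0 + (-N) • B.e 1 = (-N) • B.e 1 by
    rw [zero_smul, zero_add]).trans (h 1)
  obtain ⟨a0, a1⟩ := ubas_uniq B h0
  obtain ⟨b0, b1⟩ := ubas_uniq B h1
  ext i j
  rw [Matrix.mul_apply, Fin.sum_univ_two]
  fin_cases i <;> fin_cases j
  · simp only [Fin.zero_eta, Matrix.smul_apply, Matrix.one_apply_eq, smul_eq_mul, mul_one]
    exact a0.symm
  · simp only [Fin.zero_eta, Fin.mk_one, Matrix.smul_apply, smul_eq_mul]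
    rw [Matrix.one_apply_ne (by decide : (0 : Fin 2) ≠ 1), mul_zero]
    exact b0.symm
  · simp only [Fin.zero_eta, Fin.mk_one, Matrix.smul_apply, smul_eq_mul]
    rw [Matrix.one_apply_ne (by decide : (1 : Fin 2) ≠ 0), mul_zero]
    exact a1.symm
  · simp only [Fin.mk_one, Matrix.smul_apply, Matrix.one_apply_eq, smul_eq_mul, mul_one]
    exact b1.symm

theorem ubas_ent {I : Ideal (RN N)} (B : AB N I) :
    B.W 0 0 * B.W 0 0 + B.W 0 1 * B.W 1 0 = -N ∧ B.W 0 0 * B.W 0 1 + B.W 0 1 * B.W 1 1 = 0 ∧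
    B.W 1 0 * B.W 0 0 + B.W 1 1 * B.W 1 0 = 0 ∧ B.W 1 0 * B.W 0 1 + B.W 1 1 * B.W 1 1 = -N := by
  have h := ab_sq B
  have e : ∀ i j, B.W i 0 * B.W 0 j + B.W i 1 * B.W 1 j =
      ((-N) • (1 : Matrix (Fin 2) (Fin 2) O)) i j := by
    intro i j
    rw [← h, Matrix.mul_apply, Fin.sum_univ_two]
  refine ⟨?_, ?_, ?_, ?_⟩
  · rw [e 0 0]; simp
  · rw [e 0 1]; simp
  · rw [e 1 0]; simp
  · rw [e 1 1]; simp

theorem ab_tr (hN : Hyp N) {I : Ideal (RN N)} (B : AB N I) : B.W 0 0 + B.W 1 1 = 0 := by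
  obtain ⟨h1, h2, h3, h4⟩ := ubas_ent B
  by_contra hne
  have h01 : B.W 0 1 = 0 := by
    have : (B.W 0 0 + B.W 1 1) * B.W 0 1 = 0 := by linear_combination h2
    exact (mul_eq_zero.1 this).resolve_left hne
  rw [h01, zero_mul, add_zero] at h1
  exact hN.nsq (B.W 0 0) (by rw [sq]; exact h1)

theorem ab_det (hN : Hyp N) {I : Ideal (RN N)} (B : AB N I) : B.W.det = N := by
  obtain ⟨h1, h2, h3, h4⟩ := ubas_ent B
  have ht := ab_tr hN B
  rw [Matrix.det_fin_two]
  linear_combination (B.W 0 0) * ht - h1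

theorem ab_TB (hN : Hyp N) {I : Ideal (RN N)} (B : AB N I) : TB N B.W := by
  refine ⟨by rw [ab_det hN B], B.d0, B.d1, ?_⟩
  have h : B.W 1 1 = -B.W 0 0 := by linear_combination ab_tr hN B
  rw [h]
  exact (dvd_neg).2 B.d0

theorem um_TA (hN : Hyp N) {I : Ideal (RN N)} (B : AB N I) (α : (RN N)ˣ) :
    TA N (um B.W (α : RN N)) := by
  refine ⟨?_, ?_⟩
  · rw [um_det (ab_tr hN B) (ab_det hN B)]
    exact QuadraticAlgebra.isUnit_iff_norm_isUnit.1 α.isUnit
  · simp only [um, Matrix.add_apply, Matrix.smul_apply, smul_eq_mul]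
    rw [Matrix.one_apply_ne (by decide : (1 : Fin 2) ≠ 0), mul_zero, zero_add]
    exact B.d1.mul_left _

omit [IsDomain O] [IsPrincipalIdealRing O] in
theorem ubas_co_mul (c : O) (r : RN N) : co N c * r = c • r := by
  ext
  · simp [co]
  · simp [co]

/-- existence, with a coprimality used for the centraliser -/
theorem ubas_exists (hN : Hyp N) (I : Ideal (RN N)) (hI : Cop N I) :
    ∃ B : AB N I, IsCoprime (B.W 0 1) (2 * B.W 0 0) ∧ B.W 0 1 ≠ 0 := by
  obtain ⟨c, a, b, hc, ha, hab, rfl⟩ := cop_struct hN I hI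
  have h2N : ¬ IsUnit (2 * N) := fun h => hN.nu (isUnit_of_mul_isUnit_right h)
  have hc0 : c ≠ 0 := by
    rintro rfl
    exact h2N (isCoprime_zero_left.1 hc)
  have ha0 : a ≠ 0 := by
    rintro rfl
    exact h2N (isCoprime_zero_left.1 ha)
  have haN : IsCoprime a N := ha.of_mul_right_right
  obtain ⟨u, v, huv⟩ := haN
  -- `b' = v N b` is congruent to `b` modulo `a`
  set b' : O := v * N * b with hb'
  have hbb : a ∣ b - b' := ⟨u * b, by rw [hb']; linear_combination (-b) * huv⟩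
  have hab' : a ∣ b' ^ 2 + N := by
    obtain ⟨k, hk⟩ := hbb
    obtain ⟨l, hl⟩ := hab
    refine ⟨l - k * (b + b'), ?_⟩
    linear_combination hl - (b + b') * hk
  have hNb : N ∣ b' := ⟨v * b, by rw [hb']; ring⟩
  obtain ⟨k, hk⟩ := hab'
  have hNk : N ∣ k := by
    have h1 : N ∣ a * k := by
      rw [← hk]
      exact dvd_add (hNb.pow two_ne_zero) dvd_rfl
    have h2 : IsCoprime N a := ⟨v, u, by linear_combination huv⟩
    exact h2.dvd_of_dvd_mul_left h1
  rw [fid_congr hbb]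
  refine ⟨{ e := ![co N c * ⟨-b', 1⟩, co N c * co N a]
            W := !![-b', a; -k, b']
            mem := ?_
            ind := ?_
            act := ?_
            d0 := by simpa using hNb
            d1 := by simpa using hNk }, ?_, ?_⟩
  · intro r
    rw [Ideal.mem_span_singleton_mul]
    constructor
    · rintro ⟨z, hz, rfl⟩
      obtain ⟨x, y, rfl⟩ := (fid_mem ⟨k, hk⟩ z).1 hz
      refine ⟨y, x, ?_⟩
      simp only [Matrix.cons_val_zero, Matrix.cons_val_one]
      rw [mul_add, mul_smul_comm, mul_smul_comm, add_comm]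
    · rintro ⟨x, y, rfl⟩
      refine ⟨y • co N a + x • (⟨-b', 1⟩ : RN N), (fid_mem ⟨k, hk⟩ _).2 ⟨y, x, rfl⟩, ?_⟩
      simp only [Matrix.cons_val_zero, Matrix.cons_val_one]
      rw [mul_add, mul_smul_comm, mul_smul_comm, add_comm]
  · intro x y h
    simp only [Matrix.cons_val_zero, Matrix.cons_val_one] at h
    have h1 := congrArg QuadraticAlgebra.im h
    have h2 := congrArg QuadraticAlgebra.re h
    simp [co] at h1 h2
    have hx : x = 0 := h1.resolve_right hc0
    subst hx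
    simp at h2
    refine ⟨rfl, ?_⟩
    rcases h2 with h2 | h2 | h2
    · exact h2
    · exact absurd h2 hc0
    · exact absurd h2 ha0
  · intro j
    fin_cases j
    · ext
      · simp [om, co]
        linear_combination (-c) * hk
      · simp [om, co]
        ring
    · ext
      · simp [om, co]
        ring
      · simp [om, co]
        ring
  · have h1 := cop_2b ha (b := b') ⟨k, hk⟩
    simp only [Matrix.of_apply, Matrix.cons_val', Matrix.cons_val_zero, Matrix.cons_val_one,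
      Matrix.cons_val_fin_one]
    rw [mul_neg]
    exact h1.neg_right
  · simpa using ha0

/-- existence: by `cop_struct`, `I = c (a, √-N - b)`, and `b` may be chosen divisible by `N`; take
`e 0 = c (√-N - b)`, `e 1 = c a`. -/
theorem ab_exists (hN : Hyp N) (I : Ideal (RN N)) (hI : Cop N I) : Nonempty (AB N I) := by
  obtain ⟨B, -, -⟩ := ubas_exists hN I hI
  exact ⟨B⟩

/-- the entry `W 0 1` is prime to `N` -/
theorem ubas_cop01 (hN : Hyp N) {I : Ideal (RN N)} (B : AB N I) : IsCoprime (B.W 0 1) N := by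
  have hN0 : N ≠ 0 := fun h => hN.nsq 0 (by rw [h]; ring)
  have h1 := ab_det hN B
  have h2 := ab_tr hN B
  rw [Matrix.det_fin_two] at h1
  obtain ⟨x, hx⟩ := B.d0
  obtain ⟨z, hz⟩ := B.d1
  refine ⟨-z, -x ^ 2, mul_left_cancel₀ hN0 ?_⟩
  have h3 : B.W 1 1 = -(N * x) := by rw [← hx]; linear_combination h2
  rw [hx, h3, hz] at h1
  linear_combination h1

omit [IsDomain O] [IsPrincipalIdealRing O] in
theorem ubas_e_mem {I : Ideal (RN N)} (B : AB N I) (j : Fin 2) : B.e j ∈ I := by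
  fin_cases j
  · exact (B.mem _).2 ⟨1, 0, by simp⟩
  · exact (B.mem _).2 ⟨0, 1, by simp⟩

/-- if `α I = β J` then the basis of `J` is expressed through that of `I` -/
theorem ubas_mat (hN : Hyp N) {I J : Ideal (RN N)} (B : AB N I) (B' : AB N J) {α β : RN N}
    (hα : α ≠ 0) (h : Ideal.span {α} * I = Ideal.span {β} * J) :
    ∃ γ : Matrix (Fin 2) (Fin 2) O,
      (∀ j, β * B'.e j = α * (γ 0 j • B.e 0 + γ 1 j • B.e 1)) ∧ B.W * γ = γ * B'.W := by
  have := rn_dom hN
  have h1 : ∀ j, ∃ x y : O, β * B'.e j = α * (x • B.e 0 + y • B.e 1) := by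
    intro j
    have h2 : β * B'.e j ∈ Ideal.span {α} * I := by
      rw [h]
      exact Ideal.mul_mem_mul (Ideal.mem_span_singleton_self β) (ubas_e_mem B' j)
    obtain ⟨z, hz, hz2⟩ := Ideal.mem_span_singleton_mul.1 h2
    obtain ⟨x, y, hxy⟩ := (B.mem z).1 hz
    exact ⟨x, y, by rw [← hxy, hz2]⟩
  choose x y hxy using h1
  refine ⟨!![x 0, x 1; y 0, y 1], ?_, ?_⟩
  · intro j
    fin_cases j
    · simpa using hxy 0
    · simpa using hxy 1
  · have h3 : ∀ j, (B.W 0 0 * x j + B.W 0 1 * y j) = x 0 * B'.W 0 j + x 1 * B'.W 1 j ∧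
        (B.W 1 0 * x j + B.W 1 1 * y j) = y 0 * B'.W 0 j + y 1 * B'.W 1 j := by
      intro j
      apply ubas_uniq B
      apply mul_left_cancel₀ hα
      have e1 : om N * (β * B'.e j) = α * ((B.W 0 0 * x j + B.W 0 1 * y j) • B.e 0 +
          (B.W 1 0 * x j + B.W 1 1 * y j) • B.e 1) := by
        rw [hxy, ← ubas_act]
        ring
      have e2 : om N * (β * B'.e j) = α * ((x 0 * B'.W 0 j + x 1 * B'.W 1 j) • B.e 0 +
          (y 0 * B'.W 0 j + y 1 * B'.W 1 j) • B.e 1) := by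
        have e3 : om N * (β * B'.e j) = β * (om N * B'.e j) := by ring
        rw [e3, B'.act j, mul_add, mul_smul_comm, mul_smul_comm, hxy 0, hxy 1]
        rw [← mul_smul_comm, ← mul_smul_comm, ← mul_add]
        congr 1
        module
      rw [← e1, e2]
    ext i j
    rw [Matrix.mul_apply, Matrix.mul_apply, Fin.sum_univ_two, Fin.sum_univ_two]
    fin_cases i <;> fin_cases j
    · simpa using (h3 0).1
    · simpa using (h3 1).1
    · simpa using (h3 0).2
    · simpa using (h3 1).2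

/-- the matrix is divisible by `N` in the lower left corner -/
theorem ubas_dvd (hN : Hyp N) {I J : Ideal (RN N)} (B : AB N I) (B' : AB N J)
    {γ : Matrix (Fin 2) (Fin 2) O} (h : B.W * γ = γ * B'.W) : N ∣ γ 1 0 := by
  have h1 := congrFun (congrFun h 1) 1
  rw [Matrix.mul_apply, Matrix.mul_apply, Fin.sum_univ_two, Fin.sum_univ_two] at h1
  have hc : IsCoprime N (B'.W 0 1) := (ubas_cop01 hN B').symm
  have h11 : N ∣ B.W 1 1 := (ab_TB hN B).2.2.2
  have h11' : N ∣ B'.W 1 1 := (ab_TB hN B').2.2.2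
  apply hc.dvd_of_dvd_mul_right
  have h2 : γ 1 0 * B'.W 0 1 = B.W 1 0 * γ 0 1 + B.W 1 1 * γ 1 1 - γ 1 1 * B'.W 1 1 := by
    linear_combination -h1
  rw [h2]
  exact dvd_sub (dvd_add (B.d1.mul_right _) (h11.mul_right _)) (h11'.mul_left _)

/-- equivalent ideals have conjugate matrices: if `α I = β J`, then `β e' j = α Σ γ i j e i`. -/
theorem ab_eqv (hN : Hyp N) {I J : Ideal (RN N)} (B : AB N I) (B' : AB N J) (h : Eqv I J) :
    ∃ γ : Gam0 N, B.W * γ.val.val = γ.val.val * B'.W := by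
  have := rn_dom hN
  obtain ⟨α, β, hα, hβ, h⟩ := h
  obtain ⟨γ, h1, h2⟩ := ubas_mat hN B B' hα h
  obtain ⟨δ, h3, h4⟩ := ubas_mat hN B' B hβ h.symm
  have key : ∀ {I J : Ideal (RN N)} (B : AB N I) (B' : AB N J) {α β : RN N}
      (_ : α ≠ 0) (γ δ : Matrix (Fin 2) (Fin 2) O)
      (_ : ∀ j, β * B'.e j = α * (γ 0 j • B.e 0 + γ 1 j • B.e 1))
      (_ : ∀ j, α * B.e j = β * (δ 0 j • B'.e 0 + δ 1 j • B'.e 1)), γ * δ = 1 := by
    intro I J B B' α β hα γ δ h1 h3
    have h5 : ∀ j, B.e j = (γ 0 0 * δ 0 j + γ 0 1 * δ 1 j) • B.e 0 +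
        (γ 1 0 * δ 0 j + γ 1 1 * δ 1 j) • B.e 1 := by
      intro j
      apply mul_left_cancel₀ hα
      rw [h3 j, mul_add, mul_smul_comm, mul_smul_comm, h1 0, h1 1]
      rw [← mul_smul_comm, ← mul_smul_comm, ← mul_add]
      congr 1
      module
    have h0 := (show (1 : O) • B.e 0 + (0 : O) • B.e 1 = B.e 0 by
      rw [zero_smul, add_zero, one_smul]).trans (h5 0)
    have h1' := (show (0 : O) • B.e 0 + (1 : O) • B.e 1 = B.e 1 by
      rw [zero_smul, zero_add, one_smul]).trans (h5 1)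
    obtain ⟨a0, a1⟩ := ubas_uniq B h0
    obtain ⟨b0, b1⟩ := ubas_uniq B h1'
    ext i j
    rw [Matrix.mul_apply, Fin.sum_univ_two]
    fin_cases i <;> fin_cases j
    · simpa using a0.symm
    · simpa using b0.symm
    · simpa using a1.symm
    · simpa using b1.symm
  let g : GL (Fin 2) O := ⟨γ, δ, key B B' hα γ δ h1 h3, key B' B hβ δ γ h3 h1⟩
  exact ⟨⟨g, ubas_dvd hN B B' h2⟩, h2⟩

/-- conversely: put `e'' j = Σ γ i j e i`, a basis of `I` with matrix `B'.W`; then
`e' 0 I = e'' 0 J`. -/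
theorem eqv_ab (hN : Hyp N) {I J : Ideal (RN N)} (B : AB N I) (B' : AB N J)
    (γ : GL (Fin 2) O) (h : B.W * γ.val = γ.val * B'.W) : Eqv I J := by
  have := rn_dom hN
  set f : Fin 2 → RN N := fun j => γ.val 0 j • B.e 0 + γ.val 1 j • B.e 1 with hf
  have hW : ∀ i j, B.W i 0 * γ.val 0 j + B.W i 1 * γ.val 1 j =
      γ.val i 0 * B'.W 0 j + γ.val i 1 * B'.W 1 j := by
    intro i j
    have := congrFun (congrFun h i) j
    rwa [Matrix.mul_apply, Matrix.mul_apply, Fin.sum_univ_two, Fin.sum_univ_two] at this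
  have hfact : ∀ j, om N * f j = B'.W 0 j • f 0 + B'.W 1 j • f 1 := by
    intro j
    simp only [hf]
    rw [ubas_act, hW, hW]
    module
  have h10 : B'.W 1 0 ≠ 0 := by
    intro h0
    obtain ⟨h1, -, -, -⟩ := ubas_ent B'
    rw [h0, mul_zero, add_zero] at h1
    exact hN.nsq (B'.W 0 0) (by rw [sq]; exact h1)
  have hcross : B'.e 0 * f 1 = f 0 * B'.e 1 := by
    have e1 := B'.act 0
    have e2 := hfact 0
    have e3 : B'.W 1 0 • (B'.e 0 * f 1) = B'.W 1 0 • (f 0 * B'.e 1) := by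
      have e4 : om N * f 0 * B'.e 0 = om N * B'.e 0 * f 0 := by ring
      rw [e1, e2, add_mul, add_mul, smul_mul_assoc, smul_mul_assoc, smul_mul_assoc,
        smul_mul_assoc, mul_comm (f 0) (B'.e 0)] at e4
      have e5 := add_left_cancel e4
      rw [mul_comm (f 1), mul_comm (B'.e 1)] at e5
      exact e5
    have e6 : ∀ r : RN N, B'.W 1 0 • r = co N (B'.W 1 0) * r := fun r => (ubas_co_mul _ r).symm
    rw [e6, e6] at e3
    refine mul_left_cancel₀ ?_ e3
    intro h0
    exact h10 (by simpa [co] using congrArg QuadraticAlgebra.re h0)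
  -- `f` is a basis of `I`
  have hinv : γ.val * (γ⁻¹).val = 1 := by
    rw [← Units.val_mul, mul_inv_cancel, Units.val_one]
  have hinv2 : ∀ i j, γ.val i 0 * (γ⁻¹).val 0 j + γ.val i 1 * (γ⁻¹).val 1 j =
      (1 : Matrix (Fin 2) (Fin 2) O) i j := by
    intro i j
    rw [← hinv, Matrix.mul_apply, Fin.sum_univ_two]
  have hB : ∀ j, B.e j = (γ⁻¹).val 0 j • f 0 + (γ⁻¹).val 1 j • f 1 := by
    intro j
    have e1 : (γ⁻¹).val 0 j • f 0 + (γ⁻¹).val 1 j • f 1 =
        (γ.val 0 0 * (γ⁻¹).val 0 j + γ.val 0 1 * (γ⁻¹).val 1 j) • B.e 0 +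
        (γ.val 1 0 * (γ⁻¹).val 0 j + γ.val 1 1 * (γ⁻¹).val 1 j) • B.e 1 := by
      simp only [hf]
      module
    rw [e1, hinv2, hinv2]
    clear e1
    revert j
    rw [Fin.forall_fin_two]
    constructor <;> simp
  have hmem : ∀ r, r ∈ I ↔ ∃ x y : O, r = x • f 0 + y • f 1 := by
    intro r
    constructor
    · intro hr
      obtain ⟨x, y, rfl⟩ := (B.mem r).1 hr
      refine ⟨x * (γ⁻¹).val 0 0 + y * (γ⁻¹).val 0 1, x * (γ⁻¹).val 1 0 + y * (γ⁻¹).val 1 1, ?_⟩
      rw [hB 0, hB 1]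
      module
    · rintro ⟨x, y, rfl⟩
      refine (B.mem _).2 ⟨x * γ.val 0 0 + y * γ.val 0 1, x * γ.val 1 0 + y * γ.val 1 1, ?_⟩
      simp only [hf]
      module
  have he0 : B'.e 0 ≠ 0 := by
    intro h0
    have := (B'.ind 1 0 (by rw [h0]; simp)).1
    exact one_ne_zero this
  have hf0 : f 0 ≠ 0 := by
    intro h0
    obtain ⟨h1, h2⟩ := B.ind _ _ h0
    have hdet : IsUnit γ.val.det := (Matrix.isUnit_iff_isUnit_det _).1 γ.isUnit
    rw [Matrix.det_fin_two, h1, h2] at hdet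
    simp at hdet
  refine ⟨B'.e 0, f 0, he0, hf0, ?_⟩
  ext r
  rw [Ideal.mem_span_singleton_mul, Ideal.mem_span_singleton_mul]
  constructor
  · rintro ⟨z, hz, rfl⟩
    obtain ⟨x, y, rfl⟩ := (hmem z).1 hz
    refine ⟨x • B'.e 0 + y • B'.e 1, (B'.mem _).2 ⟨x, y, rfl⟩, ?_⟩
    rw [mul_add, mul_add, mul_smul_comm, mul_smul_comm, mul_smul_comm, mul_smul_comm, hcross,
      mul_comm (f 0) (B'.e 0)]
  · rintro ⟨z, hz, rfl⟩
    obtain ⟨x, y, rfl⟩ := (B'.mem z).1 hz
    refine ⟨x • f 0 + y • f 1, (hmem _).2 ⟨x, y, rfl⟩, ?_⟩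
    rw [mul_add, mul_add, mul_smul_comm, mul_smul_comm, mul_smul_comm, mul_smul_comm, hcross,
      mul_comm (f 0) (B'.e 0)]

theorem ab_cj {I : Ideal (RN N)} (B : AB N I) : ∃ B' : AB N (cj I), B'.W = -B.W := by
  have hstar : ∀ (a : O) (r : RN N), star (a • r) = a • star r := by
    intro a r
    ext
    · simp
    · simp
  refine ⟨{ e := fun j => star (B.e j)
            W := -B.W
            mem := ?_
            ind := ?_
            act := ?_
            d0 := by simpa using B.d0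
            d1 := by simpa using B.d1 }, rfl⟩
  · intro r
    have h1 : r ∈ cj I ↔ star r ∈ I := Iff.rfl
    rw [h1, B.mem]
    constructor
    · rintro ⟨x, y, h⟩
      refine ⟨x, y, ?_⟩
      rw [← star_star r, h, star_add, hstar, hstar]
    · rintro ⟨x, y, rfl⟩
      refine ⟨x, y, ?_⟩
      rw [star_add, hstar, hstar, star_star, star_star]
  · intro a b h
    apply B.ind a b
    have h1 := congrArg star h
    rw [star_add, hstar, hstar, star_star, star_star, star_zero] at h1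
    exact h1
  · intro j
    have h1 : om N * star (B.e j) = -star (om N * B.e j) := by
      ext
      · simp [om]
      · simp [om]
    rw [h1, B.act j, star_add, hstar, hstar, Matrix.neg_apply, Matrix.neg_apply]
    module

/-- the centraliser of `B.W` is `O[√-N]`.  With `W = [[N x, y], [N z, -N x]]`,
`-N x² - y z = 1`: a commuting matrix is `p + q W` with `q y, q N z, 2 q N x ∈ O`; no prime
divides `y`, `N z` and `2 N x` (for the primes dividing `2`, this uses that `I` is prime to `2`). -/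
theorem ab_cent (hN : Hyp N) {I : Ideal (RN N)} (hI : Cop N I) (B : AB N I)
    (M : Matrix (Fin 2) (Fin 2) O) (hM : M * B.W = B.W * M) : ∃ α : RN N, M = um B.W α := by
  obtain ⟨B0, hc, h01⟩ := ubas_exists hN I hI
  obtain ⟨γ, hγ⟩ := ab_eqv hN B0 B ⟨1, 1, by
    have := rn_dom hN
    exact one_ne_zero, by
    have := rn_dom hN
    exact one_ne_zero, rfl⟩
  have i1 : γ.val.val * (γ.val⁻¹).val = 1 := by
    rw [← Units.val_mul, mul_inv_cancel, Units.val_one]
  have i2 : (γ.val⁻¹).val * γ.val.val = 1 := by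
    rw [← Units.val_mul, inv_mul_cancel, Units.val_one]
  set g := γ.val.val with hg
  set g' := (γ.val⁻¹).val with hg'
  -- `M0 = g M g⁻¹` commutes with `B0.W`
  have hM0 : (g * M * g') * B0.W = B0.W * (g * M * g') := by
    have e1 : g' * B0.W = B.W * g' := by
      calc g' * B0.W = g' * B0.W * (g * g') := by rw [i1, mul_one]
        _ = g' * (B0.W * g) * g' := by simp only [mul_assoc]
        _ = g' * (g * B.W) * g' := by rw [hγ]
        _ = (g' * g) * B.W * g' := by simp only [mul_assoc]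
        _ = B.W * g' := by rw [i2, one_mul]
    calc (g * M * g') * B0.W = g * M * (g' * B0.W) := by simp only [mul_assoc]
      _ = g * (M * B.W) * g' := by rw [e1]; simp only [mul_assoc]
      _ = g * B.W * M * g' := by rw [hM]; simp only [mul_assoc]
      _ = B0.W * (g * M * g') := by rw [← hγ]; simp only [mul_assoc]
  set M0 := g * M * g' with hM0d
  have c : ∀ i j, M0 i 0 * B0.W 0 j + M0 i 1 * B0.W 1 j =
      B0.W i 0 * M0 0 j + B0.W i 1 * M0 1 j := by
    intro i j
    have := congrFun (congrFun hM0 i) j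
    rwa [Matrix.mul_apply, Matrix.mul_apply, Fin.sum_univ_two, Fin.sum_univ_two] at this
  have ht := ab_tr hN B0
  have h11 : B0.W 1 1 = -B0.W 0 0 := by linear_combination ht
  have c00 := c 0 0
  have c01 := c 0 1
  rw [h11] at c01
  have hd : B0.W 0 1 ∣ M0 0 1 := by
    apply hc.dvd_of_dvd_mul_left
    exact ⟨M0 0 0 - M0 1 1, by linear_combination -c01⟩
  obtain ⟨q, hq⟩ := hd
  have e1 : M0 0 0 - M0 1 1 = 2 * q * B0.W 0 0 := by
    apply mul_left_cancel₀ h01
    rw [hq] at c01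
    linear_combination c01
  have e2 : M0 1 0 = q * B0.W 1 0 := by
    apply mul_left_cancel₀ h01
    rw [hq] at c00
    linear_combination -c00
  have hum : M0 = um B0.W (⟨M0 1 1 + q * B0.W 0 0, q⟩ : RN N) := by
    ext i j
    simp only [um, Matrix.add_apply, Matrix.smul_apply, smul_eq_mul]
    fin_cases i <;> fin_cases j
    · simp
      linear_combination e1
    · simp
      rw [hq]; ring
    · simp
      exact e2
    · simp
      rw [h11]; ring
  refine ⟨⟨M0 1 1 + q * B0.W 0 0, q⟩, ?_⟩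
  have h5 := um_conj (N := N) hγ (⟨M0 1 1 + q * B0.W 0 0, q⟩ : RN N)
  rw [← hum] at h5
  calc M = (g' * g) * M * (g' * g) := by rw [i2, one_mul, mul_one]
    _ = g' * (M0 * g) := by rw [hM0d]; simp only [mul_assoc]
    _ = (g' * g) * um B.W _ := by rw [h5, mul_assoc]
    _ = _ := by rw [i2, one_mul]

end

end SerreU
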