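import Pool.Agent.SerreU.UBAS

/-!
# UCEN: the elements of `Γ` which conjugate one involution into another
-/

open Matrix

namespace SerreU

open SerreE SerreK

section gen

variable {O : Type} [CommRing O] [IsDomain O] {N : O} {Γ : Type} [Group Γ]

theorem ucen_smul {c : O} (hc : c ≠ 0) {A B : Matrix (Fin 2) (Fin 2) O} (h : c • A = c • B) :
    A = B := by
  ext i j
  have h1 := congrFun (congrFun h i) j
  simp only [Matrix.smul_apply, smul_eq_mul] at h1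
  exact mul_left_cancel₀ hc h1

/-- a representative of the inverse -/
theorem ucen_inv (P : PG N Γ) {g : Γ} {M M' : Matrix (Fin 2) (Fin 2) O} (hg : P.R g M)
    (h : M' * M = 1) : P.R g⁻¹ M' := by
  obtain ⟨M₂, -, hM₂⟩ := P.ex g⁻¹
  have h1 := P.mul hM₂ hg
  rw [inv_mul_cancel] at h1
  obtain ⟨c, c', hc, hc', h2⟩ := P.prop h1 P.one
  have h3 : M * M' = 1 := mul_eq_one_comm.1 h
  have h4 : c • M₂ = c' • M' := by
    calc c • M₂ = (c • (M₂ * M)) * M' := by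
          rw [Matrix.smul_mul, Matrix.mul_assoc, h3, Matrix.mul_one]
      _ = c' • M' := by rw [h2, Matrix.smul_mul, Matrix.one_mul]
  have h5 := (P.smul hc).2 hM₂
  rw [h4] at h5
  exact (P.smul hc').1 h5

/-- `δ` is represented by a matrix `M` with `M W = W' M` -/
def UPos (P : PG N Γ) (W W' : Matrix (Fin 2) (Fin 2) O) (δ : Γ) : Prop :=
  ∃ M, P.R δ M ∧ M * W = W' * M

theorem upos_all (P : PG N Γ) {W W' : Matrix (Fin 2) (Fin 2) O} {δ : Γ} (h : UPos P W W' δ)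
    {M : Matrix (Fin 2) (Fin 2) O} (hM : P.R δ M) : M * W = W' * M := by
  obtain ⟨M', hM', h1⟩ := h
  obtain ⟨c, c', hc, hc', h2⟩ := P.prop hM hM'
  refine ucen_smul hc ?_
  rw [← Matrix.smul_mul, h2, Matrix.smul_mul, h1, ← Matrix.mul_smul, ← h2, Matrix.mul_smul]

theorem upos_excl (P : PG N Γ) {W W' : Matrix (Fin 2) (Fin 2) O} {δ : Γ} (h : UPos P W W' δ)
    (h' : UPos P (-W) W' δ) (hdet : W'.det ≠ 0) (h2 : (2 : O) ≠ 0) : False := by
  obtain ⟨M, hM, h1⟩ := h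
  have h3 := upos_all P h' hM
  rw [Matrix.mul_neg, h1] at h3
  have h4 : W' * M = 0 := by
    refine ucen_smul h2 ?_
    rw [smul_zero, two_smul]
    nth_rewrite 1 [← h3]
    exact neg_add_cancel _
  have h5 : (W' * M).det = 0 := by rw [h4]; simp
  rw [Matrix.det_mul] at h5
  rcases mul_eq_zero.1 h5 with h6 | h6
  · exact hdet h6
  · exact P.det hM h6

theorem upos_mul (P : PG N Γ) {W W' : Matrix (Fin 2) (Fin 2) O} {δ g : Γ} (h : UPos P W W' δ)
    {X : Matrix (Fin 2) (Fin 2) O} (hg : P.R g X) (hX : X * W' = W' * X) :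
    UPos P W W' (g * δ) := by
  obtain ⟨M, hM, h1⟩ := h
  refine ⟨X * M, P.mul hg hM, ?_⟩
  rw [Matrix.mul_assoc, h1, ← Matrix.mul_assoc, hX, Matrix.mul_assoc]

theorem upos_of_eq (P : PG N Γ) {W W' : Matrix (Fin 2) (Fin 2) O} {δ w w' : Γ}
    (hw : P.R w W) (hw' : P.R w' W') (hdet : W.det = W'.det) (h : δ * w = w' * δ) :
    UPos P W W' δ ∨ UPos P (-W) W' δ := by
  obtain ⟨M, -, hM⟩ := P.ex δ
  have h1 := P.mul hM hw
  have h2 := P.mul hw' hM
  rw [← h] at h2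
  obtain ⟨c, c', hc, hc', h3⟩ := P.prop h1 h2
  have h4 := congrArg Matrix.det h3
  rw [Matrix.det_smul, Matrix.det_smul, Matrix.det_mul, Matrix.det_mul, hdet, Fintype.card_fin]
    at h4
  have h5 : M.det * W'.det ≠ 0 := mul_ne_zero (P.det hM) (P.det hw')
  have h6 : c ^ 2 = c' ^ 2 := by
    rw [mul_comm W'.det M.det] at h4
    exact mul_right_cancel₀ h5 h4
  rcases sq_eq_sq_iff_eq_or_eq_neg.1 h6 with h7 | h7
  · left
    refine ⟨M, hM, ucen_smul hc' ?_⟩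
    rw [h7] at h3
    exact h3
  · right
    refine ⟨M, hM, ucen_smul hc' ?_⟩
    rw [h7, neg_smul] at h3
    rw [Matrix.mul_neg, smul_neg, h3]

theorem eq_of_upos (P : PG N Γ) {W W' : Matrix (Fin 2) (Fin 2) O} {δ w w' : Γ}
    (hw : P.R w W) (hw' : P.R w' W') (h : UPos P W W' δ ∨ UPos P (-W) W' δ) :
    δ * w = w' * δ := by
  rcases h with ⟨M, hM, h1⟩ | ⟨M, hM, h1⟩
  · have h2 := P.mul hM hw
    rw [h1] at h2
    exact P.inj h2 (P.mul hw' hM)
  · have h2 := P.mul hM hw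
    have h3 := P.mul hw' hM
    rw [← h1, Matrix.mul_neg, ← neg_one_smul O (M * W),
      P.smul (neg_ne_zero.2 one_ne_zero)] at h3
    exact P.inj h2 h3

/-- one of `δ` and `w' δ` lies in `Γ₀(N)` -/
theorem ucen_TA (hN0 : N ≠ 0) (P : PG N Γ) {w' : Γ} {W' : Matrix (Fin 2) (Fin 2) O}
    (hw' : P.R w' W') (hW' : TB N W') (δ : Γ) :
    ∃ M, TA N M ∧ (P.R δ M ∨ P.R (w' * δ) M) := by
  obtain ⟨M, hM, hδ⟩ := P.ex δ
  rcases hM with hM | hM
  · exact ⟨M, hM, Or.inl hδ⟩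
  · obtain ⟨hu, ⟨a, ha⟩, ⟨c, hc⟩, ⟨d, hd⟩⟩ := hW'
    obtain ⟨hv, ⟨e, he⟩, ⟨g, hg⟩, ⟨h, hh⟩⟩ := hM
    obtain ⟨M', hM'⟩ : ∃ M' : Matrix (Fin 2) (Fin 2) O,
      M' = !![N * a * e + W' 0 1 * g, a * M 0 1 + W' 0 1 * h;
        N * (c * e + d * g), c * M 0 1 + N * d * h] := ⟨_, rfl⟩
    have h1 : W' * M = N • M' := by
      rw [hM']
      ext i j
      fin_cases i <;> fin_cases j <;>
        simp [Matrix.mul_apply, Fin.sum_univ_two, ha, hc, hd, he, hg, hh] <;> ring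
    have h2 := P.mul hw' hδ
    rw [h1, P.smul hN0] at h2
    refine ⟨M', ⟨?_, ?_⟩, Or.inr h2⟩
    · obtain ⟨u, hu⟩ := hu.symm
      obtain ⟨v, hv⟩ := hv.symm
      have h3 := congrArg Matrix.det h1
      rw [Matrix.det_mul, Matrix.det_smul, Fintype.card_fin, ← hu, ← hv] at h3
      have h4 : M'.det = (u * v : Oˣ) := by
        refine mul_left_cancel₀ (pow_ne_zero 2 hN0) ?_
        rw [← h3]
        push_cast
        ring
      rw [h4]
      exact Units.isUnit _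
    · rw [hM']
      simp

/-- an element represented by a matrix of trace zero is an involution -/
theorem inv_sq (P : PG N Γ) (g : Γ) (M : Matrix (Fin 2) (Fin 2) O) (hg : P.R g M)
    (hM : M 0 0 + M 1 1 = 0) : g * g = 1 := by
  have h1 := P.mul hg hg
  have h2 : M * M = (-M.det) • 1 := by
    have h3 : M 1 1 = -M 0 0 := by linear_combination hM
    rw [Matrix.det_fin_two]
    ext i j
    fin_cases i <;> fin_cases j <;>
      simp [Matrix.mul_apply, Fin.sum_univ_two, h3] <;> ring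
  rw [h2, P.smul (neg_ne_zero.2 (P.det hg))] at h1
  exact P.inj h1 P.one

theorem ucen_um_comm (W : Matrix (Fin 2) (Fin 2) O) (α : RN N) : um W α * W = W * um W α := by
  unfold um
  rw [Matrix.add_mul, Matrix.mul_add, Matrix.smul_mul, Matrix.one_mul, Matrix.smul_mul,
    Matrix.mul_smul, Matrix.mul_one, Matrix.mul_smul]

theorem ucen_um_one (W : Matrix (Fin 2) (Fin 2) O) : um W (1 : RN N) = 1 := by
  have h := um_co (N := N) W 1
  rw [one_smul] at h
  exact h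

theorem ucen_zpow (P : PG N Γ) {W : Matrix (Fin 2) (Fin 2) O} (hW : W * W = (-N) • 1)
    (η : (RN N)ˣ) (η' : Γ) (hη' : P.R η' (um W (η : RN N))) (n : ℤ) :
    P.R (η' ^ n) (um W ((η ^ n : (RN N)ˣ) : RN N)) := by
  have hpos : ∀ n : ℕ, P.R (η' ^ n) (um W ((η ^ n : (RN N)ˣ) : RN N)) := by
    intro n
    induction n with
    | zero =>
      rw [pow_zero, pow_zero, Units.val_one, ucen_um_one]
      exact P.one
    | succ n ih =>
      rw [pow_succ, pow_succ, Units.val_mul, um_mul hW]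
      exact P.mul ih hη'
  rcases n with n | n
  · simp only [Int.ofNat_eq_natCast, zpow_natCast]
    exact hpos n
  · rw [zpow_negSucc, zpow_negSucc]
    refine ucen_inv P (hpos (n + 1)) ?_
    rw [← um_mul hW, ← Units.val_mul, inv_mul_cancel, Units.val_one, ucen_um_one]

theorem ucen_eqv_symm {I J : Ideal (RN N)} (h : Eqv I J) : Eqv J I := by
  obtain ⟨α, β, hα, hβ, h⟩ := h
  exact ⟨β, α, hβ, hα, h.symm⟩

theorem ucen_choose {α : Type} (p : α → Prop) : ∃ Δ : Finset α, (∀ δ ∈ Δ, p δ) ∧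
    ((∃ δ, p δ) → ∃ δ, Δ = {δ}) ∧ ((¬ ∃ δ, p δ) → Δ = ∅) := by
  by_cases h : ∃ δ, p δ
  · obtain ⟨δ, hδ⟩ := h
    exact ⟨{δ}, fun x hx => by rw [Finset.mem_singleton.1 hx]; exact hδ, fun _ => ⟨δ, rfl⟩,
      fun h => absurd ⟨δ, hδ⟩ h⟩
  · exact ⟨∅, fun x hx => absurd hx (Finset.notMem_empty x), fun h' => absurd h' h, fun _ => rfl⟩

end gen

variable {O : Type} [CommRing O] [IsDomain O] [IsPrincipalIdealRing O] {N : O}
variable {Γ : Type} [Group Γ]

theorem ucen_N0 (hN : Hyp N) : N ≠ 0 := by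
  rintro rfl
  exact hN.h2 (isCoprime_zero_left.1 hN.cop)

/-- `w` and `η` commute, `w² = 1`, `η ∈ Γ₀(N)` -/
theorem cen_comm (hN : Hyp N) (P : PG N Γ) {I : Ideal (RN N)} (B : AB N I) (w η : Γ) (α : RN N)
    (hw : P.R w B.W) (hη : P.R η (um B.W α)) : η * w = w * η := by
  have h1 := P.mul hη hw
  rw [ucen_um_comm] at h1
  exact P.inj h1 (P.mul hw hη)

/-- an element of `Γ₀(N)` is not conjugate to an element of the other coset (`N` is not a unit). -/
theorem cen_tor (hN : Hyp N) (P : PG N Γ) (g w δ : Γ) (M W : Matrix (Fin 2) (Fin 2) O)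
    (hg : P.R g M) (hM : TA N M) (hw : P.R w W) (hW : TB N W) : δ * g ≠ w * δ := by
  have hN0 := ucen_N0 hN
  -- no element has representatives of both types
  have key : ∀ (x : Γ) (A B : Matrix (Fin 2) (Fin 2) O), P.R x A → P.R x B → TA N A → TB N B →
      False := by
    intro x A B hA hB hTA hTB
    obtain ⟨c, c', hc, hc', h1⟩ := P.prop hA hB
    have h00 := congrFun (congrFun h1 0) 0
    have h01 := congrFun (congrFun h1 0) 1
    simp only [Matrix.smul_apply, smul_eq_mul] at h00 h01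
    obtain ⟨⟨u, hu⟩, -⟩ := hTA
    obtain ⟨hv, ⟨a, ha⟩, ⟨r, hr⟩, ⟨d, hd⟩⟩ := hTB
    obtain ⟨v, hv⟩ := hv.symm
    rw [Matrix.det_fin_two] at hu hv
    have h2 : d * B 0 0 - r * B 0 1 = v := by
      refine mul_left_cancel₀ hN0 ?_
      rw [hv, ha, hr, hd]
      ring
    have h3 : c ∣ c' := by
      have h4 : c ∣ c' * v := by
        rw [← h2]
        exact ⟨d * A 0 0 - r * A 0 1, by linear_combination (-d) * h00 + r * h01⟩
      exact (IsUnit.dvd_mul_right v.isUnit).1 h4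
    have h3' : c' ∣ c := by
      have h4 : c' ∣ c * u := by
        rw [hu]
        exact ⟨B 0 0 * A 1 1 - B 0 1 * A 1 0, by
          linear_combination (A 1 1) * h00 - (A 1 0) * h01⟩
      exact (IsUnit.dvd_mul_right u.isUnit).1 h4
    obtain ⟨k, hk⟩ := associated_of_dvd_dvd h3 h3'
    have h5 : A = (k : O) • B := by
      refine ucen_smul hc ?_
      rw [h1, ← hk, smul_smul]
    have h6 := congrArg Matrix.det h5
    rw [Matrix.det_smul, Fintype.card_fin, Matrix.det_fin_two, Matrix.det_fin_two, ← hu, ← hv]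
      at h6
    apply hN.nu
    refine isUnit_of_mul_isUnit_left (y := (k : O) ^ 2 * v) ?_
    have h7 : N * ((k : O) ^ 2 * v) = u := by rw [h6]; ring
    rw [h7]
    exact u.isUnit
  have hTAmul : ∀ {A B : Matrix (Fin 2) (Fin 2) O}, TA N A → TA N B → TA N (A * B) := by
    intro A B hA hB
    refine ⟨by rw [Matrix.det_mul]; exact hA.1.mul hB.1, ?_⟩
    rw [Matrix.mul_apply, Fin.sum_univ_two]
    exact dvd_add (hA.2.mul_right _) (hB.2.mul_left _)
  intro heq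
  obtain ⟨D, hD, hδ⟩ := P.ex δ
  have h1 := P.mul hδ hg
  have h2 := P.mul hw hδ
  rw [← heq] at h2
  rcases hD with hD | hD
  · refine key _ _ _ h1 h2 (hTAmul hD hM) ?_
    obtain ⟨a1, a2, a3, a4⟩ := hW
    refine ⟨?_, ?_, ?_, ?_⟩
    · rw [Matrix.det_mul]
      exact (a1.mul_right _).trans (associated_mul_unit_left _ _ hD.1)
    · rw [Matrix.mul_apply, Fin.sum_univ_two]
      exact dvd_add (a2.mul_right _) (hD.2.mul_left _)
    · rw [Matrix.mul_apply, Fin.sum_univ_two]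
      exact dvd_add (a3.mul_right _) (hD.2.mul_left _)
    · rw [Matrix.mul_apply, Fin.sum_univ_two]
      exact dvd_add (a3.mul_right _) (a4.mul_right _)
  · -- both types in the other order
    obtain ⟨X, hX, h3⟩ := ucen_TA hN0 P hw hW δ
    rcases h3 with h3 | h3
    · exact key _ _ _ h3 hδ hX hD
    · rw [← heq] at h3
      refine key _ _ _ h3 h1 hX ?_
      obtain ⟨a1, a2, a3, a4⟩ := hD
      refine ⟨?_, ?_, ?_, ?_⟩
      · rw [Matrix.det_mul]
        exact (a1.mul_right _).trans (associated_mul_unit_left _ _ hM.1)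
      · rw [Matrix.mul_apply, Fin.sum_univ_two]
        exact dvd_add (a2.mul_right _) (hM.2.mul_left _)
      · rw [Matrix.mul_apply, Fin.sum_univ_two]
        exact dvd_add (a3.mul_right _) (hM.2.mul_left _)
      · rw [Matrix.mul_apply, Fin.sum_univ_two]
        exact dvd_add (a3.mul_right _) (a4.mul_right _)

/-- two elements of the same sign -/
theorem ucen_cent (hN : Hyp N) (P : PG N Γ) (η : (RN N)ˣ)
    (hη : ∀ α : (RN N)ˣ, ∃ (u : Oˣ) (n : ℤ), (α : RN N) = co N u * ((η ^ n : (RN N)ˣ) : RN N))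
    {J : Ideal (RN N)} (hJ : Cop N J) (B' : AB N J) (w' η' : Γ)
    (hw' : P.R w' B'.W) (hη' : P.R η' (um B'.W (η : RN N))) {W : Matrix (Fin 2) (Fin 2) O}
    {δ₁ δ₂ : Γ} (h₁ : UPos P W B'.W δ₁) (h₂ : UPos P W B'.W δ₂) :
    ∃ n : ℤ, δ₁ = η' ^ n * δ₂ ∨ δ₁ = w' * η' ^ n * δ₂ := by
  have hN0 := ucen_N0 hN
  have hsq := inv_sq P w' B'.W hw' (ab_tr hN B')
  have hcm : Commute η' w' := cen_comm hN P B' w' η' _ hw' hη'
  have hW'c : B'.W * B'.W = B'.W * B'.W := rfl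
  obtain ⟨M₁, hM₁, k₁⟩ := ucen_TA hN0 P hw' (ab_TB hN B') δ₁
  obtain ⟨M₂, hM₂, k₂⟩ := ucen_TA hN0 P hw' (ab_TB hN B') δ₂
  have e₁ : M₁ * W = B'.W * M₁ := by
    rcases k₁ with k | k
    · exact upos_all P h₁ k
    · exact upos_all P (upos_mul P h₁ hw' hW'c) k
  have e₂ : M₂ * W = B'.W * M₂ := by
    rcases k₂ with k | k
    · exact upos_all P h₂ k
    · exact upos_all P (upos_mul P h₂ hw' hW'c) k
  have i1 : M₂ * M₂⁻¹ = 1 := Matrix.mul_nonsing_inv _ hM₂.1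
  have i2 : M₂⁻¹ * M₂ = 1 := Matrix.nonsing_inv_mul _ hM₂.1
  have e₃ : M₂⁻¹ * B'.W = W * M₂⁻¹ := by
    calc M₂⁻¹ * B'.W = M₂⁻¹ * (B'.W * M₂) * M₂⁻¹ := by
          rw [Matrix.mul_assoc, Matrix.mul_assoc, i1, Matrix.mul_one]
      _ = (M₂⁻¹ * M₂) * W * M₂⁻¹ := by rw [← e₂, Matrix.mul_assoc M₂⁻¹ M₂ W]
      _ = W * M₂⁻¹ := by rw [i2, Matrix.one_mul]
  obtain ⟨α, hα⟩ := ab_cent hN hJ B' (M₁ * M₂⁻¹) (by
    rw [Matrix.mul_assoc, e₃, ← Matrix.mul_assoc, e₁, Matrix.mul_assoc])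
  have hdet : IsUnit (M₁ * M₂⁻¹).det := by
    rw [Matrix.det_mul]
    refine hM₁.1.mul ?_
    have h3 := congrArg Matrix.det i1
    rw [Matrix.det_mul, Matrix.det_one] at h3
    exact IsUnit.of_mul_eq_one_right _ h3
  rw [hα, um_det (ab_tr hN B') (ab_det hN B')] at hdet
  have hαu : IsUnit α := QuadraticAlgebra.isUnit_iff_norm_isUnit.2 hdet
  obtain ⟨α', rfl⟩ := hαu
  obtain ⟨u, n, hun⟩ := hη α'
  have h3 : M₁ = (u : O) • (um B'.W ((η ^ n : (RN N)ˣ) : RN N) * M₂) := by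
    calc M₁ = (M₁ * M₂⁻¹) * M₂ := by rw [Matrix.mul_assoc, i2, Matrix.mul_one]
      _ = _ := by
        rw [hα, hun, um_mul (ab_sq B'), um_co, Matrix.smul_mul, Matrix.one_mul, Matrix.smul_mul]
  have hz := ucen_zpow P (ab_sq B') η η' hη' n
  have hcn : Commute (η' ^ n) w' := hcm.zpow_left n
  have hu0 : (u : O) ≠ 0 := u.ne_zero
  have hww : ∀ x : Γ, w' * (w' * x) = x := fun x => by rw [← mul_assoc, hsq, one_mul]
  refine ⟨n, ?_⟩
  rcases k₁ with k₁ | k₁ <;> rcases k₂ with k₂ | k₂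
  · left
    have h4 := P.mul hz k₂
    rw [h3, P.smul hu0] at k₁
    exact P.inj k₁ h4
  · right
    have h4 := P.mul hz k₂
    rw [h3, P.smul hu0] at k₁
    rw [P.inj k₁ h4, ← mul_assoc, hcn.eq]
  · right
    have h4 := P.mul hz k₂
    rw [h3, P.smul hu0] at k₁
    have h5 := P.inj k₁ h4
    rw [mul_assoc, ← h5, hww]
  · left
    have h4 := P.mul hz k₂
    rw [h3, P.smul hu0] at k₁
    have h5 := P.inj k₁ h4
    have h6 : w' * (w' * δ₁) = w' * (η' ^ n * (w' * δ₂)) := by rw [h5]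
    rw [hww, ← mul_assoc (η' ^ n), hcn.eq, mul_assoc w', hww] at h6
    exact h6

theorem upos_iff_eqv (hN : Hyp N) (P : PG N Γ) {I J : Ideal (RN N)} (B : AB N I) (B' : AB N J)
    (w' : Γ) (hw' : P.R w' B'.W) : (∃ δ, UPos P B.W B'.W δ) ↔ Eqv I J := by
  have hN0 := ucen_N0 hN
  constructor
  · rintro ⟨δ, hδ⟩
    obtain ⟨M, hM, k⟩ := ucen_TA hN0 P hw' (ab_TB hN B') δ
    have e : M * B.W = B'.W * M := by
      rcases k with k | k
      · exact upos_all P hδ k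
      · exact upos_all P (upos_mul P hδ hw' rfl) k
    exact ucen_eqv_symm (eqv_ab hN B' B (Matrix.nonsingInvUnit M hM.1) e.symm)
  · intro h
    obtain ⟨γ, hγ⟩ := ab_eqv hN B' B (ucen_eqv_symm h)
    obtain ⟨g, hg⟩ := P.surj γ.val.val (Or.inl ⟨(Matrix.isUnit_iff_isUnit_det _).1 γ.val.isUnit,
      γ.2⟩)
    exact ⟨g, γ.val.val, hg, hγ.symm⟩

/-- Let `δ w = w' δ` in `Γ` and let `M` represent `δ`.  Then `M W = ± W' M` (compare determinants:
`c M W = c' W' M` gives `c² = c'²`).  The sign `+` occurs for some `δ` if and only if `I` and `J`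
are equivalent (`ab_eqv`, `eqv_ab`; if `M` is of type `TB`, replace it by `W' M / N`), the sign `-`
if and only if `cj I` and `J` are equivalent (`ab_cj`).  Two elements `δ` with the same sign differ
by an element commuting (as a matrix) with `W'`, i.e. by `um W' α` or `W' um W' α`, `α` a unit
(`ab_cent`, `um_det`), and `α = u ηⁿ` with `u ∈ Oˣ` by `hη`.  So `Δ` consists of one element for
each sign which occurs. -/
theorem cen_delta (hN : Hyp N) (P : PG N Γ) (η : (RN N)ˣ)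
    (hη : ∀ α : (RN N)ˣ, ∃ (u : Oˣ) (n : ℤ), (α : RN N) = co N u * ((η ^ n : (RN N)ˣ) : RN N))
    {I J : Ideal (RN N)} (hI : Cop N I) (hJ : Cop N J) (B : AB N I) (B' : AB N J) (w w' η' : Γ)
    (hw : P.R w B.W) (hw' : P.R w' B'.W) (hη' : P.R η' (um B'.W (η : RN N))) :
    ∃ Δ : Finset Γ, (∀ δ ∈ Δ, δ * w = w' * δ) ∧
      (∀ δ, δ * w = w' * δ → ∃ δ' ∈ Δ, ∃ n : ℤ, δ = η' ^ n * δ' ∨ δ = w' * η' ^ n * δ') ∧
      (∀ δ ∈ Δ, ∀ δ' ∈ Δ, ∀ n : ℤ, (δ = η' ^ n * δ' ∨ δ = w' * η' ^ n * δ') → δ = δ') ∧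
      ∀ (a b : ℕ), (Eqv I J ∧ a = 1 ∨ ¬ Eqv I J ∧ a = 0) →
        (Eqv (cj I) J ∧ b = 1 ∨ ¬ Eqv (cj I) J ∧ b = 0) → Δ.card = a + b := by
  classical
  have hN0 := ucen_N0 hN
  have hdet' : B'.W.det ≠ 0 := by rw [ab_det hN B']; exact hN0
  have hdet : B.W.det = B'.W.det := by rw [ab_det hN B, ab_det hN B']
  obtain ⟨B'', hB''⟩ := ab_cj B
  have hp := upos_iff_eqv hN P B B' w' hw'
  have hq := upos_iff_eqv hN P B'' B' w' hw'
  rw [hB''] at hq
  obtain ⟨Δ₁, a1, a2, a3⟩ := ucen_choose (UPos P B.W B'.W)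
  obtain ⟨Δ₂, b1, b2, b3⟩ := ucen_choose (UPos P (-B.W) B'.W)
  have hdisj : Disjoint Δ₁ Δ₂ := by
    rw [Finset.disjoint_left]
    intro x hx1 hx2
    exact upos_excl P (a1 x hx1) (b1 x hx2) hdet' hN.h20
  -- the sign is preserved
  have hsg : ∀ (W : Matrix (Fin 2) (Fin 2) O) (δ δ' : Γ) (n : ℤ), UPos P W B'.W δ' →
      (δ = η' ^ n * δ' ∨ δ = w' * η' ^ n * δ') → UPos P W B'.W δ := by
    intro W δ δ' n h1 h2
    have hz := ucen_zpow P (ab_sq B') η η' hη' n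
    have h3 := upos_mul P h1 hz (ucen_um_comm _ _)
    rcases h2 with rfl | rfl
    · exact h3
    · rw [mul_assoc]
      exact upos_mul P h3 hw' rfl
  refine ⟨Δ₁ ∪ Δ₂, ?_, ?_, ?_, ?_⟩
  · intro δ hδ
    rcases Finset.mem_union.1 hδ with h | h
    · exact eq_of_upos P hw hw' (Or.inl (a1 δ h))
    · exact eq_of_upos P hw hw' (Or.inr (b1 δ h))
  · intro δ hδ
    rcases upos_of_eq P hw hw' hdet hδ with h | h
    · obtain ⟨δ', hδ'⟩ := a2 ⟨δ, h⟩
      have hmem : δ' ∈ Δ₁ := by rw [hδ']; exact Finset.mem_singleton_self _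
      exact ⟨δ', Finset.mem_union_left _ hmem,
        ucen_cent hN P η hη hJ B' w' η' hw' hη' h (a1 δ' hmem)⟩
    · obtain ⟨δ', hδ'⟩ := b2 ⟨δ, h⟩
      have hmem : δ' ∈ Δ₂ := by rw [hδ']; exact Finset.mem_singleton_self _
      exact ⟨δ', Finset.mem_union_right _ hmem,
        ucen_cent hN P η hη hJ B' w' η' hw' hη' h (b1 δ' hmem)⟩
  · intro δ hδ δ' hδ' n h
    rcases Finset.mem_union.1 hδ with k | k <;> rcases Finset.mem_union.1 hδ' with k' | k'
    · obtain ⟨x, hx⟩ := a2 ⟨δ, a1 δ k⟩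
      rw [hx, Finset.mem_singleton] at k k'
      rw [k, k']
    · exact (upos_excl P (a1 δ k) (hsg _ _ _ n (b1 δ' k') h) hdet' hN.h20).elim
    · exact (upos_excl P (hsg _ _ _ n (a1 δ' k') h) (b1 δ k) hdet' hN.h20).elim
    · obtain ⟨x, hx⟩ := b2 ⟨δ, b1 δ k⟩
      rw [hx, Finset.mem_singleton] at k k'
      rw [k, k']
  · intro a b ha hb
    rw [Finset.card_union_of_disjoint hdisj]
    congr 1
    · rcases ha with ⟨h1, h2⟩ | ⟨h1, h2⟩
      · obtain ⟨x, hx⟩ := a2 (hp.2 h1)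
        rw [hx, h2, Finset.card_singleton]
      · rw [a3 (fun h => h1 (hp.1 h)), h2, Finset.card_empty]
    · rcases hb with ⟨h1, h2⟩ | ⟨h1, h2⟩
      · obtain ⟨x, hx⟩ := b2 (hq.2 h1)
        rw [hx, h2, Finset.card_singleton]
      · rw [b3 (fun h => h1 (hq.1 h)), h2, Finset.card_empty]

end SerreU
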