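import Pool.Agent.SerreK.QDefs
import Pool.Agent.SerreK.AXIS2

/-!
# UDefs: shared definitions for the theorem on all dihedral representations at `p = 2`

`O` is a principal ideal domain (the ring of integers of an imaginary quadratic field), `N ∈ O` is
prime to `2`, `-N` is not a square and `RN N = O[√-N]`.
-/

open Matrix
open scoped QuadraticAlgebra

namespace SerreU

open SerreE SerreK

/-- the standing hypotheses on `N` (the case of a unit `N` is treated separately) -/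
structure Hyp {O : Type} [CommRing O] (N : O) : Prop where
  h2 : ¬ IsUnit (2 : O)
  h20 : (2 : O) ≠ 0
  h2sq : ∀ t : O, (2 : O) ∣ t ^ 2 → (2 : O) ∣ t
  cop : IsCoprime N 2
  nsq : ∀ t : O, t ^ 2 ≠ -N
  nu : ¬ IsUnit N

section ring

variable {O : Type} [CommRing O]

/-- the order `O[√-N]`; its elements are `⟨x, y⟩ = x + y √-N` -/
abbrev RN (N : O) : Type := QuadraticAlgebra O (-N) 0

/-- `√-N` -/
def om (N : O) : RN N := ⟨0, 1⟩

/-- elements of `O` in `O[√-N]` -/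
def co (N : O) (c : O) : RN N := ⟨c, 0⟩

/-- the ideal is prime to `2N` -/
def Cop (N : O) (I : Ideal (RN N)) : Prop := I ⊔ Ideal.span {co N (2 * N)} = ⊤

/-- the ideal `(a, √-N - b)` -/
def fid (N a b : O) : Ideal (RN N) := Ideal.span {co N a, ⟨-b, 1⟩}

/-- the conjugate ideal -/
def cj {N : O} (I : Ideal (RN N)) : Ideal (RN N) := Ideal.comap (starRingEnd (RN N)) I

/-- equivalence of ideals -/
def Eqv {N : O} (I J : Ideal (RN N)) : Prop :=
  ∃ α β : RN N, α ≠ 0 ∧ β ≠ 0 ∧ Ideal.span {α} * I = Ideal.span {β} * J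

/-- the matrix `p + q W` of the multiplication by `α = p + q √-N`, if `W` is the matrix of the
multiplication by `√-N`. -/
def um {N : O} (W : Matrix (Fin 2) (Fin 2) O) (α : RN N) : Matrix (Fin 2) (Fin 2) O :=
  α.re • (1 : Matrix (Fin 2) (Fin 2) O) + α.im • W

/-- an adapted basis `e 0, e 1` of the ideal `I`: `W` is the matrix of the multiplication by `√-N`
(its `j`-th column contains the coordinates of `√-N e j`), and `√-N I = O e 0 + N O e 1`. -/
structure AB (N : O) (I : Ideal (RN N)) where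
  e : Fin 2 → RN N
  W : Matrix (Fin 2) (Fin 2) O
  mem : ∀ r, r ∈ I ↔ ∃ a b : O, r = a • e 0 + b • e 1
  ind : ∀ a b : O, a • e 0 + b • e 1 = 0 → a = 0 ∧ b = 0
  act : ∀ j, om N * e j = W 0 j • e 0 + W 1 j • e 1
  d0 : N ∣ W 0 0
  d1 : N ∣ W 1 0

/-- matrices of elements of `Γ₀(N)` -/
def TA (N : O) (M : Matrix (Fin 2) (Fin 2) O) : Prop := IsUnit M.det ∧ N ∣ M 1 0

/-- matrices of elements of `[[0, -1], [N, 0]] Γ₀(N)` -/
def TB (N : O) (M : Matrix (Fin 2) (Fin 2) O) : Prop :=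
  Associated M.det N ∧ N ∣ M 0 0 ∧ N ∣ M 1 0 ∧ N ∣ M 1 1

/-- `Γ` is the group `Γ₀(N) ∪ [[0, -1], [N, 0]] Γ₀(N)` modulo scalars; `R g M` means that the
integral matrix `M` is a representative of `g` (up to scalars of the fraction field). -/
structure PG (N : O) (Γ : Type) [Group Γ] where
  R : Γ → Matrix (Fin 2) (Fin 2) O → Prop
  det : ∀ {g M}, R g M → M.det ≠ 0
  one : R 1 1
  mul : ∀ {g h M M'}, R g M → R h M' → R (g * h) (M * M')
  smul : ∀ {g M} {c : O}, c ≠ 0 → (R g (c • M) ↔ R g M)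
  prop : ∀ {g M M'}, R g M → R g M' → ∃ c c' : O, c ≠ 0 ∧ c' ≠ 0 ∧ c • M = c' • M'
  inj : ∀ {g h M}, R g M → R h M → g = h
  ex : ∀ g, ∃ M, (TA N M ∨ TB N M) ∧ R g M
  surj : ∀ M, (TA N M ∨ TB N M) → ∃ g, R g M

/-- `x` is a homomorphism `Γ → 𝔽̄₂` which vanishes on the elements of trace zero of `Γ₀(N)`. -/
structure IsX {N : O} {Γ : Type} [Group Γ] (P : PG N Γ) (x : Γ → FF) : Prop where
  mul : ∀ g h, x (g * h) = x g + x h
  tor : ∀ g M, P.R g M → TA N M → M 0 0 + M 1 1 = 0 → x g = 0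

/-- `h` is the restriction of `x` to `Γ₀(N)`. -/
def Res {N : O} {Γ : Type} [Group Γ] (P : PG N Γ) (x : Γ → FF) (h : HY N) : Prop :=
  ∀ (γ : Gam0 N) (g : Γ), P.R g γ.val.val → h.val γ = x g

/-- the two complex embeddings of `O[√-N]` are `e1 σ s` and `e1 σ (-s)`, where `s² = σ(-N)`. -/
def e1 {N : O} (σ : O →+* ℂ) (s : ℂ) (z : RN N) : ℂ := σ z.re + σ z.im * s

/-- `O` is a lattice in `ℂ` (through `σ`) in the form of Dirichlet's approximation theorem. -/
def Dir (σ : O →+* ℂ) : Prop :=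
  ∃ C : ℝ, 0 < C ∧ ∀ (z : ℂ) (Q : ℕ), 0 < Q → ∃ x y : O, y ≠ 0 ∧
    Complex.normSq (σ y) ≤ C * Q ^ 2 ∧ Complex.normSq (σ x + σ y * z) ≤ C / Q ^ 2

/-- a ring class character: `χ` is a character of the group of ideals prime to `2N` of `O[√-N]`,
extended by `0`, trivial on principal ideals and non-trivial. -/
structure RCC (N : O) (χ : Ideal (RN N) → FF) : Prop where
  mul : ∀ I J, χ (I * J) = χ I * χ J
  supp : ∀ I, χ I ≠ 0 ↔ Cop N I
  prin : ∀ z : RN N, Cop N (Ideal.span {z}) → χ (Ideal.span {z}) = 1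
  ne : ∃ I, Cop N I ∧ χ I ≠ 1

/-- the eigenvalues of `Φ` are the Frobenius traces of `Ind χ`. -/
def Att [IsDomain O] [FinQuot O] {N : O} (Φ : Eigenform N) (χ : Ideal (RN N) → FF) : Prop :=
  ∀ π : GP N, (∀ t, π.el ∣ t ^ 2 + N → Φ.ev π = χ (fid N π.el t) + χ (fid N π.el (-t))) ∧
    ((∀ t, ¬ π.el ∣ t ^ 2 + N) → Φ.ev π = 0)

end ring

/-- the standard involution -/
def JJ (v : V) : V := ![v 0, v 1, -v 2, -v 3]

end SerreU
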