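import Pool.Agent.SerreU.UID1

/-!
# UFIN: finiteness of the class number of `O[√-N]`
-/

namespace SerreU

open SerreE SerreK Complex

/-- the ideals that contain a given non-zero element of `O` are finite in number -/
theorem ufin_ideals {O : Type} [CommRing O] [FinQuot O] (N m : O) (hm : m ≠ 0) :
    {J : Ideal (RN N) | co N m ∈ J}.Finite := by
  have hfin : Finite (O ⧸ Ideal.span {m}) := FinQuot.fin m hm
  let φ : RN N → (O ⧸ Ideal.span {m}) × (O ⧸ Ideal.span {m}) := fun z =>
    (Ideal.Quotient.mk _ z.re, Ideal.Quotient.mk _ z.im)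
  refine Set.Finite.of_finite_image (f := fun J : Ideal (RN N) => φ '' (J : Set (RN N)))
    (Set.toFinite _) ?_
  have key : ∀ J J' : Ideal (RN N), co N m ∈ J' →
      φ '' (J : Set (RN N)) = φ '' (J' : Set (RN N)) → J ≤ J' := by
    intro J J' hJ' h z hz
    have h1 : φ z ∈ φ '' (J' : Set (RN N)) := by
      rw [← h]
      exact ⟨z, hz, rfl⟩
    obtain ⟨z', hz', h2⟩ := h1
    have h3 : (Ideal.Quotient.mk (Ideal.span {m})) z'.re = Ideal.Quotient.mk _ z.re :=
      congrArg Prod.fst h2
    have h4 : (Ideal.Quotient.mk (Ideal.span {m})) z'.im = Ideal.Quotient.mk _ z.im :=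
      congrArg Prod.snd h2
    rw [Ideal.Quotient.eq, Ideal.mem_span_singleton] at h3 h4
    obtain ⟨u, hu⟩ := h3
    obtain ⟨v, hv⟩ := h4
    have h5 : z = z' - co N m * (⟨u, v⟩ : RN N) := by
      apply QuadraticAlgebra.ext
      · simp only [co, QuadraticAlgebra.re_sub, QuadraticAlgebra.re_mul]
        linear_combination -hu
      · simp only [co, QuadraticAlgebra.im_sub, QuadraticAlgebra.im_mul]
        linear_combination -hv
    rw [h5]
    exact J'.sub_mem hz' (J'.mul_mem_right _ hJ')
  intro J hJ J' hJ' h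
  exact le_antisymm (key J J' hJ' h) (key J' J hJ h.symm)

theorem ufin_ne {O : Type} [CommRing O] {N a : O} (hN : Hyp N) (ha : IsCoprime a (2 * N)) :
    a ≠ 0 := by
  rintro rfl
  rw [isCoprime_zero_left] at ha
  exact hN.h2 (isUnit_of_mul_isUnit_left ha)

theorem ufin_co_ne {O : Type} [CommRing O] {N a : O} (ha : a ≠ 0) : co N a ≠ 0 := by
  intro h
  apply ha
  have := congrArg (fun z : RN N => z.re) h
  simpa [co] using this

theorem ufin_co_mul {O : Type} [CommRing O] (N a b : O) : co N (a * b) = co N a * co N b := by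
  apply QuadraticAlgebra.ext
  · simp [co]
  · simp [co]

theorem ufin_norm {O : Type} [CommRing O] {N : O} (v : RN N) :
    v * star v = co N (v.re ^ 2 + N * v.im ^ 2) := by
  apply QuadraticAlgebra.ext
  · simp only [co, QuadraticAlgebra.re_mul, QuadraticAlgebra.re_star, QuadraticAlgebra.im_star]
    ring
  · simp only [co, QuadraticAlgebra.im_mul, QuadraticAlgebra.re_star, QuadraticAlgebra.im_star]
    ring

theorem ufin_norm_eq {O : Type} [CommRing O] {N : O} (v : RN N) :
    v.norm = v.re ^ 2 + N * v.im ^ 2 := by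
  rw [QuadraticAlgebra.norm_def]
  ring

/-- the size estimate -/
theorem ufin_bound (A C S Q : ℝ) (hC : 0 < C) (hS : 0 ≤ S) (hA : 0 < A) (hQ : 0 < Q)
    (hAQ : A ≤ Q ^ 4) (e e' y m : ℂ) (s : ℂ) (hs : normSq s = S)
    (he : normSq e ≤ A * (C / Q ^ 2)) (hy : normSq y ≤ C * Q ^ 2) (he' : e' = e - 2 * y * s)
    (hm : normSq e * normSq e' = A * normSq m) : normSq m ≤ C ^ 2 * (2 + 8 * S) := by
  have h1 : normSq e' ≤ 2 * normSq e + 8 * (normSq y * S) := by
    have h2 : normSq (2 * y * s) = 4 * (normSq y * S) := by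
      rw [map_mul, map_mul, hs]
      have : normSq (2 : ℂ) = 4 := by
        rw [normSq_apply]; norm_num
      rw [this]
      ring
    have h3 : normSq (e - 2 * y * s) + normSq (e + 2 * y * s) =
        2 * (normSq e + normSq (2 * y * s)) := by
      generalize 2 * y * s = w
      simp only [normSq_apply, sub_re, sub_im, add_re, add_im]
      ring
    have h4 := normSq_nonneg (e + 2 * y * s)
    rw [he']
    rw [h2] at h3
    linarith
  have h5 : normSq e * normSq e' ≤ A * (C ^ 2 * (2 + 8 * S)) := by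
    have he0 := normSq_nonneg e
    have hy0 := normSq_nonneg y
    have h6 : normSq e' ≤ 2 * (A * (C / Q ^ 2)) + 8 * (C * Q ^ 2 * S) := by
      have : normSq y * S ≤ C * Q ^ 2 * S := mul_le_mul_of_nonneg_right hy hS
      linarith
    have h7 : normSq e * normSq e' ≤
        (A * (C / Q ^ 2)) * (2 * (A * (C / Q ^ 2)) + 8 * (C * Q ^ 2 * S)) :=
      mul_le_mul he h6 (normSq_nonneg _) (by positivity)
    refine h7.trans ?_
    have h8 : (A * (C / Q ^ 2)) * (2 * (A * (C / Q ^ 2)) + 8 * (C * Q ^ 2 * S)) =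
        A * (C ^ 2 * (2 * (A / Q ^ 4) + 8 * S)) := by
      field_simp
    rw [h8]
    have h9 : A / Q ^ 4 ≤ 1 := by
      rw [div_le_one (by positivity)]
      exact hAQ
    have h10 : C ^ 2 * (2 * (A / Q ^ 4) + 8 * S) ≤ C ^ 2 * (2 + 8 * S) :=
      mul_le_mul_of_nonneg_left (by linarith) (by positivity)
    exact mul_le_mul_of_nonneg_left h10 hA.le
  rw [hm] at h5
  exact le_of_mul_le_mul_left h5 hA

/-- Every ideal `cj I`, `I` prime to `2N`, is equivalent to an ideal `J` in a finite set.

Proof.  By `cop_struct` we may assume `I = (a, √-N - b)`.  Let `s² = σ(-N)`; `Dir` with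
`z = (s - b)/a` and `Q = ⌈√|a|⌉` gives `v = x a + y (√-N - b) ∈ I`, `v ≠ 0` (as `y ≠ 0`) with
`|e1 v| = |a| |x + y z| ≤ C √|a|`, `|e1' v| = |e1 v - 2 s y| ≤ C' √|a|`, so that `v v̄ = a m` with
`|m|` bounded.  `J = a⁻¹ v (cj I)` is an ideal (`v cj I ⊆ I cj I = (a)`), it contains
`a⁻¹ v v̄ = m ≠ 0`.  The ideals containing one of the finitely many non-zero `m ∈ O` of bounded
absolute value are finite in number (`RN N / m` is finite, `FinQuot`). -/
theorem fin_cls {O : Type} [CommRing O] [IsDomain O] [IsPrincipalIdealRing O] [FinQuot O]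
    (σ : O →+* ℂ) (hσ : ImQ σ) (hD : Dir σ) (N : O) (hN : Hyp N) :
    ∃ S : Set (Ideal (RN N)), S.Finite ∧ ∀ I, Cop N I → ∃ J ∈ S, J ≠ ⊥ ∧ Eqv (cj I) J := by
  obtain ⟨C, hC, hdir⟩ := hD
  obtain ⟨s, hs⟩ : ∃ s : ℂ, s ^ 2 = σ (-N) := IsAlgClosed.exists_pow_nat_eq _ (by norm_num)
  refine ⟨⋃ m ∈ {m : O | normSq (σ m) ≤ C ^ 2 * (2 + 8 * normSq s)} \ {0},
    {J : Ideal (RN N) | co N m ∈ J}, ?_, ?_⟩
  · refine Set.Finite.biUnion ((hσ.fin _).subset Set.diff_subset) ?_
    intro m hm
    exact ufin_ideals N m hm.2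
  · intro I hI
    obtain ⟨c, a, b, hc, ha, hab, rfl⟩ := cop_struct hN I hI
    have hc0 : c ≠ 0 := ufin_ne hN hc
    have ha0 : a ≠ 0 := ufin_ne hN ha
    have hsa : σ a ≠ 0 := fun h => ha0 (hσ.inj (by rw [h, map_zero]))
    obtain ⟨nA, hnA⟩ := hσ.int a
    have hA : 0 < normSq (σ a) := normSq_pos.2 hsa
    have hnA0 : 0 < nA := by
      rw [hnA] at hA
      exact_mod_cast hA
    obtain ⟨x, y, hy0, hy, hxy⟩ := hdir ((s - σ b) / σ a) nA hnA0
    obtain ⟨k, hk⟩ := hab
    -- the element `v`
    let v : RN N := ⟨x * a - y * b, y⟩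
    have hv0 : v ≠ 0 := by
      intro h
      apply hy0
      have := congrArg (fun z : RN N => z.im) h
      simpa [v] using this
    have hvmem : v ∈ fid N a b := by
      rw [fid_mem ⟨k, hk⟩]
      refine ⟨x, y, ?_⟩
      apply QuadraticAlgebra.ext
      · simp only [v, co, QuadraticAlgebra.re_add, QuadraticAlgebra.re_smul, smul_eq_mul]
        ring
      · simp only [v, co, QuadraticAlgebra.im_add, QuadraticAlgebra.im_smul, smul_eq_mul]
        ring
    let m : O := x ^ 2 * a - 2 * x * y * b + y ^ 2 * k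
    have hnorm : v.re ^ 2 + N * v.im ^ 2 = a * m := by
      simp only [v, m]
      linear_combination y ^ 2 * hk
    have hm0 : m ≠ 0 := by
      intro h
      apply rn_norm_ne hN v hv0
      rw [ufin_norm_eq, hnorm, h, mul_zero]
    -- size of `m`
    have hmB : normSq (σ m) ≤ C ^ 2 * (2 + 8 * normSq s) := by
      have hnA1 : (1 : ℝ) ≤ nA := by exact_mod_cast hnA0
      refine ufin_bound (normSq (σ a)) C (normSq s) nA hC (normSq_nonneg s) hA
        (by exact_mod_cast hnA0) ?_ (σ (x * a - y * b) + σ y * s)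
        (σ (x * a - y * b) - σ y * s) (σ y) (σ m) s rfl ?_ hy ?_ ?_
      · rw [hnA]
        calc (nA : ℝ) = nA ^ 1 := (pow_one _).symm
          _ ≤ nA ^ 4 := pow_le_pow_right₀ hnA1 (by norm_num)
      · have e : σ (x * a - y * b) + σ y * s = σ a * (σ x + σ y * ((s - σ b) / σ a)) := by
          rw [map_sub, map_mul, map_mul]
          field_simp
          ring
        rw [e, map_mul]
        exact mul_le_mul_of_nonneg_left hxy hA.le
      · ring
      · rw [← map_mul, ← map_mul, ← map_mul]
        congr 1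
        have e : σ (a * m) = σ (v.re ^ 2 + N * v.im ^ 2) := by rw [hnorm]
        rw [e]
        simp only [v]
        rw [map_add σ, map_pow, map_mul σ N, map_pow]
        rw [map_neg] at hs
        linear_combination -(σ y) ^ 2 * hs
    -- the ideal `J`
    have hcj : cj (Ideal.span {co N c} * fid N a b) = Ideal.span {co N c} * fid N a (-b) := by
      rw [cj_mul, cj_span, cj_fid]
      congr 3
      apply QuadraticAlgebra.ext
      · simp [co]
      · simp [co]
    have hstar : star v ∈ fid N a (-b) := by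
      rw [← cj_fid]
      change (starRingEnd (RN N)) (star v) ∈ fid N a b
      rw [starRingEnd_apply, star_star]
      exact hvmem
    have hprod : fid N a b * fid N a (-b) = Ideal.span {co N a} := by
      rw [← cj_fid]
      exact fid_cj_mul ha ⟨k, hk⟩
    let J : Ideal (RN N) :=
      { carrier := {z | co N a * z ∈ Ideal.span {v} * fid N a (-b)}
        add_mem' := by
          intro z w hz hw
          change co N a * (z + w) ∈ Ideal.span {v} * fid N a (-b)
          rw [mul_add]
          exact Ideal.add_mem _ hz hw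
        zero_mem' := by
          change co N a * 0 ∈ Ideal.span {v} * fid N a (-b)
          rw [mul_zero]
          exact Ideal.zero_mem _
        smul_mem' := by
          intro r z hz
          change co N a * (r * z) ∈ Ideal.span {v} * fid N a (-b)
          rw [mul_left_comm]
          exact Ideal.mul_mem_left _ r hz }
    have hJ : Ideal.span {co N a} * J = Ideal.span {v} * fid N a (-b) := by
      apply le_antisymm
      · rw [Ideal.span_singleton_mul_le_iff]
        intro z hz
        exact hz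
      · intro w hw
        have h1 : w ∈ Ideal.span {co N a} := by
          rw [← hprod]
          refine Ideal.mul_mono_left ?_ hw
          rw [Ideal.span_singleton_le_iff_mem]
          exact hvmem
        rw [Ideal.mem_span_singleton] at h1
        obtain ⟨z, rfl⟩ := h1
        rw [Ideal.mem_span_singleton_mul]
        exact ⟨z, hw, rfl⟩
    have hmJ : co N m ∈ J := by
      change co N a * co N m ∈ Ideal.span {v} * fid N a (-b)
      rw [← ufin_co_mul, ← hnorm, ← ufin_norm]
      exact Ideal.mul_mem_mul (Ideal.mem_span_singleton_self v) hstar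
    refine ⟨J, ?_, ?_, ?_⟩
    · simp only [Set.mem_iUnion]
      exact ⟨m, ⟨hmB, hm0⟩, hmJ⟩
    · intro h
      rw [h, Ideal.mem_bot] at hmJ
      exact ufin_co_ne hm0 hmJ
    · have hdom := rn_dom hN
      refine ⟨v, co N c * co N a, hv0, mul_ne_zero (ufin_co_ne hc0) (ufin_co_ne ha0), ?_⟩
      rw [hcj, ← Ideal.span_singleton_mul_span_singleton, mul_assoc (Ideal.span {co N c}), hJ,
        mul_left_comm]

end SerreU
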