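import Pool.Agent.SerreU.UDefs
import Pool.Agent.SerreK.FINO

/-!
# UFIO: restriction to `Γ₀(N)`
-/

open Matrix

namespace SerreU

open SerreE SerreK

variable {O : Type} [CommRing O] [IsDomain O] {N : O} {Γ : Type} [Group Γ]

omit [IsDomain O] in
theorem ufio_ta (γ : Gam0 N) : TA N γ.val.val :=
  ⟨(Matrix.isUnit_iff_isUnit_det _).1 γ.val.isUnit, γ.2⟩

/-- the value at `γ` of the restriction -/
noncomputable def ufioV (P : PG N Γ) (x : Γ → FF) (γ : Gam0 N) : FF :=
  x (Classical.choose (P.surj γ.val.val (Or.inl (ufio_ta γ))))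

omit [IsDomain O] in
theorem ufioV_eq (P : PG N Γ) (x : Γ → FF) (γ : Gam0 N) (g : Γ) (hg : P.R g γ.val.val) :
    ufioV P x γ = x g :=
  congrArg x (P.inj (Classical.choose_spec (P.surj γ.val.val (Or.inl (ufio_ta γ)))) hg)

theorem ufioV_mul (P : PG N Γ) (x : Γ → FF) (hx : IsX P x) (a b : Gam0 N) :
    ufioV P x (a * b) = ufioV P x a + ufioV P x b := by
  obtain ⟨g, hg⟩ := P.surj a.val.val (Or.inl (ufio_ta a))
  obtain ⟨h, hh⟩ := P.surj b.val.val (Or.inl (ufio_ta b))
  rw [ufioV_eq P x a g hg, ufioV_eq P x b h hh, ufioV_eq P x (a * b) (g * h) (P.mul hg hh), hx.mul]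

theorem ufioV_one (P : PG N Γ) (x : Γ → FF) (hx : IsX P x) : ufioV P x 1 = 0 := by
  have h := ufioV_mul P x hx 1 1
  rw [mul_one] at h
  exact left_eq_add.1 h

theorem ufioV_pow (P : PG N Γ) (x : Γ → FF) (hx : IsX P x) (a : Gam0 N) (n : ℕ) :
    ufioV P x (a ^ n) = n * ufioV P x a := by
  induction n with
  | zero => simp [ufioV_one P x hx]
  | succ n ih =>
    rw [pow_succ, ufioV_mul P x hx, ih]
    push_cast
    ring

theorem ufioV_fin (hN : Hyp N) (P : PG N Γ) (x : Γ → FF) (hx : IsX P x) (γ : Gam0 N)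
    (hγ : IsOfFinOrder γ) : ufioV P x γ = 0 := by
  obtain ⟨n, hn, hn'⟩ := isOfFinOrder_iff_pow_eq_one.mp hγ
  obtain ⟨s, m, hm, hnm⟩ := Nat.exists_eq_two_pow_mul_odd hn.ne'
  have h1 : ufioV P x (γ ^ m) = ufioV P x γ := by
    rw [ufioV_pow P x hx]
    obtain ⟨l, hl⟩ := hm
    have h3 : (m : FF) = 1 := by
      have h5 : (2 : FF) = 0 := CharTwo.two_eq_zero
      rw [hl]
      push_cast
      linear_combination (l : FF) * h5
    rw [h3, one_mul]
  rw [← h1]
  have h2 : (γ ^ m).val ^ (2 ^ s) = 1 := by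
    rw [SubmonoidClass.coe_pow, ← pow_mul, mul_comm, ← hnm]
    exact congrArg Subtype.val hn'
  rcases fino_level hN.h2sq hN.h2 hN.h20 (γ ^ m).val s h2 with hsc | ⟨htr, -⟩
  · obtain ⟨u, hu⟩ := hsc.exists
    have hM : (γ ^ m).val.val = (u : O) • (1 : Matrix (Fin 2) (Fin 2) O) := by
      rw [hu]
      ext i j
      fin_cases i <;> fin_cases j <;> simp
    have h3 : P.R 1 (γ ^ m).val.val := by
      rw [hM]
      exact (P.smul u.ne_zero).2 P.one
    rw [ufioV_eq P x _ 1 h3]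
    have h4 := hx.mul 1 1
    rw [mul_one] at h4
    exact left_eq_add.1 h4
  · obtain ⟨g, hg⟩ := P.surj (γ ^ m).val.val (Or.inl (ufio_ta (γ ^ m)))
    rw [ufioV_eq P x _ g hg]
    exact hx.tor g _ hg (ufio_ta (γ ^ m)) htr

/-- The restriction of `x` to `Γ₀(N)` vanishes on all elements `γ` of finite order: replacing `γ`
by an odd power one may assume that the order is a power of `2`; then `γ` is scalar or has trace
zero by `fino_level` (FINO.lean). -/
theorem res_exists (hN : Hyp N) (P : PG N Γ) (x : Γ → FF) (hx : IsX P x) : ∃ h : HY N, Res P x h :=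
  ⟨Subtype.mk (p := fun y => y ∈ H N) (ufioV P x)
    ⟨fun a b => ufioV_mul P x hx a b, fun g hg => ufioV_fin hN P x hx g hg⟩,
    fun γ g hg => ufioV_eq P x γ g hg⟩

end SerreU
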