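import Pool.Agent.SerreU.UDefs
import Pool.Agent.SerreK.MM
import Pool.Agent.SerreK.ACT

/-!
# UGEO: normal forms of the involutions and of the units
-/

open Matrix

namespace SerreU

open SerreE SerreK

/-- a matrix of eigenvectors -/
theorem ugeo_P0 (W : Matrix (Fin 2) (Fin 2) ℂ) (htr : W 0 0 + W 1 1 = 0) (s : ℂ)
    (hs0 : s ≠ 0) (hs : s ^ 2 = -W.det) :
    ∃ P : Matrix (Fin 2) (Fin 2) ℂ, P.det ≠ 0 ∧ P * W = !![s, 0; 0, -s] * P := by
  have hd : W 1 1 = -W 0 0 := by linear_combination htr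
  have hs2 : s ^ 2 = W 0 0 ^ 2 + W 0 1 * W 1 0 := by
    rw [hs, Matrix.det_fin_two, hd]
    ring
  by_cases hc : W 1 0 = 0
  · by_cases hb : W 0 1 = 0
    · have h1 : (s - W 0 0) * (s + W 0 0) = 0 := by
        rw [hb] at hs2
        linear_combination hs2
      rcases mul_eq_zero.1 h1 with h | h
      · have hsa : s = W 0 0 := by linear_combination h
        refine ⟨1, by rw [Matrix.det_one]; exact one_ne_zero, ?_⟩
        rw [one_mul, mul_one]
        ext i j
        fin_cases i <;> fin_cases j <;> simp [hsa, hb, hc, hd]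
      · have hsa : s = -W 0 0 := by linear_combination h
        refine ⟨!![0, 1; 1, 0], by rw [Matrix.det_fin_two]; simp, ?_⟩
        ext i j
        fin_cases i <;> fin_cases j <;>
          simp [Matrix.mul_apply, Fin.sum_univ_two, hsa, hb, hc, hd]
    · refine ⟨!![s + W 0 0, W 0 1; W 0 0 - s, W 0 1], ?_, ?_⟩
      · rw [Matrix.det_fin_two]
        have h2 : (s + W 0 0) * W 0 1 - W 0 1 * (W 0 0 - s) = 2 * s * W 0 1 := by ring
        simp only [Matrix.of_apply, Matrix.cons_val', Matrix.cons_val_zero,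
          Matrix.cons_val_one, Matrix.cons_val_fin_one]
        rw [h2]
        exact mul_ne_zero (mul_ne_zero two_ne_zero hs0) hb
      · ext i j
        fin_cases i <;> fin_cases j <;>
          simp only [Matrix.mul_apply, Fin.sum_univ_two, Fin.zero_eta, Fin.mk_one,
            Matrix.of_apply, Matrix.cons_val', Matrix.cons_val_zero, Matrix.cons_val_one,
            Matrix.cons_val_fin_one, hd]
        · linear_combination -hs2
        · ring
        · linear_combination -hs2
        · ring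
  · refine ⟨!![W 1 0, s - W 0 0; W 1 0, -s - W 0 0], ?_, ?_⟩
    · rw [Matrix.det_fin_two]
      have h2 : W 1 0 * (-s - W 0 0) - (s - W 0 0) * W 1 0 = -(2 * s * W 1 0) := by ring
      simp only [Matrix.of_apply, Matrix.cons_val', Matrix.cons_val_zero,
        Matrix.cons_val_one, Matrix.cons_val_fin_one]
      rw [h2]
      exact neg_ne_zero.2 (mul_ne_zero (mul_ne_zero two_ne_zero hs0) hc)
    · ext i j
      fin_cases i <;> fin_cases j <;>
        simp only [Matrix.mul_apply, Fin.sum_univ_two, Fin.zero_eta, Fin.mk_one,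
          Matrix.of_apply, Matrix.cons_val', Matrix.cons_val_zero, Matrix.cons_val_one,
          Matrix.cons_val_fin_one, hd]
      · ring
      · linear_combination -hs2
      · ring
      · linear_combination -hs2

/-- the action of `diag(s, -s)` -/
theorem ugeo_act_diag (s : ℂ) (v : V) :
    act !![s, 0; 0, -s] v = Complex.normSq s • JJ v := by
  funext i
  fin_cases i
  · change act !![s, 0; 0, -s] v 0 = _
    rw [ACT_0]
    simp [ACT_form, JJ]
  · change act !![s, 0; 0, -s] v 1 = _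
    rw [ACT_1]
    simp [ACT_form, JJ]
  · change act !![s, 0; 0, -s] v 2 = _
    rw [ACT_2]
    simp [JJ, Complex.normSq_apply]
    ring
  · change act !![s, 0; 0, -s] v 3 = _
    rw [ACT_3]
    simp [JJ, Complex.normSq_apply]
    ring

theorem ugeo_mul_apply (M N : Matrix (Fin 2) (Fin 2) ℂ) (v : V) :
    act (M * N) v = act M (act N v) := by
  rw [act_mul]
  rfl

/-- A complex matrix of trace zero and non-zero determinant is conjugate to `diag(s, -s)`,
`s² = -det`.  If `P₀ W P₀⁻¹ = diag(s, -s)`, take `A = act P₀` (invertible, `act_inC` for `P₀` and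
`P₀⁻¹`); `act (diag(s, -s)) / |det| = JJ` and
`act (diag(p + q s, p - q s)) v 0 = |p + q s|² v 0`, ... (`act_diag`). -/
theorem diag_exists (W : Matrix (Fin 2) (Fin 2) ℂ) (htr : W 0 0 + W 1 1 = 0) (hdet : W.det ≠ 0)
    (s : ℂ) (hs : s ^ 2 = -W.det) :
    ∃ A : V ≃ₗ[ℝ] V, (∀ v, InC (A v) ↔ InC v) ∧
      (∀ v, A ((Real.sqrt (Complex.normSq W.det))⁻¹ • act W v) = JJ (A v)) ∧
      ∀ (p q : ℂ) (v : V),
        A (act (p • (1 : Matrix (Fin 2) (Fin 2) ℂ) + q • W) v) 0 =
          Complex.normSq (p + q * s) * A v 0 ∧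
        A (act (p • (1 : Matrix (Fin 2) (Fin 2) ℂ) + q • W) v) 1 =
          Complex.normSq (p - q * s) * A v 1 := by
  have hs0 : s ≠ 0 := by
    rintro rfl
    apply hdet
    have : W.det = -(0 : ℂ) ^ 2 := by rw [hs]; ring
    rw [this]
    ring
  obtain ⟨P, hP, hPW⟩ := ugeo_P0 W htr s hs0 hs
  have hPu : IsUnit P.det := isUnit_iff_ne_zero.2 hP
  have h1 : ∀ v, act P (act P⁻¹ v) = v := by
    intro v
    rw [← ugeo_mul_apply, Matrix.mul_nonsing_inv P hPu, act_one]
    rfl
  have h2 : ∀ v, act P⁻¹ (act P v) = v := by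
    intro v
    rw [← ugeo_mul_apply, Matrix.nonsing_inv_mul P hPu, act_one]
    rfl
  have hPi : P⁻¹.det ≠ 0 := by
    intro h
    have h3 := congrArg Matrix.det (Matrix.mul_nonsing_inv P hPu)
    rw [Matrix.det_mul, h, mul_zero, Matrix.det_one] at h3
    exact zero_ne_one h3
  let A : V ≃ₗ[ℝ] V :=
    { act P with
      invFun := act P⁻¹
      left_inv := h2
      right_inv := h1 }
  have hA : ∀ v, A v = act P v := fun v => rfl
  refine ⟨A, ?_, ?_, ?_⟩
  · intro v
    rw [hA]
    constructor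
    · intro h
      have h3 := act_inC P⁻¹ hPi _ h
      rw [h2] at h3
      exact h3
    · exact act_inC P hP v
  · intro v
    rw [hA, hA, map_smul, ← ugeo_mul_apply, hPW, ugeo_mul_apply, ugeo_act_diag, smul_smul]
    have h3 : Complex.normSq W.det = Complex.normSq s * Complex.normSq s := by
      rw [← map_mul, ← Complex.normSq_neg, ← hs, sq]
    have h4 : 0 < Complex.normSq s := Complex.normSq_pos.2 hs0
    rw [h3, Real.sqrt_mul_self h4.le, inv_mul_cancel₀ h4.ne', one_smul]
  · intro p q v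
    have h3 : P * (p • (1 : Matrix (Fin 2) (Fin 2) ℂ) + q • W) =
        !![p + q * s, 0; 0, p - q * s] * P := by
      have h5 : (!![p + q * s, 0; 0, p - q * s] : Matrix (Fin 2) (Fin 2) ℂ) =
          p • (1 : Matrix (Fin 2) (Fin 2) ℂ) + q • !![s, 0; 0, -s] := by
        ext i j
        fin_cases i <;> fin_cases j <;> simp [sub_eq_add_neg]
      rw [h5, Matrix.add_mul, Matrix.smul_mul, Matrix.smul_mul, Matrix.mul_add,
        Matrix.mul_smul, Matrix.mul_smul, mul_one, one_mul, hPW]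
    rw [hA, hA, ← ugeo_mul_apply, h3, ugeo_mul_apply]
    exact act_diag _ _ _

variable {O : Type} [CommRing O] [IsDomain O] {N : O} {Γ : Type} [Group Γ]

theorem ugeo_det_map (σ : O →+* ℂ) (M : Matrix (Fin 2) (Fin 2) O) :
    (M.map σ).det = σ M.det := by
  rw [Matrix.det_fin_two, Matrix.det_fin_two]
  simp

theorem inv_A (σ : O →+* ℂ) (hσ : ImQ σ) (P : PG N Γ) (ρ : Γ →* (V →ₗ[ℝ] V))
    (hρ : ∀ g M, P.R g M → ∀ v,
      ρ g v = (Real.sqrt (Complex.normSq (σ M.det)))⁻¹ • act (M.map σ) v)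
    (g : Γ) (M : Matrix (Fin 2) (Fin 2) O) (hg : P.R g M) (htr : M 0 0 + M 1 1 = 0) :
    ∃ A : V ≃ₗ[ℝ] V, (∀ v, InC (A v) ↔ InC v) ∧ ∀ v, A (ρ g v) = JJ (A v) := by
  have htr' : (M.map σ) 0 0 + (M.map σ) 1 1 = 0 := by
    rw [Matrix.map_apply, Matrix.map_apply, ← map_add, htr, map_zero]
  have hdet' : (M.map σ).det ≠ 0 := by
    rw [ugeo_det_map]
    intro h
    exact P.det hg (hσ.inj (h.trans (map_zero σ).symm))
  obtain ⟨s, hs⟩ := IsAlgClosed.exists_pow_nat_eq (-(M.map σ).det) (n := 2) (by norm_num)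
  obtain ⟨A, hA1, hA2, -⟩ := diag_exists (M.map σ) htr' hdet' s hs
  refine ⟨A, hA1, fun v => ?_⟩
  rw [hρ g M hg v, ← ugeo_det_map]
  exact hA2 v

/-- for a unit `α` of `O[√-N]`: `|e1 σ s α|² |e1 σ (-s) α|² = 1`. -/
theorem axis_A (σ : O →+* ℂ) (hσ : ImQ σ) (P : PG N Γ) (ρ : Γ →* (V →ₗ[ℝ] V))
    (hρ : ∀ g M, P.R g M → ∀ v,
      ρ g v = (Real.sqrt (Complex.normSq (σ M.det)))⁻¹ • act (M.map σ) v)
    (s : ℂ) (hs : s ^ 2 = σ (-N)) (w : Γ) (W : Matrix (Fin 2) (Fin 2) O) (hw : P.R w W)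
    (htr : W 0 0 + W 1 1 = 0) (hdet : W.det = N) :
    ∃ A : V ≃ₗ[ℝ] V, (∀ v, InC (A v) ↔ InC v) ∧ (∀ v, A (ρ w v) = JJ (A v)) ∧
      ∀ (α : (RN N)ˣ) (g : Γ), P.R g (um W (α : RN N)) → ∀ v,
        A (ρ g v) 0 = Complex.normSq (e1 σ s (α : RN N)) * A v 0 ∧
        A (ρ g v) 1 = (Complex.normSq (e1 σ s (α : RN N)))⁻¹ * A v 1 := by
  have htr' : (W.map σ) 0 0 + (W.map σ) 1 1 = 0 := by
    rw [Matrix.map_apply, Matrix.map_apply, ← map_add, htr, map_zero]
  have hdet' : (W.map σ).det ≠ 0 := by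
    rw [ugeo_det_map]
    intro h
    exact P.det hw (hσ.inj (h.trans (map_zero σ).symm))
  have hs' : s ^ 2 = -(W.map σ).det := by
    rw [ugeo_det_map, hdet, hs, map_neg]
  obtain ⟨A, hA1, hA2, hA3⟩ := diag_exists (W.map σ) htr' hdet' s hs'
  refine ⟨A, hA1, fun v => ?_, ?_⟩
  · rw [hρ w W hw v, ← ugeo_det_map]
    exact hA2 v
  · intro α g hg v
    set p : O := (α : RN N).re with hp
    set q : O := (α : RN N).im with hq
    set p' : O := ((α⁻¹ : (RN N)ˣ) : RN N).re with hp'
    set q' : O := ((α⁻¹ : (RN N)ˣ) : RN N).im with hq'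
    have hmul : (α : RN N) * ((α⁻¹ : (RN N)ˣ) : RN N) = 1 := Units.mul_inv α
    have k1 : p * p' + -N * q * q' = 1 := by
      have h := congrArg QuadraticAlgebra.re hmul
      rw [QuadraticAlgebra.re_mul, QuadraticAlgebra.re_one] at h
      exact h
    have k2 : p * q' + q * p' = 0 := by
      have h := congrArg QuadraticAlgebra.im hmul
      rw [QuadraticAlgebra.im_mul, QuadraticAlgebra.im_one] at h
      linear_combination h
    have hdetu : (um W (α : RN N)).det = p ^ 2 + N * q ^ 2 := by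
      have hW := hdet
      rw [Matrix.det_fin_two] at hW
      rw [Matrix.det_fin_two]
      simp only [um, Matrix.add_apply, Matrix.smul_apply, Matrix.one_apply, smul_eq_mul,
        if_true, Fin.isValue, zero_ne_one, one_ne_zero, if_false]
      linear_combination (p * q) * htr + q ^ 2 * hW
    have hunit : (p ^ 2 + N * q ^ 2) * (p' ^ 2 + N * q' ^ 2) = 1 := by
      linear_combination (p * p' - N * q * q' + 1) * k1 + N * (p * q' + q * p') * k2
    have hns : Complex.normSq (σ (um W (α : RN N)).det) = 1 := by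
      rw [hdetu]
      exact unit_abs hσ ⟨p ^ 2 + N * q ^ 2, p' ^ 2 + N * q' ^ 2, hunit, by
        rw [mul_comm]; exact hunit⟩
    have hmap : (um W (α : RN N)).map σ =
        σ p • (1 : Matrix (Fin 2) (Fin 2) ℂ) + σ q • W.map σ := by
      ext i j
      fin_cases i <;> fin_cases j <;> simp [um, hp, hq]
    have hprod : Complex.normSq (σ p + σ q * s) * Complex.normSq (σ p - σ q * s) = 1 := by
      rw [← map_mul]
      have h : (σ p + σ q * s) * (σ p - σ q * s) = σ (um W (α : RN N)).det := by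
        rw [hdetu, map_add, map_pow, map_mul, map_pow]
        rw [map_neg] at hs
        linear_combination -(σ q) ^ 2 * hs
      rw [h, hns]
    have hρg : ρ g v = act (σ p • (1 : Matrix (Fin 2) (Fin 2) ℂ) + σ q • W.map σ) v := by
      rw [hρ g _ hg v, hns, Real.sqrt_one, inv_one, one_smul, hmap]
    obtain ⟨r1, r2⟩ := hA3 (σ p) (σ q) v
    have he : e1 σ s (α : RN N) = σ p + σ q * s := rfl
    rw [hρg, he]
    refine ⟨r1, ?_⟩
    rw [r2]
    congr 1
    exact (inv_eq_of_mul_eq_one_right hprod).symm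

end SerreU
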