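import Pool.Agent.SerreU.UDefs
import Pool.Agent.SerreK.MM
import Pool.Agent.SerreK.ACT

/-!
# UGRP: the group `Γ` and its action on hermitian matrices
-/

open Matrix

namespace SerreU

open SerreE SerreK

section ugrp

/-- `PGL₂(ℂ)` -/
abbrev UPGL : Type := Matrix.ProjGenLinGroup (Fin 2) ℂ

variable {O : Type} [CommRing O]

theorem ugrp_det (σ : O →+* ℂ) (M : Matrix (Fin 2) (Fin 2) O) : (M.map σ).det = σ M.det := by
  rw [Matrix.det_fin_two, Matrix.det_fin_two]
  simp [Matrix.map_apply]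

/-- `g` is the class of `σ(M)` -/
def URel (σ : O →+* ℂ) (g : UPGL) (M : Matrix (Fin 2) (Fin 2) O) : Prop :=
  M.det ≠ 0 ∧ ∃ A : GL (Fin 2) ℂ, A.val = M.map σ ∧ Matrix.ProjGenLinGroup.mk A = g

theorem urel_ex {σ : O →+* ℂ} (hσ : Function.Injective σ) {M : Matrix (Fin 2) (Fin 2) O}
    (h : M.det ≠ 0) : ∃ A : GL (Fin 2) ℂ, A.val = M.map σ := by
  have h1 : (M.map σ).det ≠ 0 := by
    rw [ugrp_det]
    intro h2
    exact h (hσ (by rw [h2, map_zero]))
  exact ⟨Matrix.GeneralLinearGroup.mkOfDetNeZero (M.map σ) h1, rfl⟩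

theorem urel_inj {σ : O →+* ℂ} {g h : UPGL} {M : Matrix (Fin 2) (Fin 2) O}
    (hg : URel σ g M) (hh : URel σ h M) : g = h := by
  obtain ⟨-, A, hA, rfl⟩ := hg
  obtain ⟨-, B, hB, rfl⟩ := hh
  have : A = B := Units.ext (by rw [hA, hB])
  rw [this]

theorem urel_mul [IsDomain O] {σ : O →+* ℂ} {g h : UPGL} {M M' : Matrix (Fin 2) (Fin 2) O}
    (hg : URel σ g M) (hh : URel σ h M') : URel σ (g * h) (M * M') := by
  obtain ⟨h1, A, hA, rfl⟩ := hg
  obtain ⟨h2, B, hB, rfl⟩ := hh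
  refine ⟨by rw [Matrix.det_mul]; exact mul_ne_zero h1 h2, A * B, ?_, map_mul _ _ _⟩
  rw [Units.val_mul, hA, hB, Matrix.map_mul]

theorem urel_one [Nontrivial O] {σ : O →+* ℂ} : URel σ 1 (1 : Matrix (Fin 2) (Fin 2) O) := by
  refine ⟨by rw [Matrix.det_one]; exact one_ne_zero, 1, ?_, map_one _⟩
  rw [Units.val_one, Matrix.map_one _ (map_zero σ) (map_one σ)]

/-- classes of proportional matrices -/
theorem ugrp_smul {A B : GL (Fin 2) ℂ} (u : ℂ) (hu : u ≠ 0) (h : B.val = u • A.val) :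
    Matrix.ProjGenLinGroup.mk A = Matrix.ProjGenLinGroup.mk B := by
  rw [Matrix.ProjGenLinGroup.mk_eq_mk_iff]
  refine ⟨Units.mk0 u hu, ?_⟩
  apply Units.ext
  rw [Units.val_mul, h]
  ext i j
  fin_cases i <;> fin_cases j <;> simp [Matrix.mul_apply, Fin.sum_univ_two] <;> ring

theorem urel_smul_iff [IsDomain O] {σ : O →+* ℂ} (hσ : Function.Injective σ) {g : UPGL}
    {M : Matrix (Fin 2) (Fin 2) O} {c : O} (hc : c ≠ 0) : URel σ g (c • M) ↔ URel σ g M := by
  have hσc : σ c ≠ 0 := fun h => hc (hσ (by rw [h, map_zero]))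
  have hdet : (c • M).det = c ^ 2 * M.det := by
    rw [Matrix.det_smul, Fintype.card_fin]
  have hmap : (c • M).map σ = σ c • M.map σ := by
    ext i j
    simp
  constructor
  · rintro ⟨h1, A, hA, rfl⟩
    have h2 : M.det ≠ 0 := by
      intro h
      apply h1
      rw [hdet, h, mul_zero]
    obtain ⟨B, hB⟩ := urel_ex hσ h2
    refine ⟨h2, B, hB, ?_⟩
    apply ugrp_smul (σ c) hσc
    rw [hA, hB, hmap]
  · rintro ⟨h1, A, hA, rfl⟩
    have h2 : (c • M).det ≠ 0 := by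
      rw [hdet]
      exact mul_ne_zero (pow_ne_zero _ hc) h1
    obtain ⟨B, hB⟩ := urel_ex hσ h2
    refine ⟨h2, B, hB, ?_⟩
    symm
    apply ugrp_smul (σ c) hσc
    rw [hA, hB, hmap]

theorem urel_prop {σ : O →+* ℂ} (hσ : Function.Injective σ) {g : UPGL}
    {M M' : Matrix (Fin 2) (Fin 2) O} (h : URel σ g M) (h' : URel σ g M') :
    ∃ c c' : O, c ≠ 0 ∧ c' ≠ 0 ∧ c • M = c' • M' := by
  obtain ⟨h1, A, hA, rfl⟩ := h
  obtain ⟨h2, B, hB, hAB⟩ := h'
  rw [Matrix.ProjGenLinGroup.mk_eq_mk_iff] at hAB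
  obtain ⟨u, hu⟩ := hAB
  have hu' := congrArg Units.val hu
  rw [Units.val_mul, hA, hB] at hu'
  have key : ∀ i j, σ (M' i j) * u = σ (M i j) := by
    intro i j
    have h3 := congrFun (congrFun hu' i) j
    fin_cases i <;> fin_cases j <;>
      simpa [Matrix.mul_apply, Fin.sum_univ_two] using h3
  obtain ⟨i, j, hij⟩ : ∃ i j, M i j ≠ 0 := by
    by_contra hno
    push Not at hno
    apply h1
    rw [Matrix.det_fin_two, hno, hno, hno]
    ring
  have hσij : σ (M i j) ≠ 0 := fun h => hij (hσ (by rw [h, map_zero]))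
  refine ⟨M' i j, M i j, ?_, hij, ?_⟩
  · intro h
    apply hσij
    rw [← key i j, h, map_zero, zero_mul]
  · ext k l
    simp only [Matrix.smul_apply, smul_eq_mul]
    apply hσ
    rw [map_mul, map_mul, ← key k l, ← key i j]
    ring

theorem urel_adj [IsDomain O] {σ : O →+* ℂ} (hσ : Function.Injective σ) {g : UPGL}
    {M : Matrix (Fin 2) (Fin 2) O} (h : URel σ g M) : URel σ g⁻¹ M.adjugate := by
  have hd : M.adjugate.det = M.det := by
    rw [Matrix.adjugate_fin_two, Matrix.det_fin_two, Matrix.det_fin_two]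
    simp
    ring
  have h1 : M.adjugate.det ≠ 0 := by
    rw [hd]
    exact h.1
  obtain ⟨B, hB⟩ := urel_ex hσ h1
  have h2 : URel σ (Matrix.ProjGenLinGroup.mk B) M.adjugate := ⟨h1, B, hB, rfl⟩
  have h3 := urel_mul h h2
  rw [Matrix.mul_adjugate, urel_smul_iff hσ h.1] at h3
  have h4 := urel_inj h3 urel_one
  rw [← inv_eq_of_mul_eq_one_right h4] at h2
  exact h2

/-! ### matrices of type `TA`, `TB` -/

theorem tt_det [IsDomain O] {N : O} (hN : N ≠ 0) {M : Matrix (Fin 2) (Fin 2) O}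
    (h : TA N M ∨ TB N M) : M.det ≠ 0 := by
  rcases h with h | h
  · exact h.1.ne_zero
  · exact (h.1.ne_zero_iff).2 hN

theorem tt_one {N : O} : TA N (1 : Matrix (Fin 2) (Fin 2) O) := by
  refine ⟨by rw [Matrix.det_one]; exact isUnit_one, ?_⟩
  simp

theorem tt_adj {N : O} {M : Matrix (Fin 2) (Fin 2) O} (h : TA N M ∨ TB N M) :
    TA N M.adjugate ∨ TB N M.adjugate := by
  have hd : M.adjugate.det = M.det := by
    rw [Matrix.adjugate_fin_two, Matrix.det_fin_two, Matrix.det_fin_two]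
    simp
    ring
  have e00 : M.adjugate 0 0 = M 1 1 := by rw [Matrix.adjugate_fin_two]; rfl
  have e10 : M.adjugate 1 0 = -M 1 0 := by rw [Matrix.adjugate_fin_two]; rfl
  have e11 : M.adjugate 1 1 = M 0 0 := by rw [Matrix.adjugate_fin_two]; rfl
  rcases h with ⟨h1, h2⟩ | ⟨h1, h2, h3, h4⟩
  · left
    refine ⟨by rw [hd]; exact h1, ?_⟩
    rw [e10]
    exact (dvd_neg).2 h2
  · right
    refine ⟨by rw [hd]; exact h1, ?_, ?_, ?_⟩
    · rw [e00]; exact h4
    · rw [e10]; exact (dvd_neg).2 h3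
    · rw [e11]; exact h2

/-- products -/
theorem tt_mul [IsDomain O] {N : O} (hN : N ≠ 0) {M M' : Matrix (Fin 2) (Fin 2) O}
    (h : TA N M ∨ TB N M) (h' : TA N M' ∨ TB N M') :
    ∃ (M'' : Matrix (Fin 2) (Fin 2) O) (c : O), c ≠ 0 ∧ M * M' = c • M'' ∧
      (TA N M'' ∨ TB N M'') := by
  have e00 : (M * M') 0 0 = M 0 0 * M' 0 0 + M 0 1 * M' 1 0 := by
    rw [Matrix.mul_apply, Fin.sum_univ_two]
  have e01 : (M * M') 0 1 = M 0 0 * M' 0 1 + M 0 1 * M' 1 1 := by
    rw [Matrix.mul_apply, Fin.sum_univ_two]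
  have e10 : (M * M') 1 0 = M 1 0 * M' 0 0 + M 1 1 * M' 1 0 := by
    rw [Matrix.mul_apply, Fin.sum_univ_two]
  have e11 : (M * M') 1 1 = M 1 0 * M' 0 1 + M 1 1 * M' 1 1 := by
    rw [Matrix.mul_apply, Fin.sum_univ_two]
  rcases h with ⟨h1, h2⟩ | ⟨h1, h2, h3, h4⟩ <;> rcases h' with ⟨g1, g2⟩ | ⟨g1, g2, g3, g4⟩
  · refine ⟨M * M', 1, one_ne_zero, (one_smul _ _).symm, Or.inl ⟨?_, ?_⟩⟩
    · rw [Matrix.det_mul]
      exact h1.mul g1
    · rw [e10]
      exact dvd_add (dvd_mul_of_dvd_left h2 _) (dvd_mul_of_dvd_right g2 _)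
  · refine ⟨M * M', 1, one_ne_zero, (one_smul _ _).symm, Or.inr ⟨?_, ?_, ?_, ?_⟩⟩
    · rw [Matrix.det_mul]
      exact (associated_unit_mul_left _ _ h1).trans g1
    · rw [e00]
      exact dvd_add (dvd_mul_of_dvd_right g2 _) (dvd_mul_of_dvd_right g3 _)
    · rw [e10]
      exact dvd_add (dvd_mul_of_dvd_left h2 _) (dvd_mul_of_dvd_right g3 _)
    · rw [e11]
      exact dvd_add (dvd_mul_of_dvd_left h2 _) (dvd_mul_of_dvd_right g4 _)
  · refine ⟨M * M', 1, one_ne_zero, (one_smul _ _).symm, Or.inr ⟨?_, ?_, ?_, ?_⟩⟩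
    · rw [Matrix.det_mul]
      exact (associated_mul_unit_left _ _ g1).trans h1
    · rw [e00]
      exact dvd_add (dvd_mul_of_dvd_left h2 _) (dvd_mul_of_dvd_right g2 _)
    · rw [e10]
      exact dvd_add (dvd_mul_of_dvd_left h3 _) (dvd_mul_of_dvd_left h4 _)
    · rw [e11]
      exact dvd_add (dvd_mul_of_dvd_left h3 _) (dvd_mul_of_dvd_left h4 _)
  · obtain ⟨a, ha⟩ : N ∣ (M * M') 0 0 := by
      rw [e00]
      exact dvd_add (dvd_mul_of_dvd_left h2 _) (dvd_mul_of_dvd_right g3 _)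
    obtain ⟨b, hb⟩ : N ∣ (M * M') 0 1 := by
      rw [e01]
      exact dvd_add (dvd_mul_of_dvd_left h2 _) (dvd_mul_of_dvd_right g4 _)
    obtain ⟨e, he⟩ : N ∣ (M * M') 1 1 := by
      rw [e11]
      exact dvd_add (dvd_mul_of_dvd_left h3 _) (dvd_mul_of_dvd_left h4 _)
    obtain ⟨c, hc⟩ : N * N ∣ (M * M') 1 0 := by
      rw [e10]
      exact dvd_add (mul_dvd_mul h3 g2) (mul_dvd_mul h4 g3)
    have hM : M * M' = N • !![a, b; N * c, e] := by
      ext i j
      fin_cases i <;> fin_cases j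
      · simpa using ha
      · simpa using hb
      · simpa [mul_assoc] using hc
      · simpa using he
    refine ⟨!![a, b; N * c, e], N, hN, hM, Or.inl ⟨?_, ?_⟩⟩
    · have h5 : M.det * M'.det = N ^ 2 * (!![a, b; N * c, e] : Matrix (Fin 2) (Fin 2) O).det := by
        rw [← Matrix.det_mul, hM, Matrix.det_smul, Fintype.card_fin]
      have h6 : Associated (M.det * M'.det) (N ^ 2) := by
        rw [sq]
        exact h1.mul_mul g1
      rw [h5] at h6
      obtain ⟨u, hu⟩ := h6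
      have h7 : N ^ 2 * ((!![a, b; N * c, e] : Matrix (Fin 2) (Fin 2) O).det * u) = N ^ 2 * 1 := by
        rw [← mul_assoc, hu, mul_one]
      have h8 := mul_left_cancel₀ (pow_ne_zero 2 hN) h7
      exact IsUnit.of_mul_eq_one _ h8
    · simp

/-- the group `Γ` -/
def UGam [IsDomain O] {σ : O →+* ℂ} (hσ : Function.Injective σ) {N : O} (hN : N ≠ 0) :
    Subgroup UPGL where
  carrier := {g | ∃ M, (TA N M ∨ TB N M) ∧ URel σ g M}
  mul_mem' := by
    rintro g h ⟨M, hM, hg⟩ ⟨M', hM', hh⟩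
    obtain ⟨M'', c, hc, h1, h2⟩ := tt_mul hN hM hM'
    refine ⟨M'', h2, ?_⟩
    rw [← urel_smul_iff hσ hc, ← h1]
    exact urel_mul hg hh
  one_mem' := ⟨1, Or.inl tt_one, urel_one⟩
  inv_mem' := by
    rintro g ⟨M, hM, hg⟩
    exact ⟨M.adjugate, tt_adj hM, urel_adj hσ hg⟩

/-- the relation between elements of `Γ` and matrices -/
def ugrpPG [IsDomain O] {σ : O →+* ℂ} (hσ : Function.Injective σ) {N : O} (hN : N ≠ 0) :
    PG N (UGam hσ hN) where
  R g M := URel σ (g : UPGL) M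
  det h := h.1
  one := urel_one
  mul h h' := urel_mul h h'
  smul hc := urel_smul_iff hσ hc
  prop h h' := urel_prop hσ h h'
  inj h h' := Subtype.ext (urel_inj h h')
  ex g := g.2
  surj M hM := by
    obtain ⟨A, hA⟩ := urel_ex hσ (tt_det hN hM)
    exact ⟨⟨Matrix.ProjGenLinGroup.mk A, M, hM, tt_det hN hM, A, hA, rfl⟩,
      tt_det hN hM, A, hA, rfl⟩

theorem ugrp_countable [IsDomain O] {σ : O →+* ℂ} (hσ : ImQ σ) {N : O} (hN : N ≠ 0) :
    Countable (UGam hσ.inj hN) := by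
  have h0 : Countable O := countable_of_imQ hσ
  have h1 : Countable (Matrix (Fin 2) (Fin 2) O) :=
    inferInstanceAs (Countable (Fin 2 → Fin 2 → O))
  choose f hf1 hf2 using fun g : UGam hσ.inj hN => g.2
  have hinj : Function.Injective f := by
    intro g h hgh
    have h2 := hf2 h
    rw [← hgh] at h2
    exact Subtype.ext (urel_inj (hf2 g) h2)
  exact hinj.countable

/-! ### the representation -/

/-- absolute value of a complex number, squared root of the norm -/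
theorem sqrt_nrm_mul (a b : ℂ) : Real.sqrt (Complex.normSq (a * b)) =
    Real.sqrt (Complex.normSq a) * Real.sqrt (Complex.normSq b) := by
  rw [Complex.normSq_mul, Real.sqrt_mul (Complex.normSq_nonneg a)]

/-- scalar matrices -/
theorem act_smul_mat (u : ℂ) (M : Matrix (Fin 2) (Fin 2) ℂ) :
    act (u • M) = Complex.normSq u • act M := by
  have h1 : ∀ v, act (u • (1 : Matrix (Fin 2) (Fin 2) ℂ)) v = Complex.normSq u • v := by
    intro v
    have h2 : (u • (1 : Matrix (Fin 2) (Fin 2) ℂ)) = !![u, 0; 0, u] := by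
      ext i j
      fin_cases i <;> fin_cases j <;> simp
    rw [h2]
    funext i
    fin_cases i
    · exact (act_diag u u v).1
    · exact (act_diag u u v).2
    · change act !![u, 0; 0, u] v 2 = Complex.normSq u * v 2
      rw [ACT_2, Complex.normSq_apply]
      simp
      left
      ring
    · change act !![u, 0; 0, u] v 3 = Complex.normSq u * v 3
      rw [ACT_3, Complex.normSq_apply]
      simp
      left
      ring
  apply LinearMap.ext
  intro v
  have h2 : u • M = (u • (1 : Matrix (Fin 2) (Fin 2) ℂ)) * M := by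
    rw [Matrix.smul_mul, Matrix.one_mul]
  rw [h2, act_mul]
  change act (u • (1 : Matrix (Fin 2) (Fin 2) ℂ)) (act M v) = _
  rw [h1]
  rfl

/-- the representation of `GL₂(ℂ)` -/
noncomputable def ugrp_rep : GL (Fin 2) ℂ →* (V →ₗ[ℝ] V) where
  toFun A := (Real.sqrt (Complex.normSq A.val.det))⁻¹ • act A.val
  map_one' := by
    rw [Units.val_one, Matrix.det_one, map_one, Real.sqrt_one, inv_one, one_smul, act_one]
  map_mul' A B := by
    rw [Units.val_mul, Matrix.det_mul, sqrt_nrm_mul, mul_inv, act_mul]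
    apply LinearMap.ext
    intro v
    simp only [LinearMap.smul_apply, Module.End.mul_apply, map_smul, smul_smul]
    congr 1
    exact mul_comm _ _

theorem ugrp_rep_scalar :
    ugrp_rep.comp (Matrix.GeneralLinearGroup.scalar (Fin 2)) = 1 := by
  ext1 u
  have h1 : (Matrix.GeneralLinearGroup.scalar (Fin 2) u).val =
      (u : ℂ) • (1 : Matrix (Fin 2) (Fin 2) ℂ) := by
    ext i j
    fin_cases i <;> fin_cases j <;> simp
  change (Real.sqrt (Complex.normSq (Matrix.GeneralLinearGroup.scalar (Fin 2) u).val.det))⁻¹ •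
    act (Matrix.GeneralLinearGroup.scalar (Fin 2) u).val = 1
  rw [h1, act_smul_mat, act_one, Matrix.det_smul, Fintype.card_fin, Matrix.det_one, mul_one,
    map_pow, Real.sqrt_sq (Complex.normSq_nonneg _), smul_smul, inv_mul_cancel₀, one_smul]
  exact (Complex.normSq_pos.2 u.ne_zero).ne'

/-- the representation of `Γ` -/
noncomputable def ugrp_rho [IsDomain O] {σ : O →+* ℂ} (hσ : Function.Injective σ) {N : O}
    (hN : N ≠ 0) : UGam hσ hN →* (V →ₗ[ℝ] V) :=
  (Matrix.ProjGenLinGroup.lift ugrp_rep ugrp_rep_scalar).comp (UGam hσ hN).subtype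

theorem ugrp_rho_eq [IsDomain O] {σ : O →+* ℂ} (hσ : Function.Injective σ) {N : O} (hN : N ≠ 0)
    (g : UGam hσ hN) (M : Matrix (Fin 2) (Fin 2) O) (h : (ugrpPG hσ hN).R g M) :
    ugrp_rho hσ hN g = (Real.sqrt (Complex.normSq (σ M.det)))⁻¹ • act (M.map σ) := by
  obtain ⟨-, A, hA, hg⟩ := h
  have h1 : ugrp_rho hσ hN g = ugrp_rep A := by
    change Matrix.ProjGenLinGroup.lift ugrp_rep ugrp_rep_scalar (g : UPGL) = _
    rw [← hg, Matrix.ProjGenLinGroup.lift_mk]
  rw [h1, ← ugrp_det, ← hA]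
  rfl

theorem inC_smul (r : ℝ) (hr : 0 < r) (v : V) (hv : InC v) : InC (r • v) := by
  obtain ⟨h0, h1⟩ := hv
  refine ⟨?_, ?_⟩
  · simp only [Pi.smul_apply, smul_eq_mul]
    positivity
  · simp only [Pi.smul_apply, smul_eq_mul]
    have h2 : 0 < r ^ 2 := by positivity
    nlinarith [mul_lt_mul_of_pos_left h1 h2]

theorem ugrp_inC [IsDomain O] {σ : O →+* ℂ} (hσ : Function.Injective σ) {N : O} (hN : N ≠ 0)
    (g : UGam hσ hN) (v : V) (hv : InC v) : InC (ugrp_rho hσ hN g v) := by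
  obtain ⟨M, hM, h⟩ := (ugrpPG hσ hN).ex g
  have hd : σ M.det ≠ 0 := by
    intro h1
    exact h.1 (hσ (by rw [h1, map_zero]))
  rw [ugrp_rho_eq hσ hN g M h]
  apply inC_smul
  · exact inv_pos.2 (Real.sqrt_pos.2 (Complex.normSq_pos.2 hd))
  · apply act_inC
    · rw [ugrp_det]
      exact hd
    · exact hv

theorem ugrp_proper [IsDomain O] {σ : O →+* ℂ} (hσ : ImQ σ) {N : O} (hN : N ≠ 0) :
    Proper (ugrp_rho hσ.inj hN) := by
  intro a b c p q ha hb hc hp hq
  obtain ⟨K, hK⟩ := act_proper a b c p q ha hb hc hp hq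
  obtain ⟨B, hB⟩ : ∃ B, B = max 1 (Real.sqrt (Complex.normSq (σ N))) := ⟨_, rfl⟩
  have hfin : {m : Fin 2 → Fin 2 → O |
      ∀ i j, m i j ∈ {x : O | Complex.normSq (σ x) ≤ B * K}}.Finite := by
    have h1 : {r : Fin 2 → O | ∀ j, r j ∈ {x : O | Complex.normSq (σ x) ≤ B * K}}.Finite :=
      Set.Finite.pi' (fun _ => hσ.fin (B * K))
    exact Set.Finite.pi' (fun _ => h1)
  choose f hf1 hf2 using (ugrpPG hσ.inj hN).ex
  have hinj : Function.Injective (fun g => (fun i j => f g i j : Fin 2 → Fin 2 → O)) := by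
    intro g h hgh
    have h1 : f g = f h := hgh
    have h2 := hf2 h
    rw [← h1] at h2
    exact (ugrpPG hσ.inj hN).inj (hf2 g) h2
  refine (Set.Finite.preimage hinj.injOn hfin).subset ?_
  intro g hg i j
  change Complex.normSq (σ (f g i j)) ≤ B * K
  have hd : σ (f g).det ≠ 0 := by
    intro h1
    exact (hf2 g).1 (hσ.inj (by rw [h1, map_zero]))
  have hdp : 0 < Complex.normSq (σ (f g).det) := Complex.normSq_pos.2 hd
  obtain ⟨r, hr⟩ : ∃ r, r = Real.sqrt (Complex.normSq (σ (f g).det)) := ⟨_, rfl⟩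
  have hr0 : 0 < r := by
    rw [hr]
    exact Real.sqrt_pos.2 hdp
  have hrr : r * r = Complex.normSq (σ (f g).det) := by
    rw [hr]
    exact Real.mul_self_sqrt hdp.le
  have hrB : r ≤ B := by
    rcases hf1 g with h | h
    · have h1 := unit_abs hσ h.1.unit
      have h2 : ((h.1.unit : Oˣ) : O) = (f g).det := rfl
      rw [h2] at h1
      rw [hr, h1, Real.sqrt_one, hB]
      exact le_max_left _ _
    · obtain ⟨u, hu⟩ := h.1
      have h1 := unit_abs hσ u
      have h2 : Complex.normSq (σ N) = Complex.normSq (σ (f g).det) := by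
        rw [← hu, map_mul, map_mul, h1, mul_one]
      rw [hr, ← h2, hB]
      exact le_max_right _ _
  obtain ⟨s, hs⟩ : ∃ s, s = (Real.sqrt r)⁻¹ := ⟨_, rfl⟩
  have hss : s * s = r⁻¹ := by
    rw [hs, ← mul_inv, Real.mul_self_sqrt hr0.le]
  have hns : Complex.normSq ((s : ℝ) : ℂ) = r⁻¹ := by
    rw [Complex.normSq_ofReal, hss]
  have hρ : ugrp_rho hσ.inj hN g = act (((s : ℝ) : ℂ) • (f g).map σ) := by
    rw [ugrp_rho_eq hσ.inj hN g (f g) (hf2 g), act_smul_mat, hns, hr]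
  have h3 : Complex.normSq ((((s : ℝ) : ℂ) • (f g).map σ).det) = 1 := by
    rw [Matrix.det_smul, Fintype.card_fin, map_mul, map_pow, hns, ugrp_det, ← hrr]
    field_simp
  have hg' : Hit (ugrp_rho hσ.inj hN g a) (ugrp_rho hσ.inj hN g b) (ugrp_rho hσ.inj hN g c)
    p q := hg
  rw [hρ] at hg'
  have h4 := hK _ h3 hg' i j
  rw [Matrix.smul_apply, smul_eq_mul, map_mul, hns, Matrix.map_apply] at h4
  have h5 : Complex.normSq (σ (f g i j)) ≤ r * K := by
    have h6 := mul_le_mul_of_nonneg_left h4 hr0.le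
    rw [← mul_assoc, mul_inv_cancel₀ hr0.ne', one_mul] at h6
    exact h6
  have h7 : 0 ≤ K := by
    refine le_trans ?_ h4
    exact mul_nonneg (inv_nonneg.2 hr0.le) (Complex.normSq_nonneg _)
  exact h5.trans (mul_le_mul_of_nonneg_right hrB h7)

end ugrp

/-- `Γ` is the subgroup of `PGL(2, ℂ)` of the classes of the matrices `σ(M)`, `M` integral of type
`TA` or `TB`; `P.R g M` says that `M.det ≠ 0` and that `g` is the class of `σ(M)`. -/
theorem grp_exists {O : Type} [CommRing O] [IsDomain O] (σ : O →+* ℂ) (hσ : ImQ σ) (N : O)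
    (hN : Hyp N) :
    ∃ (Γ : Type) (_ : Group Γ) (_ : Countable Γ) (P : PG N Γ) (ρ : Γ →* (V →ₗ[ℝ] V)),
      (∀ g v, InC v → InC (ρ g v)) ∧ Proper ρ ∧
      ∀ g M, P.R g M → ∀ v, ρ g v = (Real.sqrt (Complex.normSq (σ M.det)))⁻¹ • act (M.map σ) v := by
  have hN0 : N ≠ 0 := by
    rintro rfl
    exact hN.nsq 0 (by ring)
  refine ⟨UGam hσ.inj hN0, inferInstance, ugrp_countable hσ hN0, ugrpPG hσ.inj hN0,
    ugrp_rho hσ.inj hN0, ugrp_inC hσ.inj hN0, ugrp_proper hσ hN0, ?_⟩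
  intro g M h v
  rw [ugrp_rho_eq hσ.inj hN0 g M h]
  rfl

end SerreU
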