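import Pool.Agent.SerreU.UBAS

/-!
# ULOC: the neighbours of an ideal
-/

open Matrix

namespace SerreU

open SerreE SerreK

section uloc0

variable {O : Type} [CommRing O] {N : O}

/-- the element of `GL₂` with given entries and determinant one -/
def ulocG (a b c d : O) (h : a * d - b * c = 1) : GL (Fin 2) O where
  val := !![a, b; c, d]
  inv := !![d, -b; -c, a]
  val_inv := by
    ext i j
    fin_cases i <;> fin_cases j <;>
      simp [Matrix.mul_apply, Fin.sum_univ_two] <;> first | linear_combination h | ring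
  inv_val := by
    ext i j
    fin_cases i <;> fin_cases j <;>
      simp [Matrix.mul_apply, Fin.sum_univ_two] <;> first | linear_combination h | ring

theorem uloc_coord {I : Ideal (RN N)} (B : AB N I) {a b a' b' : O}
    (h : a • B.e 0 + b • B.e 1 = a' • B.e 0 + b' • B.e 1) : a = a' ∧ b = b' := by
  have h1 : (a - a') • B.e 0 + (b - b') • B.e 1 = 0 := by
    have : (a - a') • B.e 0 + (b - b') • B.e 1 =
        (a • B.e 0 + b • B.e 1) - (a' • B.e 0 + b' • B.e 1) := by
      rw [sub_smul, sub_smul]; abel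
    rw [this, h, sub_self]
  obtain ⟨h2, h3⟩ := B.ind _ _ h1
  exact ⟨sub_eq_zero.1 h2, sub_eq_zero.1 h3⟩

theorem uloc_incl {I J : Ideal (RN N)} (h : J ≤ I) (B : AB N I) (B' : AB N J) :
    ∃ X : Matrix (Fin 2) (Fin 2) O, (∀ j, B'.e j = X 0 j • B.e 0 + X 1 j • B.e 1) ∧
      B.W * X = X * B'.W := by
  have h1 : ∀ j, ∃ a b : O, B'.e j = a • B.e 0 + b • B.e 1 := by
    intro j
    have h2 : B'.e j ∈ J := by
      rw [B'.mem]
      fin_cases j
      · exact ⟨1, 0, by simp⟩
      · exact ⟨0, 1, by simp⟩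
    exact (B.mem _).1 (h h2)
  choose a b hab using h1
  refine ⟨!![a 0, a 1; b 0, b 1], ?_, ?_⟩
  · intro j
    fin_cases j
    · simpa using hab 0
    · simpa using hab 1
  · have key : ∀ j, (B.W * !![a 0, a 1; b 0, b 1]) 0 j = (!![a 0, a 1; b 0, b 1] * B'.W) 0 j ∧
        (B.W * !![a 0, a 1; b 0, b 1]) 1 j = (!![a 0, a 1; b 0, b 1] * B'.W) 1 j := by
      intro j
      apply uloc_coord B
      have e1 : om N * B'.e j = (B.W * !![a 0, a 1; b 0, b 1]) 0 j • B.e 0 +
          (B.W * !![a 0, a 1; b 0, b 1]) 1 j • B.e 1 := by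
        have e0 : B'.e j = (!![a 0, a 1; b 0, b 1] : Matrix (Fin 2) (Fin 2) O) 0 j • B.e 0 +
            (!![a 0, a 1; b 0, b 1] : Matrix (Fin 2) (Fin 2) O) 1 j • B.e 1 := by
          fin_cases j
          · simpa using hab 0
          · simpa using hab 1
        rw [e0, mul_add, mul_smul_comm, mul_smul_comm, B.act 0, B.act 1, Matrix.mul_apply,
          Matrix.mul_apply, Fin.sum_univ_two, Fin.sum_univ_two]
        module
      have e2 : om N * B'.e j = (!![a 0, a 1; b 0, b 1] * B'.W) 0 j • B.e 0 +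
          (!![a 0, a 1; b 0, b 1] * B'.W) 1 j • B.e 1 := by
        rw [B'.act j, hab 0, hab 1, Matrix.mul_apply,
          Matrix.mul_apply, Fin.sum_univ_two, Fin.sum_univ_two]
        simp only [Matrix.of_apply, Matrix.cons_val', Matrix.cons_val_zero, Matrix.cons_val_one,
          Matrix.cons_val_fin_one]
        module
      rw [← e1, ← e2]
    ext i j
    fin_cases i
    · exact (key j).1
    · exact (key j).2

end uloc0

section uloc1

variable {O : Type} [CommRing O] [IsDomain O] [IsPrincipalIdealRing O] {N : O}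

theorem uloc_coprime {π x : O} (hπ : Prime π) (hx : ¬ π ∣ x) : IsCoprime π x :=
  (hπ.irreducible.coprime_iff_not_dvd).2 hx

/-- the line of the vector `(v0, v1)` modulo `π` -/
theorem uloc_cover {π : O} (v0 v1 : O) (hπ : Prime π) (hN : ¬ π ∣ N) :
    ∃ a b c d : O, a * d - b * c = 1 ∧ N ∣ c ∧ π ∣ d * v0 - b * v1 := by
  by_cases h1 : π ∣ v1
  · obtain ⟨al, be, h⟩ := uloc_coprime hπ hN
    refine ⟨al, -be, N, π, ?_, dvd_rfl, ?_⟩
    · linear_combination h
    · obtain ⟨w, hw⟩ := h1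
      exact ⟨v0 + be * w, by rw [hw]; ring⟩
  · obtain ⟨u, w, h⟩ := uloc_coprime hπ h1
    refine ⟨1, w * v0, 0, 1, ?_, dvd_zero _, ?_⟩
    · ring
    · exact ⟨u * v0, by linear_combination (-v0) * h⟩

/-- factorisation of an integral matrix of determinant `π`. -/
theorem uloc_fac {π : O} (hπ : Prime π) (hN : ¬ π ∣ N) (X : Matrix (Fin 2) (Fin 2) O)
    (hdet : Associated X.det π) (hX : N ∣ X 1 0) :
    ∃ D γ : Gam0 N, X = D.val.val * PM π * γ.val.val := by
  have hdvd : π ∣ X.det := hdet.symm.dvd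
  obtain ⟨dl, hdl⟩ := hdvd
  rw [Matrix.det_fin_two] at hdl
  have hcol : ¬ (π ∣ X 0 0 ∧ π ∣ X 1 0) ∨ ¬ (π ∣ X 0 1 ∧ π ∣ X 1 1) := by
    by_contra hcon
    push Not at hcon
    obtain ⟨⟨⟨x, hx⟩, ⟨y, hy⟩⟩, ⟨⟨z, hz⟩, ⟨w, hw⟩⟩⟩ := hcon
    have h1 : π * π ∣ X.det := by
      rw [Matrix.det_fin_two, hx, hy, hz, hw]
      exact ⟨x * w - z * y, by ring⟩
    have h2 : π * π ∣ π := h1.trans hdet.dvd
    obtain ⟨k, hk⟩ := h2
    have h3 : π * k = 1 := by
      apply mul_left_cancel₀ hπ.ne_zero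
      linear_combination (-1 : O) * hk
    exact hπ.not_isUnit (IsUnit.of_mul_eq_one _ h3)
  have hrow : ∃ a b c d : O, a * d - b * c = 1 ∧ N ∣ c ∧ π ∣ d * X 0 0 - b * X 1 0 ∧
      π ∣ d * X 0 1 - b * X 1 1 := by
    rcases hcol with hcol | hcol
    · obtain ⟨a, b, c, d, h1, h2, h3⟩ := uloc_cover (N := N) (X 0 0) (X 1 0) hπ hN
      refine ⟨a, b, c, d, h1, h2, h3, ?_⟩
      have h4 : ¬ π ∣ -c * X 0 0 + a * X 1 0 := by
        intro h5
        apply hcol
        obtain ⟨p, hp⟩ := h3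
        obtain ⟨q, hq⟩ := h5
        refine ⟨⟨a * p + b * q, ?_⟩, ⟨c * p + d * q, ?_⟩⟩
        · linear_combination a * hp + b * hq - X 0 0 * h1
        · linear_combination c * hp + d * hq - X 1 0 * h1
      have h6 : π ∣ (d * X 0 1 - b * X 1 1) * (-c * X 0 0 + a * X 1 0) := by
        obtain ⟨p, hp⟩ := h3
        refine ⟨p * (-c * X 0 1 + a * X 1 1) - dl, ?_⟩
        linear_combination (-c * X 0 1 + a * X 1 1) * hp - (a * d - b * c) * hdl -
          π * dl * h1
      exact (hπ.dvd_or_dvd h6).resolve_right h4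
    · obtain ⟨a, b, c, d, h1, h2, h3⟩ := uloc_cover (N := N) (X 0 1) (X 1 1) hπ hN
      refine ⟨a, b, c, d, h1, h2, ?_, h3⟩
      have h4 : ¬ π ∣ -c * X 0 1 + a * X 1 1 := by
        intro h5
        apply hcol
        obtain ⟨p, hp⟩ := h3
        obtain ⟨q, hq⟩ := h5
        refine ⟨⟨a * p + b * q, ?_⟩, ⟨c * p + d * q, ?_⟩⟩
        · linear_combination a * hp + b * hq - X 0 1 * h1
        · linear_combination c * hp + d * hq - X 1 1 * h1
      have h6 : π ∣ (d * X 0 0 - b * X 1 0) * (-c * X 0 1 + a * X 1 1) := by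
        obtain ⟨p, hp⟩ := h3
        refine ⟨p * (-c * X 0 0 + a * X 1 0) + dl, ?_⟩
        linear_combination (-c * X 0 0 + a * X 1 0) * hp + (a * d - b * c) * hdl +
          π * dl * h1
      exact (hπ.dvd_or_dvd h6).resolve_right h4
  obtain ⟨a, b, c, d, h1, h2, ⟨r0, h3⟩, ⟨r1, h4⟩⟩ := hrow
  have hG : IsUnit (!![r0, r1; -c * X 0 0 + a * X 1 0, -c * X 0 1 + a * X 1 1] :
      Matrix (Fin 2) (Fin 2) O).det := by
    rw [Matrix.det_fin_two]
    simp only [Matrix.of_apply, Matrix.cons_val', Matrix.cons_val_zero, Matrix.cons_val_one,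
      Matrix.cons_val_fin_one]
    have h5 : π * (r0 * (-c * X 0 1 + a * X 1 1) - r1 * (-c * X 0 0 + a * X 1 0)) = X.det := by
      rw [Matrix.det_fin_two]
      linear_combination (-(-c * X 0 1 + a * X 1 1)) * h3 + (-c * X 0 0 + a * X 1 0) * h4 +
        (X 0 0 * X 1 1 - X 0 1 * X 1 0) * h1
    rw [← h5] at hdet
    obtain ⟨u, hu⟩ := hdet
    have h6 : (r0 * (-c * X 0 1 + a * X 1 1) - r1 * (-c * X 0 0 + a * X 1 0)) * u = 1 := by
      apply mul_left_cancel₀ hπ.ne_zero
      linear_combination hu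
    exact IsUnit.of_mul_eq_one _ h6
  refine ⟨⟨ulocG a b c d h1, ?_⟩, ⟨Matrix.nonsingInvUnit _ hG, ?_⟩, ?_⟩
  · change N ∣ (!![a, b; c, d] : Matrix (Fin 2) (Fin 2) O) 1 0
    simpa using h2
  · change N ∣ (!![r0, r1; -c * X 0 0 + a * X 1 0, -c * X 0 1 + a * X 1 1] :
      Matrix (Fin 2) (Fin 2) O) 1 0
    simp only [Matrix.of_apply, Matrix.cons_val', Matrix.cons_val_zero, Matrix.cons_val_one,
      Matrix.cons_val_fin_one]
    exact dvd_add ((h2.neg_right).mul_right _) (hX.mul_left _)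
  · change X = !![a, b; c, d] * PM π *
      !![r0, r1; -c * X 0 0 + a * X 1 0, -c * X 0 1 + a * X 1 1]
    ext i j
    fin_cases i <;> fin_cases j <;>
      simp [Matrix.mul_apply, Fin.sum_univ_two, PM]
    · linear_combination (-X 0 0) * h1 + a * h3
    · linear_combination (-X 0 1) * h1 + a * h4
    · linear_combination (-X 1 0) * h1 + c * h3
    · linear_combination (-X 1 1) * h1 + c * h4

end uloc1

section uloc2

variable {O : Type} [CommRing O] [IsDomain O] [IsPrincipalIdealRing O] {N : O}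

theorem uloc_le {J K : Ideal (RN N)} (B : AB N J) (h : ∀ j, B.e j ∈ K) : J ≤ K := by
  intro r hr
  obtain ⟨a, b, rfl⟩ := (B.mem r).1 hr
  exact add_mem (Submodule.smul_of_tower_mem K a (h 0)) (Submodule.smul_of_tower_mem K b (h 1))

theorem uloc_mem {J : Ideal (RN N)} (B : AB N J) (j : Fin 2) : B.e j ∈ J := by
  rw [B.mem]
  fin_cases j
  · exact ⟨1, 0, by simp⟩
  · exact ⟨0, 1, by simp⟩

theorem uloc_co_smul (c : O) (z : RN N) : co N c * z = c • z := by
  ext <;> simp [co]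

/-- the coordinates of `f` in terms of the basis `B` -/
theorem uloc_mul {I : Ideal (RN N)} (B : AB N I) (f : Fin 2 → RN N)
    (X : Matrix (Fin 2) (Fin 2) O) (hX : ∀ j, f j = X 0 j • B.e 0 + X 1 j • B.e 1)
    (Y : Matrix (Fin 2) (Fin 2) O) (j : Fin 2) :
    Y 0 j • f 0 + Y 1 j • f 1 = (X * Y) 0 j • B.e 0 + (X * Y) 1 j • B.e 1 := by
  rw [hX 0, hX 1, Matrix.mul_apply, Matrix.mul_apply, Fin.sum_univ_two, Fin.sum_univ_two]
  module

theorem uloc_det (hN : Hyp N) {π : O} (hπ : Prime π) (t : O) (ht : π ∣ t ^ 2 + N)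
    {I : Ideal (RN N)} (hI : Cop N I) (B : AB N I) (B1 : AB N (fid N π t * I))
    (X : Matrix (Fin 2) (Fin 2) O) (hX : ∀ j, B1.e j = X 0 j • B.e 0 + X 1 j • B.e 1) :
    Associated X.det π := by
  have hdom : IsDomain (RN N) := rn_dom hN
  obtain ⟨m, hm, hmul⟩ := mul_cj hN I hI
  have hm0 : co N m ≠ 0 := by
    intro h
    have h1 : m = 0 := congrArg QuadraticAlgebra.re h
    rw [h1, isCoprime_zero_left] at hm
    exact hN.nu (isUnit_of_mul_isUnit_right hm)
  have hPπ : co N π ∈ fid N π t := Ideal.subset_span (by simp)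
  have hPt : (⟨-t, 1⟩ : RN N) ∈ fid N π t := Ideal.subset_span (by simp)
  -- `π e_j` in terms of `f`
  have hY : ∀ j, ∃ a b : O, π • B.e j = a • B1.e 0 + b • B1.e 1 := by
    intro j
    rw [← B1.mem, ← uloc_co_smul]
    exact Ideal.mul_mem_mul hPπ (uloc_mem B j)
  choose ya yb hyab using hY
  have hXY : X * !![ya 0, ya 1; yb 0, yb 1] = π • 1 := by
    have key : ∀ j, (X * !![ya 0, ya 1; yb 0, yb 1]) 0 j =
        (π • (1 : Matrix (Fin 2) (Fin 2) O)) 0 j ∧
        (X * !![ya 0, ya 1; yb 0, yb 1]) 1 j = (π • (1 : Matrix (Fin 2) (Fin 2) O)) 1 j := by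
      intro j
      apply uloc_coord B
      rw [← uloc_mul B B1.e X hX]
      fin_cases j
      · have := hyab 0
        simp only [Matrix.of_apply, Matrix.cons_val', Matrix.cons_val_zero, Matrix.cons_val_one,
          Matrix.cons_val_fin_one, Fin.zero_eta]
        rw [← this]
        simp
      · have := hyab 1
        simp only [Matrix.of_apply, Matrix.cons_val', Matrix.cons_val_zero, Matrix.cons_val_one,
          Matrix.cons_val_fin_one, Fin.mk_one]
        rw [← this]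
        simp
    ext i j
    fin_cases i
    · exact (key j).1
    · exact (key j).2
  set Y : Matrix (Fin 2) (Fin 2) O := !![ya 0, ya 1; yb 0, yb 1] with hYdef
  have hdet : X.det * Y.det = π ^ 2 := by
    rw [← Matrix.det_mul, hXY, Matrix.det_smul, Matrix.det_one, mul_one]
    simp
  obtain ⟨i, hi, hass⟩ := (dvd_prime_pow hπ 2).1 ⟨Y.det, hdet.symm⟩
  have hi' : i = 0 ∨ i = 1 ∨ i = 2 := by omega
  rcases hi' with rfl | rfl | rfl
  · exfalso
    rw [pow_zero, associated_one_iff_isUnit] at hass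
    have h1 : X * X⁻¹ = 1 := Matrix.mul_nonsing_inv X hass
    have h2 : I ≤ fid N π t * I := by
      apply uloc_le B
      intro j
      rw [B1.mem]
      refine ⟨X⁻¹ 0 j, X⁻¹ 1 j, ?_⟩
      rw [uloc_mul B B1.e X hX, h1]
      fin_cases j
      · change B.e 0 = (1 : Matrix (Fin 2) (Fin 2) O) 0 0 • B.e 0 +
          (1 : Matrix (Fin 2) (Fin 2) O) 1 0 • B.e 1
        simp
      · change B.e 1 = (1 : Matrix (Fin 2) (Fin 2) O) 0 1 • B.e 0 +
          (1 : Matrix (Fin 2) (Fin 2) O) 1 1 • B.e 1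
        simp
    have h3 : Ideal.span {co N m} ≤ fid N π t * Ideal.span {co N m} := by
      rw [← hmul, ← mul_assoc]
      exact Ideal.mul_mono_left h2
    have h4 := h3 (Ideal.mem_span_singleton_self _)
    rw [Ideal.mem_mul_span_singleton] at h4
    obtain ⟨z, hz, hz1⟩ := h4
    have h5 : z = 1 := by
      apply mul_right_cancel₀ hm0
      rw [hz1, one_mul]
    rw [h5, fid_mem ht] at hz
    obtain ⟨x, y, hxy⟩ := hz
    have h6 := congrArg QuadraticAlgebra.im hxy
    have h7 := congrArg QuadraticAlgebra.re hxy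
    have e6 : (1 : RN N).im = 0 := rfl
    have e7 : (1 : RN N).re = 1 := rfl
    rw [e6] at h6
    rw [e7] at h7
    simp [co] at h6 h7
    rw [← h6] at h7
    apply hπ.not_isUnit
    refine IsUnit.of_mul_eq_one x ?_
    linear_combination -h7
  · rwa [pow_one] at hass
  · exfalso
    obtain ⟨u, hu⟩ := hass
    have hYd : IsUnit Y.det := by
      have h2 : X.det * Y.det = X.det * u := by rw [hdet, hu]
      have h3 : X.det ≠ 0 := by
        intro h0
        rw [h0, zero_mul] at hu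
        exact pow_ne_zero 2 hπ.ne_zero hu.symm
      rw [mul_left_cancel₀ h3 h2]
      exact u.isUnit
    have h4 : Y * Y⁻¹ = 1 := Matrix.mul_nonsing_inv Y hYd
    have h5 : X = π • Y⁻¹ := by
      calc X = X * (Y * Y⁻¹) := by rw [h4, mul_one]
        _ = (X * Y) * Y⁻¹ := by rw [mul_assoc]
        _ = π • Y⁻¹ := by rw [hXY, smul_mul_assoc, one_mul]
    have h6 : fid N π t * I ≤ Ideal.span {co N π} * I := by
      apply uloc_le B1
      intro j
      rw [Ideal.mem_span_singleton_mul]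
      refine ⟨Y⁻¹ 0 j • B.e 0 + Y⁻¹ 1 j • B.e 1, ?_, ?_⟩
      · exact (B.mem _).2 ⟨_, _, rfl⟩
      · rw [uloc_co_smul, hX j, h5, Matrix.smul_apply, Matrix.smul_apply, smul_eq_mul,
          smul_eq_mul]
        module
    have h7 : fid N π t * Ideal.span {co N m} ≤ Ideal.span {co N π} * Ideal.span {co N m} := by
      rw [← hmul, ← mul_assoc, ← mul_assoc]
      exact Ideal.mul_mono_left h6
    have h8 : (⟨-t, 1⟩ : RN N) * co N m ∈ Ideal.span {co N π} * Ideal.span {co N m} :=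
      h7 (Ideal.mul_mem_mul hPt (Ideal.mem_span_singleton_self _))
    rw [Ideal.span_singleton_mul_span_singleton, Ideal.mem_span_singleton] at h8
    obtain ⟨z, hz⟩ := h8
    have h9 : (⟨-t, 1⟩ : RN N) = co N π * z := by
      apply mul_right_cancel₀ hm0
      rw [hz]; ring
    have h10 := congrArg QuadraticAlgebra.im h9
    simp [co] at h10
    exact hπ.not_isUnit (IsUnit.of_mul_eq_one _ h10.symm)

theorem uloc_div (hN : Hyp N) {I J : Ideal (RN N)} (B : AB N I) (B1 : AB N J)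
    (X : Matrix (Fin 2) (Fin 2) O) (hWX : B.W * X = X * B1.W) : N ∣ X 1 0 := by
  have hN0 : N ≠ 0 := by
    rintro rfl
    exact hN.nsq 0 (by simp)
  have h1 := congrFun (congrFun hWX 0) 0
  rw [Matrix.mul_apply, Matrix.mul_apply, Fin.sum_univ_two, Fin.sum_univ_two] at h1
  obtain ⟨w, hw⟩ := B.d0
  obtain ⟨z, hz⟩ := B.d1
  obtain ⟨w1, hw1⟩ := B1.d0
  obtain ⟨z1, hz1⟩ := B1.d1
  have h2 := ab_tr hN B
  have h3 := ab_det hN B
  rw [Matrix.det_fin_two] at h3
  have h4 : -N * w ^ 2 - B.W 0 1 * z = 1 := by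
    apply mul_left_cancel₀ hN0
    have h5 : B.W 1 1 = - B.W 0 0 := by linear_combination h2
    rw [h5, hw, hz] at h3
    linear_combination h3
  rw [hw, hw1, hz1] at h1
  refine ⟨-w ^ 2 * X 1 0 - z * (X 0 0 * w1 + X 0 1 * z1 - w * X 0 0), ?_⟩
  linear_combination (-X 1 0) * h4 - z * h1

end uloc2

variable {O : Type} [CommRing O] [IsDomain O] [IsPrincipalIdealRing O] [FinQuot O] {N : O}

omit [FinQuot O] in
theorem uloc_one (hN : Hyp N) {π : O} (hπ : Prime π) (hπN : ¬ π ∣ N) (t : O)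
    (ht : π ∣ t ^ 2 + N) {I : Ideal (RN N)} (hI : Cop N I) (B : AB N I)
    (B1 : AB N (fid N π t * I)) :
    ∃ (X : Matrix (Fin 2) (Fin 2) O) (D γ : Gam0 N),
      (∀ j, B1.e j = X 0 j • B.e 0 + X 1 j • B.e 1) ∧
      X = D.val.val * PM π * γ.val.val ∧
      (∀ α : RN N, um B.W α * (D.val.val * PM π) =
        D.val.val * PM π * (γ.val.val * um B1.W α * (γ⁻¹).val.val)) := by
  obtain ⟨X, hX, hWX⟩ := uloc_incl (Ideal.mul_le_right) B B1
  obtain ⟨D, γ, hDγ⟩ := uloc_fac hπ hπN X (uloc_det hN hπ t ht hI B B1 X hX)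
    (uloc_div hN B B1 X hWX)
  refine ⟨X, D, γ, hX, hDγ, ?_⟩
  intro α
  have h1 := um_conj hWX α
  rw [hDγ] at h1
  have h2 : γ.val.val * (γ⁻¹).val.val = 1 := by
    change (γ.val * (γ⁻¹).val).val = 1
    rw [← Subgroup.coe_mul, mul_inv_cancel]
    rfl
  calc um B.W α * (D.val.val * PM π)
      = um B.W α * (D.val.val * PM π) * (γ.val.val * (γ⁻¹).val.val) := by rw [h2, mul_one]
    _ = um B.W α * (D.val.val * PM π * γ.val.val) * (γ⁻¹).val.val := by
        simp only [mul_assoc]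
    _ = D.val.val * PM π * γ.val.val * um B1.W α * (γ⁻¹).val.val := by rw [h1]
    _ = _ := by simp only [mul_assoc]

/-- Let `𝔓 = (π, √-N - t)`.  The inclusion `𝔓 I ⊆ I` gives an integral matrix `X1` with
`B1.e j = Σ X1 i j • B.e i` and `B.W X1 = X1 B1.W`; its determinant is `π` up to a unit
(`I / 𝔓 I ≅ O / π`; or: `cj 𝔓 𝔓 = (π)`, so `X1 Y = π` up to a unit with `Y` integral, and neither
`X1` nor `Y` is invertible), and `N ∣ X1 1 0` (compare the second columns of `B.W X1 = X1 B1.W`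
modulo `N`, as in `ab_eqv`).  Choose `D1 ∈ Γ₀(N)` whose second column spans the column space of
`X1` modulo `π` (`SerreK.KP.fex_cover`); then `X1 = D1 (PM π) γ1` with `γ1 ∈ Γ₀(N)`.  The same for
`cj 𝔓 = (π, √-N + t)`.  The lines are distinct, since otherwise `𝔓 I = cj 𝔓 I ∋ 2 t I`. -/
theorem loc_split (hN : Hyp N) (π : GP N) (t : O) (ht : π.el ∣ t ^ 2 + N) {I : Ideal (RN N)}
    (hI : Cop N I) (B : AB N I) (B1 : AB N (fid N π.el t * I)) (B2 : AB N (fid N π.el (-t) * I)) :
    ∃ D1 D2 γ1 γ2 : Gam0 N, ¬ π.el ∣ (D1⁻¹ * D2).val.val 0 1 ∧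
      (∀ α : RN N, um B.W α * (D1.val.val * PM π.el) =
        D1.val.val * PM π.el * (γ1.val.val * um B1.W α * (γ1⁻¹).val.val)) ∧
      (∀ α : RN N, um B.W α * (D2.val.val * PM π.el) =
        D2.val.val * PM π.el * (γ2.val.val * um B2.W α * (γ2⁻¹).val.val)) := by
  have hπ := π.prime
  have hπN : ¬ π.el ∣ N := fun h => π.not_dvd (h.mul_left 2)
  have hπ2 : ¬ π.el ∣ 2 := fun h => π.not_dvd (h.mul_right N)
  have hπt : ¬ π.el ∣ 2 * t := by
    intro h
    rcases hπ.dvd_or_dvd h with h1 | h1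
    · exact hπ2 h1
    · apply hπN
      have h2 : π.el ∣ t ^ 2 := by
        rw [pow_two]
        exact h1.mul_left t
      exact (dvd_add_right h2).1 ht
  have ht' : π.el ∣ (-t) ^ 2 + N := by rwa [neg_sq]
  obtain ⟨X1, D1, γ1, hX1, hf1, h1⟩ := uloc_one hN hπ hπN t ht hI B B1
  obtain ⟨X2, D2, γ2, hX2, hf2, h2⟩ := uloc_one hN hπ hπN (-t) ht' hI B B2
  refine ⟨D1, D2, γ1, γ2, ?_, h1, h2⟩
  intro hdvd
  -- `1 = X1 Y1 + X2 Y2`
  have htop : I ≤ fid N π.el t * I ⊔ fid N π.el (-t) * I := by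
    rw [← Ideal.sup_mul]
    have h3 : fid N π.el t ⊔ fid N π.el (-t) = ⊤ := by
      rw [Ideal.eq_top_iff_one]
      obtain ⟨u, w, huw⟩ := uloc_coprime hπ hπt
      have e1 : (1 : RN N) = co N u * co N π.el + co N w * ((⟨- -t, 1⟩ : RN N) - ⟨-t, 1⟩) := by
        have e6 : (1 : RN N).im = 0 := rfl
        have e7 : (1 : RN N).re = 1 := rfl
        ext
        · rw [e7]
          simp [co]
          linear_combination -huw
        · rw [e6]
          simp [co]
      rw [e1]
      refine add_mem ?_ ?_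
      · exact Ideal.mul_mem_left _ _ (Ideal.mem_sup_left (Ideal.subset_span (by simp)))
      · refine Ideal.mul_mem_left _ _ (sub_mem ?_ ?_)
        · exact Ideal.mem_sup_right (Ideal.subset_span (by simp))
        · exact Ideal.mem_sup_left (Ideal.subset_span (by simp))
    rw [h3, Ideal.top_mul]
  have hY : ∀ j, ∃ a b c d : O, B.e j =
      (a • B1.e 0 + b • B1.e 1) + (c • B2.e 0 + d • B2.e 1) := by
    intro j
    obtain ⟨p, hp, q, hq, hpq⟩ := Submodule.mem_sup.1 (htop (uloc_mem B j))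
    obtain ⟨a, b, rfl⟩ := (B1.mem p).1 hp
    obtain ⟨c, d, rfl⟩ := (B2.mem q).1 hq
    exact ⟨a, b, c, d, hpq.symm⟩
  choose a b c d habcd using hY
  have hone : X1 * !![a 0, a 1; b 0, b 1] + X2 * !![c 0, c 1; d 0, d 1] = 1 := by
    have key : ∀ j, (X1 * !![a 0, a 1; b 0, b 1] + X2 * !![c 0, c 1; d 0, d 1]) 0 j =
        (1 : Matrix (Fin 2) (Fin 2) O) 0 j ∧
        (X1 * !![a 0, a 1; b 0, b 1] + X2 * !![c 0, c 1; d 0, d 1]) 1 j =
        (1 : Matrix (Fin 2) (Fin 2) O) 1 j := by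
      intro j
      apply uloc_coord B
      rw [Matrix.add_apply, Matrix.add_apply, add_smul, add_smul, add_add_add_comm,
        ← uloc_mul B B1.e X1 hX1, ← uloc_mul B B2.e X2 hX2]
      fin_cases j
      · have := habcd 0
        simp only [Matrix.of_apply, Matrix.cons_val', Matrix.cons_val_zero, Matrix.cons_val_one,
          Matrix.cons_val_fin_one, Fin.zero_eta]
        rw [← this]
        change B.e 0 = (1 : Matrix (Fin 2) (Fin 2) O) 0 0 • B.e 0 +
          (1 : Matrix (Fin 2) (Fin 2) O) 1 0 • B.e 1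
        simp
      · have := habcd 1
        simp only [Matrix.of_apply, Matrix.cons_val', Matrix.cons_val_zero, Matrix.cons_val_one,
          Matrix.cons_val_fin_one, Fin.mk_one]
        rw [← this]
        change B.e 1 = (1 : Matrix (Fin 2) (Fin 2) O) 0 1 • B.e 0 +
          (1 : Matrix (Fin 2) (Fin 2) O) 1 1 • B.e 1
        simp
    ext i j
    fin_cases i
    · exact (key j).1
    · exact (key j).2
  -- the first row of `D1⁻¹` is divisible by `π`
  set A : Matrix (Fin 2) (Fin 2) O := (D1⁻¹).val.val with hA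
  have hAD : A * D1.val.val = 1 := by
    change ((D1⁻¹).val * D1.val).val = 1
    rw [← Subgroup.coe_mul, inv_mul_cancel]
    rfl
  have hAD2 : (D1⁻¹ * D2).val.val = A * D2.val.val := rfl
  have hrow1 : ∀ j, π.el ∣ (A * X1) 0 j := by
    intro j
    have e1 : A * X1 = PM π.el * γ1.val.val := by
      rw [hf1, ← mul_assoc, ← mul_assoc, hAD, one_mul]
    rw [e1, Matrix.mul_apply, Fin.sum_univ_two]
    simp [PM]
  have hrow2 : ∀ j, π.el ∣ (A * X2) 0 j := by
    intro j
    have e1 : A * X2 = (D1⁻¹ * D2).val.val * PM π.el * γ2.val.val := by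
      rw [hf2, ← mul_assoc, ← mul_assoc, hAD2]
    rw [e1, Matrix.mul_apply, Fin.sum_univ_two, Matrix.mul_apply, Matrix.mul_apply,
      Fin.sum_univ_two, Fin.sum_univ_two]
    refine dvd_add (Dvd.dvd.mul_right ?_ _) (Dvd.dvd.mul_right ?_ _)
    · simp [PM]
    · simpa [PM] using hdvd
  have hrow : ∀ j, π.el ∣ A 0 j := by
    intro j
    have e1 : A = (A * X1) * !![a 0, a 1; b 0, b 1] + (A * X2) * !![c 0, c 1; d 0, d 1] := by
      rw [mul_assoc, mul_assoc, ← mul_add, hone, mul_one]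
    rw [e1, Matrix.add_apply, Matrix.mul_apply, Matrix.mul_apply, Fin.sum_univ_two,
      Fin.sum_univ_two]
    exact dvd_add (dvd_add ((hrow1 0).mul_right _) ((hrow1 1).mul_right _))
      (dvd_add ((hrow2 0).mul_right _) ((hrow2 1).mul_right _))
  have hdet : A.det * D1.val.val.det = 1 := by
    rw [← Matrix.det_mul, hAD, Matrix.det_one]
  have hdvd2 : π.el ∣ 1 := by
    rw [← hdet, Matrix.det_fin_two]
    exact (dvd_sub ((hrow 0).mul_right _) ((hrow 1).mul_right _)).mul_right _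
  exact hπ.not_isUnit (isUnit_of_dvd_one hdvd2)

/-- if `W D = D W1` then `W` modulo `π` has an eigenvector, with eigenvalue `t`, `t² = -N`. -/
theorem loc_inert (hN : Hyp N) (π : GP N) (hno : ∀ t, ¬ π.el ∣ t ^ 2 + N) {I : Ideal (RN N)}
    (B : AB N I) (D : Gam0 N) (W1 : Matrix (Fin 2) (Fin 2) O) :
    B.W * (D.val.val * PM π.el) ≠ D.val.val * PM π.el * W1 := by
  intro h
  set A : Matrix (Fin 2) (Fin 2) O := (D⁻¹).val.val with hA
  have hAD : A * D.val.val = 1 := by
    change ((D⁻¹).val * D.val).val = 1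
    rw [← Subgroup.coe_mul, inv_mul_cancel]
    rfl
  have hDA : D.val.val * A = 1 := by
    change (D.val * (D⁻¹).val).val = 1
    rw [← Subgroup.coe_mul, mul_inv_cancel]
    rfl
  set M : Matrix (Fin 2) (Fin 2) O := A * B.W * D.val.val with hM
  have h1 : M * PM π.el = PM π.el * W1 := by
    have h2 : A * (B.W * (D.val.val * PM π.el)) = A * (D.val.val * PM π.el * W1) := by rw [h]
    have h3 : A * (D.val.val * PM π.el * W1) = PM π.el * W1 := by
      rw [← mul_assoc, ← mul_assoc, hAD, one_mul]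
    rw [h3] at h2
    rw [← h2, hM]
    simp only [mul_assoc]
  have h2 : π.el ∣ M 0 1 := by
    have h3 := congrFun (congrFun h1 0) 1
    rw [Matrix.mul_apply, Matrix.mul_apply, Fin.sum_univ_two, Fin.sum_univ_two] at h3
    simp [PM] at h3
    exact ⟨_, h3⟩
  have htr : M 0 0 + M 1 1 = 0 := by
    have h3 : M.trace = B.W.trace := by
      rw [hM, Matrix.trace_mul_comm, ← mul_assoc, hDA, one_mul]
    rw [Matrix.trace_fin_two, Matrix.trace_fin_two] at h3
    rw [h3]
    exact ab_tr hN B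
  have hdt : M.det = N := by
    rw [hM, Matrix.det_mul, Matrix.det_mul, ab_det hN B]
    have h3 : A.det * D.val.val.det = 1 := by
      rw [← Matrix.det_mul, hAD, Matrix.det_one]
    linear_combination N * h3
  rw [Matrix.det_fin_two] at hdt
  apply hno (M 1 1)
  obtain ⟨k, hk⟩ := h2
  refine ⟨-k * M 1 0, ?_⟩
  rw [hk] at hdt
  linear_combination M 1 1 * htr - hdt

end SerreU
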