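import Pool.Agent.SerreU.UHEC
import Pool.Agent.SerreU.ULOC

/-!
# UHEI: Hecke operators and ideal classes
-/

open Matrix

namespace SerreU

open SerreE SerreK

variable {O : Type} [CommRing O] [IsDomain O] [IsPrincipalIdealRing O] [FinQuot O] {N : O}
variable {Γ : Type} [Group Γ]

omit [IsDomain O] [IsPrincipalIdealRing O] [FinQuot O] in
theorem uhei_TA (γ : Gam0 N) : TA N γ.val.val :=
  ⟨(Matrix.isUnit_iff_isUnit_det _).1 γ.val.isUnit, γ.prop⟩

/-- a homomorphism `x` takes the same value on `g` and on its conjugates -/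
theorem x_conj (hN : Hyp N) (P : PG N Γ) {x : Γ → FF} (hx : IsX P x) (γ : Gam0 N)
    (M M' : Matrix (Fin 2) (Fin 2) O) (h : M * γ.val.val = γ.val.val * M') (g g' : Γ)
    (hg : P.R g M) (hg' : P.R g' M') : x g = x g' := by
  obtain ⟨c, hc⟩ := P.surj γ.val.val (Or.inl (uhei_TA γ))
  have h1 : P.R (g * c) (M * γ.val.val) := P.mul hg hc
  have h2 : P.R (c * g') (γ.val.val * M') := P.mul hc hg'
  rw [h] at h1
  have h3 : g * c = c * g' := P.inj h1 h2
  have h4 := congrArg x h3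
  rw [hx.mul, hx.mul, add_comm] at h4
  exact add_left_cancel h4

theorem hecke_ideal (hN : Hyp N) (P : PG N Γ) (π : GP N) (x : Γ → FF) (hx : IsX P x) :
    ∃ x' : Γ → FF, IsX P x' ∧ (∀ h, Res P x h → Res P x' (T N π.el π.ne h)) ∧
      ∀ (I : Ideal (RN N)) (_ : Cop N I) (B : AB N I) (α : RN N) (g : Γ), P.R g (um B.W α) →
        (∀ t, π.el ∣ t ^ 2 + N → ∀ (B1 : AB N (fid N π.el t * I))
          (B2 : AB N (fid N π.el (-t) * I)) (g1 g2 : Γ), P.R g1 (um B1.W α) →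
          P.R g2 (um B2.W α) → x' g = x g1 + x g2) ∧
        ((∀ t, ¬ π.el ∣ t ^ 2 + N) → x' g = 0) := by
  obtain ⟨x', hx', hres, hform⟩ := hecke_plus hN P π x hx
  refine ⟨x', hx', hres, ?_⟩
  intro I hI B α g hg
  obtain ⟨w, hw⟩ := P.surj B.W (Or.inr (ab_TB hN B))
  have hcomm : um B.W α * B.W = B.W * um B.W α := by
    unfold um
    rw [add_mul, mul_add, smul_mul_assoc, smul_mul_assoc, mul_smul_comm, mul_smul_comm, one_mul,
      mul_one]
  obtain ⟨hf1, hf2⟩ := hform B.W (um B.W α) w g (ab_TB hN B) (ab_tr hN B) hcomm hw hg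
  constructor
  · intro t ht B1 B2 g1 g2 hg1 hg2
    obtain ⟨D1, D2, γ1, γ2, hD, hl1, hl2⟩ := loc_split hN π t ht hI B B1 B2
    obtain ⟨c1, hc1⟩ := P.surj γ1.val.val (Or.inl (uhei_TA γ1))
    obtain ⟨c1', hc1'⟩ := P.surj (γ1⁻¹).val.val (Or.inl (uhei_TA γ1⁻¹))
    obtain ⟨c2, hc2⟩ := P.surj γ2.val.val (Or.inl (uhei_TA γ2))
    obtain ⟨c2', hc2'⟩ := P.surj (γ2⁻¹).val.val (Or.inl (uhei_TA γ2⁻¹))
    have hR1 : P.R (c1 * g1 * c1') (γ1.val.val * um B1.W α * (γ1⁻¹).val.val) :=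
      P.mul (P.mul hc1 hg1) hc1'
    have hR2 : P.R (c2 * g2 * c2') (γ2.val.val * um B2.W α * (γ2⁻¹).val.val) :=
      P.mul (P.mul hc2 hg2) hc2'
    have hinv : ∀ γ : Gam0 N, (γ⁻¹).val.val * γ.val.val = 1 := by
      intro γ
      have h1 : (γ⁻¹).val * γ.val = 1 := by
        rw [← Subgroup.coe_mul, inv_mul_cancel, Subgroup.coe_one]
      have h2 : ((γ⁻¹).val * γ.val).val = (1 : GL (Fin 2) O).val := congrArg Units.val h1
      exact h2
    have hw1 := hl1 (om N)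
    have hw2 := hl2 (om N)
    rw [um_om, um_om] at hw1 hw2
    have key := hf1 D1 D2 _ _ _ _ (c1 * g1 * c1') (c2 * g2 * c2') hD hw1 hw2 (hl1 α) (hl2 α)
      hR1 hR2
    rw [key]
    congr 1
    · refine x_conj hN P hx γ1 _ _ ?_ _ _ hR1 hg1
      rw [mul_assoc, hinv, mul_one]
    · refine x_conj hN P hx γ2 _ _ ?_ _ _ hR2 hg2
      rw [mul_assoc, hinv, mul_one]
  · intro hno
    exact hf2 (fun D W1 => loc_inert hN π hno B D W1)

end SerreU
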