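import Pool.Agent.SerreU.UDefs

/-!
# UID1: ideals of `O[√-N]` prime to `2N`
-/

namespace SerreU

open SerreE SerreK

section
variable {O : Type} [CommRing O]

private theorem uid_re_mul {N : O} (z w : RN N) : (z * w).re = z.re * w.re - N * z.im * w.im := by
  rw [QuadraticAlgebra.re_mul]; ring

private theorem uid_im_mul {N : O} (z w : RN N) : (z * w).im = z.re * w.im + z.im * w.re := by
  rw [QuadraticAlgebra.im_mul]; ring

private theorem uid_re_one {N : O} : (1 : RN N).re = 1 := rfl

private theorem uid_im_one {N : O} : (1 : RN N).im = 0 := rfl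

private theorem uid_re_co {N : O} (c : O) : (co N c).re = c := rfl

private theorem uid_im_co {N : O} (c : O) : (co N c).im = 0 := rfl

private theorem uid_re_star {N : O} (z : RN N) : (star z).re = z.re := by
  rw [QuadraticAlgebra.re_star]; ring

private theorem uid_im_star {N : O} (z : RN N) : (star z).im = -z.im := by
  rw [QuadraticAlgebra.im_star]

theorem cop_iff {N : O} {I : Ideal (RN N)} :
    Cop N I ↔ ∃ r ∈ I, ∃ z : RN N, r + co N (2 * N) * z = 1 := by
  unfold Cop
  rw [Ideal.eq_top_iff_one, Submodule.mem_sup]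
  constructor
  · rintro ⟨r, hr, w, hw, h⟩
    obtain ⟨z, rfl⟩ := Ideal.mem_span_singleton'.1 hw
    exact ⟨r, hr, z, by rw [mul_comm]; exact h⟩
  · rintro ⟨r, hr, z, h⟩
    exact ⟨r, hr, co N (2 * N) * z, Ideal.mem_span_singleton'.2 ⟨z, mul_comm _ _⟩, h⟩

theorem cop_mul {N : O} {I J : Ideal (RN N)} (hI : Cop N I) (hJ : Cop N J) : Cop N (I * J) := by
  rw [cop_iff] at hI hJ ⊢
  obtain ⟨r, hr, z, h⟩ := hI
  obtain ⟨r', hr', z', h'⟩ := hJ
  refine ⟨r * r', Ideal.mul_mem_mul hr hr', z + z' - co N (2 * N) * z * z', ?_⟩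
  have e : r = 1 - co N (2 * N) * z := by rw [← h]; ring
  have e' : r' = 1 - co N (2 * N) * z' := by rw [← h']; ring
  rw [e, e']
  ring

theorem cop_of_mul {N : O} {I J : Ideal (RN N)} (h : Cop N (I * J)) : Cop N I ∧ Cop N J := by
  unfold Cop at *
  constructor
  · rw [eq_top_iff, ← h]
    exact sup_le_sup_right Ideal.mul_le_left _
  · rw [eq_top_iff, ← h]
    exact sup_le_sup_right Ideal.mul_le_right _

theorem cop_co {N c : O} : Cop N (Ideal.span {co N c}) ↔ IsCoprime c (2 * N) := by
  rw [cop_iff]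
  constructor
  · rintro ⟨r, hr, z, h⟩
    obtain ⟨w, rfl⟩ := Ideal.mem_span_singleton'.1 hr
    have h1 := congrArg QuadraticAlgebra.re h
    rw [QuadraticAlgebra.re_add, uid_re_mul, uid_re_mul, uid_re_co, uid_im_co, uid_re_co,
      uid_im_co, uid_re_one] at h1
    exact ⟨w.re, z.re, by rw [← h1]; ring⟩
  · rintro ⟨u, v, h⟩
    refine ⟨co N u * co N c, Ideal.mem_span_singleton'.2 ⟨co N u, rfl⟩, co N v, ?_⟩
    ext
    · rw [QuadraticAlgebra.re_add, uid_re_mul, uid_re_mul]
      simp only [uid_re_co, uid_im_co, uid_re_one]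
      rw [← h]; ring
    · rw [QuadraticAlgebra.im_add, uid_im_mul, uid_im_mul]
      simp only [uid_re_co, uid_im_co, uid_im_one]
      ring

private theorem mem_cj {N : O} {I : Ideal (RN N)} {z : RN N} : z ∈ cj I ↔ star z ∈ I := Iff.rfl

theorem cop_cj {N : O} {I : Ideal (RN N)} (hI : Cop N I) : Cop N (cj I) := by
  rw [cop_iff] at hI ⊢
  obtain ⟨r, hr, z, h⟩ := hI
  refine ⟨star r, ?_, star z, ?_⟩
  · rw [mem_cj, star_star]
    exact hr
  · have h1 := congrArg star h
    rw [star_add, star_mul', star_one] at h1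
    have h2 : star (co N (2 * N)) = co N (2 * N) := by
      ext
      · rw [uid_re_star]
      · rw [uid_im_star, uid_im_co, neg_zero]
    rwa [h2] at h1

theorem cj_cj {N : O} (I : Ideal (RN N)) : cj (cj I) = I := by
  ext z
  rw [mem_cj, mem_cj, star_star]

private theorem cj_mono {N : O} {I J : Ideal (RN N)} (h : I ≤ J) : cj I ≤ cj J :=
  fun _ hz => h hz

private theorem cj_mul_le {N : O} (I J : Ideal (RN N)) : cj I * cj J ≤ cj (I * J) := by
  rw [Ideal.mul_le]
  intro r hr s hs
  rw [mem_cj] at hr hs ⊢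
  rw [star_mul']
  exact Ideal.mul_mem_mul hr hs

theorem cj_mul {N : O} (I J : Ideal (RN N)) : cj (I * J) = cj I * cj J := by
  apply le_antisymm
  · have h := cj_mono (cj_mul_le (cj I) (cj J))
    rw [cj_cj, cj_cj, cj_cj] at h
    exact h
  · exact cj_mul_le I J

theorem cj_span {N : O} (z : RN N) : cj (Ideal.span {z}) = Ideal.span {star z} := by
  ext w
  rw [mem_cj, Ideal.mem_span_singleton', Ideal.mem_span_singleton']
  constructor
  · rintro ⟨a, h⟩
    refine ⟨star a, ?_⟩
    rw [← star_mul', h, star_star]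
  · rintro ⟨a, h⟩
    refine ⟨star a, ?_⟩
    rw [← h, star_mul', star_star]

/-- membership in `fid` as an `RN`-combination -/
private theorem mem_fid' {N a b : O} {r : RN N} :
    r ∈ fid N a b ↔ ∃ p q : RN N, p * co N a + q * ⟨-b, 1⟩ = r := by
  unfold fid
  rw [Ideal.mem_span_pair]

private theorem co_mem_fid {N a b : O} : co N a ∈ fid N a b :=
  mem_fid'.2 ⟨1, 0, by ring⟩

private theorem om_mem_fid {N a b : O} : (⟨-b, 1⟩ : RN N) ∈ fid N a b :=
  mem_fid'.2 ⟨0, 1, by ring⟩

private theorem fid_le {N a b : O} {I : Ideal (RN N)} (h1 : co N a ∈ I)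
    (h2 : (⟨-b, 1⟩ : RN N) ∈ I) : fid N a b ≤ I := by
  unfold fid
  rw [Ideal.span_le]
  rintro x hx
  rcases hx with rfl | hx
  · exact h1
  · rw [Set.mem_singleton_iff.1 hx]
    exact h2

theorem cj_fid {N a b : O} : cj (fid N a b) = fid N a (-b) := by
  have key : ∀ c : O, cj (fid N a c) ≤ fid N a (-c) := by
    intro c z hz
    rw [mem_cj, mem_fid'] at hz
    obtain ⟨p, q, h⟩ := hz
    rw [mem_fid']
    refine ⟨star p, -star q, ?_⟩
    have h1 := congrArg star h
    rw [star_star, star_add, star_mul', star_mul'] at h1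
    rw [← h1]
    have h2 : star (co N a) = co N a := by
      ext
      · rw [uid_re_star]
      · rw [uid_im_star, uid_im_co, neg_zero]
    have h3 : star (⟨-c, 1⟩ : RN N) = -⟨- -c, 1⟩ := by
      ext
      · rw [uid_re_star, QuadraticAlgebra.re_neg]
        ring
      · rw [uid_im_star, QuadraticAlgebra.im_neg]
    rw [h2, h3]
    ring
  apply le_antisymm (key b)
  have h := cj_mono (key (-b))
  rw [cj_cj, neg_neg] at h
  exact h

/-- `a, √-N - b` is an `O`-basis of the ideal `(a, √-N - b)` -/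
theorem fid_mem {N a b : O} (h : a ∣ b ^ 2 + N) (r : RN N) :
    r ∈ fid N a b ↔ ∃ x y : O, r = x • co N a + y • (⟨-b, 1⟩ : RN N) := by
  obtain ⟨k, hk⟩ := h
  rw [mem_fid']
  constructor
  · rintro ⟨p, q, rfl⟩
    refine ⟨p.re + p.im * b - q.im * k, p.im * a + q.re - q.im * b, ?_⟩
    ext
    · rw [QuadraticAlgebra.re_add, QuadraticAlgebra.re_add, uid_re_mul, uid_re_mul,
        QuadraticAlgebra.re_smul, QuadraticAlgebra.re_smul]
      simp only [uid_re_co, uid_im_co, smul_eq_mul]
      linear_combination (-q.im) * hk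
    · rw [QuadraticAlgebra.im_add, QuadraticAlgebra.im_add, uid_im_mul, uid_im_mul,
        QuadraticAlgebra.im_smul, QuadraticAlgebra.im_smul]
      simp only [uid_re_co, uid_im_co, smul_eq_mul]
      ring
  · rintro ⟨x, y, rfl⟩
    refine ⟨co N x, co N y, ?_⟩
    ext
    · rw [QuadraticAlgebra.re_add, QuadraticAlgebra.re_add, uid_re_mul, uid_re_mul,
        QuadraticAlgebra.re_smul, QuadraticAlgebra.re_smul]
      simp only [uid_re_co, uid_im_co, smul_eq_mul]
      ring
    · rw [QuadraticAlgebra.im_add, QuadraticAlgebra.im_add, uid_im_mul, uid_im_mul,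
        QuadraticAlgebra.im_smul, QuadraticAlgebra.im_smul]
      simp only [uid_re_co, uid_im_co, smul_eq_mul]
      ring

theorem fid_congr {N a b b' : O} (h : a ∣ b - b') : fid N a b = fid N a b' := by
  have key : ∀ c c' : O, a ∣ c - c' → fid N a c ≤ fid N a c' := by
    rintro c c' ⟨k, hk⟩
    apply fid_le co_mem_fid
    rw [mem_fid']
    refine ⟨-co N k, 1, ?_⟩
    ext
    · rw [QuadraticAlgebra.re_add, uid_re_mul, uid_re_mul, QuadraticAlgebra.re_neg,
        QuadraticAlgebra.im_neg]
      simp only [uid_re_co, uid_im_co, uid_re_one, uid_im_one]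
      linear_combination hk
    · rw [QuadraticAlgebra.im_add, uid_im_mul, uid_im_mul, QuadraticAlgebra.re_neg,
        QuadraticAlgebra.im_neg]
      simp only [uid_re_co, uid_im_co, uid_re_one, uid_im_one]
      ring
  apply le_antisymm (key b b' h)
  apply key
  rw [← neg_sub]
  exact (dvd_neg).2 h

theorem cop_fid {N a b : O} (ha : IsCoprime a (2 * N)) : Cop N (fid N a b) := by
  rw [cop_iff]
  obtain ⟨r, hr, z, h⟩ := cop_iff.1 (cop_co.2 ha)
  obtain ⟨w, rfl⟩ := Ideal.mem_span_singleton'.1 hr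
  exact ⟨w * co N a, Ideal.mul_mem_left _ _ co_mem_fid, z, h⟩

/-- for `a ∣ b² + N`, `a` prime to `2N`: `2b` is a unit modulo `a` -/
theorem cop_2b {N a b : O} (ha : IsCoprime a (2 * N)) (h : a ∣ b ^ 2 + N) :
    IsCoprime a (2 * b) := by
  obtain ⟨k, hk⟩ := h
  have h2 : IsCoprime a 2 := ha.of_mul_right_left
  obtain ⟨u, v, huv⟩ : IsCoprime a N := ha.of_mul_right_right
  apply h2.mul_right
  exact ⟨u + v * k, -(v * b), by linear_combination huv - v * hk⟩

theorem fid_mul {N a a' b : O} (ha : IsCoprime a (2 * b)) (h : a * a' ∣ b ^ 2 + N) :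
    fid N a b * fid N a' b = fid N (a * a') b := by
  obtain ⟨k, hk⟩ := h
  obtain ⟨u, v, huv⟩ := ha
  apply le_antisymm
  · rw [Ideal.mul_le]
    intro r hr s hs
    rw [mem_fid'] at hr hs
    obtain ⟨p, q, rfl⟩ := hr
    obtain ⟨p', q', rfl⟩ := hs
    have e : (p * co N a + q * ⟨-b, 1⟩) * (p' * co N a' + q' * ⟨-b, 1⟩) =
        (p * p') * (co N a * co N a') +
        (p * q' * co N a + q * p' * co N a' + q * q' * ⟨-b, 1⟩) * (⟨-b, 1⟩ : RN N) := by ring
    rw [e]
    have e2 : co N a * co N a' = co N (a * a') := by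
      ext
      · rw [uid_re_mul]; simp only [uid_re_co, uid_im_co]; ring
      · rw [uid_im_mul]; simp only [uid_re_co, uid_im_co]; ring
    rw [e2]
    exact Ideal.add_mem _ (Ideal.mul_mem_left _ _ co_mem_fid) (Ideal.mul_mem_left _ _ om_mem_fid)
  · apply fid_le
    · have e2 : co N (a * a') = co N a * co N a' := by
        ext
        · rw [uid_re_mul]; simp only [uid_re_co, uid_im_co]; ring
        · rw [uid_im_mul]; simp only [uid_re_co, uid_im_co]; ring
      rw [e2]
      exact Ideal.mul_mem_mul co_mem_fid co_mem_fid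
    · have e3 : (⟨-b, 1⟩ : RN N) = co N u * (co N a * ⟨-b, 1⟩) -
          co N v * (⟨-b, 1⟩ * ⟨-b, 1⟩) - co N (v * k) * (co N a * co N a') := by
        ext
        · rw [QuadraticAlgebra.re_sub, QuadraticAlgebra.re_sub]
          simp only [uid_re_mul, uid_im_mul, uid_re_co, uid_im_co]
          linear_combination b * huv - v * hk
        · rw [QuadraticAlgebra.im_sub, QuadraticAlgebra.im_sub]
          simp only [uid_re_mul, uid_im_mul, uid_re_co, uid_im_co]
          linear_combination (-1 : O) * huv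
      rw [e3]
      refine Ideal.sub_mem _ (Ideal.sub_mem _ (Ideal.mul_mem_left _ _ ?_)
        (Ideal.mul_mem_left _ _ ?_)) (Ideal.mul_mem_left _ _ ?_)
      · exact Ideal.mul_mem_mul co_mem_fid om_mem_fid
      · exact Ideal.mul_mem_mul om_mem_fid om_mem_fid
      · exact Ideal.mul_mem_mul co_mem_fid co_mem_fid

theorem fid_cj_mul {N a b : O} (ha : IsCoprime a (2 * N)) (h : a ∣ b ^ 2 + N) :
    fid N a b * cj (fid N a b) = Ideal.span {co N a} := by
  obtain ⟨u, v, huv⟩ := cop_2b ha h
  obtain ⟨k, hk⟩ := h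
  rw [cj_fid]
  apply le_antisymm
  · rw [Ideal.mul_le]
    intro r hr s hs
    rw [mem_fid'] at hr hs
    obtain ⟨p, q, rfl⟩ := hr
    obtain ⟨p', q', rfl⟩ := hs
    rw [Ideal.mem_span_singleton']
    refine ⟨p * p' * co N a + p * q' * ⟨- -b, 1⟩ + q * p' * ⟨-b, 1⟩ - q * q' * co N k, ?_⟩
    have e : (⟨-b, 1⟩ : RN N) * ⟨- -b, 1⟩ = -(co N k * co N a) := by
      ext
      · rw [QuadraticAlgebra.re_neg, uid_re_mul, uid_re_mul]
        simp only [uid_re_co, uid_im_co]
        linear_combination (-1 : O) * hk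
      · rw [QuadraticAlgebra.im_neg, uid_im_mul, uid_im_mul]
        simp only [uid_re_co, uid_im_co]
        ring
    linear_combination (-(q * q')) * e
  · rw [Ideal.span_le, Set.singleton_subset_iff, SetLike.mem_coe]
    have e3 : co N a = co N u * (co N a * co N a) +
        co N v * (co N a * ⟨- -b, 1⟩) - co N v * (⟨-b, 1⟩ * co N a) := by
      ext
      · rw [QuadraticAlgebra.re_sub, QuadraticAlgebra.re_add]
        simp only [uid_re_mul, uid_im_mul, uid_re_co, uid_im_co]
        linear_combination (-a) * huv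
      · rw [QuadraticAlgebra.im_sub, QuadraticAlgebra.im_add]
        simp only [uid_re_mul, uid_im_mul, uid_re_co, uid_im_co]
        ring
    rw [e3]
    refine Ideal.sub_mem _ (Ideal.add_mem _ (Ideal.mul_mem_left _ _ ?_)
        (Ideal.mul_mem_left _ _ ?_)) (Ideal.mul_mem_left _ _ ?_)
    · exact Ideal.mul_mem_mul co_mem_fid co_mem_fid
    · exact Ideal.mul_mem_mul co_mem_fid om_mem_fid
    · exact Ideal.mul_mem_mul om_mem_fid co_mem_fid

end

section
variable {O : Type} [CommRing O] [IsDomain O] [IsPrincipalIdealRing O]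

omit [IsDomain O] [IsPrincipalIdealRing O] in
private theorem uid_norm {N : O} (z : RN N) : z.norm = z.re ^ 2 + N * z.im ^ 2 := by
  rw [QuadraticAlgebra.norm_def]; ring

/-- `O[√-N]` is a domain (`-N` is not a square in `O`, hence not in the fraction field). -/
theorem rn_norm_ne {N : O} (hN : Hyp N) (z : RN N) (hz : z ≠ 0) : z.norm ≠ 0 := by
  intro h
  rw [uid_norm] at h
  by_cases him : z.im = 0
  · rw [him] at h
    have hre : z.re = 0 := by
      have : z.re ^ 2 = 0 := by linear_combination h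
      exact pow_eq_zero_iff (two_ne_zero) |>.1 this
    apply hz
    ext
    · rw [hre, QuadraticAlgebra.re_zero]
    · rw [him, QuadraticAlgebra.im_zero]
  · have h1 : z.im ^ 2 ∣ z.re ^ 2 := ⟨-N, by linear_combination h⟩
    rw [IsIntegrallyClosed.pow_dvd_pow_iff two_ne_zero] at h1
    obtain ⟨t, ht⟩ := h1
    apply hN.nsq t
    have h2 : z.im ^ 2 * (t ^ 2) = z.im ^ 2 * (-N) := by
      rw [ht] at h
      linear_combination h
    exact mul_left_cancel₀ (pow_ne_zero 2 him) h2

theorem rn_dom {N : O} (hN : Hyp N) : IsDomain (RN N) := by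
  have : NoZeroDivisors (RN N) := by
    refine ⟨fun {z w} h => ?_⟩
    by_contra hne
    push Not at hne
    have h1 : (z * w).norm = z.norm * w.norm := map_mul _ z w
    rw [h, QuadraticAlgebra.norm_zero] at h1
    exact mul_ne_zero (rn_norm_ne hN z hne.1) (rn_norm_ne hN w hne.2) h1.symm
  exact NoZeroDivisors.to_isDomain _

/-- every ideal prime to `2N` is `c (a, √-N - b)`.  Proof: `I` is an `O`-submodule of
`O ⊕ O √-N`; let `(c)` be the ideal of the second coordinates, `c √-N + d ∈ I`, `I ∩ O = (m)`; as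
`I` is stable under `√-N`, `c ∣ m`, `c ∣ d`.  The norm of an element `1 - 2 N z` of `I` is prime to
`2N` and divisible by `c² a`. -/
theorem cop_struct {N : O} (hN : Hyp N) (I : Ideal (RN N)) (hI : Cop N I) :
    ∃ c a b : O, IsCoprime c (2 * N) ∧ IsCoprime a (2 * N) ∧ a ∣ b ^ 2 + N ∧
      I = Ideal.span {co N c} * fid N a b := by
  -- the ideal of the second coordinates
  let J : Ideal O :=
    { carrier := {y | ∃ x, (⟨x, y⟩ : RN N) ∈ I}
      add_mem' := by
        rintro y y' ⟨x, hx⟩ ⟨x', hx'⟩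
        exact ⟨x + x', I.add_mem hx hx'⟩
      zero_mem' := ⟨0, I.zero_mem⟩
      smul_mem' := by
        rintro t y ⟨x, hx⟩
        refine ⟨t * x, ?_⟩
        have := I.mul_mem_left (co N t) hx
        have e : co N t * (⟨x, y⟩ : RN N) = ⟨t * x, t * y⟩ := by
          ext
          · rw [uid_re_mul]; simp only [uid_re_co, uid_im_co]; ring
          · rw [uid_im_mul]; simp only [uid_re_co, uid_im_co]; ring
        rw [e] at this
        exact this }
  have hJ : ∀ y, y ∈ J ↔ ∃ x, (⟨x, y⟩ : RN N) ∈ I := fun y => Iff.rfl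
  -- the intersection with `O`
  let M : Ideal O :=
    { carrier := {x | co N x ∈ I}
      add_mem' := by
        intro x x' hx hx'
        have e : co N (x + x') = co N x + co N x' := by
          ext
          · rw [QuadraticAlgebra.re_add]; rfl
          · rw [QuadraticAlgebra.im_add]; simp only [uid_im_co, add_zero]
        change co N (x + x') ∈ I
        rw [e]
        exact I.add_mem hx hx'
      zero_mem' := I.zero_mem
      smul_mem' := by
        intro t x hx
        have e : co N (t * x) = co N t * co N x := by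
          ext
          · rw [uid_re_mul]; simp only [uid_re_co, uid_im_co]; ring
          · rw [uid_im_mul]; simp only [uid_re_co, uid_im_co]; ring
        change co N (t * x) ∈ I
        rw [e]
        exact I.mul_mem_left _ hx }
  have hM : ∀ x, x ∈ M ↔ co N x ∈ I := fun y => Iff.rfl
  obtain ⟨c, hc⟩ := (IsPrincipalIdealRing.principal J).principal
  obtain ⟨m, hm⟩ := (IsPrincipalIdealRing.principal M).principal
  have hcJ : c ∈ J := by rw [hc]; exact Submodule.mem_span_singleton_self c
  have hmM : m ∈ M := by rw [hm]; exact Submodule.mem_span_singleton_self m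
  have hJc : ∀ y ∈ J, c ∣ y := by
    intro y hy
    rw [hc] at hy
    exact Ideal.mem_span_singleton.1 hy
  have hMm : ∀ y ∈ M, m ∣ y := by
    intro y hy
    rw [hm] at hy
    exact Ideal.mem_span_singleton.1 hy
  obtain ⟨d, hd⟩ := (hJ c).1 hcJ
  -- `c ∣ m`
  obtain ⟨a, ha⟩ : c ∣ m := by
    apply hJc
    rw [hJ]
    refine ⟨0, ?_⟩
    have h1 := I.mul_mem_left (om N) ((hM m).1 hmM)
    have e : om N * co N m = ⟨0, m⟩ := by
      ext
      · rw [uid_re_mul]; simp only [uid_re_co, uid_im_co, om]; ring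
      · rw [uid_im_mul]; simp only [uid_re_co, uid_im_co, om]; ring
    rwa [e] at h1
  -- `c ∣ d`
  obtain ⟨b', hb'⟩ : c ∣ d := by
    apply hJc
    rw [hJ]
    refine ⟨-N * c, ?_⟩
    have h1 := I.mul_mem_left (om N) hd
    have e : om N * (⟨d, c⟩ : RN N) = ⟨-N * c, d⟩ := by
      ext
      · rw [uid_re_mul]; simp only [om]; ring
      · rw [uid_im_mul]; simp only [om]; ring
    rwa [e] at h1
  -- elements of `I`
  have hmem : ∀ r ∈ I, ∃ x y : O, r = co N c * (x • co N a + y • (⟨b', 1⟩ : RN N)) := by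
    intro r hr
    obtain ⟨y, hy⟩ := hJc r.im ((hJ _).2 ⟨r.re, by rw [QuadraticAlgebra.mk_eta]; exact hr⟩)
    have h1 : co N (r.re - y * d) ∈ I := by
      have h2 := I.sub_mem hr (I.mul_mem_left (co N y) hd)
      have e : r - co N y * (⟨d, c⟩ : RN N) = co N (r.re - y * d) := by
        ext
        · rw [QuadraticAlgebra.re_sub, uid_re_mul]; simp only [uid_re_co, uid_im_co]; ring
        · rw [QuadraticAlgebra.im_sub, uid_im_mul]
          simp only [uid_re_co, uid_im_co]
          rw [hy]; ring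
      rwa [e] at h2
    obtain ⟨x, hx⟩ := hMm _ ((hM _).2 h1)
    refine ⟨x, y, ?_⟩
    ext
    · rw [uid_re_mul, QuadraticAlgebra.re_add, QuadraticAlgebra.im_add, QuadraticAlgebra.re_smul,
        QuadraticAlgebra.re_smul, QuadraticAlgebra.im_smul, QuadraticAlgebra.im_smul]
      simp only [uid_re_co, uid_im_co, smul_eq_mul]
      rw [ha, hb'] at hx
      linear_combination hx
    · rw [uid_im_mul, QuadraticAlgebra.re_add, QuadraticAlgebra.im_add, QuadraticAlgebra.re_smul,
        QuadraticAlgebra.re_smul, QuadraticAlgebra.im_smul, QuadraticAlgebra.im_smul]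
      simp only [uid_re_co, uid_im_co, smul_eq_mul]
      rw [hy]; ring
  obtain ⟨r, hr, z, hrz⟩ := cop_iff.1 hI
  -- the norm of `r`
  have hnr : ∃ w : O, r.norm + (2 * N) * w = 1 := by
    refine ⟨2 * z.re - (2 * N) * z.norm, ?_⟩
    have e : r = 1 - co N (2 * N) * z := by rw [← hrz]; ring
    rw [e, uid_norm, uid_norm, QuadraticAlgebra.re_sub, QuadraticAlgebra.im_sub, uid_re_mul,
      uid_im_mul]
    simp only [uid_re_co, uid_im_co, uid_re_one, uid_im_one]
    ring
  obtain ⟨w, hw⟩ := hnr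
  obtain ⟨x, y, hrxy⟩ := hmem r hr
  have hnorm : r.norm = c ^ 2 * ((x * a + y * b') ^ 2 + N * y ^ 2) := by
    rw [hrxy, uid_norm, uid_re_mul, uid_im_mul, QuadraticAlgebra.re_add, QuadraticAlgebra.im_add,
      QuadraticAlgebra.re_smul, QuadraticAlgebra.re_smul, QuadraticAlgebra.im_smul,
      QuadraticAlgebra.im_smul]
    simp only [uid_re_co, uid_im_co, smul_eq_mul]
    ring
  have hccop : IsCoprime c (2 * N) :=
    ⟨c * ((x * a + y * b') ^ 2 + N * y ^ 2), w, by rw [← hw, hnorm]; ring⟩
  have hc0 : c ≠ 0 := by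
    rintro rfl
    obtain ⟨u, v, huv⟩ := hccop
    apply hN.h2
    exact IsUnit.of_mul_eq_one (v * N) (by linear_combination huv)
  -- `a ∣ b² + N`
  obtain ⟨k, hk⟩ : a ∣ b' ^ 2 + N := by
    have h1 : co N (c * (b' ^ 2 + N)) ∈ I := by
      have h2 := I.mul_mem_left (⟨b', -1⟩ : RN N) hd
      have e : (⟨b', -1⟩ : RN N) * ⟨d, c⟩ = co N (c * (b' ^ 2 + N)) := by
        ext
        · rw [uid_re_mul, hb']; simp only [uid_re_co]; ring
        · rw [uid_im_mul, hb']; simp only [uid_im_co]; ring
      rwa [e] at h2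
    obtain ⟨k, hk⟩ := hMm _ ((hM _).2 h1)
    refine ⟨k, ?_⟩
    rw [ha] at hk
    exact mul_left_cancel₀ hc0 (by linear_combination hk)
  refine ⟨c, a, -b', hccop, ?_, ⟨k, by linear_combination hk⟩, ?_⟩
  · refine ⟨c ^ 2 * (x ^ 2 * a + 2 * x * y * b' + y ^ 2 * k), w, ?_⟩
    rw [← hw, hnorm]
    linear_combination (-(c ^ 2 * y ^ 2)) * hk
  · apply le_antisymm
    · intro r hr
      obtain ⟨x, y, rfl⟩ := hmem r hr
      apply Ideal.mul_mem_mul (Ideal.mem_span_singleton_self _)
      have e : (⟨b', 1⟩ : RN N) = ⟨- -b', 1⟩ := by rw [neg_neg]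
      rw [e]
      exact (fid_mem ⟨k, by linear_combination hk⟩ _).2 ⟨x, y, rfl⟩
    · rw [Ideal.mul_le]
      intro r hr s hs
      obtain ⟨t, rfl⟩ := Ideal.mem_span_singleton'.1 hr
      rw [mem_fid'] at hs
      obtain ⟨p, q, rfl⟩ := hs
      have e1 : co N c * co N a ∈ I := by
        have e : co N c * co N a = co N m := by
          ext
          · rw [uid_re_mul]; simp only [uid_re_co, uid_im_co]; rw [ha]; ring
          · rw [uid_im_mul]; simp only [uid_re_co, uid_im_co]; ring
        rw [e]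
        exact (hM m).1 hmM
      have e2 : co N c * (⟨- -b', 1⟩ : RN N) ∈ I := by
        have e : co N c * (⟨- -b', 1⟩ : RN N) = ⟨d, c⟩ := by
          ext
          · rw [uid_re_mul, hb']; simp only [uid_re_co, uid_im_co]; ring
          · rw [uid_im_mul]; simp only [uid_re_co, uid_im_co]; ring
        rw [e]
        exact hd
      have e3 : t * co N c * (p * co N a + q * ⟨- -b', 1⟩) =
          (t * p) * (co N c * co N a) + (t * q) * (co N c * (⟨- -b', 1⟩ : RN N)) := by ring
      rw [e3]
      exact I.add_mem (I.mul_mem_left _ e1) (I.mul_mem_left _ e2)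

theorem mul_cj {N : O} (hN : Hyp N) (I : Ideal (RN N)) (hI : Cop N I) :
    ∃ m : O, IsCoprime m (2 * N) ∧ I * cj I = Ideal.span {co N m} := by
  obtain ⟨c, a, b, hc, ha, hab, rfl⟩ := cop_struct hN I hI
  refine ⟨c * c * a, (hc.mul_left hc).mul_left ha, ?_⟩
  rw [cj_mul, cj_span]
  have h2 : star (co N c) = co N c := by
    ext
    · rw [uid_re_star]
    · rw [uid_im_star, uid_im_co, neg_zero]
  rw [h2]
  have h3 : Ideal.span {co N c} * fid N a b * (Ideal.span {co N c} * cj (fid N a b)) =
      Ideal.span {co N c} * Ideal.span {co N c} * (fid N a b * cj (fid N a b)) := by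
    ac_rfl
  rw [h3, fid_cj_mul ha hab, Ideal.span_singleton_mul_span_singleton,
    Ideal.span_singleton_mul_span_singleton]
  congr 2
  ext
  · rw [uid_re_mul, uid_re_mul, uid_im_mul]; simp only [uid_re_co, uid_im_co]; ring
  · rw [uid_im_mul, uid_re_mul, uid_im_mul]; simp only [uid_re_co, uid_im_co]; ring

end

end SerreU
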