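import Pool.Agent.SerreU.UID1

/-!
# UID2: the group of classes of ideals prime to `2N`
-/

namespace SerreU

open SerreE SerreK

variable {O : Type} [CommRing O] [IsDomain O] [IsPrincipalIdealRing O]

theorem eqv_refl {N : O} (I : Ideal (RN N)) : Eqv I I := by
  have : Nontrivial (RN N) := inferInstance
  exact ⟨1, 1, one_ne_zero, one_ne_zero, rfl⟩

theorem eqv_symm {N : O} {I J : Ideal (RN N)} (h : Eqv I J) : Eqv J I := by
  obtain ⟨α, β, hα, hβ, h⟩ := h
  exact ⟨β, α, hβ, hα, h.symm⟩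

theorem eqv_trans {N : O} (hN : Hyp N) {I J K : Ideal (RN N)} (h : Eqv I J) (h' : Eqv J K) :
    Eqv I K := by
  have := rn_dom hN
  obtain ⟨α, β, hα, hβ, h⟩ := h
  obtain ⟨γ, δ, hγ, hδ, h'⟩ := h'
  refine ⟨γ * α, β * δ, mul_ne_zero hγ hα, mul_ne_zero hβ hδ, ?_⟩
  rw [← Ideal.span_singleton_mul_span_singleton, ← Ideal.span_singleton_mul_span_singleton,
    mul_assoc, mul_assoc, h, ← h']
  rw [← mul_assoc, ← mul_assoc, mul_comm (Ideal.span {γ})]

theorem eqv_mul {N : O} (hN : Hyp N) {I J I' J' : Ideal (RN N)} (h : Eqv I J) (h' : Eqv I' J') :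
    Eqv (I * I') (J * J') := by
  have := rn_dom hN
  obtain ⟨α, β, hα, hβ, h⟩ := h
  obtain ⟨γ, δ, hγ, hδ, h'⟩ := h'
  refine ⟨α * γ, β * δ, mul_ne_zero hα hγ, mul_ne_zero hβ hδ, ?_⟩
  rw [← Ideal.span_singleton_mul_span_singleton, ← Ideal.span_singleton_mul_span_singleton,
    mul_mul_mul_comm, h, h', mul_mul_mul_comm]

/-- The multipliers can be chosen prime to `2N`: take `e ∈ I` with `e ≡ 1` mod `2N`; if
`α I = β J`, then `α e = β f` with `f ∈ J` and `e J = f I` (up to the factor `β`), and `f` is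
prime to `2N`. -/
theorem eqv_cop {N : O} (hN : Hyp N) {I J : Ideal (RN N)} (hI : Cop N I) (hJ : Cop N J)
    (h : Eqv I J) : ∃ α β : RN N, Cop N (Ideal.span {α}) ∧ Cop N (Ideal.span {β}) ∧
      Ideal.span {α} * I = Ideal.span {β} * J := by
  have := rn_dom hN
  obtain ⟨α, β, hα, hβ, h⟩ := h
  obtain ⟨e, he, z, hez⟩ := cop_iff.1 hI
  have h1 : α * e ∈ Ideal.span {β} * J := by
    rw [← h]
    exact Ideal.mul_mem_mul (Ideal.mem_span_singleton_self α) he
  obtain ⟨f, hf, hff⟩ := Ideal.mem_span_singleton_mul.1 h1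
  have he' : Cop N (Ideal.span {e}) := cop_iff.2 ⟨e, Ideal.mem_span_singleton_self e, z, hez⟩
  have h2 : Ideal.span {f} * I = Ideal.span {e} * J := by
    have h3 : Ideal.span {β} * (Ideal.span {f} * I) = Ideal.span {β} * (Ideal.span {e} * J) := by
      rw [← mul_assoc, Ideal.span_singleton_mul_span_singleton, hff,
        ← Ideal.span_singleton_mul_span_singleton, mul_comm (Ideal.span {α}), mul_assoc, h,
        ← mul_assoc, ← mul_assoc, mul_comm (Ideal.span {e})]
    exact (Ideal.span_singleton_mul_right_inj hβ).1 h3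
  have hf' : Cop N (Ideal.span {f}) := by
    have h3 : Cop N (Ideal.span {f} * I) := by
      rw [h2]
      exact cop_mul he' hJ
    exact (cop_of_mul h3).1
  exact ⟨f, e, hf', he', h2⟩

theorem uid2_cop_one {N : O} : Cop N (1 : Ideal (RN N)) := by
  rw [Cop, Ideal.one_eq_top, top_sup_eq]

theorem uid2_ne_zero {N : O} (hN : Hyp N) {m : O} (hm : IsCoprime m (2 * N)) : m ≠ 0 := by
  rintro rfl
  rw [isCoprime_zero_left] at hm
  exact hN.nu (isUnit_of_mul_isUnit_right hm)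

open Classical in
/-- The finite group `C` of the classes (modulo `Eqv`) of the ideals prime to `2N` (for instance
the group of units of the quotient monoid; the inverse of the class of `I` is the class of `cj I`,
by `mul_cj`; finiteness by `hfin`), with the character `ψ` given by `χ`. -/
theorem cls_grp {N : O} (hN : Hyp N)
    (hfin : ∃ S : Set (Ideal (RN N)), S.Finite ∧ ∀ I, Cop N I → ∃ J ∈ S, J ≠ ⊥ ∧ Eqv (cj I) J)
    (χ : Ideal (RN N) → FF) (hχ : RCC N χ) :
    ∃ (C : Type) (_ : CommGroup C) (_ : Fintype C) (cl : Ideal (RN N) → C) (ψ : C →* FFˣ),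
      (∀ I J, Cop N I → Cop N J → cl (I * J) = cl I * cl J) ∧
      (∀ I J, Cop N I → Cop N J → (cl I = cl J ↔ Eqv I J)) ∧
      (∀ c, ∃ I, Cop N I ∧ cl I = c) ∧
      (∀ I, Cop N I → cl (cj I) = (cl I)⁻¹) ∧
      (∀ I, Cop N I → ((ψ (cl I) : FFˣ) : FF) = χ I) := by
  have hdom := rn_dom hN
  let M : Submonoid (Ideal (RN N)) :=
    { carrier := {I | Cop N I}
      one_mem' := uid2_cop_one
      mul_mem' := fun ha hb => cop_mul ha hb }
  let c : Con M :=
    { r := fun I J => Eqv I.1 J.1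
      iseqv := ⟨fun I => eqv_refl I.1, fun h => eqv_symm h, fun h h' => eqv_trans hN h h'⟩
      mul' := fun h h' => eqv_mul hN h h' }
  let Q := c.Quotient
  have hinv : ∀ I : M, c.mk' I * c.mk' ⟨cj I.1, cop_cj I.2⟩ = 1 := by
    intro I
    obtain ⟨m, hm, hmI⟩ := mul_cj hN I.1 I.2
    rw [← map_mul, ← map_one c.mk']
    apply (Con.eq c).2
    refine ⟨1, co N m, one_ne_zero, ?_, ?_⟩
    · intro h0
      apply uid2_ne_zero hN hm
      exact congrArg QuadraticAlgebra.re h0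
    · have h1 : ((I * ⟨cj I.1, cop_cj I.2⟩ : M) : Ideal (RN N)) = I.1 * cj I.1 := rfl
      rw [h1, hmI, Ideal.span_singleton_one]
      change ⊤ * _ = _ * 1
      rw [Ideal.top_mul, mul_one]
  have hunit : ∀ q : Q, IsUnit q := by
    intro q
    obtain ⟨I, rfl⟩ := Con.mk'_surjective q
    exact IsUnit.of_mul_eq_one _ (hinv I)
  let grp : CommGroup Q := commGroupOfIsUnit hunit
  obtain ⟨S, hS, hSI⟩ := hfin
  have hfinQ : Finite Q := by
    have h1 : ∀ q : Q, ∃ J : S, ∃ I : M, c.mk' I = q ∧ Eqv I.1 J.1 := by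
      intro q
      obtain ⟨I, rfl⟩ := Con.mk'_surjective q
      obtain ⟨J, hJ, _, h⟩ := hSI (cj I.1) (cop_cj I.2)
      rw [cj_cj] at h
      exact ⟨⟨J, hJ⟩, I, rfl, h⟩
    choose f g hg hf using h1
    have : Finite S := hS
    apply Finite.of_injective f
    intro q q' hqq
    rw [← hg q, ← hg q']
    apply (Con.eq c).2
    refine eqv_trans hN (hf q) ?_
    rw [hqq]
    exact eqv_symm (hf q')
  have hχ1 : χ 1 = 1 := by
    have h1 : (1 : Ideal (RN N)) = Ideal.span {1} := by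
      rw [Ideal.span_singleton_one, Ideal.one_eq_top]
    rw [h1]
    apply hχ.prin
    rw [← h1]
    exact uid2_cop_one
  let χM : M →* FF :=
    { toFun := fun I => χ I.1
      map_one' := hχ1
      map_mul' := fun I J => hχ.mul I.1 J.1 }
  have hker : c ≤ Con.ker χM := by
    intro I J hIJ
    obtain ⟨α, β, hα, hβ, h⟩ := eqv_cop hN I.2 J.2 hIJ
    have h1 := congrArg χ h
    rw [hχ.mul, hχ.mul, hχ.prin _ hα, hχ.prin _ hβ, one_mul, one_mul] at h1
    exact h1
  let ψ0 : Q →* FF := c.lift χM hker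
  let ψ : Q →* FFˣ := MonoidHom.toHomUnits ψ0
  let cl : Ideal (RN N) → Q := fun I => if h : Cop N I then c.mk' ⟨I, h⟩ else 1
  have hcl : ∀ I (h : Cop N I), cl I = c.mk' ⟨I, h⟩ := fun I h => dif_pos h
  refine ⟨Q, grp, Fintype.ofFinite Q, cl, ψ, ?_, ?_, ?_, ?_, ?_⟩
  · intro I J hI hJ
    rw [hcl I hI, hcl J hJ, hcl (I * J) (cop_mul hI hJ)]
    rfl
  · intro I J hI hJ
    rw [hcl I hI, hcl J hJ]
    exact Con.eq c
  · intro q
    obtain ⟨I, rfl⟩ := Con.mk'_surjective q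
    exact ⟨I.1, I.2, hcl I.1 I.2⟩
  · intro I hI
    rw [hcl I hI, hcl (cj I) (cop_cj hI)]
    exact eq_inv_of_mul_eq_one_right (hinv ⟨I, hI⟩)
  · intro I hI
    rw [hcl I hI]
    rfl

end SerreU
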