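import Pool.Agent.SerreU.UID1
import Pool.Agent.SerreK.TSQT
import Pool.Agent.SerreK.PIDM
import Pool.Agent.SerreK.PELL

/-!
# UNUN: the case of a unit `N`
-/

namespace SerreU

open SerreE SerreK
open scoped QuadraticAlgebra

section
variable {O : Type} [CommRing O]

theorem unun_co_mul {N : O} (c : O) (r : RN N) : co N c * r = ⟨c * r.re, c * r.im⟩ := by
  unfold co
  apply QuadraticAlgebra.ext <;> simp

open scoped Pointwise in
/-- structure of the ideals prime to `2N` (no hypothesis on `N`) -/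
theorem unun_struct [IsPrincipalIdealRing O] {N : O} (I : Ideal (RN N)) (hI : Cop N I) :
    ∃ c a b : O, IsCoprime c (2 * N) ∧ IsCoprime a (2 * N) ∧ a ∣ b ^ 2 + N ∧
      I = Ideal.span {co N c} * fid N a b := by
  -- the ideal of the second coordinates
  let J : Ideal O :=
    { carrier := {y | ∃ x, (⟨x, y⟩ : RN N) ∈ I}
      add_mem' := by
        rintro y y' ⟨x, hx⟩ ⟨x', hx'⟩
        refine ⟨x + x', ?_⟩
        exact I.add_mem hx hx'
      zero_mem' := ⟨0, I.zero_mem⟩
      smul_mem' := by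
        rintro c y ⟨x, hx⟩
        refine ⟨c * x, ?_⟩
        have h := I.mul_mem_left (co N c) hx
        rw [unun_co_mul] at h
        exact h }
  obtain ⟨c, hJ⟩ := (inferInstance : J.IsPrincipal)
  have hJ' : ∀ y, y ∈ J ↔ c ∣ y := by
    intro y
    rw [hJ]
    exact Ideal.mem_span_singleton
  have him : ∀ r ∈ I, c ∣ r.im := by
    intro r hr
    rw [← hJ']
    exact ⟨r.re, hr⟩
  have hre : ∀ r ∈ I, c ∣ r.re := by
    intro r hr
    have h := him _ (I.mul_mem_left (om N) hr)
    have h2 : (om N * r).im = r.re := by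
      unfold om
      simp
    rwa [h2] at h
  obtain ⟨d, hd⟩ : ∃ d, (⟨d, c⟩ : RN N) ∈ I := (hJ' c).2 (dvd_refl c)
  obtain ⟨b', hb'⟩ := hre _ hd
  have hb'' : d = c * b' := hb'
  set b : O := -b' with hb
  have hr0 : (⟨c * (-b), c⟩ : RN N) ∈ I := by
    rw [hb, neg_neg, ← hb'']
    exact hd
  -- the ideal of the first coordinates
  let I0 : Ideal O :=
    { carrier := {x | (⟨c * x, 0⟩ : RN N) ∈ I}
      add_mem' := by
        intro x x' hx hx'
        have h := I.add_mem hx hx'
        show (⟨c * (x + x'), 0⟩ : RN N) ∈ I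
        convert h using 1
        apply QuadraticAlgebra.ext
        · simp [mul_add]
        · simp
      zero_mem' := by
        show (⟨c * 0, 0⟩ : RN N) ∈ I
        rw [mul_zero]
        exact I.zero_mem
      smul_mem' := by
        intro e x hx
        have h := I.mul_mem_left (co N e) hx
        rw [unun_co_mul] at h
        show (⟨c * (e * x), 0⟩ : RN N) ∈ I
        rw [mul_left_comm]
        simpa using h }
  obtain ⟨a, hI0⟩ := (inferInstance : I0.IsPrincipal)
  have hI0' : ∀ x, (⟨c * x, 0⟩ : RN N) ∈ I ↔ a ∣ x := by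
    intro x
    have h1 : x ∈ I0 ↔ a ∣ x := by
      rw [hI0]
      exact Ideal.mem_span_singleton
    exact h1
  obtain ⟨r, hr, z, hz⟩ := cop_iff.1 hI
  have hzre : r.re + 2 * N * z.re = 1 := by
    have h1 := congrArg QuadraticAlgebra.re hz
    rw [unun_co_mul] at h1
    simpa using h1
  have hzim : r.im + 2 * N * z.im = 0 := by
    have h1 := congrArg QuadraticAlgebra.im hz
    rw [unun_co_mul] at h1
    simpa using h1
  obtain ⟨x', hx'⟩ := hre r hr
  obtain ⟨y', hy'⟩ := him r hr
  refine ⟨c, a, b, ?_, ?_, ?_, ?_⟩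
  · refine ⟨x', z.re, ?_⟩
    rw [← hzre, hx']
    ring
  · have h1 : (⟨c * (x' * x' + N * (y' * y')), 0⟩ : RN N) ∈ I := by
      have h2 := I.mul_mem_left (⟨x', -y'⟩ : RN N) hr
      convert h2 using 1
      apply QuadraticAlgebra.ext
      · simp [hx', hy']
        ring
      · simp [hx', hy']
        ring
    obtain ⟨e, he⟩ := (hI0' _).1 h1
    refine ⟨c * c * e, 2 * z.re - 2 * N * z.re ^ 2 - 2 * N ^ 2 * z.im ^ 2, ?_⟩
    have h3 : c * c * e * a = c * c * (x' * x' + N * (y' * y')) := by
      rw [he]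
      ring
    rw [h3]
    have h4 : c * c * (x' * x' + N * (y' * y')) = r.re ^ 2 + N * r.im ^ 2 := by
      rw [hx', hy']
      ring
    rw [h4]
    have h5 : r.re = 1 - 2 * N * z.re := by linear_combination hzre
    have h6 : r.im = - (2 * N * z.im) := by linear_combination hzim
    rw [h5, h6]
    ring
  · have h1 : (⟨c * (-(b ^ 2 + N)), 0⟩ : RN N) ∈ I := by
      have h2 := I.mul_mem_left (⟨b, 1⟩ : RN N) hr0
      convert h2 using 1
      apply QuadraticAlgebra.ext
      · simp
        ring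
      · simp
        ring
    exact (dvd_neg).1 ((hI0' _).1 h1)
  · unfold fid
    rw [Ideal.span_mul_span']
    have hset : ({co N c} : Set (RN N)) * ({co N a, (⟨-b, 1⟩ : RN N)} : Set (RN N)) =
        ({(⟨c * a, 0⟩ : RN N), (⟨c * (-b), c⟩ : RN N)} : Set (RN N)) := by
      ext s
      simp only [Set.mem_mul, Set.mem_singleton_iff, Set.mem_insert_iff]
      constructor
      · rintro ⟨_, rfl, t, h, rfl⟩
        rcases h with rfl | rfl
        · left
          rw [unun_co_mul]
          simp [co]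
        · right
          rw [unun_co_mul]
          simp
      · rintro (rfl | rfl)
        · refine ⟨_, rfl, co N a, Or.inl rfl, ?_⟩
          rw [unun_co_mul]
          simp [co]
        · refine ⟨_, rfl, ⟨-b, 1⟩, Or.inr rfl, ?_⟩
          rw [unun_co_mul]
          simp
    rw [hset]
    apply le_antisymm
    · intro s hs
      obtain ⟨x, hx⟩ := hre s hs
      obtain ⟨y, hy⟩ := him s hs
      have h1 : (⟨c * (x + y * b), 0⟩ : RN N) ∈ I := by
        have h2 := I.sub_mem hs (I.mul_mem_left (co N y) hr0)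
        convert h2 using 1
        rw [unun_co_mul]
        apply QuadraticAlgebra.ext
        · simp [hx]
          ring
        · simp [hy]
          ring
      obtain ⟨e, he⟩ := (hI0' _).1 h1
      rw [Ideal.mem_span_pair]
      refine ⟨co N e, co N y, ?_⟩
      rw [unun_co_mul, unun_co_mul]
      apply QuadraticAlgebra.ext
      · simp only [QuadraticAlgebra.re_add]
        rw [hx]
        linear_combination -c * he
      · simp only [QuadraticAlgebra.im_add]
        rw [hy]
        ring
    · rw [Ideal.span_le]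
      rintro s (rfl | rfl)
      · exact (hI0' a).2 (dvd_refl a)
      · exact hr0

/-- the prime ideal `(p, √-N - b)` is generated by an element of norm `p` -/
theorem unun_gen [IsDomain O] {N : O} {p b x y : O} (hp : p ≠ 0) (ε : Oˣ)
    (hn : (x ^ 2 + N * y ^ 2) * ε = p) (h1 : p ∣ x + y * b) (h2 : p ∣ b ^ 2 + N) :
    fid N p b = Ideal.span {(⟨x, y⟩ : RN N)} := by
  obtain ⟨e, he⟩ := h1
  obtain ⟨f, hf⟩ := h2
  unfold fid
  apply le_antisymm
  · rw [Ideal.span_le]
    rintro s (rfl | rfl)
    · rw [SetLike.mem_coe, Ideal.mem_span_singleton]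
      refine ⟨⟨x * ε, -(y * ε)⟩, ?_⟩
      unfold co
      rw [← hn]
      apply QuadraticAlgebra.ext
      · simp
        ring
      · simp
        ring
    · rw [SetLike.mem_coe, Ideal.mem_span_singleton]
      -- `p t2 = x + b y`, `p t1 = y N - b x`
      have ht1 : p * (y * f - b * e) = y * N - b * x := by
        linear_combination -y * hf + b * he
      refine ⟨⟨(y * f - b * e) * ε, e * ε⟩, ?_⟩
      apply QuadraticAlgebra.ext
      · simp only [QuadraticAlgebra.re_mul]
        apply mul_left_cancel₀ hp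
        linear_combination (-x * ε) * ht1 - N * y * ε * he + b * hn
      · simp only [QuadraticAlgebra.im_mul]
        apply mul_left_cancel₀ hp
        linear_combination (-y * ε) * ht1 + x * ε * he - hn
  · rw [Ideal.span_le]
    rintro s rfl
    rw [SetLike.mem_coe, Ideal.mem_span_pair]
    refine ⟨co N e, co N y, ?_⟩
    rw [unun_co_mul, unun_co_mul]
    unfold co
    apply QuadraticAlgebra.ext
    · simp only [QuadraticAlgebra.re_add]
      linear_combination -he
    · simp

end

/-- a unit `N` such that `-N` is not a square is the square of a unit -/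
theorem unun_sq (n : ℕ) (N : OK n) (hNu : IsUnit N) (hns : ∀ t : OK n, t ^ 2 ≠ -N) :
    ∃ u v : OK n, N = u ^ 2 ∧ u * v = 1 := by
  obtain ⟨M, hM⟩ := hNu.exists_right_inv
  have h1 : PIDM_nm N * PIDM_nm M = 1 := by
    rw [← PIDM_nm_mul, hM]
    simp [PIDM_nm]
  have h2 : PIDM_nm N = 1 := by
    have h3 := PIDM_nm_nonneg N
    rcases Int.eq_one_or_neg_one_of_mul_eq_one h1 with h | h
    · exact h
    · omega
  have h5 : (2 * N.re + N.im) ^ 2 + (4 * (n : ℤ) + 3) * N.im ^ 2 = 4 := by
    have h6 := PIDM_nm_four N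
    rw [h2] at h6
    linarith
  have him2 : N.im ^ 2 ≤ 1 := by nlinarith [sq_nonneg (2 * N.re + N.im), sq_nonneg N.im]
  have him1 : -1 ≤ N.im ∧ N.im ≤ 1 := by
    constructor <;> nlinarith [sq_nonneg N.im]
  have hcases : (N.re = 1 ∧ N.im = 0) ∨ (N.re = -1 ∧ N.im = 0) ∨
      (n = 0 ∧ ((N.re = 0 ∧ N.im = 1) ∨ (N.re = -1 ∧ N.im = 1) ∨ (N.re = 0 ∧ N.im = -1) ∨
        (N.re = 1 ∧ N.im = -1))) := by
    obtain ⟨h7, h8⟩ := him1
    have h9 : N.im = -1 ∨ N.im = 0 ∨ N.im = 1 := by omega
    rcases h9 with h9 | h9 | h9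
    · rw [h9] at h5
      have h10 : n = 0 := by
        have h11 : (n : ℤ) ≤ 0 := by nlinarith [sq_nonneg (2 * N.re + -1)]
        omega
      subst h10
      have h12 : (2 * N.re + -1) ^ 2 = 1 := by
        push_cast at h5
        linarith
      have h13 : N.re * (N.re - 1) = 0 := by linarith
      rcases mul_eq_zero.1 h13 with h14 | h14
      · right; right
        exact ⟨rfl, Or.inr (Or.inr (Or.inl ⟨h14, h9⟩))⟩
      · right; right
        exact ⟨rfl, Or.inr (Or.inr (Or.inr ⟨by omega, h9⟩))⟩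
    · rw [h9] at h5
      have h13 : (N.re - 1) * (N.re + 1) = 0 := by linarith
      rcases mul_eq_zero.1 h13 with h14 | h14
      · left
        exact ⟨by omega, h9⟩
      · right; left
        exact ⟨by omega, h9⟩
    · rw [h9] at h5
      have h10 : n = 0 := by
        have h11 : (n : ℤ) ≤ 0 := by nlinarith [sq_nonneg (2 * N.re + 1)]
        omega
      subst h10
      have h12 : (2 * N.re + 1) ^ 2 = 1 := by
        push_cast at h5
        linarith
      have h13 : N.re * (N.re + 1) = 0 := by linarith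
      rcases mul_eq_zero.1 h13 with h14 | h14
      · right; right
        exact ⟨rfl, Or.inl ⟨h14, h9⟩⟩
      · right; right
        exact ⟨rfl, Or.inr (Or.inl ⟨by omega, h9⟩)⟩
  rcases hcases with ⟨h6, h7⟩ | ⟨h6, h7⟩ | ⟨rfl, h⟩
  · refine ⟨1, 1, ?_, by ring⟩
    rw [one_pow]
    exact QuadraticAlgebra.ext h6 h7
  · exfalso
    apply hns 1
    rw [one_pow]
    apply QuadraticAlgebra.ext
    · simp [h6]
    · simp [h7]
  · rcases h with ⟨h6, h7⟩ | ⟨h6, h7⟩ | ⟨h6, h7⟩ | ⟨h6, h7⟩
    · exfalso
      apply hns ⟨-1, 1⟩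
      apply QuadraticAlgebra.ext
      · simp [h6, sq]
      · simp [h7, sq]
    · refine ⟨⟨0, 1⟩, ⟨1, -1⟩, ?_, ?_⟩
      · apply QuadraticAlgebra.ext
        · simp [h6, sq]
        · simp [h7, sq]
      · apply QuadraticAlgebra.ext
        · simp
        · simp
    · refine ⟨⟨-1, 1⟩, ⟨0, -1⟩, ?_, ?_⟩
      · apply QuadraticAlgebra.ext
        · simp [h6, sq]
        · simp [h7, sq]
      · apply QuadraticAlgebra.ext
        · simp
        · simp
    · exfalso
      apply hns ⟨0, 1⟩
      apply QuadraticAlgebra.ext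
      · simp [h6, sq]
      · simp [h7, sq]

/-- the ideal `(p, √-N - b)` is principal -/
theorem unun_prime (n : ℕ) (hn : n ∈ ({0, 1, 2, 4, 10, 16, 40} : Finset ℕ)) (N : OK n)
    (hNu : IsUnit N) (hns : ∀ t : OK n, t ^ 2 ≠ -N) (p : OK n) (hp : Prime p) (b : OK n)
    (hb : p ∣ b ^ 2 + N) : ∃ z : RN N, fid N p b = Ideal.span {z} := by
  obtain ⟨u, v, hu, huv⟩ := unun_sq n N hNu hns
  have h1 : p ∣ (b * v) ^ 2 + 1 := by
    have h2 : (b * v) ^ 2 + 1 = (b ^ 2 + N) * v ^ 2 := by
      rw [hu]
      linear_combination (-(u * v) - 1) * huv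
    rw [h2]
    exact hb.mul_right _
  obtain ⟨w, hw⟩ := tsqK n hn p hp (b * v) h1
  obtain ⟨ε, hε⟩ := hw
  have hnw : w.norm = w.re ^ 2 + w.im ^ 2 := by
    rw [QuadraticAlgebra.norm_def]
    ring
  rw [hnw] at hε
  set x := w.re with hx
  set y := v * w.im with hy
  have hxy : x ^ 2 + N * y ^ 2 = w.re ^ 2 + w.im ^ 2 := by
    rw [hy, hu, hx]
    linear_combination (u * v + 1) * w.im ^ 2 * huv
  have hprod : p ∣ (x + y * b) * (x + (-y) * b) := by
    have h2 : (x + y * b) * (x + (-y) * b) = (x ^ 2 + N * y ^ 2) - y ^ 2 * (b ^ 2 + N) := by ring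
    rw [h2]
    refine dvd_sub ?_ (hb.mul_left _)
    rw [hxy]
    exact ⟨((ε⁻¹ : (OK n)ˣ) : OK n), by rw [← hε, mul_assoc, Units.mul_inv, mul_one]⟩
  rcases hp.dvd_mul.1 hprod with h2 | h2
  · exact ⟨_, unun_gen hp.ne_zero ε (by rw [hxy]; exact hε) h2 hb⟩
  · exact ⟨_, unun_gen hp.ne_zero ε (by rw [neg_sq, hxy]; exact hε) h2 hb⟩

theorem no_char_unit (n : ℕ) (hn : n ∈ ({0, 1, 2, 4, 10, 16, 40} : Finset ℕ)) (N : OK n)
    (hNu : IsUnit N) (hns : ∀ t : OK n, t ^ 2 ≠ -N) (χ : Ideal (RN N) → FF) (h : RCC N χ) :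
    False := by
  have hpid : IsPrincipalIdealRing (OK n) := pidm n hn
  obtain ⟨I, hI, hIne⟩ := h.ne
  apply hIne
  have hkey : ∀ a b : OK n, a ∣ b ^ 2 + N → IsCoprime a (2 * N) → χ (fid N a b) = 1 := by
    intro a b
    induction a using UniqueFactorizationMonoid.induction_on_prime with
    | h₁ =>
      intro h1 _
      exfalso
      apply hns b
      rw [zero_dvd_iff] at h1
      linear_combination h1
    | h₂ a ha =>
      intro _ _
      obtain ⟨a', ha'⟩ := ha.exists_right_inv
      have h2 : fid N a b = Ideal.span {(1 : RN N)} := by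
        rw [Ideal.span_singleton_one, Ideal.eq_top_iff_one]
        unfold fid
        rw [Ideal.mem_span_pair]
        refine ⟨co N a', 0, ?_⟩
        rw [unun_co_mul]
        unfold co
        apply QuadraticAlgebra.ext
        · simp
          rw [mul_comm, ha']
        · simp
      rw [h2]
      apply h.prin
      unfold Cop
      rw [Ideal.span_singleton_one, top_sup_eq]
    | h₃ a p _ hp ih =>
      intro h1 h2
      have h3 : IsCoprime p (2 * N) := h2.of_mul_left_left
      have h4 : IsCoprime a (2 * N) := h2.of_mul_left_right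
      have h5 : p ∣ b ^ 2 + N := (Dvd.intro _ rfl).trans h1
      have h6 : a ∣ b ^ 2 + N := (Dvd.intro_left _ rfl).trans h1
      rw [← fid_mul (cop_2b h3 h5) h1, h.mul, ih h6 h4, mul_one]
      obtain ⟨z, hz⟩ := unun_prime n hn N hNu hns p hp b h5
      rw [hz]
      apply h.prin
      rw [← hz]
      exact cop_fid h3
  obtain ⟨c, a, b, hc, ha, hab, rfl⟩ := unun_struct I hI
  rw [h.mul, hkey a b hab ha, mul_one]
  exact h.prin _ (cop_co.2 hc)

end SerreU
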