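import Pool.Agent.SerreU.UDefs
import Pool.Agent.SerreK.UNITS

/-!
# UUNI: the units of `O[√-N]`
-/

open Complex
open scoped QuadraticAlgebra

namespace SerreU

open SerreE SerreK

section

variable {O : Type} [CommRing O]

/-- `|e1 z|²` -/
noncomputable def uuniA (σ : O →+* ℂ) (s : ℂ) {N : O} (z : RN N) : ℝ := normSq (e1 σ s z)

theorem uuni_norm {N : O} (z : RN N) : z.norm = z.re ^ 2 + N * z.im ^ 2 := by
  rw [QuadraticAlgebra.norm_def]
  ring

theorem uuni_e1_mul (σ : O →+* ℂ) {s : ℂ} {N : O} (hs : s ^ 2 = σ (-N)) (z w : RN N) :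
    e1 σ s (z * w) = e1 σ s z * e1 σ s w := by
  unfold e1
  rw [QuadraticAlgebra.re_mul, QuadraticAlgebra.im_mul]
  simp only [map_add, map_mul, map_zero]
  linear_combination -(σ z.im * σ w.im) * hs

theorem uuni_e1_norm (σ : O →+* ℂ) {s : ℂ} {N : O} (hs : s ^ 2 = σ (-N)) (z : RN N) :
    e1 σ s z * e1 σ (-s) z = σ z.norm := by
  unfold e1
  rw [uuni_norm]
  simp only [map_add, map_mul, map_pow]
  rw [map_neg] at hs
  linear_combination -(σ z.im ^ 2) * hs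

theorem uuni_mul (σ : O →+* ℂ) {s : ℂ} {N : O} (hs : s ^ 2 = σ (-N)) (z w : RN N) :
    uuniA σ s (z * w) = uuniA σ s z * uuniA σ s w := by
  unfold uuniA
  rw [uuni_e1_mul σ hs, map_mul]

theorem uuni_prod (σ : O →+* ℂ) {s : ℂ} {N : O} (hs : s ^ 2 = σ (-N)) (z : RN N) :
    uuniA σ s z * uuniA σ (-s) z = normSq (σ z.norm) := by
  unfold uuniA
  rw [← map_mul, uuni_e1_norm σ hs]

theorem uuni_sum (σ : O →+* ℂ) (s : ℂ) {N : O} (z : RN N) :
    uuniA σ s z + uuniA σ (-s) z = 2 * (normSq (σ z.re) + normSq (σ z.im) * normSq s) := by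
  unfold uuniA e1
  simp only [normSq_apply, add_re, add_im, mul_re, mul_im, neg_re, neg_im]
  ring

end

theorem uuni_unit {O : Type} [CommRing O] (σ : O →+* ℂ) (hσ : ImQ σ) {s : ℂ} {N : O}
    (hs : s ^ 2 = σ (-N)) (w : (RN N)ˣ) :
    0 < uuniA σ s (w : RN N) ∧ uuniA σ (-s) (w : RN N) = (uuniA σ s (w : RN N))⁻¹ := by
  have h1 : uuniA σ s (w : RN N) * uuniA σ (-s) (w : RN N) = 1 := by
    rw [uuni_prod σ hs]
    exact normSq_unit hσ (QuadraticAlgebra.isUnit_iff_norm_isUnit.mp w.isUnit)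
  have h2 : uuniA σ s (w : RN N) ≠ 0 := left_ne_zero_of_mul_eq_one h1
  have h3 : 0 ≤ uuniA σ s (w : RN N) := normSq_nonneg _
  exact ⟨lt_of_le_of_ne h3 h2.symm, eq_inv_of_mul_eq_one_right h1⟩

/-- `|e1|²` as a homomorphism -/
noncomputable def uuniHom {O : Type} [CommRing O] (σ : O →+* ℂ) {s : ℂ} {N : O}
    (hs : s ^ 2 = σ (-N)) : RN N →* ℝ where
  toFun w := uuniA σ s w
  map_one' := by simp [uuniA, e1, QuadraticAlgebra.re_one, QuadraticAlgebra.im_one]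
  map_mul' := uuni_mul σ hs

theorem uuni_zpow {O : Type} [CommRing O] (σ : O →+* ℂ) {s : ℂ} {N : O}
    (hs : s ^ 2 = σ (-N)) (w : (RN N)ˣ) (n : ℤ) :
    uuniA σ s ((w ^ n : (RN N)ˣ) : RN N) = uuniA σ s (w : RN N) ^ n := by
  have h1 : ∀ v : (RN N)ˣ, ((Units.map (uuniHom σ hs) v : ℝˣ) : ℝ) = uuniA σ s (v : RN N) :=
    fun v => rfl
  rw [← h1, map_zpow, Units.val_zpow_eq_zpow_val, h1]

/-- a non-zero non-unit has `|σ x| > 1` -/
theorem uuni_gt {O : Type} [CommRing O] [IsDomain O] (σ : O →+* ℂ) (hσ : ImQ σ) {x : O}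
    (h0 : x ≠ 0) (hu : ¬ IsUnit x) : 1 < normSq (σ x) := by
  obtain ⟨n, hn⟩ := hσ.int x
  have h1 : n ≠ 0 := by
    rintro rfl
    apply h0
    apply hσ.inj
    rw [map_zero]
    exact normSq_eq_zero.mp (by rw [hn]; simp)
  have h2 : n ≠ 1 := by
    rintro rfl
    apply hu
    have hfin := hσ.fin 1
    have hm : Set.MapsTo (fun k : ℕ => x ^ k) Set.univ {x : O | normSq (σ x) ≤ 1} := by
      intro k _
      change normSq (σ (x ^ k)) ≤ 1
      rw [map_pow, map_pow, hn]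
      simp
    obtain ⟨i, _, j, _, hij, he⟩ := Set.infinite_univ.exists_ne_map_eq_of_mapsTo hm hfin
    have key : ∀ i j : ℕ, i < j → x ^ i = x ^ j → IsUnit x := by
      intro i j hlt he
      have h3 : x ^ i * (x * x ^ (j - i - 1)) = x ^ i * 1 := by
        rw [← pow_succ', ← pow_add, mul_one, show i + (j - i - 1 + 1) = j by omega]
        exact he.symm
      exact IsUnit.of_mul_eq_one _ (mul_left_cancel₀ (pow_ne_zero i h0) h3)
    rcases lt_or_gt_of_ne hij with h | h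
    · exact key i j h he
    · exact key j i h he.symm
  rw [hn]
  have : 1 < n := by omega
  exact_mod_cast this

theorem uuni_s {O : Type} [CommRing O] [IsDomain O] (σ : O →+* ℂ) (hσ : ImQ σ) {s : ℂ} {N : O}
    (hN : Hyp N) (hs : s ^ 2 = σ (-N)) : 1 < normSq s := by
  have h0 : N ≠ 0 := by
    rintro rfl
    exact hN.nsq 0 (by ring)
  have h1 := uuni_gt σ hσ h0 hN.nu
  have h2 : normSq s ^ 2 = normSq (σ N) := by
    rw [← map_pow, hs, map_neg, normSq_neg]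
  have h3 := normSq_nonneg s
  nlinarith

theorem uuni_fin {O : Type} [CommRing O] [IsDomain O] (σ : O →+* ℂ) (hσ : ImQ σ) {s : ℂ} {N : O}
    (hN : Hyp N) (hs : s ^ 2 = σ (-N)) (B : ℝ) :
    {w : (RN N)ˣ | 1 ≤ uuniA σ s (w : RN N) ∧ uuniA σ s (w : RN N) ≤ B}.Finite := by
  have h1 := (hσ.fin (B + 1)).prod (hσ.fin (B + 1))
  refine Set.Finite.of_finite_image (f := fun w : (RN N)ˣ => ((w : RN N).re, (w : RN N).im))
    (h1.subset ?_) ?_
  · rintro _ ⟨w, ⟨hw1, hw2⟩, rfl⟩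
    obtain ⟨p, q⟩ := uuni_unit σ hσ hs w
    have h3 := uuni_sum σ s (w : RN N)
    have h4 : uuniA σ (-s) (w : RN N) ≤ 1 := by rw [q]; exact inv_le_one_of_one_le₀ hw1
    have h5 := normSq_nonneg (σ (w : RN N).re)
    have h6 := normSq_nonneg (σ (w : RN N).im)
    have h7 := uuni_s σ hσ hN hs
    constructor
    · change normSq (σ (w : RN N).re) ≤ B + 1
      nlinarith
    · change normSq (σ (w : RN N).im) ≤ B + 1
      nlinarith
  · intro a _ b _ h
    apply Units.ext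
    exact QuadraticAlgebra.ext (congrArg Prod.fst h) (congrArg Prod.snd h)

theorem uuni_of_one {O : Type} [CommRing O] [IsDomain O] (σ : O →+* ℂ) (hσ : ImQ σ) {s : ℂ} {N : O}
    (hN : Hyp N) (hs : s ^ 2 = σ (-N)) (w : (RN N)ˣ) (h : uuniA σ s (w : RN N) = 1) :
    ∃ u : Oˣ, (w : RN N) = co N u := by
  have h2 : uuniA σ (-s) (w : RN N) = 1 := by rw [(uuni_unit σ hσ hs w).2, h, inv_one]
  have h3 := uuni_sum σ s (w : RN N)
  obtain ⟨a, ha⟩ := hσ.int (w : RN N).re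
  obtain ⟨b, hb⟩ := hσ.int (w : RN N).im
  rw [h, h2] at h3
  have h7 := uuni_s σ hσ hN hs
  have h5 := normSq_nonneg (σ (w : RN N).re)
  have hb0 : b = 0 := by
    by_contra hne
    have h8 : (1 : ℝ) ≤ b := by exact_mod_cast Nat.one_le_iff_ne_zero.mpr hne
    rw [hb] at h3
    nlinarith
  have hi : (w : RN N).im = 0 := by
    apply hσ.inj
    rw [map_zero]
    exact normSq_eq_zero.mp (by rw [hb, hb0]; simp)
  have hn := QuadraticAlgebra.isUnit_iff_norm_isUnit.mp w.isUnit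
  rw [uuni_norm, hi] at hn
  have hu : IsUnit (w : RN N).re := by
    rw [show (w : RN N).re ^ 2 + N * 0 ^ 2 = (w : RN N).re * (w : RN N).re by ring] at hn
    exact isUnit_of_mul_isUnit_left hn
  refine ⟨hu.unit, ?_⟩
  apply QuadraticAlgebra.ext
  · rfl
  · exact hi

theorem uuni_pigeon {α β : Type*} {S : Set α} (hS : S.Infinite) {T : Set β} (hT : T.Finite)
    (f : α → β) (hf : Set.MapsTo f S T) : ∃ b ∈ T, {a | a ∈ S ∧ f a = b}.Infinite := by
  by_contra hcon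
  push Not at hcon
  apply hS
  have h1 : S ⊆ ⋃ b ∈ T, {a | a ∈ S ∧ f a = b} := by
    intro a ha
    simp only [Set.mem_iUnion]
    exact ⟨f a, hf ha, ha, rfl⟩
  exact (hT.biUnion (fun b hb => hcon b hb)).subset h1

/-- the norm does not vanish -/
theorem uuni_norm_ne {O : Type} [CommRing O] [IsDomain O] [IsPrincipalIdealRing O] {N : O}
    (hN : Hyp N) (x y : O) (hy : y ≠ 0) : x ^ 2 + N * y ^ 2 ≠ 0 := by
  intro h
  have h1 : y ^ 2 ∣ x ^ 2 := ⟨-N, by linear_combination h⟩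
  have h2 : y ∣ x := (IsIntegrallyClosed.pow_dvd_pow_iff two_ne_zero).mp h1
  obtain ⟨t, rfl⟩ := h2
  apply hN.nsq t
  have h3 : y ^ 2 * (t ^ 2) = y ^ 2 * (-N) := by linear_combination h
  exact mul_left_cancel₀ (pow_ne_zero 2 hy) h3

/-- Pell's argument -/
theorem uuni_exists {O : Type} [CommRing O] [IsDomain O] [IsPrincipalIdealRing O] [FinQuot O]
    (σ : O →+* ℂ) (hσ : ImQ σ) (hD : Dir σ) (N : O) (hN : Hyp N) (s : ℂ) (hs : s ^ 2 = σ (-N)) :
    ∃ α : (RN N)ˣ, uuniA σ s (α : RN N) ≠ 1 := by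
  obtain ⟨C, hC, hdir⟩ := hD
  have hch : ∀ Q : ℕ, ∃ v : RN N, v.im ≠ 0 ∧ normSq (σ v.im) ≤ C * ((Q + 1 : ℕ) : ℝ) ^ 2 ∧
      uuniA σ s v ≤ C / ((Q + 1 : ℕ) : ℝ) ^ 2 := by
    intro Q
    obtain ⟨x, y, hy, h1, h2⟩ := hdir s (Q + 1) (Nat.succ_pos Q)
    exact ⟨⟨x, y⟩, hy, h1, h2⟩
  choose v hv0 hv1 hv2 using hch
  have hnz : ∀ Q, (v Q).norm ≠ 0 := by
    intro Q
    rw [uuni_norm]
    exact uuni_norm_ne hN _ _ (hv0 Q)
  have hpos : ∀ Q, 0 < uuniA σ s (v Q) := by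
    intro Q
    have h1 := uuni_prod σ hs (v Q)
    have h2 : normSq (σ (v Q).norm) ≠ 0 := by
      intro h
      have h3 := normSq_eq_zero.mp h
      rw [← map_zero σ] at h3
      exact hnz Q (hσ.inj h3)
    have h3 : uuniA σ s (v Q) ≠ 0 := by
      intro h
      rw [h, zero_mul] at h1
      exact h2 h1.symm
    exact lt_of_le_of_ne (normSq_nonneg _) h3.symm
  -- the norms are bounded
  set t := normSq s with ht
  have ht0 : 0 ≤ t := normSq_nonneg s
  set B : ℝ := C * (2 * C + 8 * (C * t)) with hB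
  have hbd : ∀ Q, normSq (σ (v Q).norm) ≤ B := by
    intro Q
    rw [← uuni_prod σ hs (v Q)]
    have hq : (1 : ℝ) ≤ ((Q + 1 : ℕ) : ℝ) := by
      exact_mod_cast Nat.succ_le_succ (Nat.zero_le Q)
    have hv1' := hv1 Q
    have hv2' := hv2 Q
    generalize ((Q + 1 : ℕ) : ℝ) = q at hq hv1' hv2'
    have hq2 : (1 : ℝ) ≤ q ^ 2 := one_le_pow₀ hq
    have h2 : uuniA σ (-s) (v Q) ≤ 2 * uuniA σ s (v Q) + 8 * (normSq (σ (v Q).im) * t) := by
      unfold uuniA e1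
      rw [ht]
      simp only [normSq_apply, add_re, add_im, mul_re, mul_im, neg_re, neg_im]
      nlinarith [sq_nonneg ((σ (v Q).re).re + 3 * ((σ (v Q).im).re * s.re - (σ (v Q).im).im * s.im)),
        sq_nonneg ((σ (v Q).re).im + 3 * ((σ (v Q).im).re * s.im + (σ (v Q).im).im * s.re))]
    have h3 : uuniA σ s (v Q) ≤ C * q ^ 2 := by
      refine hv2'.trans ?_
      rw [div_le_iff₀ (by positivity)]
      nlinarith [mul_nonneg hC.le (sub_nonneg.mpr hq2), mul_pos hC (by positivity : 0 < q ^ 2)]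
    have h1 : uuniA σ (-s) (v Q) ≤ (2 * C + 8 * (C * t)) * q ^ 2 := by
      have h4 : normSq (σ (v Q).im) * t ≤ C * q ^ 2 * t := mul_le_mul_of_nonneg_right hv1' ht0
      nlinarith
    calc uuniA σ s (v Q) * uuniA σ (-s) (v Q) ≤ (C / q ^ 2) * ((2 * C + 8 * (C * t)) * q ^ 2) :=
          mul_le_mul hv2' h1 (normSq_nonneg _) (by positivity)
      _ = B := by
          rw [hB]
          have : q ^ 2 ≠ 0 := by positivity
          field_simp
  -- pigeonhole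
  have hfin : {x : O | normSq (σ x) ≤ B}.Finite := hσ.fin B
  have hmap : Set.MapsTo (fun Q => (v Q).norm) (Set.univ : Set ℕ) {x : O | normSq (σ x) ≤ B} :=
    fun Q _ => hbd Q
  obtain ⟨m, hm, hinf⟩ := uuni_pigeon (Set.infinite_univ) hfin _ hmap
  have hm0 : m ≠ 0 := by
    obtain ⟨Q, _, hQ⟩ := hinf.nonempty
    rw [← hQ]
    exact hnz Q
  have : Finite (O ⧸ Ideal.span {m}) := FinQuot.fin m hm0
  obtain ⟨c, _, hinf2⟩ := uuni_pigeon hinf (Set.finite_univ (α := (O ⧸ Ideal.span {m}) × (O ⧸ Ideal.span {m})))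
    (fun Q => (Ideal.Quotient.mk (Ideal.span {m}) (v Q).re, Ideal.Quotient.mk (Ideal.span {m}) (v Q).im)) (fun _ _ => trivial)
  obtain ⟨Q0, ⟨hQ0a, hQ0b⟩⟩ := hinf2.nonempty
  -- a large `Q1`
  obtain ⟨K, hK⟩ := exists_nat_gt (C / uuniA σ s (v Q0))
  obtain ⟨Q1, ⟨hQ1a, hQ1b⟩, hQ1⟩ := hinf2.exists_gt K
  have hlt : uuniA σ s (v Q1) < uuniA σ s (v Q0) := by
    refine (hv2 Q1).trans_lt ?_
    have h1 : (K : ℝ) ≤ ((Q1 + 1 : ℕ) : ℝ) := by
      exact_mod_cast (hQ1.le.trans (Nat.le_succ Q1))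
    have h2 : (1 : ℝ) ≤ ((Q1 + 1 : ℕ) : ℝ) := by
      exact_mod_cast Nat.succ_le_succ (Nat.zero_le Q1)
    generalize ((Q1 + 1 : ℕ) : ℝ) = q at h1 h2
    have h3 : q ≤ q ^ 2 := by nlinarith
    rw [div_lt_iff₀ (by positivity)]
    rw [div_lt_iff₀ (hpos Q0)] at hK
    nlinarith [hpos Q0]
  have hn0 : (v Q0).norm = m := hQ0a.2
  have hn1 : (v Q1).norm = m := hQ1a.2
  have he : (Ideal.Quotient.mk (Ideal.span {m}) (v Q0).re, Ideal.Quotient.mk (Ideal.span {m}) (v Q0).im)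
    = (Ideal.Quotient.mk (Ideal.span {m}) (v Q1).re, Ideal.Quotient.mk (Ideal.span {m}) (v Q1).im) :=
    hQ0b.trans hQ1b.symm
  obtain ⟨p, hp⟩ := Ideal.mem_span_singleton.mp (Ideal.Quotient.eq.mp (congrArg Prod.fst he))
  obtain ⟨q, hq⟩ := Ideal.mem_span_singleton.mp (Ideal.Quotient.eq.mp (congrArg Prod.snd he))
  have hx0 : (v Q0).re = (v Q1).re + m * p := by linear_combination hp
  have hy0 : (v Q0).im = (v Q1).im + m * q := by linear_combination hq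
  have hn1' := hn1
  rw [uuni_norm] at hn1'
  let α : RN N := ⟨1 + p * (v Q1).re + N * q * (v Q1).im, q * (v Q1).re - p * (v Q1).im⟩
  have hα : α * v Q1 = v Q0 := by
    apply QuadraticAlgebra.ext
    · rw [QuadraticAlgebra.re_mul, hx0]
      change (1 + p * (v Q1).re + N * q * (v Q1).im) * (v Q1).re
        + -N * (q * (v Q1).re - p * (v Q1).im) * (v Q1).im = _
      linear_combination p * hn1'
    · rw [QuadraticAlgebra.im_mul, hy0]
      change (1 + p * (v Q1).re + N * q * (v Q1).im) * (v Q1).im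
        + (q * (v Q1).re - p * (v Q1).im) * (v Q1).re + 0 * (q * (v Q1).re - p * (v Q1).im) * (v Q1).im = _
      linear_combination q * hn1'
  have hα1 : α.norm = 1 := by
    have h1 := congrArg QuadraticAlgebra.norm hα
    rw [map_mul, hn0, hn1] at h1
    exact mul_right_cancel₀ hm0 (by rw [h1, one_mul])
  have hu : IsUnit α := QuadraticAlgebra.isUnit_iff_norm_isUnit.mpr (by rw [hα1]; exact isUnit_one)
  refine ⟨hu.unit, ?_⟩
  intro h
  have h1 : uuniA σ s (v Q0) = uuniA σ s α * uuniA σ s (v Q1) := by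
    rw [← uuni_mul σ hs, hα]
  rw [show uuniA σ s α = 1 from h, one_mul] at h1
  exact absurd h1 hlt.ne'

/-- The unit group of `O[√-N]` is `Oˣ × ⟨η⟩` with `η` of infinite order. -/
theorem units_struct {O : Type} [CommRing O] [IsDomain O] [IsPrincipalIdealRing O] [FinQuot O]
    (σ : O →+* ℂ) (hσ : ImQ σ) (hD : Dir σ)
    (N : O) (hN : Hyp N) (s : ℂ) (hs : s ^ 2 = σ (-N)) :
    ∃ η : (RN N)ˣ, 1 < Complex.normSq (e1 σ s (η : RN N)) ∧
      ∀ α : (RN N)ˣ, ∃ (u : Oˣ) (n : ℤ), (α : RN N) = co N u * ((η ^ n : (RN N)ˣ) : RN N) := by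
  obtain ⟨w0, hw0⟩ : ∃ w : (RN N)ˣ, 1 < uuniA σ s (w : RN N) := by
    obtain ⟨w, hw⟩ := uuni_exists σ hσ hD N hN s hs
    rcases lt_or_gt_of_ne hw with h | h
    · refine ⟨w⁻¹, ?_⟩
      have h1 := uuni_zpow σ hs w (-1)
      rw [zpow_neg_one, zpow_neg_one] at h1
      rw [h1]
      exact (one_lt_inv₀ (uuni_unit σ hσ hs w).1).mpr h
    · exact ⟨w, h⟩
  have hfin := uuni_fin σ hσ hN hs (uuniA σ s (w0 : RN N))
  obtain ⟨η, ⟨hη1, hη2⟩, hmin⟩ := Set.exists_min_image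
    {w : (RN N)ˣ | 1 < uuniA σ s (w : RN N) ∧ uuniA σ s (w : RN N) ≤ uuniA σ s (w0 : RN N)}
    (fun w => uuniA σ s (w : RN N))
    (hfin.subset (fun w hw => ⟨hw.1.le, hw.2⟩)) ⟨w0, hw0, le_rfl⟩
  refine ⟨η, hη1, fun w => ?_⟩
  obtain ⟨n, hn1, hn2⟩ := exists_mem_Ico_zpow (uuni_unit σ hσ hs w).1 hη1
  have hpos : 0 < uuniA σ s (η : RN N) ^ n := zpow_pos (by linarith) n
  have e1 : uuniA σ s ((w * η ^ (-n) : (RN N)ˣ) : RN N) =
      uuniA σ s (w : RN N) / uuniA σ s (η : RN N) ^ n := by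
    rw [Units.val_mul, uuni_mul σ hs, uuni_zpow σ hs, zpow_neg, div_eq_mul_inv]
  have h1 : uuniA σ s ((w * η ^ (-n) : (RN N)ˣ) : RN N) = 1 := by
    by_contra hne
    have h2 : 1 ≤ uuniA σ s ((w * η ^ (-n) : (RN N)ˣ) : RN N) := by
      rw [e1, one_le_div hpos]
      exact hn1
    have h3 : uuniA σ s ((w * η ^ (-n) : (RN N)ˣ) : RN N) < uuniA σ s (η : RN N) := by
      rw [e1, div_lt_iff₀ hpos]
      rw [zpow_add_one₀ (by linarith)] at hn2
      rw [mul_comm]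
      exact hn2
    have h4 := hmin (w * η ^ (-n)) ⟨lt_of_le_of_ne h2 (Ne.symm hne), h3.le.trans hη2⟩
    exact absurd h3 (not_lt.mpr h4)
  obtain ⟨u, hu⟩ := uuni_of_one σ hσ hN hs _ h1
  refine ⟨u, n, ?_⟩
  rw [← hu, ← Units.val_mul, mul_assoc, ← zpow_add, neg_add_cancel, zpow_zero, mul_one]

end SerreU
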