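import Pool.Agent.SerreU.UAX
import Pool.Agent.SerreU.UUNI
import Pool.Agent.SerreU.UDIR
import Pool.Agent.SerreU.UFIN
import Pool.Agent.SerreU.UID2
import Pool.Agent.SerreU.UCEN
import Pool.Agent.SerreU.UGRP
import Pool.Agent.SerreU.UGEO
import Pool.Agent.SerreU.UHEI
import Pool.Agent.SerreU.UALG
import Pool.Agent.SerreU.UDES
import Pool.Agent.SerreU.UNUN

/-!
# UMAIN: the main theorem
-/

open Matrix
open scoped QuadraticAlgebra

namespace SerreU

open SerreE SerreK

section algebra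

theorem two_FF : (2 : FF) = 0 := CharTwo.two_eq_zero

/-- the functional `x ↦ Σ m(c) x(G c)` -/
noncomputable def Efun {C Γ : Type} [Fintype C] (m : C → FF) (G : C → Γ) : (Γ → FF) →ₗ[FF] FF :=
  ∑ c, m c • LinearMap.proj (G c)

theorem Efun_apply {C Γ : Type} [Fintype C] (m : C → FF) (G : C → Γ) (x : Γ → FF) :
    Efun m G x = ∑ c, m c * x (G c) := by
  unfold Efun
  rw [LinearMap.sum_apply]
  rfl

theorem unit_sq_one {y : FFˣ} (h : y ^ 2 = 1) : y = 1 := by
  apply Units.ext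
  have h1 : ((y : FFˣ) : FF) ^ 2 = 1 := by
    rw [← Units.val_pow_eq_pow_val, h, Units.val_one]
  have h2 : ((y : FF) - 1) ^ 2 = 0 := by
    linear_combination h1 + (1 - (y : FF)) * two_FF
  have h3 := pow_eq_zero_iff (two_ne_zero) |>.mp h2
  rw [Units.val_one]
  exact sub_eq_zero.mp h3

theorem unit_pow_one {y : FFˣ} (r : ℕ) (h : y ^ (2 ^ r) = 1) : y = 1 := by
  induction r with
  | zero => simpa using h
  | succ r ih =>
    apply ih
    apply unit_sq_one
    rw [← pow_mul, ← pow_succ]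
    exact h

open Classical in
/-- the sum over the elements of odd order -/
theorem odd_sum {C : Type} [CommGroup C] [Fintype C] (ψ : C →* FFˣ) (hψ : ψ ≠ 1) :
    ∑ c, (ψ c : FF) * ((if Odd (orderOf c) then (ψ c : FF) else 0) +
      (if Odd (orderOf c⁻¹) then (ψ c⁻¹ : FF) else 0)) = 1 := by
  have hodd : ∀ c : C, Odd (orderOf c⁻¹) ↔ Odd (orderOf c) := fun c => by rw [orderOf_inv]
  -- an element of odd order with `ψ(d)² ≠ 1`
  obtain ⟨d, hd, hd2⟩ : ∃ d : C, Odd (orderOf d) ∧ (ψ d) ^ 2 ≠ 1 := by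
    obtain ⟨c, hc⟩ : ∃ c, ψ c ≠ 1 := by
      by_contra h
      push Not at h
      exact hψ (MonoidHom.ext h)
    obtain ⟨r, m, hm, hrm⟩ := Nat.exists_eq_two_pow_mul_odd (orderOf_pos c).ne'
    refine ⟨c ^ (2 ^ r), ?_, ?_⟩
    · rw [orderOf_pow, hrm]
      have : Nat.gcd (2 ^ r * m) (2 ^ r) = 2 ^ r := by
        rw [Nat.gcd_comm]
        exact Nat.gcd_eq_left (Dvd.intro _ rfl)
      rw [this, Nat.mul_div_cancel_left _ (by positivity)]
      exact hm
    · rw [map_pow, ← pow_mul, ← pow_succ]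
      intro h
      exact hc (unit_pow_one _ h)
  have hmul : ∀ c : C, Odd (orderOf (d * c)) ↔ Odd (orderOf c) := by
    have key : ∀ a b : C, Odd (orderOf a) → Odd (orderOf b) → Odd (orderOf (a * b)) := by
      intro a b ha hb
      have h1 : orderOf (a * b) ∣ orderOf a * orderOf b := (Commute.all a b).orderOf_mul_dvd_mul_orderOf
      exact Odd.of_dvd_nat (ha.mul hb) h1
    intro c
    refine ⟨fun h => ?_, key d c hd⟩
    have h1 := key d⁻¹ (d * c) ((hodd d).mpr hd) h
    rwa [inv_mul_cancel_left] at h1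
  have s1 : ∑ c, (if Odd (orderOf c) then (ψ c : FF) ^ 2 else 0) = 0 := by
    have h1 : ∑ c, (if Odd (orderOf c) then (ψ c : FF) ^ 2 else 0) =
        (ψ d : FF) ^ 2 * ∑ c, (if Odd (orderOf c) then (ψ c : FF) ^ 2 else 0) := by
      rw [Finset.mul_sum, ← Equiv.sum_comp (Equiv.mulLeft d)]
      apply Finset.sum_congr rfl
      intro c _
      change (if Odd (orderOf (d * c)) then (ψ (d * c) : FF) ^ 2 else 0) = _
      simp only [hmul c]
      split_ifs
      · rw [map_mul, Units.val_mul]; ring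
      · ring
    have h2 : ((ψ d : FF) ^ 2 - 1) * ∑ c, (if Odd (orderOf c) then (ψ c : FF) ^ 2 else 0) = 0 := by
      linear_combination -h1
    rcases mul_eq_zero.mp h2 with h | h
    · exfalso
      apply hd2
      apply Units.ext
      rw [Units.val_pow_eq_pow_val, Units.val_one]
      exact sub_eq_zero.mp h
    · exact h
  have s2 : ∑ c : C, (if Odd (orderOf c) then (1 : FF) else 0) = 1 := by
    rw [← Finset.add_sum_erase Finset.univ _ (Finset.mem_univ (1 : C))]
    have e1 : (if Odd (orderOf (1 : C)) then (1 : FF) else 0) = 1 := by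
      rw [orderOf_one, if_pos odd_one]
    rw [e1, add_eq_left]
    refine Finset.sum_involution (fun c _ => c⁻¹) ?_ ?_ ?_ ?_
    · intro c _
      simp only [hodd c]
      exact CharTwo.add_self_eq_zero _
    · intro c hc h0 h
      rw [Finset.mem_erase] at hc
      apply hc.1
      have ho : Odd (orderOf c) := by
        by_contra hno
        rw [if_neg hno] at h0
        exact h0 rfl
      have h2 : c ^ 2 = 1 := by
        rw [pow_two]
        nth_rewrite 1 [← h]
        exact inv_mul_cancel c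
      have h3 : orderOf c ∣ 2 := orderOf_dvd_of_pow_eq_one h2
      have h4 : orderOf c = 1 := by
        rcases (Nat.dvd_prime Nat.prime_two).mp h3 with h5 | h5
        · exact h5
        · rw [h5] at ho
          exact absurd ho (by decide)
      exact orderOf_eq_one_iff.mp h4
    · intro c hc
      rw [Finset.mem_erase] at hc ⊢
      exact ⟨fun h => hc.1 (inv_eq_one.mp h), Finset.mem_univ _⟩
    · intro c _
      exact inv_inv c
  have e : ∀ c : C, (ψ c : FF) * ((if Odd (orderOf c) then (ψ c : FF) else 0) +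
      (if Odd (orderOf c⁻¹) then (ψ c⁻¹ : FF) else 0)) =
      (if Odd (orderOf c) then (ψ c : FF) ^ 2 else 0) +
        (if Odd (orderOf c) then (1 : FF) else 0) := by
    intro c
    simp only [hodd c]
    split_ifs
    · have : (ψ c : FF) * (ψ c⁻¹ : FF) = 1 := by
        rw [← Units.val_mul, ← map_mul, mul_inv_cancel, map_one, Units.val_one]
      linear_combination this
    · ring
  rw [Finset.sum_congr rfl (fun c _ => e c), Finset.sum_add_distrib, s1, s2, zero_add]

end algebra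

section main

variable {O : Type} [CommRing O] [IsDomain O] [IsPrincipalIdealRing O] [FinQuot O] {N : O}

/-- the data attached to the classes -/
structure Dat (N : O) (χ : Ideal (RN N) → FF) where
  Γ : Type
  iG : Group Γ
  P : PG N Γ
  C : Type
  iC : CommGroup C
  fC : Fintype C
  cl : Ideal (RN N) → C
  ψ : C →* FFˣ
  hmul : ∀ I J, Cop N I → Cop N J → cl (I * J) = cl I * cl J
  heq : ∀ I J, Cop N I → Cop N J → (cl I = cl J ↔ Eqv I J)
  hcj : ∀ I, Cop N I → cl (cj I) = (cl I)⁻¹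
  hψ : ∀ I, Cop N I → ((ψ (cl I) : FFˣ) : FF) = χ I
  I : C → Ideal (RN N)
  hI : ∀ c, Cop N (I c)
  hcl : ∀ c, cl (I c) = c
  B : ∀ c, AB N (I c)

attribute [instance] Dat.iG Dat.iC Dat.fC

namespace Dat

variable {χ : Ideal (RN N) → FF} (D : Dat N χ)

/-- the value of `x` on the matrices of `α` depends only on the class -/
theorem xval (hN : Hyp N) {x : D.Γ → FF} (hx : IsX D.P x) (α : RN N) {J : Ideal (RN N)}
    (hJ : Cop N J) (BJ : AB N J) {c : D.C} (hc : D.cl J = c) {g g' : D.Γ}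
    (hg : D.P.R g (um BJ.W α)) (hg' : D.P.R g' (um (D.B c).W α)) : x g = x g' := by
  have h1 : Eqv J (D.I c) := (D.heq J (D.I c) hJ (D.hI c)).mp (by rw [hc, D.hcl])
  obtain ⟨γ, hγ⟩ := ab_eqv hN BJ (D.B c) h1
  exact x_conj hN D.P hx γ _ _ (um_conj hγ α) g g' hg hg'

theorem prime_cop {N : O} (π : GP N) : IsCoprime π.el (2 * N) :=
  (Prime.coprime_iff_not_dvd π.prime).mpr π.not_dvd

/-- the Hecke operators in terms of classes -/
theorem hecke (hN : Hyp N) (π : GP N) {x : D.Γ → FF} (hx : IsX D.P x) :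
    ∃ x' : D.Γ → FF, IsX D.P x' ∧ (∀ h, Res D.P x h → Res D.P x' (T N π.el π.ne h)) ∧
      ∀ (α : RN N) (G : D.C → D.Γ) (_ : ∀ c, D.P.R (G c) (um (D.B c).W α)) (c : D.C),
        (∀ t, π.el ∣ t ^ 2 + N →
          x' (G c) = x (G (D.cl (fid N π.el t) * c)) + x (G ((D.cl (fid N π.el t))⁻¹ * c))) ∧
        ((∀ t, ¬ π.el ∣ t ^ 2 + N) → x' (G c) = 0) := by
  obtain ⟨x', h1, h2, h3⟩ := hecke_ideal hN D.P π x hx
  refine ⟨x', h1, h2, fun α G hG c => ?_⟩
  obtain ⟨h4, h5⟩ := h3 (D.I c) (D.hI c) (D.B c) α (G c) (hG c)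
  refine ⟨fun t ht => ?_, h5⟩
  have hp : Cop N (fid N π.el t) := cop_fid (prime_cop π)
  have hp' : Cop N (fid N π.el (-t)) := cop_fid (prime_cop π)
  have hq : Cop N (fid N π.el t * D.I c) := cop_mul hp (D.hI c)
  have hq' : Cop N (fid N π.el (-t) * D.I c) := cop_mul hp' (D.hI c)
  obtain ⟨B1⟩ := ab_exists hN _ hq
  obtain ⟨B2⟩ := ab_exists hN _ hq'
  have c1 : D.cl (fid N π.el t * D.I c) = D.cl (fid N π.el t) * c := by
    rw [D.hmul _ _ hp (D.hI c), D.hcl]
  have c2 : D.cl (fid N π.el (-t) * D.I c) = (D.cl (fid N π.el t))⁻¹ * c := by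
    rw [D.hmul _ _ hp' (D.hI c), D.hcl, ← cj_fid, D.hcj _ hp]
  -- representatives
  obtain ⟨γ1, hγ1⟩ := ab_eqv hN B1 (D.B (D.cl (fid N π.el t) * c))
    ((D.heq _ _ hq (D.hI _)).mp (by rw [c1, D.hcl]))
  obtain ⟨γ2, hγ2⟩ := ab_eqv hN B2 (D.B ((D.cl (fid N π.el t))⁻¹ * c))
    ((D.heq _ _ hq' (D.hI _)).mp (by rw [c2, D.hcl]))
  obtain ⟨k1, hk1⟩ := D.P.surj γ1.val.val (Or.inl ⟨by
    rw [← Matrix.GeneralLinearGroup.val_det_apply]; exact Units.isUnit _, γ1.2⟩)
  obtain ⟨k2, hk2⟩ := D.P.surj γ2.val.val (Or.inl ⟨by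
    rw [← Matrix.GeneralLinearGroup.val_det_apply]; exact Units.isUnit _, γ2.2⟩)
  obtain ⟨k1', hk1'⟩ := D.P.surj (γ1⁻¹).val.val (Or.inl ⟨by
    rw [← Matrix.GeneralLinearGroup.val_det_apply]; exact Units.isUnit _, (γ1⁻¹).2⟩)
  obtain ⟨k2', hk2'⟩ := D.P.surj (γ2⁻¹).val.val (Or.inl ⟨by
    rw [← Matrix.GeneralLinearGroup.val_det_apply]; exact Units.isUnit _, (γ2⁻¹).2⟩)
  have r1 : D.P.R (k1 * G (D.cl (fid N π.el t) * c) * k1') (um B1.W α) := by
    have h := D.P.mul (D.P.mul hk1 (hG (D.cl (fid N π.el t) * c))) hk1'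
    have e : γ1.val.val * um (D.B (D.cl (fid N π.el t) * c)).W α * (γ1⁻¹).val.val =
        um B1.W α := by
      rw [← um_conj hγ1 α, mul_assoc]
      have : γ1.val.val * (γ1⁻¹).val.val = 1 := γ1.val.mul_inv
      rw [this, mul_one]
    rwa [e] at h
  have r2 : D.P.R (k2 * G ((D.cl (fid N π.el t))⁻¹ * c) * k2') (um B2.W α) := by
    have h := D.P.mul (D.P.mul hk2 (hG ((D.cl (fid N π.el t))⁻¹ * c))) hk2'
    have e : γ2.val.val * um (D.B ((D.cl (fid N π.el t))⁻¹ * c)).W α * (γ2⁻¹).val.val =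
        um B2.W α := by
      rw [← um_conj hγ2 α, mul_assoc]
      have : γ2.val.val * (γ2⁻¹).val.val = 1 := γ2.val.mul_inv
      rw [this, mul_one]
    rwa [e] at h
  rw [h4 t ht B1 B2 _ _ r1 r2, D.xval hN hx α hq B1 c1 r1 (hG _), D.xval hN hx α hq' B2 c2 r2 (hG _)]

open Classical in
/-- the eigenvalue -/
noncomputable def ap (π : GP N) : FF :=
  if h : ∃ t, π.el ∣ t ^ 2 + N then
    (D.ψ (D.cl (fid N π.el h.choose)) : FF) + (((D.ψ (D.cl (fid N π.el h.choose)))⁻¹ : FFˣ) : FF)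
  else 0

theorem ap_eq (π : GP N) (t : O) (ht : π.el ∣ t ^ 2 + N) :
    D.ap π = χ (fid N π.el t) + χ (fid N π.el (-t)) := by
  have hex : ∃ t, π.el ∣ t ^ 2 + N := ⟨t, ht⟩
  have hp : ∀ t, Cop N (fid N π.el t) := fun t => cop_fid (prime_cop π)
  have key : ∀ t, ((((D.ψ (D.cl (fid N π.el t)))⁻¹ : FFˣ) : FF)) = χ (fid N π.el (-t)) := by
    intro t
    rw [← map_inv, ← D.hcj _ (hp t), cj_fid, D.hψ _ (hp _)]
  unfold ap
  rw [dif_pos hex, key, D.hψ _ (hp _)]
  have h0 := hex.choose_spec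
  have h1 : π.el ∣ (hex.choose - t) * (hex.choose + t) := by
    have : (hex.choose - t) * (hex.choose + t) = (hex.choose ^ 2 + N) - (t ^ 2 + N) := by ring
    rw [this]
    exact dvd_sub h0 ht
  rcases π.prime.dvd_or_dvd h1 with h2 | h2
  · rw [fid_congr h2, fid_congr (b := -hex.choose) (b' := -t)]
    have : -hex.choose - -t = -(hex.choose - t) := by ring
    rw [this]
    exact h2.neg_right
  · rw [fid_congr (b := hex.choose) (b' := -t), fid_congr (b := -hex.choose) (b' := t), add_comm]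
    · have : -hex.choose - t = -(hex.choose + t) := by ring
      rw [this]
      exact h2.neg_right
    · have : hex.choose - -t = hex.choose + t := by ring
      rw [this]
      exact h2

theorem ap_zero (π : GP N) (h : ∀ t, ¬ π.el ∣ t ^ 2 + N) : D.ap π = 0 := by
  unfold ap
  rw [dif_neg]
  rintro ⟨t, ht⟩
  exact h t ht

/-- a functional with the equivariance property is an eigenfunctional -/
theorem eigen (hN : Hyp N) (α : RN N) (G : D.C → D.Γ) (hG : ∀ c, D.P.R (G c) (um (D.B c).W α))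
    (m : D.C → FF)
    (hm : ∀ d x, IsX D.P x →
      ∑ c, m (d⁻¹ * c) * x (G c) = (((D.ψ d)⁻¹ : FFˣ) : FF) * ∑ c, m c * x (G c))
    (π : GP N) (x : D.Γ → FF) (hx : IsX D.P x) :
    ∃ x', IsX D.P x' ∧ (∀ h, Res D.P x h → Res D.P x' (T N π.el π.ne h)) ∧
      Efun m G x' = D.ap π * Efun m G x := by
  obtain ⟨x', h1, h2, h3⟩ := D.hecke hN π hx
  refine ⟨x', h1, h2, ?_⟩
  rw [Efun_apply, Efun_apply]
  by_cases hex : ∃ t, π.el ∣ t ^ 2 + N
  · have h0 := hex.choose_spec
    unfold ap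
    rw [dif_pos hex]
    set p := D.cl (fid N π.el hex.choose) with hp
    have e1 : ∀ c, m c * x' (G c) = m c * x (G (p * c)) + m c * x (G (p⁻¹ * c)) := by
      intro c
      rw [((h3 α G hG c).1 _ h0)]
      ring
    rw [Finset.sum_congr rfl (fun c _ => e1 c), Finset.sum_add_distrib]
    have e2 : ∑ c, m c * x (G (p * c)) = ∑ c, m (p⁻¹ * c) * x (G c) := by
      rw [← Equiv.sum_comp (Equiv.mulLeft p) (fun c => m (p⁻¹ * c) * x (G c))]
      apply Finset.sum_congr rfl
      intro c _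
      change _ = m (p⁻¹ * (p * c)) * x (G (p * c))
      rw [inv_mul_cancel_left]
    have e3 : ∑ c, m c * x (G (p⁻¹ * c)) = ∑ c, m (p⁻¹⁻¹ * c) * x (G c) := by
      rw [← Equiv.sum_comp (Equiv.mulLeft p⁻¹) (fun c => m (p⁻¹⁻¹ * c) * x (G c))]
      apply Finset.sum_congr rfl
      intro c _
      change _ = m (p⁻¹⁻¹ * (p⁻¹ * c)) * x (G (p⁻¹ * c))
      rw [inv_mul_cancel_left]
    rw [e2, e3, hm p x hx, hm p⁻¹ x hx, map_inv, inv_inv]
    ring
  · push Not at hex
    rw [D.ap_zero π hex, zero_mul]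
    apply Finset.sum_eq_zero
    intro c _
    rw [(h3 α G hG c).2 hex, mul_zero]

end Dat

theorem mainU (σ : O →+* ℂ) (hσ : ImQ σ) (hD : Dir σ) (hN : Hyp N) (χ : Ideal (RN N) → FF)
    (hχ : RCC N χ) : ∃ Φ : Eigenform N, Att Φ χ := by
  classical
  obtain ⟨Γ, iG, iCt, P, ρ, hC, hP, hρ⟩ := grp_exists σ hσ N hN
  obtain ⟨s, hs⟩ := IsAlgClosed.exists_pow_nat_eq (σ (-N)) (n := 2) (by norm_num)
  obtain ⟨η, hη1, hη⟩ := units_struct σ hσ hD N hN s hs
  obtain ⟨C, iC, fC, cl, ψ, hmul, heq, hsurj, hcj, hψ⟩ := cls_grp hN (fin_cls σ hσ hD N hN) χ hχ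
  choose I hI hcl using hsurj
  let B : ∀ c, AB N (I c) := fun c => Classical.choice (ab_exists hN (I c) (hI c))
  let D : Dat N χ :=
    { Γ := Γ, iG := iG, P := P, C := C, iC := iC, fC := fC, cl := cl, ψ := ψ, hmul := hmul,
      heq := heq, hcj := hcj, hψ := hψ, I := I, hI := hI, hcl := hcl, B := B }
  have hw0 : ∀ c : C, ∃ g, P.R g (B c).W := fun c => P.surj _ (Or.inr (ab_TB hN (B c)))
  have he0 : ∀ c : C, ∃ g, P.R g (um (B c).W (η : RN N)) :=
    fun c => P.surj _ (Or.inl (um_TA hN (B c) η))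
  choose w hw using hw0
  choose e he using he0
  have hwo : ∀ c, D.P.R (w c) (um (D.B c).W (om N)) := fun c => by rw [um_om]; exact hw c
  have heo : ∀ c, D.P.R (e c) (um (D.B c).W (η : RN N)) := he
  have hψ1 : ψ ≠ 1 := by
    rintro rfl
    obtain ⟨J, hJ, hJ1⟩ := hχ.ne
    apply hJ1
    rw [← hψ J hJ]
    rfl
  obtain ⟨d0, hd0⟩ : ∃ d, ψ d ≠ 1 := by
    by_contra h
    push Not at h
    exact hψ1 (MonoidHom.ext h)
  -- reduction to the existence of a functional
  suffices main : ∃ (E : (Γ → FF) →ₗ[FF] FF),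
      (∀ x, IsX P x → (∀ g M, P.R g M → TA N M → x g = 0) → E x = 0) ∧
      (∃ x, IsX P x ∧ E x ≠ 0) ∧
      (∀ π x, IsX P x → ∃ x', IsX P x' ∧ (∀ h, Res P x h → Res P x' (T N π.el π.ne h)) ∧
        E x' = D.ap π * E x) by
    obtain ⟨E, h1, h2, h3⟩ := main
    obtain ⟨Φ, hΦ⟩ := descend hN P E h1 h2 D.ap h3
    refine ⟨Φ, fun π => ⟨fun t ht => ?_, fun h => ?_⟩⟩
    · rw [hΦ, D.ap_eq π t ht]
    · rw [hΦ, D.ap_zero π h]
  by_cases hcase : ∃ x, IsX P x ∧
      ∑ c, (if Odd (orderOf c) then (ψ c : FF) else 0) * x (w c) ≠ 0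
  · -- case 1: an eigenfunctional on the involutions
    let X : Submodule FF (Γ → FF) :=
      { carrier := {x | IsX P x}
        add_mem' := by
          rintro x y ⟨hx1, hx2⟩ ⟨hy1, hy2⟩
          refine ⟨fun g h => ?_, fun g M h1 h2 h3 => ?_⟩
          · change x (g * h) + y (g * h) = (x g + y g) + (x h + y h)
            rw [hx1, hy1]; ring
          · change x g + y g = 0
            rw [hx2 g M h1 h2 h3, hy2 g M h1 h2 h3, add_zero]
        zero_mem' := ⟨fun g h => (add_zero _).symm, fun g M _ _ _ => rfl⟩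
        smul_mem' := by
          rintro a x ⟨hx1, hx2⟩
          refine ⟨fun g h => ?_, fun g M h1 h2 h3 => ?_⟩
          · change a * x (g * h) = a * x g + a * x h
            rw [hx1]; ring
          · change a * x g = 0
            rw [hx2 g M h1 h2 h3, mul_zero] }
    let F : X →ₗ[FF] (C → FF) :=
      { toFun := fun x c => x.val (w c)
        map_add' := fun x y => rfl
        map_smul' := fun a x => rfl }
    obtain ⟨x0, hx0, hx0'⟩ := hcase
    obtain ⟨m, ⟨x1, hx1⟩, hm⟩ := eiga F ψ ⟨⟨x0, hx0⟩, hx0'⟩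
    have hm' : ∀ d x, IsX D.P x →
        ∑ c, m (d⁻¹ * c) * x (w c) = (((D.ψ d)⁻¹ : FFˣ) : FF) * ∑ c, m c * x (w c) :=
      fun d x hx => hm d ⟨x, hx⟩
    refine ⟨Efun m w, ?_, ⟨x1.val, x1.2, ?_⟩, fun π x hx => ?_⟩
    · intro x hx h0
      have hconst : ∀ c, x (w c) = x (w 1) := by
        intro c
        have h1 := P.mul (hw c) (hw 1)
        obtain ⟨⟨u1, hu1⟩, ⟨a1, ha1⟩, ⟨b1, hb1⟩, ⟨c1, hc1⟩⟩ := ab_TB hN (B c)
        obtain ⟨⟨u2, hu2⟩, ⟨a2, ha2⟩, ⟨b2, hb2⟩, ⟨c2, hc2⟩⟩ := ab_TB hN (B 1)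
        have hN0 : N ≠ 0 := by
          rintro h
          apply hN.nsq 0
          rw [h]; simp
        have e1 : (B c).W * (B 1).W = N • !![N * a1 * a2 + (B c).W 0 1 * b2,
            a1 * (B 1).W 0 1 + (B c).W 0 1 * c2; N * (b1 * a2 + c1 * b2),
            b1 * (B 1).W 0 1 + N * c1 * c2] := by
          ext i j
          fin_cases i <;> fin_cases j <;>
            simp only [Matrix.mul_apply, Fin.sum_univ_two, Matrix.smul_apply, Matrix.of_apply,
              Matrix.cons_val', Matrix.cons_val_zero, Matrix.cons_val_one, Matrix.cons_val_fin_one,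
              smul_eq_mul, Fin.zero_eta, Fin.mk_one, Fin.isValue]
          · rw [ha1, ha2, hb2]; ring
          · rw [ha1, hc2]; ring
          · rw [hb1, ha2, hc1, hb2]; ring
          · rw [hb1, hc1, hc2]; ring
        rw [e1, P.smul hN0] at h1
        have e2 : TA N !![N * a1 * a2 + (B c).W 0 1 * b2,
            a1 * (B 1).W 0 1 + (B c).W 0 1 * c2; N * (b1 * a2 + c1 * b2),
            b1 * (B 1).W 0 1 + N * c1 * c2] := by
          refine ⟨?_, Dvd.intro _ rfl⟩
          have e3 := congrArg Matrix.det e1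
          rw [Matrix.det_mul, Matrix.det_smul, Fintype.card_fin, ab_det hN, ab_det hN] at e3
          have e4 : Matrix.det !![N * a1 * a2 + (B c).W 0 1 * b2,
            a1 * (B 1).W 0 1 + (B c).W 0 1 * c2; N * (b1 * a2 + c1 * b2),
            b1 * (B 1).W 0 1 + N * c1 * c2] = 1 := by
            apply mul_left_cancel₀ (pow_ne_zero 2 hN0)
            rw [← e3]; ring
          rw [e4]; exact isUnit_one
        have h2 := h0 _ _ h1 e2
        rw [hx.mul] at h2
        linear_combination h2 - x (w 1) * two_FF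
      rw [Efun_apply]
      have h1 := hm' d0 x hx
      have e1 : ∀ f : C → FF, ∑ c, f c * x (w c) = (∑ c, f c) * x (w 1) := by
        intro f
        rw [Finset.sum_mul]
        exact Finset.sum_congr rfl fun c _ => by rw [hconst c]
      rw [e1, e1] at h1
      have e2 : ∑ c, m (d0⁻¹ * c) = ∑ c, m c :=
        Equiv.sum_comp (Equiv.mulLeft d0⁻¹) m
      rw [e2] at h1
      rw [e1]
      have h3 : (1 - (((ψ d0)⁻¹ : FFˣ) : FF)) * ((∑ c, m c) * x (w 1)) = 0 := by
        change _ = (((ψ d0)⁻¹ : FFˣ) : FF) * _ at h1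
        linear_combination h1
      rcases mul_eq_zero.mp h3 with h4 | h4
      · exfalso
        apply hd0
        have h5 : (((ψ d0)⁻¹ : FFˣ) : FF) = 1 := (sub_eq_zero.mp h4).symm
        have h6 : (ψ d0)⁻¹ = 1 := Units.ext h5
        exact inv_eq_one.mp h6
      · exact h4
    · rw [Efun_apply]
      exact hx1
    · exact D.eigen hN (om N) w hwo m hm' π x hx
  · -- case 2: the sum over the involutions is a boundary
    push Not at hcase
    set m0 : C → FF := fun c => if Odd (orderOf c) then (ψ c : FF) else 0 with hm0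
    set Tor : Set Γ := {g | ∃ M, P.R g M ∧ TA N M ∧ M 0 0 + M 1 1 = 0} with hTor
    set Inv : Set Γ := {g | ∃ M, P.R g M ∧ M 0 0 + M 1 1 = 0} with hInv
    have hspan : (∑ c, m0 c • (Finsupp.single (w c) 1 - Finsupp.single 1 1) : Γ →₀ FF) ∈
        Submodule.span FF (Set.range (fun x : Γ × Γ => rel1 FF x.1 x.2) ∪
          Set.range (fun g : Tor => Finsupp.single g.val 1 - Finsupp.single 1 1)) := by
      by_contra hn
      obtain ⟨φ, hφ1, hφ2⟩ := Submodule.exists_le_ker_of_notMem hn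
      have hx : IsX P (fun g => φ (Finsupp.single g 1) - φ (Finsupp.single 1 1)) := by
        refine ⟨fun g h => ?_, fun g M h1 h2 h3 => ?_⟩
        · have h4 : φ (rel1 FF g h) = 0 :=
            hφ2 (Submodule.subset_span (Or.inl ⟨(g, h), rfl⟩))
          unfold rel1 at h4
          simp only [map_sub] at h4
          linear_combination h4
        · have h4 : φ (Finsupp.single g 1 - Finsupp.single 1 1) = 0 :=
            hφ2 (Submodule.subset_span (Or.inr ⟨⟨g, M, h1, h2, h3⟩, rfl⟩))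
          rw [map_sub] at h4
          exact h4
      apply hφ1
      have h5 := hcase _ hx
      rw [map_sum]
      rw [← h5]
      apply Finset.sum_congr rfl
      intro c _
      rw [map_smul, map_sub, smul_eq_mul]
    rw [Submodule.span_union, Submodule.mem_sup] at hspan
    obtain ⟨r, hr, t, ht, hrt⟩ := hspan
    rw [Finsupp.mem_span_range_iff_exists_finsupp] at ht
    obtain ⟨a, ha⟩ := ht
    -- the data of the family of axes
    have hAx : ∀ c : C, ∃ A : V ≃ₗ[ℝ] V, (∀ v, InC (A v) ↔ InC v) ∧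
        (∀ v, A (ρ (w c) v) = JJ (A v)) ∧
        ∀ (α : (RN N)ˣ) (g : Γ), P.R g (um (B c).W (α : RN N)) → ∀ v,
          A (ρ g v) 0 = Complex.normSq (e1 σ s (α : RN N)) * A v 0 ∧
          A (ρ g v) 1 = (Complex.normSq (e1 σ s (α : RN N)))⁻¹ * A v 1 :=
      fun c => axis_A σ hσ P ρ hρ s hs (w c) (B c).W (hw c) (ab_tr hN (B c)) (ab_det hN (B c))
    choose A hA1 hA2 hA3 using hAx
    have hΔ : ∀ b c : C, _ := fun b c => cen_delta hN P η hη (hI c) (hI b) (B c) (B b) (w c) (w b)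
      (e b) (hw c) (hw b) (he b)
    choose Δ hΔ1 hΔ2 hΔ3 hΔ4 using hΔ
    have hInvw : ∀ c, w c ∈ Inv := fun c => ⟨_, hw c, ab_tr hN (B c)⟩
    obtain ⟨b0, hb1, hb2, hb3⟩ := axisU (k := FF) ρ hC hP Inv
      (by
        rintro g ⟨M, hM, hM0⟩
        exact ⟨inv_sq P g M hM hM0, inv_A σ hσ P ρ hρ g M hM hM0⟩)
      w e hInvw (fun c => cen_comm hN P (B c) (w c) (e c) _ (hw c) (he c))
      A hA1 hA2 (fun _ => Complex.normSq (e1 σ s (η : RN N))) (fun _ => hη1)
      (fun c v => hA3 c η (e c) (he c) v)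
      (κ := C ⊕ Tor) (Finset.univ.disjSum a.support) (Sum.elim w (fun g => g.val))
      (by
        rintro (c | ⟨g, M, h1, h2, h3⟩)
        · exact hInvw c
        · exact ⟨M, h1, h3⟩)
      (fun b j => Sum.elim (fun c => Δ b c) (fun _ => ∅) j)
      (by
        rintro b (c | g) δ hδ
        · exact hΔ1 b c δ hδ
        · exact absurd hδ (Finset.notMem_empty δ))
      (by
        rintro b (c | ⟨g, M, h1, h2, h3⟩) δ hδ
        · exact hΔ2 b c δ hδ
        · exact absurd hδ (cen_tor hN P g (w b) δ M (B b).W h1 h2 (hw b) (ab_TB hN (B b))))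
      (by
        rintro b (c | g) δ hδ
        · exact hΔ3 b c δ hδ
        · exact absurd hδ (Finset.notMem_empty δ))
      (Sum.elim m0 (fun g => -a g))
      (by
        rw [Finset.sum_disjSum]
        simp only [Sum.elim_inl, Sum.elim_inr]
        have h1 : ∑ g ∈ a.support, (-a g) • (Finsupp.single g.val 1 - Finsupp.single 1 1 :
            Γ →₀ FF) = -t := by
          rw [← ha, Finsupp.sum, ← Finset.sum_neg_distrib]
          exact Finset.sum_congr rfl fun g _ => by rw [neg_smul]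
        rw [h1, ← hrt]
        have h2 : r + t + -t = r := by abel
        rw [h2]
        exact hr)
    have hb4 : ∀ c, b0 (e c) = m0 c + m0 c⁻¹ := by
      intro c
      rw [hb3 c, Finset.sum_disjSum]
      simp only [Sum.elim_inl, Sum.elim_inr, Finset.card_empty, Nat.cast_zero, mul_zero,
        Finset.sum_const_zero, add_zero]
      have hcard : ∀ d, ((Δ c d).card : FF) = (if d = c then 1 else 0) +
          (if d = c⁻¹ then 1 else 0) := by
        intro d
        have k1 : Eqv (I d) (I c) ↔ d = c := by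
          rw [← heq _ _ (hI d) (hI c), hcl, hcl]
        have k2 : Eqv (cj (I d)) (I c) ↔ d = c⁻¹ := by
          rw [← heq _ _ (cop_cj (hI d)) (hI c), hcj _ (hI d), hcl, hcl, inv_eq_iff_eq_inv]
        rw [hΔ4 c d (if d = c then 1 else 0) (if d = c⁻¹ then 1 else 0) (by
            rw [k1]
            by_cases h : d = c
            · exact Or.inl ⟨h, if_pos h⟩
            · exact Or.inr ⟨h, if_neg h⟩) (by
            rw [k2]
            by_cases h : d = c⁻¹
            · exact Or.inl ⟨h, if_pos h⟩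
            · exact Or.inr ⟨h, if_neg h⟩)]
        push_cast
        rfl
      simp only [hcard, mul_add, Finset.sum_add_distrib, mul_ite, mul_one, mul_zero,
        Finset.sum_ite_eq', Finset.mem_univ, if_true]
    have hbX : IsX P b0 := ⟨hb1, fun g M h1 _ h3 => hb2 g ⟨M, h1, h3⟩⟩
    have hm' : ∀ d x, IsX D.P x → ∑ c, (ψ (d⁻¹ * c) : FF) * x (e c) =
        (((D.ψ d)⁻¹ : FFˣ) : FF) * ∑ c, (ψ c : FF) * x (e c) := by
      intro d x _
      rw [Finset.mul_sum]
      apply Finset.sum_congr rfl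
      intro c _
      change _ = (((ψ d)⁻¹ : FFˣ) : FF) * _
      rw [map_mul, map_inv, Units.val_mul]
      ring
    refine ⟨Efun (fun c => (ψ c : FF)) e, ?_, ⟨b0, hbX, ?_⟩, fun π x hx => ?_⟩
    · intro x _ h0
      rw [Efun_apply]
      apply Finset.sum_eq_zero
      intro c _
      rw [h0 _ _ (he c) (um_TA hN (B c) η), mul_zero]
    · rw [Efun_apply]
      have e1 : ∀ c, (ψ c : FF) * b0 (e c) = (ψ c : FF) *
          ((if Odd (orderOf c) then (ψ c : FF) else 0) +
            (if Odd (orderOf c⁻¹) then (ψ c⁻¹ : FF) else 0)) := by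
        intro c
        rw [hb4 c]
      rw [Finset.sum_congr rfl (fun c _ => e1 c), odd_sum ψ hψ1]
      exact one_ne_zero
    · exact D.eigen hN (η : RN N) e heo (fun c => (ψ c : FF)) hm' π x hx

end main

/-- **Main theorem.** -/
theorem finalU (n : ℕ) (hn : n ∈ ({0, 1, 2, 4, 10, 16, 40} : Finset ℕ)) (N : OK n)
    (hN2 : IsCoprime N 2) (hns : ∀ t : OK n, t ^ 2 ≠ -N) (χ : Ideal (RN N) → FF)
    (h : RCC N χ) : ∃ Φ : Eigenform N, Att Φ χ := by
  have hpid : IsPrincipalIdealRing (OK n) := pidm n hn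
  by_cases hu : IsUnit N
  · exact (no_char_unit n hn N hu hns χ h).elim
  · have h20 : (2 : OK n) ≠ 0 := by
      intro h0
      have h1 := congrArg QuadraticAlgebra.re h0
      rw [two_eq, QuadraticAlgebra.algebraMap_re] at h1
      exact two_ne_zero (α := ℤ) h1
    exact mainU (sig n) (sig_imQ n) (dir_sig n)
      ⟨two_not_unit n, h20, two_sq n, hN2, hns, hu⟩ χ h

end SerreU
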